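import Mathlib

/-!
Module LHC-Bochner: the abstract local-to-global lemma.

Write `p t = B η (e t) > 0`, `M s t = B (e s) (e t)`, `x t = B a (e t)`.
From `hη` applied to `a = e t`: `∑ s, c s * M t s = B (e t) η = p t`.
On `ι → ℝ` use the inner product `⟨u,v⟩ = ∑ t, u t * v t * p t / c t` and the operator
`(A u) t = (c t / p t) * ∑ s, M t s * u s`, which is symmetric, and `A c = c`.
(1) Perron-Frobenius: `⟨u,u⟩ - ⟨u, A u⟩ = 1/2 ∑_(s ≠ t) M s t c s c t (u s / c s - u t / c t)^2 ≥ 0`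
    (because `p t / c t = (∑_s c s M t s)/c t`), with equality only if `u s / c s = u t / c t`
    whenever `M s t > 0`, `s ≠ t`; by `hconn` then `u` is a multiple of `c`.
(2) `star` for `a = ∑ t, u t • e t` says `⟨u, A u⟩ ≤ ⟨A u, A u⟩`.
Diagonalise `A` (for example pass to coordinates `w t = u t * sqrt (p t / c t)`, so that `A` becomes
the symmetric real matrix `M s t * sqrt (c s / p s) * sqrt (c t / p t)`, and use
`Matrix.IsHermitian.spectral_theorem` or the eigenvector basis of a symmetric operator):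
eigenvalues `μ` satisfy `μ ≤ 1` by (1) and `μ ≤ μ^2` by (2), so `μ ≤ 0` or `μ = 1`, and the
eigenvectors for `1` are multiples of `c`.
General `a`.  Replacing `a` by `a - r • η'`, `η' = ∑ c t • e t` (note `B a η' = B a η`,
`B η' η' = B η η = ∑ c t p t`), one may suppose `B a η = 0`, and must show `B a a ≤ 0`
(if `ι` is empty then `B b η = 0` for all `b` and `star` gives `B a a ≤ 0`; otherwise `B η η > 0`).
Let `xh t = (c t / p t) x t`.  `star` for `a - ∑ u t • e t` says, for every `u`,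
`B a a ≤ ⟨xh - A u, xh - A u⟩ + 2 ⟨xh, u⟩ - ⟨u, A u⟩`.
In an orthonormal eigenbasis with coordinates `xh_i`, `u_i`: the right side is
`∑ (xh_i - μ_i u_i)^2 + 2 xh_i u_i - μ_i u_i^2`.  For `μ_i = 0` the term is `xh_i^2 + 2 xh_i u_i`, so
`xh_i = 0` (otherwise the right side is unbounded below); for `μ_i ≠ 0` choose `u_i = xh_i/μ_i`,
the term becomes `xh_i^2/μ_i`.  For `μ_i = 1` the eigenvector is proportional to `c` and
`⟨xh, c⟩ = ∑ c t x t = B a η = 0`, so `xh_i = 0`; the other `μ_i` are negative.  So `B a a ≤ 0`.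
-/

open Finset
open scoped Matrix

namespace Pool.Agent.LHC

private theorem bochner_eig {ι : Type*} [Fintype ι] [DecidableEq ι] (S : Matrix ι ι ℝ)
    (hS : ∀ s t, S s t = S t s) :
    ∃ (b : ι → ι → ℝ) (μ : ι → ℝ),
      (∀ i, S *ᵥ b i = μ i • b i) ∧
      (∀ u : ι → ℝ, u = ∑ i, (b i ⬝ᵥ u) • b i) ∧
      (∀ i j, b i ⬝ᵥ b j = if i = j then 1 else 0) := by
  have hH : S.IsHermitian := by
    ext s t
    simp [Matrix.conjTranspose_apply, hS t s]
  refine ⟨fun i => (hH.eigenvectorBasis i).ofLp, hH.eigenvalues, fun i => ?_, fun u => ?_, fun i j => ?_⟩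
  · have := hH.mulVec_eigenvectorBasis i
    simpa using this
  · have h := hH.eigenvectorBasis.sum_repr' (WithLp.toLp 2 u)
    have h2 := congrArg WithLp.ofLp h
    simp only [WithLp.ofLp_sum, WithLp.ofLp_smul] at h2
    refine h2.symm.trans (sum_congr rfl (fun i _ => ?_))
    congr 1
    rw [EuclideanSpace.inner_eq_star_dotProduct, dotProduct_comm]
    simp
  · have h := (orthonormal_iff_ite.mp hH.eigenvectorBasis.orthonormal) i j
    rw [EuclideanSpace.inner_eq_star_dotProduct] at h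
    rw [dotProduct_comm]
    simpa using h

private theorem bochner_pf {ι : Type*} [Fintype ι] [DecidableEq ι] (S : Matrix ι ι ℝ)
    (hS : ∀ s t, S s t = S t s) (v : ι → ℝ) (hv : ∀ t, 0 < v t) (hSv : S *ᵥ v = v) (w : ι → ℝ) :
    w ⬝ᵥ w - w ⬝ᵥ (S *ᵥ w) =
      (1 / 2) * ∑ s, ∑ t, S s t * v s * v t * (w s / v s - w t / v t) ^ 2 := by
  have key : ∀ s, ∑ t, S s t * v t = v s := fun s => by
    have := congrFun hSv s
    simpa [Matrix.mulVec, dotProduct] using this
  have h1 : ∑ s, ∑ t, S s t * v s * v t * (w s / v s) ^ 2 = w ⬝ᵥ w := by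
    unfold dotProduct
    refine sum_congr rfl (fun s _ => ?_)
    have : ∑ t, S s t * v s * v t * (w s / v s) ^ 2 = (v s * (w s / v s) ^ 2) * ∑ t, S s t * v t := by
      rw [mul_sum]; exact sum_congr rfl (fun t _ => by ring)
    rw [this, key]
    have := (hv s).ne'
    field_simp
  have h2 : ∑ s, ∑ t, S s t * v s * v t * (w t / v t) ^ 2 = w ⬝ᵥ w := by
    rw [← h1, sum_comm]
    refine sum_congr rfl (fun s _ => sum_congr rfl (fun t _ => ?_))
    rw [hS t s]; ring
  have h3 : ∑ s, ∑ t, S s t * v s * v t * ((w s / v s) * (w t / v t)) = w ⬝ᵥ (S *ᵥ w) := by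
    simp only [dotProduct, Matrix.mulVec, mul_sum]
    refine sum_congr rfl (fun s _ => sum_congr rfl (fun t _ => ?_))
    have := (hv s).ne'
    have := (hv t).ne'
    field_simp
  have h4 : ∑ s, ∑ t, S s t * v s * v t * (w s / v s - w t / v t) ^ 2
      = ∑ s, ∑ t, S s t * v s * v t * (w s / v s) ^ 2 + ∑ s, ∑ t, S s t * v s * v t * (w t / v t) ^ 2
        - 2 * ∑ s, ∑ t, S s t * v s * v t * ((w s / v s) * (w t / v t)) := by
    rw [mul_sum, ← sum_add_distrib, ← sum_sub_distrib]
    refine sum_congr rfl (fun s _ => ?_)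
    rw [mul_sum, ← sum_add_distrib, ← sum_sub_distrib]
    exact sum_congr rfl (fun t _ => by ring)
  rw [h4, h1, h2, h3]; ring

private theorem bochner_core {ι : Type*} [Fintype ι] [DecidableEq ι] (S : Matrix ι ι ℝ)
    (hS : ∀ s t, S s t = S t s) (v : ι → ℝ) (hv : ∀ t, 0 < v t) (hSv : S *ᵥ v = v)
    (hnn : ∀ s t, s ≠ t → 0 ≤ S s t)
    (hconn : ∀ s t, Relation.ReflTransGen (fun x y => 0 < S x y) s t)
    (h2 : ∀ w : ι → ℝ, w ⬝ᵥ (S *ᵥ w) ≤ (S *ᵥ w) ⬝ᵥ (S *ᵥ w))
    (b : ι → ι → ℝ) (μ : ι → ℝ) (hb : ∀ i, S *ᵥ b i = μ i • b i)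
    (hu : ∀ u : ι → ℝ, u = ∑ i, (b i ⬝ᵥ u) • b i)
    (ho : ∀ i j, b i ⬝ᵥ b j = if i = j then 1 else 0) :
    ∀ u : ι → ℝ, u ⬝ᵥ v = 0 → u ⬝ᵥ (S *ᵥ u) ≤ 0 := by
  have hbb : ∀ i, b i ⬝ᵥ b i = 1 := fun i => by rw [ho]; simp
  -- mu i ≤ 0 or b i proportional to v
  have hterm : ∀ s t (w : ι → ℝ), 0 ≤ S s t * v s * v t * (w s / v s - w t / v t) ^ 2 := by
    intro s t w
    rcases eq_or_ne s t with h | h
    · subst h; simp
    · have := hnn s t h
      have := hv s
      have := hv t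
      positivity
  have hcase : ∀ i, μ i ≤ 0 ∨ ∃ r : ℝ, b i = r • v := by
    intro i
    by_cases hi : μ i ≤ 0
    · exact Or.inl hi
    right
    have hpos : 0 < μ i := lt_of_not_ge hi
    have hsq : μ i ≤ μ i ^ 2 := by
      have := h2 (b i)
      rw [hb i, dotProduct_smul, smul_dotProduct, dotProduct_smul, hbb i] at this
      simp only [smul_eq_mul, mul_one] at this
      nlinarith
    have hge : 1 ≤ μ i := by nlinarith
    have hpf := bochner_pf S hS v hv hSv (b i)
    rw [hb i, dotProduct_smul, hbb i] at hpf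
    simp only [smul_eq_mul, mul_one] at hpf
    have hsum0 : ∑ s, ∑ t, S s t * v s * v t * (b i s / v s - b i t / v t) ^ 2 = 0 := by
      have h0 : 0 ≤ ∑ s, ∑ t, S s t * v s * v t * (b i s / v s - b i t / v t) ^ 2 :=
        sum_nonneg (fun s _ => sum_nonneg (fun t _ => hterm s t (b i)))
      linarith
    have hall : ∀ s t, S s t * v s * v t * (b i s / v s - b i t / v t) ^ 2 = 0 := by
      intro s t
      have h1 := (sum_eq_zero_iff_of_nonneg
        (fun s _ => sum_nonneg (fun t _ => hterm s t (b i)))).mp hsum0 s (mem_univ s)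
      exact (sum_eq_zero_iff_of_nonneg (fun t _ => hterm s t (b i))).mp h1 t (mem_univ t)
    have hedge : ∀ s t, 0 < S s t → b i s / v s = b i t / v t := by
      intro s t hst
      have h := hall s t
      have h3 : 0 < S s t * v s * v t := mul_pos (mul_pos hst (hv s)) (hv t)
      have h4 : (b i s / v s - b i t / v t) ^ 2 = 0 := by
        rcases mul_eq_zero.mp h with h5 | h5
        · exact absurd h5 h3.ne'
        · exact h5
      have h5 := pow_eq_zero_iff (two_ne_zero) |>.mp h4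
      linarith
    have hconst : ∀ s t, b i s / v s = b i t / v t := by
      intro s t
      induction hconn s t with
      | refl => rfl
      | tail _ h ih => exact ih.trans (hedge _ _ h)
    refine ⟨b i i / v i, ?_⟩
    ext t
    rw [Pi.smul_apply, smul_eq_mul, hconst i t]
    have := (hv t).ne'
    field_simp
  intro u huv
  have hexp : u ⬝ᵥ (S *ᵥ u) = ∑ i, μ i * (b i ⬝ᵥ u) ^ 2 := by
    have h1 : S *ᵥ u = ∑ i, (b i ⬝ᵥ u) • (μ i • b i) := by
      conv_lhs => rw [hu u]
      rw [Matrix.mulVec_sum]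
      exact sum_congr rfl (fun i _ => by rw [Matrix.mulVec_smul, hb i])
    rw [h1, dotProduct_sum]
    refine sum_congr rfl (fun i _ => ?_)
    rw [dotProduct_smul, dotProduct_smul, dotProduct_comm u (b i)]
    simp only [smul_eq_mul]; ring
  rw [hexp]
  refine sum_nonpos (fun i _ => ?_)
  rcases hcase i with h | ⟨r, hr⟩
  · exact mul_nonpos_of_nonpos_of_nonneg h (sq_nonneg _)
  · rw [hr, smul_dotProduct, dotProduct_comm v u, huv]; simp

private theorem bochner_range {ι : Type*} [Fintype ι] [DecidableEq ι] (S : Matrix ι ι ℝ)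
    (b : ι → ι → ℝ) (μ : ι → ℝ) (hb : ∀ i, S *ᵥ b i = μ i • b i)
    (hu : ∀ u : ι → ℝ, u = ∑ i, (b i ⬝ᵥ u) • b i)
    (X : ι → ℝ) (K : ℝ)
    (hX : ∀ u : ι → ℝ, K ≤ (X - S *ᵥ u) ⬝ᵥ (X - S *ᵥ u) + 2 * (X ⬝ᵥ u) - u ⬝ᵥ (S *ᵥ u)) :
    ∃ u, S *ᵥ u = X := by
  have h0 : ∀ i, μ i = 0 → b i ⬝ᵥ X = 0 := by
    intro i hi
    by_contra hne
    have hS0 : S *ᵥ b i = 0 := by rw [hb i, hi, zero_smul]
    have h := hX (((K - X ⬝ᵥ X - 1) / (2 * (b i ⬝ᵥ X))) • b i)
    rw [Matrix.mulVec_smul, hS0, smul_zero, sub_zero, dotProduct_zero, dotProduct_smul,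
      dotProduct_comm X (b i), smul_eq_mul] at h
    have : 2 * ((K - X ⬝ᵥ X - 1) / (2 * (b i ⬝ᵥ X)) * (b i ⬝ᵥ X)) = K - X ⬝ᵥ X - 1 := by
      field_simp
    rw [this] at h
    linarith
  refine ⟨∑ i, ((b i ⬝ᵥ X) / μ i) • b i, ?_⟩
  rw [Matrix.mulVec_sum]
  conv_rhs => rw [hu X]
  refine sum_congr rfl (fun i _ => ?_)
  rw [Matrix.mulVec_smul, hb i, smul_smul]
  by_cases hi : μ i = 0
  · rw [h0 i hi]; simp
  · rw [div_mul_cancel₀ _ hi]

theorem bochner {V : Type*} [AddCommGroup V] [Module ℝ V] (B : V → V → ℝ)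
    (hadd : ∀ a b c, B (a + b) c = B a c + B b c) (hsmul : ∀ (r : ℝ) a b, B (r • a) b = r * B a b)
    (hsymm : ∀ a b, B a b = B b a)
    {ι : Type*} [Fintype ι] [DecidableEq ι] (c : ι → ℝ) (hc : ∀ t, 0 < c t) (e : ι → V) (η : V)
    (hη : ∀ a, B a η = ∑ t, c t * B a (e t))
    (hp : ∀ t, 0 < B η (e t))
    (star : ∀ a, B a a ≤ ∑ t, c t * B a (e t) ^ 2 / B η (e t))
    (hnn : ∀ s t, s ≠ t → 0 ≤ B (e s) (e t))
    (hconn : ∀ s t, Relation.ReflTransGen (fun x y => 0 < B (e x) (e y)) s t) :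
    ∀ a, B a a * B η η ≤ B a η ^ 2 := by
  -- linear algebra of B
  have hsum : ∀ (f : ι → ℝ) (d : V), B (∑ t, f t • e t) d = ∑ t, f t * B (e t) d := by
    intro f d
    let L : V →ₗ[ℝ] ℝ := { toFun := fun a => B a d, map_add' := fun a b => hadd a b d,
                            map_smul' := fun r a => by simp [hsmul] }
    have : L (∑ t, f t • e t) = ∑ t, f t * L (e t) := by
      rw [map_sum]; exact sum_congr rfl (fun t _ => by rw [map_smul, smul_eq_mul])
    exact this
  have hsub : ∀ a b d, B (a - b) d = B a d - B b d := by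
    intro a b d
    have h1 := hadd (a - b) b d
    rw [sub_add_cancel] at h1
    linarith
  have hsub' : ∀ a b d, B d (a - b) = B d a - B d b := by
    intro a b d
    rw [hsymm d (a - b), hsub, hsymm a d, hsymm b d]
  -- weights
  set q : ι → ℝ := fun t => Real.sqrt (c t / B η (e t)) with hq
  have hqpos : ∀ t, 0 < q t := fun t => Real.sqrt_pos.mpr (div_pos (hc t) (hp t))
  have hq2 : ∀ t, q t ^ 2 = c t / B η (e t) := fun t => Real.sq_sqrt (div_pos (hc t) (hp t)).le
  let S : Matrix ι ι ℝ := fun s t => q s * B (e s) (e t) * q t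
  have hSdef : ∀ s t, S s t = q s * B (e s) (e t) * q t := fun _ _ => rfl
  have hSsymm : ∀ s t, S s t = S t s := by
    intro s t
    rw [hSdef, hSdef, hsymm (e s) (e t)]; ring
  let v : ι → ℝ := fun t => c t / q t
  have hvdef : ∀ t, v t = c t / q t := fun _ => rfl
  have hv : ∀ t, 0 < v t := fun t => div_pos (hc t) (hqpos t)
  have hSv : S *ᵥ v = v := by
    ext s
    have h1 : (S *ᵥ v) s = q s * ∑ t, c t * B (e s) (e t) := by
      simp only [Matrix.mulVec, dotProduct, mul_sum]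
      refine sum_congr rfl (fun t _ => ?_)
      rw [hSdef, hvdef]
      have := (hqpos t).ne'
      field_simp
    rw [h1, ← hη, hsymm (e s) η, hvdef]
    have h2 : c s = q s ^ 2 * B η (e s) := by
      rw [hq2, div_mul_cancel₀ _ (hp s).ne']
    have := (hqpos s).ne'
    rw [eq_div_iff this]
    nlinarith [h2]
  have hSnn : ∀ s t, s ≠ t → 0 ≤ S s t := fun s t h => by
    rw [hSdef]; exact mul_nonneg (mul_nonneg (hqpos s).le (hnn s t h)) (hqpos t).le
  have hSpos : ∀ s t, 0 < B (e s) (e t) → 0 < S s t := fun s t h => by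
    rw [hSdef]; exact mul_pos (mul_pos (hqpos s) h) (hqpos t)
  have hSconn : ∀ s t, Relation.ReflTransGen (fun x y => 0 < S x y) s t :=
    fun s t => Relation.ReflTransGen.mono (fun x y h => hSpos x y h) _ _ (hconn s t)
  -- star in coordinates
  have hstar : ∀ (a : V) (u : ι → ℝ), B a a ≤
      ((fun t => q t * B a (e t)) - S *ᵥ u) ⬝ᵥ ((fun t => q t * B a (e t)) - S *ᵥ u)
        + 2 * ((fun t => q t * B a (e t)) ⬝ᵥ u) - u ⬝ᵥ (S *ᵥ u) := by
    intro a u
    set y : V := ∑ t, (q t * u t) • e t with hy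
    have hye : ∀ t, B y (e t) = ∑ s, q s * u s * B (e s) (e t) := fun t => by rw [hy, hsum]
    have hqy : ∀ t, q t * B y (e t) = (S *ᵥ u) t := by
      intro t
      rw [hye]
      simp only [Matrix.mulVec, dotProduct, mul_sum]
      refine sum_congr rfl (fun s _ => ?_)
      rw [hSdef, hsymm (e t) (e s)]; ring
    have hya : B y a = (fun t => q t * B a (e t)) ⬝ᵥ u := by
      rw [hy, hsum]
      simp only [dotProduct]
      refine sum_congr rfl (fun s _ => ?_)
      rw [hsymm (e s) a]; ring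
    have hyy : B y y = u ⬝ᵥ (S *ᵥ u) := by
      conv_lhs => rw [hy]
      rw [hsum]
      simp only [dotProduct]
      refine sum_congr rfl (fun s _ => ?_)
      rw [← hqy s, ← hy, hsymm (e s) y]; ring
    have h := star (a - y)
    have hl : B (a - y) (a - y) = B a a - 2 * B y a + B y y := by
      rw [hsub, hsub', hsub', hsymm a y]; ring
    have hr : ∑ t, c t * B (a - y) (e t) ^ 2 / B η (e t) =
        ((fun t => q t * B a (e t)) - S *ᵥ u) ⬝ᵥ ((fun t => q t * B a (e t)) - S *ᵥ u) := by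
      simp only [dotProduct, Pi.sub_apply]
      refine sum_congr rfl (fun t _ => ?_)
      rw [← hqy t, hsub]
      have : c t * (B a (e t) - B y (e t)) ^ 2 / B η (e t) =
        (c t / B η (e t)) * (B a (e t) - B y (e t)) ^ 2 := by ring
      rw [this, ← hq2]; ring
    rw [hl, hr, hya, hyy] at h
    linarith
  obtain ⟨b, μ, hb, hbu, hbo⟩ := bochner_eig S hSsymm
  have h2 : ∀ w : ι → ℝ, w ⬝ᵥ (S *ᵥ w) ≤ (S *ᵥ w) ⬝ᵥ (S *ᵥ w) := by
    intro w
    have h := hstar 0 (-w)
    have hB0 : ∀ d, B 0 d = 0 := fun d => by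
      have := hsmul 0 0 d
      simpa using this
    simp only [hB0, mul_zero] at h
    have hz : (fun _ : ι => (0 : ℝ)) = 0 := rfl
    rw [hz, Matrix.mulVec_neg] at h
    simp only [zero_sub, neg_neg, zero_dotProduct, neg_dotProduct, dotProduct_neg] at h
    linarith
  have hcore := bochner_core S hSsymm v hv hSv hSnn hSconn h2 b μ hb hbu hbo
  -- the orthogonal case
  have hmain : ∀ a, B a η = 0 → B a a ≤ 0 := by
    intro a ha
    set X : ι → ℝ := fun t => q t * B a (e t) with hX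
    obtain ⟨u, hu⟩ := bochner_range S b μ hb hbu X (B a a) (fun u => hstar a u)
    have hXv : X ⬝ᵥ v = 0 := by
      rw [← ha, hη]
      simp only [dotProduct, hX]
      refine sum_congr rfl (fun t _ => ?_)
      rw [hvdef]
      have := (hqpos t).ne'
      field_simp
    have huv : u ⬝ᵥ v = 0 := by
      rw [← hXv, ← hu]
      conv_lhs => rw [← hSv]
      rw [Matrix.dotProduct_mulVec, dotProduct_comm, dotProduct_comm _ v]
      congr 1
      ext t
      simp only [Matrix.vecMul, Matrix.mulVec, dotProduct]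
      exact sum_congr rfl (fun s _ => by rw [hSsymm s t]; ring)
    have h3 := hstar a u
    have h4 := hcore u huv
    rw [← hX, hu, sub_self, zero_dotProduct, dotProduct_comm X u] at h3
    rw [hu] at h4
    linarith
  intro a
  rcases isEmpty_or_nonempty ι with hι | hι
  · have h1 : ∀ d, B d η = 0 := fun d => by rw [hη]; simp
    rw [h1, h1]; simp
  · have hηη : 0 < B η η := by
      rw [hη]
      exact sum_pos (fun t _ => mul_pos (hc t) (hp t)) univ_nonempty
    set r : ℝ := B a η / B η η with hr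
    have h1 : B (a - r • η) η = 0 := by
      rw [hsub, hsmul, hr, div_mul_cancel₀ _ hηη.ne', sub_self]
    have h2 := hmain _ h1
    have h3 : B (a - r • η) (a - r • η) = B a a - 2 * r * B a η + r ^ 2 * B η η := by
      rw [hsub, hsub', hsub', hsmul, hsmul, hsymm a (r • η), hsmul, hsymm η (r • η), hsmul,
        hsymm η a]
      ring
    rw [h3] at h2
    have h4 : r * B η η = B a η := by rw [hr, div_mul_cancel₀ _ hηη.ne']
    have h6 : r ^ 2 * B η η = r * B a η := by rw [pow_two, mul_assoc, h4]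
    have h5 : B a a ≤ r * B a η := by linarith
    calc B a a * B η η ≤ (r * B a η) * B η η := mul_le_mul_of_nonneg_right h5 hηη.le
      _ = (r * B η η) * B a η := by ring
      _ = B a η ^ 2 := by rw [h4]; ring

end Pool.Agent.LHC
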