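import Pool.Agent.LHC.Defs

/-!
Module LHC-CaseNum: the numerical inequality of the base case (checked by computer).

Put `M = sum m`, `E = sum e`, `S = sum (m^2 - r) ≥ 0`, `c0 = binZ p α`, `c1 = binZ (p+1) (α+1)`,
`c2 = binZ (p+2) (α+2)`, `c3 = binZ p (α+1)`, `c4 = binZ (p-1) α`, `c5 = binZ (p-2) α`,
`sum R ≤ 3 S`.  `p = G.card`.  If `p = 0` all sums are `0` and `Qn = c0 z^2`, with `c0 z = 0`.
* `α < -2` or `α > p`: all coefficients vanish.
* `α = -2`: `c2 = 1`, others `0`; `M = 0` so `Qn = -S ≤ 0`.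
* `α = -1`: `c1 = 1, c2 = p+2, c3 = 1, c0 = c4 = c5 = 0`, `M = 0`: `Qn = -(p+2) S + sum R ≤ 0`
  if `p ≥ 1`.
* `α = p ≥ 1`: `c0 = c1 = c2 = 1`, `c3 = c4 = c5 = 0`, `z = -M`, `Qn = -S`.
* `p = 1, α = 0`: one index; `c0=1,c1=2,c2=3,c3=1,c4=1` and `E^2 - e^2 = 0`, `m e = 0`,
  `z = -(2m+e)`: `Qn = -(2m+e)^2 + 3 r + R ≤ -4m^2 - e^2 + 3 m^2 ≤ 0`.
* `p ≥ 2`, `0 ≤ α < p`, `de = p - α ≥ 1`.  Here `c0 > 0` and
  `c1/c0 = (p+1)/(α+1)`, `c2/c0 = (p+1)(p+2)/((α+1)(α+2))`, `c3/c0 = de/(α+1)`, `c4/c0 = de/p`,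
  `c5/c0 = de(de-1)/(p(p-1))`.  Substituting `z = -(c1 M + c4 E)/c0`:
  `Qn/c0 = -(c1/c0 M + c4/c0 E)^2 + c2/c0 (M^2 - S) + c3/c0 (2ME + sum R) + c5/c0 (E^2 - sum e^2)`
  and `sum e^2 ≥ E^2/p` (Cauchy-Schwarz, `inner_mul_le_norm_mul_norm` or `sq_sum_le_card_mul_sum_sq`).
  One gets `-Qn/c0 ≥ de (E/p + M/(α+1))^2 + de(de-1) M^2/((α+1)^2(α+2))
     + c2/c0 S - c3/c0 sum R`,
  and `c2/c0 ≥ 3 c3/c0` because `(p+1)(p+2) ≥ 3 de (α+2)`
  (`4 de (α+2) ≤ (p+2)^2` and `3(p+2) ≤ 4(p+1)` for `p ≥ 2`).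
-/

open Finset

namespace Pool.Agent.LHC

/-- The base form in normalised coordinates. -/
noncomputable def Qn {ι : Type*} (G : Finset ι) (p : ℕ) (α : ℤ) (z : ℝ) (m e r R : ι → ℝ) : ℝ :=
  binZ p α * z ^ 2 +
    2 * z * (binZ (p + 1) (α + 1) * ∑ g ∈ G, m g + binZ (p - 1) α * ∑ g ∈ G, e g) +
    binZ (p + 2) (α + 2) * ((∑ g ∈ G, m g) ^ 2 - ∑ g ∈ G, (m g ^ 2 - r g)) +
    binZ p (α + 1) * (2 * (∑ g ∈ G, m g) * (∑ g ∈ G, e g) + ∑ g ∈ G, R g) +
    binZ (p - 2) α * ((∑ g ∈ G, e g) ^ 2 - ∑ g ∈ G, e g ^ 2)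

/-- The linear form whose kernel is used. -/
noncomputable def Ln (p : ℕ) (α : ℤ) (z M E : ℝ) : ℝ :=
  if 0 ≤ α then binZ p α * z + binZ (p + 1) (α + 1) * M + binZ (p - 1) α * E else M

private theorem CaseNum_binZ_neg (p : ℕ) {a : ℤ} (ha : a < 0) : binZ p a = 0 := by
  rw [binZ, if_neg (by omega)]

private theorem CaseNum_binZ_nat (p a : ℕ) : binZ p (a : ℤ) = (p.choose a : ℝ) := by
  rw [binZ, if_pos (by omega), Int.toNat_natCast]

/-- The case `p ≥ 2`, `0 ≤ a < p`. -/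
private theorem CaseNum_main {p a : ℕ} (hp : 2 ≤ p) (ha : a < p)
    (z M E S SR Se : ℝ) (hS : 0 ≤ S) (hSR : SR ≤ 3 * S) (hSe : E ^ 2 ≤ p * Se)
    (hL : (p.choose a : ℝ) * z + ((p + 1).choose (a + 1) : ℝ) * M + ((p - 1).choose a : ℝ) * E = 0) :
    (p.choose a : ℝ) * z ^ 2 +
      2 * z * (((p + 1).choose (a + 1) : ℝ) * M + ((p - 1).choose a : ℝ) * E) +
      ((p + 2).choose (a + 2) : ℝ) * (M ^ 2 - S) + (p.choose (a + 1) : ℝ) * (2 * M * E + SR) +
      ((p - 2).choose a : ℝ) * (E ^ 2 - Se) ≤ 0 := by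
  obtain ⟨c, hc⟩ : ∃ c : ℝ, c = (p.choose a : ℝ) := ⟨_, rfl⟩
  have hcpos : 0 < c := by
    rw [hc]
    exact_mod_cast Nat.choose_pos ha.le
  obtain ⟨P, hP⟩ : ∃ P : ℝ, P = (p : ℝ) := ⟨_, rfl⟩
  obtain ⟨A, hA⟩ : ∃ A : ℝ, A = (a : ℝ) := ⟨_, rfl⟩
  have hP2 : 2 ≤ P := by rw [hP]; exact_mod_cast hp
  have hA0 : 0 ≤ A := by rw [hA]; exact Nat.cast_nonneg a
  have hPA : A + 1 ≤ P := by rw [hP, hA]; exact_mod_cast ha
  have hA1 : A + 1 ≠ 0 := by linarith
  have hA2 : A + 2 ≠ 0 := by linarith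
  have hP0 : P ≠ 0 := by linarith
  have hP1 : P - 1 ≠ 0 := by linarith
  have e1 : ((p + 1).choose (a + 1) : ℝ) = c * ((P + 1) / (A + 1)) := by
    have h := Nat.add_one_mul_choose_eq p a
    have h' : ((p : ℝ) + 1) * (p.choose a : ℝ) = ((p + 1).choose (a + 1) : ℝ) * ((a : ℝ) + 1) := by
      exact_mod_cast h
    rw [← hP, ← hA, ← hc] at h'
    field_simp
    linarith
  have e2 : ((p + 2).choose (a + 2) : ℝ) = c * ((P + 1) * (P + 2) / ((A + 1) * (A + 2))) := by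
    have h := Nat.add_one_mul_choose_eq (p + 1) (a + 1)
    have h' : ((p : ℝ) + 1 + 1) * ((p + 1).choose (a + 1) : ℝ) =
        ((p + 2).choose (a + 2) : ℝ) * ((a : ℝ) + 1 + 1) := by
      exact_mod_cast h
    rw [← hP, ← hA, e1] at h'
    have h2 : ((p + 2).choose (a + 2) : ℝ) * (A + 2) = (P + 2) * (c * ((P + 1) / (A + 1))) := by
      linarith
    rw [eq_div_of_mul_eq hA2 h2]
    field_simp
  have e3 : (p.choose (a + 1) : ℝ) = c * ((P - A) / (A + 1)) := by
    have h := Nat.choose_succ_right_eq p a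
    have h' : (p.choose (a + 1) : ℝ) * ((a : ℝ) + 1) = (p.choose a : ℝ) * ((p : ℝ) - a) := by
      rw [← Nat.cast_sub ha.le]
      exact_mod_cast h
    rw [← hP, ← hA, ← hc] at h'
    field_simp
    linarith
  have e4 : ((p - 1).choose a : ℝ) = c * ((P - A) / P) := by
    obtain ⟨q, rfl⟩ : ∃ q, p = q + 1 := ⟨p - 1, by omega⟩
    have h := Nat.choose_mul_succ_eq q a
    have h' : (q.choose a : ℝ) * ((q : ℝ) + 1) = ((q + 1).choose a : ℝ) * (((q + 1 : ℕ) : ℝ) - a) := by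
      rw [← Nat.cast_sub (by omega)]
      exact_mod_cast h
    have hP' : P = (q : ℝ) + 1 := by rw [hP]; push_cast; ring
    rw [← hP, ← hA, ← hc, ← hP'] at h'
    rw [Nat.add_sub_cancel]
    field_simp
    linarith
  have e5 : ((p - 2).choose a : ℝ) = c * ((P - A) * (P - A - 1) / (P * (P - 1))) := by
    obtain ⟨q, rfl⟩ : ∃ q, p = q + 2 := ⟨p - 2, by omega⟩
    have h := Nat.choose_mul_succ_eq q a
    have h' : (q.choose a : ℝ) * ((q : ℝ) + 1) = ((q + 1).choose a : ℝ) * (((q + 1 : ℕ) : ℝ) - a) := by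
      rw [← Nat.cast_sub (by omega)]
      exact_mod_cast h
    have hP' : (q : ℝ) + 1 = P - 1 := by rw [hP]; push_cast; ring
    have hq1 : (((q + 1 : ℕ) : ℝ) - a) = P - A - 1 := by rw [hP, hA]; push_cast; ring
    have e4' : ((q + 1).choose a : ℝ) = c * ((P - A) / P) := by
      rw [← e4]
      congr 2
    rw [hP', hq1, e4'] at h'
    rw [Nat.add_sub_cancel, eq_div_of_mul_eq hP1 h']
    field_simp
  rw [e1, e2, e3, e4, e5, ← hc]
  rw [e1, e4, ← hc] at hL
  have hz : z = -((P + 1) / (A + 1) * M + (P - A) / P * E) := by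
    have h1 : c * (z + ((P + 1) / (A + 1) * M + (P - A) / P * E)) = 0 := by linarith
    rcases mul_eq_zero.1 h1 with h2 | h2
    · exact absurd h2 hcpos.ne'
    · linarith
  have hk2 : 0 ≤ (P + 1) * (P + 2) / ((A + 1) * (A + 2)) - 3 * ((P - A) / (A + 1)) := by
    have h1 : (P + 1) * (P + 2) / ((A + 1) * (A + 2)) - 3 * ((P - A) / (A + 1)) =
        ((P + 1) * (P + 2) - 3 * (P - A) * (A + 2)) / ((A + 1) * (A + 2)) := by
      field_simp
    rw [h1]
    apply div_nonneg _ (by positivity)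
    nlinarith [sq_nonneg (P - A - (A + 2)), mul_nonneg (by linarith : (0 : ℝ) ≤ P - 2)
      (by linarith : (0 : ℝ) ≤ P + 2)]
  have hk3 : 0 ≤ (P - A) / (A + 1) := div_nonneg (by linarith) (by linarith)
  have hk5 : 0 ≤ (P - A) * (P - A - 1) / (P * (P - 1)) :=
    div_nonneg (mul_nonneg (by linarith) (by linarith)) (mul_nonneg (by linarith) (by linarith))
  have hCS : 0 ≤ Se - E ^ 2 / P := by
    rw [← hP] at hSe
    have : E ^ 2 / P ≤ Se := by
      rw [div_le_iff₀ (by linarith)]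
      linarith
    linarith
  have key : c * z ^ 2 +
      2 * z * (c * ((P + 1) / (A + 1)) * M + c * ((P - A) / P) * E) +
      c * ((P + 1) * (P + 2) / ((A + 1) * (A + 2))) * (M ^ 2 - S) +
      c * ((P - A) / (A + 1)) * (2 * M * E + SR) +
      c * ((P - A) * (P - A - 1) / (P * (P - 1))) * (E ^ 2 - Se) =
      -(c * ((P - A) * (E / P + M / (A + 1)) ^ 2 +
        (P - A) * (P - A - 1) * M ^ 2 / ((A + 1) ^ 2 * (A + 2)) +
        ((P + 1) * (P + 2) / ((A + 1) * (A + 2)) - 3 * ((P - A) / (A + 1))) * S +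
        (P - A) / (A + 1) * (3 * S - SR) +
        (P - A) * (P - A - 1) / (P * (P - 1)) * (Se - E ^ 2 / P))) := by
    rw [hz]
    field_simp
    ring
  rw [key]
  have t1 : 0 ≤ (P - A) * (E / P + M / (A + 1)) ^ 2 := mul_nonneg (by linarith) (sq_nonneg _)
  have t2 : 0 ≤ (P - A) * (P - A - 1) * M ^ 2 / ((A + 1) ^ 2 * (A + 2)) := by
    apply div_nonneg _ (by positivity)
    exact mul_nonneg (mul_nonneg (by linarith) (by linarith)) (sq_nonneg _)
  have t3 := mul_nonneg hk2 hS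
  have t4 : 0 ≤ (P - A) / (A + 1) * (3 * S - SR) := mul_nonneg hk3 (by linarith)
  have t5 := mul_nonneg hk5 hCS
  have t6 := mul_nonneg hcpos.le (add_nonneg (add_nonneg (add_nonneg (add_nonneg t1 t2) t3) t4) t5)
  linarith

theorem Qn_nonpos {ι : Type*} (G : Finset ι) (α : ℤ) (z : ℝ) (m e r R : ι → ℝ)
    (hme : ∀ g ∈ G, m g * e g = 0) (hr : ∀ g ∈ G, r g ≤ m g ^ 2)
    (hR : ∀ g ∈ G, R g ≤ 3 * (m g ^ 2 - r g))
    (hL : Ln G.card α z (∑ g ∈ G, m g) (∑ g ∈ G, e g) = 0) :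
    Qn G G.card α z m e r R ≤ 0 := by
  have hS : 0 ≤ ∑ g ∈ G, (m g ^ 2 - r g) :=
    Finset.sum_nonneg fun g hg => by linarith [hr g hg]
  have hSR : ∑ g ∈ G, R g ≤ 3 * ∑ g ∈ G, (m g ^ 2 - r g) := by
    rw [Finset.mul_sum]
    exact Finset.sum_le_sum hR
  have hSe : (∑ g ∈ G, e g) ^ 2 ≤ (G.card : ℝ) * ∑ g ∈ G, e g ^ 2 := sq_sum_le_card_mul_sum_sq
  unfold Qn
  unfold Ln at hL
  rcases lt_or_ge α 0 with hα | hα
  · rw [if_neg (by omega)] at hL
    rw [CaseNum_binZ_neg G.card hα, CaseNum_binZ_neg (G.card - 1) hα,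
      CaseNum_binZ_neg (G.card - 2) hα, hL]
    rcases lt_or_ge α (-2) with h2 | h2
    · rw [CaseNum_binZ_neg _ (by omega : α + 1 < 0), CaseNum_binZ_neg _ (by omega : α + 2 < 0),
        CaseNum_binZ_neg _ (by omega : α + 1 < 0)]
      simp
    · rcases eq_or_lt_of_le h2 with h3 | h3
      · rw [CaseNum_binZ_neg _ (by omega : α + 1 < 0), CaseNum_binZ_neg _ (by omega : α + 1 < 0)]
        have e0 : α + 2 = ((0 : ℕ) : ℤ) := by omega
        rw [e0, CaseNum_binZ_nat, Nat.choose_zero_right]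
        push_cast
        linarith
      · have e0 : α + 1 = ((0 : ℕ) : ℤ) := by omega
        have e1 : α + 2 = ((1 : ℕ) : ℤ) := by omega
        rw [e0, e1, CaseNum_binZ_nat, CaseNum_binZ_nat, CaseNum_binZ_nat, Nat.choose_zero_right,
          Nat.choose_zero_right, Nat.choose_one_right]
        push_cast
        rcases Nat.eq_zero_or_pos G.card with hp | hp
        · rw [Finset.card_eq_zero] at hp
          subst hp
          simp
        · have hp' : (1 : ℝ) ≤ G.card := by exact_mod_cast hp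
          have h4 : 0 ≤ ((G.card : ℝ) - 1) * ∑ g ∈ G, (m g ^ 2 - r g) :=
            mul_nonneg (by linarith) hS
          linarith
  · rw [if_pos hα] at hL
    obtain ⟨a, rfl⟩ : ∃ a : ℕ, α = (a : ℤ) := ⟨α.toNat, by omega⟩
    have e1 : (a : ℤ) + 1 = ((a + 1 : ℕ) : ℤ) := by push_cast; ring
    have e2 : (a : ℤ) + 2 = ((a + 2 : ℕ) : ℤ) := by push_cast; ring
    rw [e1, CaseNum_binZ_nat, CaseNum_binZ_nat, CaseNum_binZ_nat] at hL
    rw [e1, e2, CaseNum_binZ_nat, CaseNum_binZ_nat, CaseNum_binZ_nat, CaseNum_binZ_nat,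
      CaseNum_binZ_nat, CaseNum_binZ_nat]
    rcases Nat.eq_zero_or_pos G.card with hp | hp
    · rw [Finset.card_eq_zero] at hp
      subst hp
      simp only [Finset.card_empty, Finset.sum_empty, mul_zero, add_zero, sub_zero] at hL ⊢
      have : (((0 : ℕ).choose a : ℕ) : ℝ) * z ^ 2 = 0 := by
        rw [sq, ← mul_assoc, hL, zero_mul]
      rw [this]
      simp
    · rcases lt_trichotomy a G.card with h1 | h1 | h1
      · rcases Nat.lt_or_ge G.card 2 with h2 | h2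
        · have hc : G.card = 1 := by omega
          have ha0 : a = 0 := by omega
          obtain ⟨g, rfl⟩ := Finset.card_eq_one.1 hc
          subst ha0
          simp only [Finset.card_singleton, Finset.sum_singleton] at hL ⊢
          have h3 := hme g (Finset.mem_singleton_self g)
          have h4 := hr g (Finset.mem_singleton_self g)
          have h5 := hR g (Finset.mem_singleton_self g)
          norm_num [Nat.choose] at hL ⊢
          have h6 : z = -(2 * m g + e g) := by linarith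
          rw [h6]
          nlinarith [sq_nonneg (m g), sq_nonneg (e g)]
        · have h3 := CaseNum_main h2 h1 z (∑ g ∈ G, m g) (∑ g ∈ G, e g)
            (∑ g ∈ G, (m g ^ 2 - r g)) (∑ g ∈ G, R g) (∑ g ∈ G, e g ^ 2) hS hSR hSe hL
          exact h3
      · subst h1
        have c3 : (G.card).choose (G.card + 1) = 0 := Nat.choose_succ_self _
        have c4 : (G.card - 1).choose G.card = 0 := Nat.choose_eq_zero_of_lt (by omega)
        have c5 : (G.card - 2).choose G.card = 0 := Nat.choose_eq_zero_of_lt (by omega)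
        rw [c4, Nat.choose_self, Nat.choose_self] at hL
        rw [c3, c4, c5, Nat.choose_self, Nat.choose_self, Nat.choose_self]
        push_cast at hL ⊢
        have h6 : z = -∑ g ∈ G, m g := by linarith
        rw [h6]
        nlinarith
      · have c0 : (G.card).choose a = 0 := Nat.choose_eq_zero_of_lt h1
        have c1 : (G.card + 1).choose (a + 1) = 0 := Nat.choose_eq_zero_of_lt (by omega)
        have c2 : (G.card + 2).choose (a + 2) = 0 := Nat.choose_eq_zero_of_lt (by omega)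
        have c3 : (G.card).choose (a + 1) = 0 := Nat.choose_eq_zero_of_lt (by omega)
        have c4 : (G.card - 1).choose a = 0 := Nat.choose_eq_zero_of_lt (by omega)
        have c5 : (G.card - 2).choose a = 0 := Nat.choose_eq_zero_of_lt (by omega)
        rw [c0, c1, c2, c3, c4, c5]
        simp

end Pool.Agent.LHC
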