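import Pool.Agent.LHC.PosIff

/-!
Module LHC-Chain: the model as a sum over chains, with polynomial weights.

`WP_coeff`: if some gap has weight zero (an odd end and length `≥ 2`) both sides vanish.  Otherwise, with
`g_j` the half lengths of the `p = pp N σ` even-even gaps: `∏ gpoly = ∏ τ(g_j) (1+X)^p X^(∑ (g_j - 1))`; `σ` is
full (`Gp_pos_iff` or directly), `∑ g_j = N/2 - ee σ` (sum of the gap lengths is `N`, there are `N - 2 ∑ g_j` unit gaps,
see `pp_full`), so the coefficient of `X^l` is `∏ τ(g_j)` times the coefficient of index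
`l - (N/2 - ee σ - p) = al` in `(1+X)^p`, that is `binZ p al`.
`chain_step`: for `σ ⊆ Ioo 0 N`, `u = lo σ N` (the largest element or `0`), by `dev_psi0` only the points `s > u` contribute to
`Dop N (psi0 N)`, with coefficient `(s-u)/(N-u)`; `hi N σ u = N`; and
`∏_(w ∈ insert 0 (insert s σ)) gpoly = (∏_(w ∈ (insert 0 σ).erase u) gpoly) * gpoly u s * gpoly s N`.
Claim by induction on `m`: `((Dop N (psi0 N))^m (fun ρ => coeff l (WP ρ))) σ =
coeff l (C (N!/(N-u)!) * ∏_(w ∈ (insert 0 σ).erase u) gpoly w (hi N σ w) * ZP m u (N-u))`.  For `m = 0`: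
`ZP 0 u (N-u) = (N-u)! * gpoly u N`.  Step: `(s-u)/(N-u) * N!/(N-s)! = N!/(N-u)! * C(N-u-1, s-u-1) * (s-u)!`, reindex
`s = u + s'`, `s' ∈ Ioo 0 (N-u)`.
`chain_formula` is the case `σ = ∅`, `u = 0`.
`ZP_period`: `gpoly` depends on `u, v` only through `v - u` and the parity of `u`.
-/

open Finset Polynomial

namespace Pool.Agent.LHC

/-- Polynomial gap weight. -/
noncomputable def gpoly (τ : ℕ → ℝ) (u v : ℕ) : ℝ[X] :=
  if Even u ∧ Even v then C (τ ((v - u) / 2)) * (1 + X) * X ^ ((v - u) / 2 - 1)
  else if v = u + 1 then 1 else 0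

/-- Polynomial weight of a set. -/
noncomputable def WP (τ : ℕ → ℝ) (N : ℕ) (σ : Finset ℕ) : ℝ[X] :=
  C (N.factorial : ℝ) * ∏ u ∈ insert 0 σ, gpoly τ u (hi N σ u)

/-- Chain polynomials. -/
noncomputable def ZP (τ : ℕ → ℝ) : ℕ → ℕ → ℕ → ℝ[X]
  | 0, u, n => C (n.factorial : ℝ) * gpoly τ u (u + n)
  | (m + 1), u, n => ∑ s ∈ Ioo 0 n,
      C (((n - 1).choose (s - 1) : ℝ) * (s.factorial : ℝ)) * gpoly τ u (u + s) *
        ZP τ m (u + s) (n - s)

variable {N : ℕ} {τ : ℕ → ℝ} {σ : Finset ℕ}

private theorem Chain_hi_lo (hσ : σ ⊆ Ioo 0 N) {v : ℕ} (hv : v ∈ insert N σ) (hv0 : 0 < v) :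
    hi N σ (lo σ v) = v := by
  refine hi_eq hσ hv (lo_lt hv0) ?_
  intro t ht hut
  by_contra h2
  exact absurd (le_lo ht (not_le.1 h2)) (not_le.2 hut)

private theorem Chain_lo_hi {u : ℕ} (hu : u ∈ insert 0 σ) (huN : u < N) :
    lo σ (hi N σ u) = u := by
  refine lo_eq hu (lt_hi huN) ?_
  intro t ht htv
  by_contra h2
  exact absurd (hi_le_of_mem (N := N) ht (not_le.1 h2)) (not_le.2 htv)

private theorem Chain_sum (hN : 2 ≤ N) (hσ : σ ⊆ Ioo 0 N) :
    ∑ u ∈ insert 0 σ, (hi N σ u - u) = N := by
  have h0 : (0 : ℕ) ∉ σ := fun h => by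
    have := (mem_Ioo.1 (hσ h)).1
    omega
  have hNn : N ∉ σ := fun h => by
    have := (mem_Ioo.1 (hσ h)).2
    omega
  have h1 : ∑ u ∈ insert 0 σ, hi N σ u = ∑ v ∈ insert N σ, v := by
    refine sum_nbij' (hi N σ) (lo σ) ?_ ?_ ?_ ?_ ?_
    · intro u _
      exact hi_mem
    · intro v _
      exact lo_mem
    · intro u hu
      exact Chain_lo_hi hu (PosIff_lt hσ hN hu)
    · intro v hv
      refine Chain_hi_lo hσ hv ?_
      rcases mem_insert.1 hv with h2 | h2
      · omega
      · exact (mem_Ioo.1 (hσ h2)).1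
    · intro u _
      rfl
  rw [sum_insert hNn] at h1
  have h2 : ∑ u ∈ insert 0 σ, (hi N σ u - u) + ∑ u ∈ insert 0 σ, u =
      ∑ u ∈ insert 0 σ, hi N σ u := by
    rw [← sum_add_distrib]
    refine sum_congr rfl fun u hu => ?_
    have := lt_hi (N := N) (σ := σ) (PosIff_lt hσ hN hu)
    omega
  have h3 : ∑ u ∈ insert 0 σ, u = ∑ u ∈ σ, u := by rw [sum_insert h0, zero_add]
  rw [h1, h3] at h2
  omega

private theorem Chain_gpoly (τ : ℕ → ℝ) (u v : ℕ) :
    gpoly τ u v = C (gapW τ u v) *
      ((if Even u ∧ Even v then (1 + X) else 1) *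
        X ^ (if Even u ∧ Even v then (v - u) / 2 - 1 else 0)) := by
  unfold gpoly gapW
  split_ifs
  · rw [mul_assoc]
  · simp
  · simp

private theorem Chain_WP (τ : ℕ → ℝ) (N : ℕ) (σ : Finset ℕ) :
    WP τ N σ = C ((N.factorial : ℝ) * Gp τ N σ) * ((1 + X) ^ (pp N σ) *
      X ^ (∑ u ∈ (insert 0 σ).filter (fun u => Even u ∧ Even (hi N σ u)),
        ((hi N σ u - u) / 2 - 1))) := by
  unfold WP
  rw [prod_congr rfl (fun u _ => Chain_gpoly τ u (hi N σ u)), prod_mul_distrib, prod_mul_distrib,
    prod_pow_eq_pow_sum, ← map_prod, C_mul, mul_assoc]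
  unfold Gp pp
  congr 3
  · rw [prod_ite, prod_const_one, mul_one, prod_const]
  · rw [← sum_filter]

theorem WP_coeff (hτ : TauData τ) (hN : 2 ≤ N) (l : ℕ) {σ : Finset ℕ} (hσ : σ ⊆ Ioo 0 N) :
    (WP τ N σ).coeff l = WW τ N l σ := by
  rw [Chain_WP, coeff_C_mul]
  unfold WW
  rcases (Gp_nonneg hτ hσ hN).eq_or_lt with h | h
  · rw [← h]
    simp
  have hfull := (Gp_pos_iff hτ hN hσ).1 h
  congr 1
  rw [coeff_mul_X_pow']
  have hpf := pp_full hN hfull
  have hgap := (PosIff_full hN hσ).2 hfull
  have hsum := Chain_sum hN hσ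
  -- the sum over the gaps with two even ends
  have h1 : ∑ u ∈ (insert 0 σ).filter (fun u => Even u ∧ Even (hi N σ u)),
      ((hi N σ u - u) / 2 - 1) * 2 + 2 * pp N σ +
      ((insert 0 σ).filter (fun u => ¬ (Even u ∧ Even (hi N σ u)))).card = N := by
    conv_rhs => rw [← hsum]
    rw [← sum_filter_add_sum_filter_not (insert 0 σ) (fun u => Even u ∧ Even (hi N σ u))]
    congr 1
    · unfold pp
      rw [card_eq_sum_ones, mul_sum, ← sum_add_distrib]
      refine sum_congr rfl fun u hu => ?_
      rw [mem_filter] at hu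
      obtain ⟨hu1, ⟨a, ha⟩, ⟨b, hb⟩⟩ := hu
      have := lt_hi (N := N) (σ := σ) (PosIff_lt hσ hN hu1)
      omega
    · rw [card_eq_sum_ones]
      refine sum_congr rfl fun u hu => ?_
      rw [mem_filter] at hu
      rcases hgap u hu.1 with h2 | h2
      · exact absurd h2 hu.2
      · omega
  have h2 := card_filter_add_card_filter_not (s := insert 0 σ)
    (fun u => Even u ∧ Even (hi N σ u))
  have h0 : (0 : ℕ) ∉ σ := fun h => by
    have := (mem_Ioo.1 (hσ h)).1
    omega
  rw [card_insert_of_notMem h0] at h2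
  have h3 : ((insert 0 σ).filter (fun u => Even u ∧ Even (hi N σ u))).card = pp N σ := rfl
  rw [h3] at h2
  rw [← sum_mul] at h1
  set k := ∑ u ∈ (insert 0 σ).filter (fun u => Even u ∧ Even (hi N σ u)),
      ((hi N σ u - u) / 2 - 1) with hk
  have h4 : k + ee σ + pp N σ = N / 2 := by
    split_ifs at hpf with h9
    · obtain ⟨r, hr⟩ := h9
      omega
    · rw [Nat.not_odd_iff_even] at h9
      obtain ⟨r, hr⟩ := h9
      omega
  unfold binZ
  have h5 : ((l : ℤ) + ee σ + pp N σ - ((N / 2 : ℕ) : ℤ)) = (l : ℤ) - k := by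
    rw [← h4]
    push_cast
    ring
  rw [h5]
  by_cases hkl : k ≤ l
  · rw [if_pos hkl, if_pos (by omega), coeff_one_add_X_pow]
    congr 2
    omega
  · rw [if_neg hkl, if_neg (by omega)]

private theorem Chain_ZP_succ (τ : ℕ → ℝ) (m u n : ℕ) :
    ZP τ (m + 1) u n = ∑ s ∈ Ioo 0 n,
      C (((n - 1).choose (s - 1) : ℝ) * (s.factorial : ℝ)) * gpoly τ u (u + s) *
        ZP τ m (u + s) (n - s) := by
  rw [ZP]

private theorem Chain_period (τ : ℕ → ℝ) (u v : ℕ) :
    gpoly τ (u + 2) (v + 2) = gpoly τ u v := by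
  unfold gpoly
  have h1 : Even (u + 2) ↔ Even u := by simp [parity_simps]
  have h2 : Even (v + 2) ↔ Even v := by simp [parity_simps]
  have h3 : v + 2 - (u + 2) = v - u := by omega
  have h4 : v + 2 = u + 2 + 1 ↔ v = u + 1 := by omega
  rw [h3]
  simp only [h1, h2, h4]

theorem ZP_period (m u n : ℕ) : ZP τ m (u + 2) n = ZP τ m u n := by
  induction m generalizing u n with
  | zero =>
    unfold ZP
    rw [show u + 2 + n = u + n + 2 by ring, Chain_period]
  | succ m ih =>
    unfold ZP
    refine sum_congr rfl fun s _ => ?_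
    rw [show u + 2 + s = u + s + 2 by ring, Chain_period, ih]

private theorem Chain_step (hτ : TauData τ) (hN : 2 ≤ N) (l m : ℕ) {σ : Finset ℕ}
    (hσ : σ ⊆ Ioo 0 N) :
    ((Dop N (psi0 N)) ^ m) (WW τ N l) σ =
      (C ((N.factorial : ℝ) / ((N - lo σ N).factorial : ℝ)) *
        (∏ w ∈ (insert 0 σ).erase (lo σ N), gpoly τ w (hi N σ w)) *
        ZP τ m (lo σ N) (N - lo σ N)).coeff l := by
  have hN0 : 0 < N := by omega
  induction m generalizing σ with
  | zero =>
    have hu : lo σ N < N := lo_lt hN0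
    have hfac : ((N - lo σ N).factorial : ℝ) ≠ 0 := by exact_mod_cast (Nat.factorial_pos _).ne'
    rw [pow_zero, Module.End.one_apply, ← WP_coeff hτ hN l hσ]
    congr 1
    unfold WP ZP
    rw [← mul_prod_erase (insert 0 σ) (fun w => gpoly τ w (hi N σ w)) lo_mem,
      Chain_hi_lo hσ (mem_insert_self _ _) hN0,
      show lo σ N + (N - lo σ N) = N by omega]
    have : (N.factorial : ℝ) =
        (N.factorial : ℝ) / ((N - lo σ N).factorial : ℝ) * ((N - lo σ N).factorial : ℝ) := by
      field_simp
    conv_lhs => rw [this, C_mul]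
    ring
  | succ m ih =>
    set u := lo σ N with hu_def
    have hu : u < N := lo_lt hN0
    have hu0 : u ∈ insert 0 σ := lo_mem
    have hle : ∀ w ∈ insert 0 σ, w ≤ u := by
      intro w hw
      rcases mem_insert.1 hw with h | h
      · omega
      · exact le_lo h (mem_Ioo.1 (hσ h)).2
    rw [pow_succ', Module.End.mul_apply, Dop_apply, if_pos hσ]
    have hsub : Ioo u N ⊆ Ioo 0 N \ σ := by
      intro s hs
      rw [mem_Ioo] at hs
      rw [mem_sdiff, mem_Ioo]
      refine ⟨⟨by omega, hs.2⟩, fun h => ?_⟩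
      have := hle s (mem_insert_of_mem h)
      omega
    rw [← sum_subset hsub]
    · -- the main terms
      have key : ∀ s ∈ Ioo u N, dev N σ (psi0 N) s * ((Dop N (psi0 N)) ^ m) (WW τ N l) (insert s σ)
          = (C (((s : ℝ) - u) / ((N : ℝ) - u) * ((N.factorial : ℝ) / ((N - s).factorial : ℝ))) *
            (∏ w ∈ (insert 0 σ).erase u, gpoly τ w (hi N σ w)) * gpoly τ u s *
            ZP τ m s (N - s)).coeff l := by
        intro s hs
        have hs' := mem_Ioo.1 hs
        have hsm := hsub hs
        have hsσ : insert s σ ⊆ Ioo 0 N := by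
          rw [insert_subset_iff]
          exact ⟨(mem_sdiff.1 hsm).1, hσ⟩
        have hhi : hi N σ s = N := by
          refine hi_eq hσ (mem_insert_self _ _) hs'.2 ?_
          intro t ht hst
          have := hle t (mem_insert_of_mem ht)
          omega
        have hlo : lo σ s = u := by
          refine lo_eq hu0 hs'.1 ?_
          intro t ht _
          exact hle t (mem_insert_of_mem ht)
        have hlo2 : lo (insert s σ) N = s := by
          rw [lo_insert, if_pos hs'.2]
          exact max_eq_left hs'.1.le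
        have hs0 : s ∉ insert 0 σ := by
          intro h
          have := hle s h
          omega
        rw [dev_psi0 (by omega) hσ hsm, if_pos hhi, hlo, ih hsσ, hlo2]
        have he : (insert 0 (insert s σ)).erase s = insert 0 σ := by
          rw [Finset.insert_comm, erase_insert hs0]
        have hp : ∏ w ∈ insert 0 σ, gpoly τ w (hi N (insert s σ) w) =
            gpoly τ u s * ∏ w ∈ (insert 0 σ).erase u, gpoly τ w (hi N σ w) := by
          rw [← mul_prod_erase (insert 0 σ) (fun w => gpoly τ w (hi N (insert s σ) w)) hu0]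
          congr 1
          · rw [hi_insert hσ hs'.2, if_pos hs'.1, Chain_hi_lo hσ (mem_insert_self _ _) hN0,
              min_eq_left hs'.2.le]
          · refine prod_congr rfl fun w hw => ?_
            rw [mem_erase] at hw
            have hwu : w < u := lt_of_le_of_ne (hle w hw.2) hw.1
            have huσ : u ∈ σ := by
              rcases mem_insert.1 hu0 with h | h
              · omega
              · exact h
            have h1 : hi N σ w ≤ u := hi_le_of_mem huσ hwu
            rw [hi_insert hσ hs'.2, if_pos (by omega), min_eq_right (by omega)]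
        rw [he, hp, ← coeff_C_mul, C_mul]
        congr 1
        ring
      rw [sum_congr rfl key, ← finsetSum_coeff]
      congr 1
      rw [Chain_ZP_succ, mul_sum]
      refine sum_nbij' (fun s => s - u) (fun s => u + s) ?_ ?_ ?_ ?_ ?_
      · intro s hs
        rw [mem_Ioo] at hs ⊢
        omega
      · intro s hs
        rw [mem_Ioo] at hs ⊢
        omega
      · intro s hs
        rw [mem_Ioo] at hs
        show u + (s - u) = s
        omega
      · intro s hs
        rw [mem_Ioo] at hs
        show u + s - u = s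
        omega
      · intro s hs
        rw [mem_Ioo] at hs
        obtain ⟨s', rfl⟩ : ∃ s', s = u + s' := ⟨s - u, by omega⟩
        have e1 : u + s' - u = s' := by omega
        have e2 : N - (u + s') = N - u - s' := by omega
        simp only [e1, e2]
        obtain ⟨n, hn⟩ : ∃ n, N - u = n := ⟨_, rfl⟩
        have e3 : (N : ℝ) - u = n := by
          rw [← hn, Nat.cast_sub hu.le]
        have e4 : ((u + s' : ℕ) : ℝ) - u = s' := by
          push_cast
          ring
        rw [e3, e4, hn]
        have hs1 : 1 ≤ s' := by omega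
        have hs2 : s' ≤ n := by omega
        have hch : ((n - 1).choose (s' - 1) : ℝ) * ((s' - 1).factorial : ℝ) *
            ((n - s').factorial : ℝ) = ((n - 1).factorial : ℝ) := by
          have := Nat.choose_mul_factorial_mul_factorial (n := n - 1) (k := s' - 1) (by omega)
          rw [show n - 1 - (s' - 1) = n - s' by omega] at this
          exact_mod_cast this
        have hf1 : (n.factorial : ℝ) = n * ((n - 1).factorial : ℝ) := by
          rw [← Nat.mul_factorial_pred (by omega : n ≠ 0)]
          push_cast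
          ring
        have hf2 : (s'.factorial : ℝ) = s' * ((s' - 1).factorial : ℝ) := by
          rw [← Nat.mul_factorial_pred (by omega : s' ≠ 0)]
          push_cast
          ring
        have hA : ((s' - 1).factorial : ℝ) ≠ 0 := by exact_mod_cast (Nat.factorial_pos _).ne'
        have hB : ((n - s').factorial : ℝ) ≠ 0 := by exact_mod_cast (Nat.factorial_pos _).ne'
        have hD : ((n - 1).factorial : ℝ) ≠ 0 := by exact_mod_cast (Nat.factorial_pos _).ne'
        have hn0 : (n : ℝ) ≠ 0 := by
          have : n ≠ 0 := by omega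
          exact_mod_cast this
        have hc : (s' : ℝ) / n * ((N.factorial : ℝ) / ((n - s').factorial : ℝ)) =
            (N.factorial : ℝ) / (n.factorial : ℝ) *
              (((n - 1).choose (s' - 1) : ℝ) * (s'.factorial : ℝ)) := by
          rw [hf1, hf2]
          have : ((n - 1).choose (s' - 1) : ℝ) =
              ((n - 1).factorial : ℝ) / (((s' - 1).factorial : ℝ) * ((n - s').factorial : ℝ)) := by
            rw [eq_div_iff (mul_ne_zero hA hB), ← hch]
            ring
          rw [this]
          field_simp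
        rw [hc, C_mul]
        ring
    · intro s hs hs2
      have hsm := mem_sdiff.1 hs
      have hs' := mem_Ioo.1 hsm.1
      have hsu : s ≤ u := by
        rw [mem_Ioo] at hs2
        omega
      have hsne : s ≠ u := by
        rintro rfl
        rcases mem_insert.1 hu0 with h | h
        · omega
        · exact hsm.2 h
      have huσ : u ∈ σ := by
        rcases mem_insert.1 hu0 with h | h
        · omega
        · exact h
      have h1 : hi N σ s ≤ u := hi_le_of_mem huσ (by omega)
      rw [dev_psi0 (by omega) hσ hs, if_neg (by omega), zero_mul]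

theorem chain_formula (hτ : TauData τ) (hN : 2 ≤ N) (l m : ℕ) :
    ((Dop N (psi0 N)) ^ m) (WW τ N l) ∅ = (ZP τ m 0 N).coeff l := by
  rw [Chain_step hτ hN l m (empty_subset _)]
  have h0 : lo ∅ N = 0 := by simp [lo]
  have hfac : (N.factorial : ℝ) ≠ 0 := by exact_mod_cast (Nat.factorial_pos _).ne'
  rw [h0, Nat.sub_zero, div_self hfac]
  simp

end Pool.Agent.LHC
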