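import Pool.Agent.LHC.Nbr

/-!
Module LHC-Comm: the operators `D_f` commute.

`Dop_comm`: both sides vanish at `σ` unless `σ ⊆ Ioo 0 N`.  For such `σ`,
`(D_f (D_g Φ)) σ = ∑_(s,t ∉ σ, s ≠ t) dev σ f s * dev (insert s σ) g t * Φ (insert t (insert s σ))`.
Symmetrise in `(s,t)`: it is enough that
`dev σ f s * dev (insert s σ) g t + dev σ f t * dev (insert t σ) g s` is symmetric in `f, g`.
By `dev_insert`: if `s, t` are in different gaps it is `F s G t + F t G s` (`F = dev σ f`,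
`G = dev σ g`); if they are in the same gap `(u,v)` and `s < t` it is
`F s (G t - G s (v-t)/(v-s)) + F t (G s - G t (s-u)/(t-u))`, symmetric as well.
`Dop_single` is `dev_single`.
-/

open Finset

namespace Pool.Agent.LHC

variable {N : ℕ} {σ : Finset ℕ} {s : ℕ}

/-- A weighted double sum over pairs only depends on the symmetrised coefficients. -/
private theorem Comm_sum (S : Finset ℕ) (A B K : ℕ → ℕ → ℝ) (hK : ∀ s t, K s t = K t s)
    (hAB : ∀ s ∈ S, ∀ t ∈ S, s < t → A s t + A t s = B s t + B t s) :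
    ∑ s ∈ S, ∑ t ∈ S, (if t = s then 0 else A s t * K s t) =
      ∑ s ∈ S, ∑ t ∈ S, (if t = s then 0 else B s t * K s t) := by
  have hA : ∑ s ∈ S, ∑ t ∈ S, (if t = s then 0 else A s t * K s t) =
      ∑ s ∈ S, ∑ t ∈ S, (if t = s then 0 else A t s * K s t) := by
    rw [Finset.sum_comm]
    refine sum_congr rfl fun s _ => sum_congr rfl fun t _ => ?_
    by_cases h : t = s
    · rw [if_pos h, if_pos h.symm]
    · rw [if_neg h, if_neg (Ne.symm h), hK]
  have hB : ∑ s ∈ S, ∑ t ∈ S, (if t = s then 0 else B s t * K s t) =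
      ∑ s ∈ S, ∑ t ∈ S, (if t = s then 0 else B t s * K s t) := by
    rw [Finset.sum_comm]
    refine sum_congr rfl fun s _ => sum_congr rfl fun t _ => ?_
    by_cases h : t = s
    · rw [if_pos h, if_pos h.symm]
    · rw [if_neg h, if_neg (Ne.symm h), hK]
  have h2 : ∑ s ∈ S, ∑ t ∈ S, (if t = s then 0 else A s t * K s t) +
      ∑ s ∈ S, ∑ t ∈ S, (if t = s then 0 else A t s * K s t) =
      ∑ s ∈ S, ∑ t ∈ S, (if t = s then 0 else B s t * K s t) +
      ∑ s ∈ S, ∑ t ∈ S, (if t = s then 0 else B t s * K s t) := by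
    rw [← sum_add_distrib, ← sum_add_distrib]
    refine sum_congr rfl fun s hs => ?_
    rw [← sum_add_distrib, ← sum_add_distrib]
    refine sum_congr rfl fun t ht => ?_
    by_cases h : t = s
    · rw [if_pos h, if_pos h, if_pos h, if_pos h]
    · rw [if_neg h, if_neg h, if_neg h, if_neg h]
      rcases lt_or_gt_of_ne h with h3 | h3
      · have h4 := hAB t ht s hs h3
        linear_combination (K s t) * h4
      · have h4 := hAB s hs t ht h3
        linear_combination (K s t) * h4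
  rw [← hA, ← hB] at h2
  linarith

/-- The symmetric identity for two points outside `σ`. -/
private theorem Comm_pair (hσ : σ ⊆ Ioo 0 N) (f g : ℕ → ℝ) {s t : ℕ} (hs : s ∈ Ioo 0 N \ σ)
    (ht : t ∈ Ioo 0 N \ σ) (hst : s < t) :
    dev N σ f s * dev N (insert s σ) g t + dev N σ f t * dev N (insert t σ) g s =
      dev N σ g s * dev N (insert s σ) f t + dev N σ g t * dev N (insert t σ) f s := by
  have hs' := mem_sdiff.1 hs
  have ht' := mem_sdiff.1 ht
  have hs0 := mem_Ioo.1 hs'.1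
  have ht0 := mem_Ioo.1 ht'.1
  rw [dev_insert hσ g hs ht hst.ne', dev_insert hσ g ht hs hst.ne, dev_insert hσ f hs ht hst.ne',
    dev_insert hσ f ht hs hst.ne]
  have hn : ¬ (lo σ s < t ∧ t < s) := fun h => absurd h.2 (not_lt.2 hst.le)
  rw [if_neg hn, if_neg hn]
  by_cases h1 : t < hi N σ s
  · have h2 := lo_eq_of_between (t := t) hσ hs'.2 ((lo_lt hs0.1).trans hst) h1 hs'.1
    have h3 : lo σ t < s ∧ s < t := by
      rw [h2.1]
      exact ⟨lo_lt hs0.1, hst⟩
    have h4 : s < t ∧ t < hi N σ s := ⟨hst, h1⟩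
    rw [if_pos h3, if_pos h3, if_pos h4, if_pos h4]
    ring
  · have h3 : ¬ (lo σ t < s ∧ s < t) := by
      rintro ⟨h4, -⟩
      have h5 := lo_eq_of_between (t := s) hσ ht'.2 h4 (hst.trans (lt_hi ht0.2)) ht'.1
      rw [h5.2] at h1
      exact h1 (lt_hi ht0.2)
    have h4 : ¬ (s < t ∧ t < hi N σ s) := fun h => h1 h.2
    have h5 : ¬ (t < s ∧ s < hi N σ t) := fun h => absurd h.1 (not_lt.2 hst.le)
    rw [if_neg h3, if_neg h3, if_neg h4, if_neg h4, if_neg h5, if_neg h5]
    ring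

private theorem Comm_mul (hσ : σ ⊆ Ioo 0 N) (f g : ℕ → ℝ) (Φ : Finset ℕ → ℝ) :
    Dop N f (Dop N g Φ) σ = ∑ s ∈ Ioo 0 N \ σ, ∑ t ∈ Ioo 0 N \ σ,
      (if t = s then 0 else dev N σ f s * dev N (insert s σ) g t * Φ (insert t (insert s σ))) := by
  rw [Dop_apply, if_pos hσ]
  refine sum_congr rfl fun s hs => ?_
  have hs' := mem_sdiff.1 hs
  rw [Dop_apply, if_pos (insert_subset hs'.1 hσ), mul_sum]
  have h1 : Ioo 0 N \ insert s σ = (Ioo 0 N \ σ).filter (fun t => ¬ t = s) := by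
    ext t
    simp only [mem_sdiff, mem_insert, mem_filter]
    tauto
  rw [h1, sum_filter]
  refine sum_congr rfl fun t _ => ?_
  by_cases h : t = s
  · rw [if_pos h, if_neg (not_not.2 h)]
  · rw [if_neg h, if_pos h]
    ring

theorem Dop_comm (N : ℕ) (f g : ℕ → ℝ) : Commute (Dop N f) (Dop N g) := by
  apply LinearMap.ext
  intro Φ
  funext σ
  rw [Module.End.mul_apply, Module.End.mul_apply]
  by_cases hσ : σ ⊆ Ioo 0 N
  · rw [Comm_mul hσ, Comm_mul hσ]
    exact Comm_sum (Ioo 0 N \ σ) (fun s t => dev N σ f s * dev N (insert s σ) g t)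
      (fun s t => dev N σ g s * dev N (insert s σ) f t) (fun s t => Φ (insert t (insert s σ)))
      (fun s t => by rw [Finset.insert_comm])
      (fun s hs t ht hst => Comm_pair hσ f g hs ht hst)
  · rw [Dop_apply, Dop_apply, if_neg hσ, if_neg hσ]

private theorem Comm_TT (N : ℕ) (a : ℝ × (ℕ → ℝ)) :
    TT N a = a.1 • (1 : Module.End ℝ (Finset ℕ → ℝ)) + Dop N a.2 := rfl

theorem TT_comm (N : ℕ) (a b : ℝ × (ℕ → ℝ)) : Commute (TT N a) (TT N b) := by
  rw [Comm_TT, Comm_TT]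
  have h1 : Commute (a.1 • (1 : Module.End ℝ (Finset ℕ → ℝ))) (Dop N b.2) :=
    (Commute.one_left _).smul_left _
  have h2 : Commute (Dop N a.2) (b.1 • (1 : Module.End ℝ (Finset ℕ → ℝ))) :=
    (Commute.one_right _).smul_right _
  have h3 : Commute (a.1 • (1 : Module.End ℝ (Finset ℕ → ℝ)))
      (b.1 • (1 : Module.End ℝ (Finset ℕ → ℝ))) :=
    ((Commute.one_right _).smul_right _).smul_left _
  exact (h3.add_right h1).add_left (h2.add_right (Dop_comm N a.2 b.2))

theorem TT_zero_left (N : ℕ) (f : ℕ → ℝ) : TT N (0, f) = Dop N f := by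
  rw [Comm_TT]
  simp

theorem Dop_TT_comm (N : ℕ) (f : ℕ → ℝ) (a : ℝ × (ℕ → ℝ)) : Commute (Dop N f) (TT N a) := by
  rw [← TT_zero_left]
  exact TT_comm N (0, f) a

theorem Dop_single (hσ : σ ⊆ Ioo 0 N) (hs : s ∈ Ioo 0 N \ σ) (Φ : Finset ℕ → ℝ) :
    Dop N (Pi.single s 1) Φ σ = Φ (insert s σ) := by
  rw [Dop_apply, if_pos hσ, Finset.sum_eq_single s]
  · rw [dev_single hσ hs hs, if_pos rfl, one_mul]
  · intro t ht hts
    rw [dev_single hσ hs ht, if_neg hts, zero_mul]
  · intro h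
    exact absurd hs h

theorem TT_one (N : ℕ) : TT N (1, 0) = 1 := by
  rw [Comm_TT]
  have h1 : Dop N 0 = 0 := by
    apply LinearMap.ext
    intro Φ
    funext σ
    rw [Dop_apply]
    simp [dev]
  show (1 : ℝ) • (1 : Module.End ℝ (Finset ℕ → ℝ)) + Dop N 0 = 1
  rw [h1, one_smul, add_zero]

end Pool.Agent.LHC
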