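import Pool.Agent.LHC.Ext

/-!
Module LHC-Conn: connectivity of the graph of feasible sets (checked by computer).

`σ ⊆ Ioo 0 N`, `M ≥ 3`, `T1 ⊇ insert s σ` and `T2 ⊇ insert t σ` feasible of size `σ.card + M`,
`s, t ∉ σ`.  Write `x ~ y` for `FAdj`.  Any two different elements of `T1 \ σ` are joined directly.
(A) Some `u ∈ Ioo 0 N \ σ` lies in EVERY `Full` set containing `σ` (a missing neighbour of an odd
    element of `σ`, or `N - 1` for odd `N`): then `u ∈ T1, T2` and `s ~ u ~ t` (or equalities).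
(B) Otherwise `σ` is `Full`.  Let `F` be the set of even elements of `Ioo 0 N \ σ`; the odd elements of
    a feasible `T ⊇ σ` outside `σ` are called marks.  Two moves:
    (move 1) if `T ⊇ σ` is feasible, `b ∈ F \ T` and `x ∈ T \ σ` is odd then `insert b (T.erase x)` is
       feasible of the same size (odd elements keep their neighbours, since the neighbours of odd
       elements are even; `ee` drops by one; both inequalities stay true).
    (move 2) if `A ⊆ F` with `A.card = M` and there is some feasible `T ⊇ σ` of size `σ.card + M` then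
       `σ ∪ A` is feasible (`Full` clear; `ee (σ ∪ A) = ee σ ≤ ee T`).
  * `F = ∅`: `T1 = σ ∪ marks`.  If `t ∉ T1`: choose a mark `x ∈ T1 \ σ`, `x ≠ s`; then
    `insert t (T1.erase x)` is feasible (`t` is odd, its neighbours are even and in `insert 0 (insert N T2)`,
    hence in `insert 0 (insert N σ)`), and contains `s` and `t`.
  * `1 ≤ F.card < M`: fix `b ∈ F`.  A feasible `T ⊇ σ` of size `σ.card + M` with `b ∉ T` contains at
    least `M - (F.card - 1) ≥ 2` marks, so by move 1 `b` is joined to every element of `T \ σ`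
    (erase a mark different from the given element).  So `s ~ b ~ t` (or equalities).
  * `M ≤ F.card`: by move 2 any two different elements of `F` are joined.  Every `x ∈ T1 \ σ` is in `F`
    or joined to an element of `F`: if `T1` contains an element of `F` that one; otherwise all the
    `M ≥ 3` elements of `T1 \ σ` are marks, take any `b ∈ F` and move 1 with a mark `≠ x`.  So
    `s ~ b ~ b' ~ t` with `b, b' ∈ F` (or equalities).
-/

open Finset

namespace Pool.Agent.LHC

/-- Adjacency. -/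
def FAdj (N l : ℕ) (σ : Finset ℕ) (M s t : ℕ) : Prop :=
  s ∉ σ ∧ t ∉ σ ∧ s ≠ t ∧
    ∃ τ, τ ⊆ Ioo 0 N ∧ insert s (insert t σ) ⊆ τ ∧ τ.card = σ.card + M ∧ Feas N l τ

private def Conn_P (N l : ℕ) (σ : Finset ℕ) (M : ℕ) (T : Finset ℕ) : Prop :=
  T ⊆ Ioo 0 N ∧ σ ⊆ T ∧ T.card = σ.card + M ∧ Feas N l T

private theorem Conn_adj {N l : ℕ} {σ : Finset ℕ} {M : ℕ} {T : Finset ℕ}
    (hT : Conn_P N l σ M T) {s t : ℕ} (hs : s ∈ T) (hs' : s ∉ σ) (ht : t ∈ T) (ht' : t ∉ σ)
    (hst : s ≠ t) : FAdj N l σ M s t :=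
  ⟨hs', ht', hst, T, hT.1, insert_subset hs (insert_subset ht hT.2.1), hT.2.2.1, hT.2.2.2⟩

private theorem Conn_rel {N l : ℕ} {σ : Finset ℕ} {M : ℕ} {T : Finset ℕ}
    (hT : Conn_P N l σ M T) {s t : ℕ} (hs : s ∈ T) (hs' : s ∉ σ) (ht : t ∈ T) (ht' : t ∉ σ) :
    Relation.ReflTransGen (FAdj N l σ M) s t := by
  by_cases h : s = t
  · rw [h]
  · exact Relation.ReflTransGen.single (Conn_adj hT hs hs' ht ht' h)

private theorem Conn_symm {N l : ℕ} {σ : Finset ℕ} {M : ℕ} {s t : ℕ}
    (h : FAdj N l σ M s t) : FAdj N l σ M t s := by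
  obtain ⟨h1, h2, h3, τ, h4, h5, h6⟩ := h
  refine ⟨h2, h1, h3.symm, τ, h4, ?_, h6⟩
  rw [Finset.insert_comm]
  exact h5

private theorem Conn_rsymm {N l : ℕ} {σ : Finset ℕ} {M : ℕ} {s t : ℕ}
    (h : Relation.ReflTransGen (FAdj N l σ M) s t) :
    Relation.ReflTransGen (FAdj N l σ M) t s := by
  induction h with
  | refl => exact Relation.ReflTransGen.refl
  | tail _ h2 ih => exact Relation.ReflTransGen.head (Conn_symm h2) ih

/-- Exchange an odd element of `T` for another element which has its neighbours. -/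
private theorem Conn_exch {N l : ℕ} {σ : Finset ℕ} {M : ℕ} {T : Finset ℕ}
    (hT : Conn_P N l σ M T) {b x : ℕ} (hb : b ∈ Ioo 0 N) (hbT : b ∉ T) (hx : x ∈ T)
    (hxσ : x ∉ σ) (hxo : Odd x)
    (hbn : Odd b → b - 1 ∈ insert 0 σ ∧ b + 1 ∈ insert N σ) :
    Conn_P N l σ M (insert b (T.erase x)) := by
  obtain ⟨h1, h2, h3, ⟨h4, h5, h6⟩, h7, h8⟩ := hT
  have hσ : σ ⊆ insert b (T.erase x) := by
    intro y hy
    refine mem_insert_of_mem (mem_erase.2 ⟨?_, h2 hy⟩)
    rintro rfl
    exact hxσ hy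
  have hsub : insert b (T.erase x) ⊆ Ioo 0 N :=
    insert_subset hb ((erase_subset _ _).trans h1)
  have hcard : (insert b (T.erase x)).card = T.card := by
    rw [card_insert_of_notMem (fun h => hbT (mem_of_mem_erase h)), card_erase_of_mem hx]
    have := card_pos.2 ⟨x, hx⟩
    omega
  have hee : ee (insert b (T.erase x)) ≤ ee T := by
    unfold ee
    have h9 : (filter (fun s => Odd s) (insert b (T.erase x))) ⊆
        insert b ((filter (fun s => Odd s) T).erase x) := by
      intro y hy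
      rw [mem_filter, mem_insert, mem_erase] at hy
      rw [mem_insert, mem_erase, mem_filter]
      tauto
    refine (card_le_card h9).trans ((card_insert_le _ _).trans ?_)
    have h10 : x ∈ filter (fun s => Odd s) T := mem_filter.2 ⟨hx, hxo⟩
    rw [card_erase_of_mem h10, Nat.sub_add_cancel (card_pos.2 ⟨x, h10⟩)]
  have hkeep : ∀ y ∈ T, ¬ Odd y → y ∈ insert b (T.erase x) := by
    intro y hy hyo
    refine mem_insert_of_mem (mem_erase.2 ⟨?_, hy⟩)
    rintro rfl
    exact hyo hxo
  refine ⟨hsub, hσ, hcard.trans h3, ⟨hsub, ?_, ?_⟩, by omega, by omega⟩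
  · intro y hy hyo
    rw [mem_insert] at hy
    rcases hy with rfl | hy
    · obtain ⟨h9, h10⟩ := hbn hyo
      exact ⟨insert_subset_insert _ hσ h9, insert_subset_insert _ hσ h10⟩
    · obtain ⟨h9, h10⟩ := h5 y (mem_of_mem_erase hy) hyo
      rw [mem_insert] at h9 h10
      constructor
      · rcases h9 with h9 | h9
        · rw [h9]
          exact mem_insert_self _ _
        · refine mem_insert_of_mem (hkeep _ h9 ?_)
          rw [Nat.odd_iff] at hyo ⊢
          omega
      · rcases h10 with h10 | h10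
        · rw [h10]
          exact mem_insert_self _ _
        · refine mem_insert_of_mem (hkeep _ h10 ?_)
          rw [Nat.odd_iff] at hyo ⊢
          omega
  · intro hNo
    have h9 := h6 hNo
    rw [mem_insert] at h9
    rcases h9 with h9 | h9
    · rw [h9]
      exact mem_insert_self _ _
    · refine mem_insert_of_mem (hkeep _ h9 ?_)
      rw [Nat.odd_iff] at hNo ⊢
      omega

private theorem Conn_full {N : ℕ} {σ : Finset ℕ} (hσ : σ ⊆ Ioo 0 N) (hn : ¬ Full N σ) :
    ∃ u, u ∉ σ ∧ ∀ T, σ ⊆ T → Full N T → u ∈ T := by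
  by_contra hcon
  push Not at hcon
  apply hn
  refine ⟨hσ, ?_, ?_⟩
  · intro s hs hso
    have hsI := mem_Ioo.1 (hσ hs)
    constructor
    · by_contra h1
      rw [mem_insert, not_or] at h1
      obtain ⟨T, h2, h3, h4⟩ := hcon _ h1.2
      have h5 := (h3.2.1 s (h2 hs) hso).1
      rw [mem_insert] at h5
      rcases h5 with h5 | h5
      · exact h1.1 h5
      · exact h4 h5
    · by_contra h1
      rw [mem_insert, not_or] at h1
      obtain ⟨T, h2, h3, h4⟩ := hcon _ h1.2
      have h5 := (h3.2.1 s (h2 hs) hso).2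
      rw [mem_insert] at h5
      rcases h5 with h5 | h5
      · exact h1.1 h5
      · exact h4 h5
  · intro hNo
    by_contra h1
    rw [mem_insert, not_or] at h1
    obtain ⟨T, h2, h3, h4⟩ := hcon _ h1.2
    have h5 := h3.2.2 hNo
    rw [mem_insert] at h5
    rcases h5 with h5 | h5
    · exact h1.1 h5
    · exact h4 h5

/-- Add `M` even elements to a full set. -/
private theorem Conn_even {N l : ℕ} {σ : Finset ℕ} {M : ℕ} {T A : Finset ℕ}
    (hT : Conn_P N l σ M T) (hf : Full N σ) (hA : A ⊆ (Ioo 0 N \ σ).filter (fun s => ¬ Odd s))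
    (hc : A.card = M) : Conn_P N l σ M (σ ∪ A) := by
  obtain ⟨h1, h2, h3, h4, h7, h8⟩ := hT
  obtain ⟨f1, f2, f3⟩ := hf
  have hA1 : ∀ y ∈ A, y ∈ Ioo 0 N ∧ y ∉ σ ∧ ¬ Odd y := by
    intro y hy
    have := hA hy
    rw [mem_filter, mem_sdiff] at this
    exact ⟨this.1.1, this.1.2, this.2⟩
  have hsub : σ ∪ A ⊆ Ioo 0 N := union_subset f1 fun y hy => (hA1 y hy).1
  have hdis : Disjoint σ A := by
    rw [Finset.disjoint_left]
    intro y hy hyA
    exact (hA1 y hyA).2.1 hy
  have hcard : (σ ∪ A).card = T.card := by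
    rw [card_union_of_disjoint hdis, hc, h3]
  have hee : ee (σ ∪ A) ≤ ee T := by
    unfold ee
    apply card_le_card
    intro y hy
    rw [mem_filter, mem_union] at hy
    rw [mem_filter]
    refine ⟨?_, hy.2⟩
    rcases hy.1 with h | h
    · exact h2 h
    · exact absurd hy.2 (hA1 y h).2.2
  refine ⟨hsub, subset_union_left, hcard.trans h3, ⟨hsub, ?_, ?_⟩, by omega, by omega⟩
  · intro y hy hyo
    rw [mem_union] at hy
    have hyσ : y ∈ σ := by
      rcases hy with h | h
      · exact h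
      · exact absurd hyo (hA1 y h).2.2
    obtain ⟨h9, h10⟩ := f2 y hyσ hyo
    exact ⟨insert_subset_insert _ subset_union_left h9,
      insert_subset_insert _ subset_union_left h10⟩
  · intro hNo
    exact insert_subset_insert _ subset_union_left (f3 hNo)

/-- If there is a free even element then every element is joined to one. -/
private theorem Conn_toF {N l : ℕ} {σ : Finset ℕ} {M : ℕ} (hM : 3 ≤ M) {T : Finset ℕ}
    (hT : Conn_P N l σ M T) {y : ℕ} (hy : y ∈ T) (hyσ : y ∉ σ) {b : ℕ}
    (hb : b ∈ (Ioo 0 N \ σ).filter (fun s => ¬ Odd s))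
    (hF : ∀ c ∈ T, c ∉ σ → ¬ Odd c → ((Ioo 0 N \ σ).filter (fun s => ¬ Odd s)).card < M) :
    Relation.ReflTransGen (FAdj N l σ M) y b := by
  have hb' := hb
  rw [mem_filter, mem_sdiff] at hb'
  obtain ⟨⟨hb1, hb2⟩, hb3⟩ := hb'
  by_cases hbT : b ∈ T
  · exact Conn_rel hT hy hyσ hbT hb2
  -- an odd element of `T` outside `σ`, different from `y`
  have hx : ∃ x ∈ T, x ∉ σ ∧ Odd x ∧ x ≠ y := by
    by_contra hcon
    push Not at hcon
    have hcard : (T \ σ).card = M := by
      rw [card_sdiff_of_subset hT.2.1, hT.2.2.1]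
      omega
    have hsub : (T \ σ).erase y ⊆ ((Ioo 0 N \ σ).filter (fun s => ¬ Odd s)).erase b := by
      intro c hc
      rw [mem_erase, mem_sdiff] at hc
      rw [mem_erase, mem_filter, mem_sdiff]
      refine ⟨?_, ⟨hT.1 hc.2.1, hc.2.2⟩, ?_⟩
      · rintro rfl
        exact hbT hc.2.1
      · intro ho
        exact hc.1 (hcon c hc.2.1 hc.2.2 ho)
    have h1 := card_le_card hsub
    rw [card_erase_of_mem (mem_sdiff.2 ⟨hy, hyσ⟩), card_erase_of_mem hb, hcard] at h1
    -- some element of `(T \ σ).erase y`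
    have h2 : ((T \ σ).erase y).Nonempty := by
      rw [← card_pos, card_erase_of_mem (mem_sdiff.2 ⟨hy, hyσ⟩), hcard]
      omega
    obtain ⟨c, hc⟩ := h2
    rw [mem_erase, mem_sdiff] at hc
    have h3 := hF c hc.2.1 hc.2.2 (fun ho => hc.1 (hcon c hc.2.1 hc.2.2 ho))
    have h4 := card_pos.2 ⟨b, hb⟩
    omega
  obtain ⟨x, hxT, hxσ, hxo, hxy⟩ := hx
  have hP := Conn_exch hT hb1 hbT hxT hxσ hxo (fun h => absurd h hb3)
  exact Conn_rel hP (mem_insert_of_mem (mem_erase.2 ⟨hxy.symm, hy⟩)) hyσ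
    (mem_insert_self _ _) hb2

theorem conn_feas {N l : ℕ} {σ : Finset ℕ} (hN : 2 ≤ N) (hσ : σ ⊆ Ioo 0 N) {M : ℕ} (hM : 3 ≤ M)
    {s t : ℕ} (hs : s ∉ σ) (ht : t ∉ σ)
    (h1 : ∃ τ, τ ⊆ Ioo 0 N ∧ insert s σ ⊆ τ ∧ τ.card = σ.card + M ∧ Feas N l τ)
    (h2 : ∃ τ, τ ⊆ Ioo 0 N ∧ insert t σ ⊆ τ ∧ τ.card = σ.card + M ∧ Feas N l τ) :
    Relation.ReflTransGen (FAdj N l σ M) s t := by
  obtain ⟨T1, a1, a2, a3, a4⟩ := h1
  obtain ⟨T2, b1, b2, b3, b4⟩ := h2
  have hs1 : s ∈ T1 := a2 (mem_insert_self _ _)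
  have ht2 : t ∈ T2 := b2 (mem_insert_self _ _)
  have hP1 : Conn_P N l σ M T1 := ⟨a1, (subset_insert _ _).trans a2, a3, a4⟩
  have hP2 : Conn_P N l σ M T2 := ⟨b1, (subset_insert _ _).trans b2, b3, b4⟩
  by_cases hf : Full N σ
  · rcases ((Ioo 0 N \ σ).filter (fun s => ¬ Odd s)).eq_empty_or_nonempty with hF | ⟨b, hb⟩
    · -- no free even element
      have hev : ∀ y ∈ Ioo 0 N, ¬ Odd y → y ∈ σ := by
        intro y hy hyo
        by_contra hyσ
        have : y ∈ (Ioo 0 N \ σ).filter (fun s => ¬ Odd s) := by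
          rw [mem_filter, mem_sdiff]
          exact ⟨⟨hy, hyσ⟩, hyo⟩
        rw [hF] at this
        exact absurd this (notMem_empty _)
      by_cases ht1 : t ∈ T1
      · exact Conn_rel hP1 hs1 hs ht1 ht
      · have hx : ∃ x ∈ T1, x ∉ σ ∧ x ≠ s := by
          have hcard : (T1 \ σ).card = M := by
            rw [card_sdiff_of_subset hP1.2.1, a3]
            omega
          have h2 : ((T1 \ σ).erase s).Nonempty := by
            rw [← card_pos, card_erase_of_mem (mem_sdiff.2 ⟨hs1, hs⟩), hcard]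
            omega
          obtain ⟨c, hc⟩ := h2
          rw [mem_erase, mem_sdiff] at hc
          exact ⟨c, hc.2.1, hc.2.2, hc.1⟩
        obtain ⟨x, hx1, hxσ, hxs⟩ := hx
        have hxo : Odd x := by
          by_contra h
          exact hxσ (hev x (a1 hx1) h)
        have hP := Conn_exch hP1 (b1 ht2) ht1 hx1 hxσ hxo ?_
        · exact Conn_rel hP (mem_insert_of_mem (mem_erase.2 ⟨hxs.symm, hs1⟩)) hs
            (mem_insert_self _ _) ht
        · intro hto
          obtain ⟨h9, h10⟩ := b4.1.2.1 t ht2 hto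
          rw [mem_insert] at h9 h10
          constructor
          · rcases h9 with h9 | h9
            · rw [h9]
              exact mem_insert_self _ _
            · refine mem_insert_of_mem (hev _ (b1 h9) ?_)
              rw [Nat.odd_iff] at hto ⊢
              omega
          · rcases h10 with h10 | h10
            · rw [h10]
              exact mem_insert_self _ _
            · refine mem_insert_of_mem (hev _ (b1 h10) ?_)
              rw [Nat.odd_iff] at hto ⊢
              omega
    · by_cases hFM : ((Ioo 0 N \ σ).filter (fun s => ¬ Odd s)).card < M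
      · exact (Conn_toF hM hP1 hs1 hs hb (fun _ _ _ _ => hFM)).trans
          (Conn_rsymm (Conn_toF hM hP2 ht2 ht hb (fun _ _ _ _ => hFM)))
      · -- every element is joined to a free even element
        have hto : ∀ T y, Conn_P N l σ M T → y ∈ T → y ∉ σ →
            ∃ c ∈ (Ioo 0 N \ σ).filter (fun s => ¬ Odd s),
              Relation.ReflTransGen (FAdj N l σ M) y c := by
          intro T y hT hy hyσ
          by_cases hc : ∃ c ∈ T, c ∉ σ ∧ ¬ Odd c
          · obtain ⟨c, hc1, hc2, hc3⟩ := hc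
            refine ⟨c, ?_, Conn_rel hT hy hyσ hc1 hc2⟩
            rw [mem_filter, mem_sdiff]
            exact ⟨⟨hT.1 hc1, hc2⟩, hc3⟩
          · push Not at hc
            exact ⟨b, hb, Conn_toF hM hT hy hyσ hb
              (fun c h3 h4 h5 => absurd (hc c h3 h4) h5)⟩
        obtain ⟨c, hc, hsc⟩ := hto T1 s hP1 hs1 hs
        obtain ⟨d, hd, htd⟩ := hto T2 t hP2 ht2 ht
        refine hsc.trans (Relation.ReflTransGen.trans ?_ (Conn_rsymm htd))
        have hcd : ({c, d} : Finset ℕ) ⊆ (Ioo 0 N \ σ).filter (fun s => ¬ Odd s) := by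
          intro y hy
          rw [mem_insert, mem_singleton] at hy
          rcases hy with rfl | rfl
          · exact hc
          · exact hd
        have hcard2 : ({c, d} : Finset ℕ).card ≤ M := by
          have := card_le_two (a := c) (b := d)
          omega
        obtain ⟨A, hA1, hA2, hA3⟩ := exists_subsuperset_card_eq hcd hcard2 (by omega)
        have hP := Conn_even hP1 hf hA2 hA3
        rw [mem_filter, mem_sdiff] at hc hd
        refine Conn_rel hP (mem_union_right _ (hA1 ?_)) hc.1.2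
          (mem_union_right _ (hA1 ?_)) hd.1.2
        · exact mem_insert_self _ _
        · exact mem_insert_of_mem (mem_singleton_self _)
  · obtain ⟨u, hu, hall⟩ := Conn_full hσ hf
    have hu1 := hall T1 hP1.2.1 a4.1
    have hu2 := hall T2 hP2.2.1 b4.1
    exact (Conn_rel hP1 hs1 hs hu1 hu).trans (Conn_rel hP2 hu2 hu ht2 ht)

end Pool.Agent.LHC
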