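import Pool.Agent.LHC.PosIff

/-!
Module LHC-Defic: the base form when `σ` is not full.

If `σ ⊆ Ioo 0 N` is not `Full` there is `u ∈ Ioo 0 N \ σ` contained in every `Full` set `τ ⊇ σ`: if an
odd `s ∈ σ` has `s - 1 ∉ insert 0 σ` take `u = s - 1`; if `s + 1 ∉ insert N σ` take `u = s + 1`; if `N` is
odd and `N - 1 ∉ insert 0 σ` take `u = N - 1`.
Take `L (z, f) = dev N σ f u` (linear: `dev_add`, `dev_smul`).  If `L (z,f) = 0` then, writing
`W = WW τ N l` (which vanishes on sets that are not full: `WW_pos_iff` and `WW_nonneg`),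
`(TT a * TT a) W σ = z^2 W σ + 2 z ∑_s dev σ f s W(insert s σ)
     + ∑_s ∑_(t ∉ insert s σ) dev σ f s * dev (insert s σ) f t * W (insert t (insert s σ))`.
The first term vanishes; in the second only `s = u` can contribute, and `dev σ f u = 0`; in the third
only `s = u` (zero) and `t = u`: by `dev_insert`, `dev (insert s σ) f u` is `dev σ f u = 0` if `s` is in
another gap, and `dev σ f u - dev σ f s * (positive) = - (positive) * dev σ f s` if `s` is in the gap of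
`u`; so every term is `≤ 0`.
-/

open Finset

namespace Pool.Agent.LHC

variable {N : ℕ} {σ : Finset ℕ} {τ : ℕ → ℝ}

/-- Expansion of the square of `TT a`. -/
theorem TT_TT_apply (hσ : σ ⊆ Ioo 0 N) (a : ℝ × (ℕ → ℝ)) (W : Finset ℕ → ℝ) :
    (TT N a * TT N a) W σ = a.1 ^ 2 * W σ +
      2 * a.1 * (∑ s ∈ Ioo 0 N \ σ, dev N σ a.2 s * W (insert s σ)) +
      ∑ s ∈ Ioo 0 N \ σ, ∑ t ∈ Ioo 0 N \ (insert s σ),
        dev N σ a.2 s * dev N (insert s σ) a.2 t * W (insert t (insert s σ)) := by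
  have h1 : ∀ ρ : Finset ℕ, ρ ⊆ Ioo 0 N →
      TT N a W ρ = a.1 * W ρ + ∑ s ∈ Ioo 0 N \ ρ, dev N ρ a.2 s * W (insert s ρ) := by
    intro ρ hρ
    rw [TT_apply, Dop_apply, if_pos hρ]
  have h2 : (TT N a * TT N a) W σ = TT N a (TT N a W) σ := rfl
  have h3 : ∑ s ∈ Ioo 0 N \ σ, dev N σ a.2 s * (TT N a W (insert s σ)) =
      ∑ s ∈ Ioo 0 N \ σ, (a.1 * (dev N σ a.2 s * W (insert s σ)) +
        ∑ t ∈ Ioo 0 N \ (insert s σ),
          dev N σ a.2 s * dev N (insert s σ) a.2 t * W (insert t (insert s σ))) := by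
    refine sum_congr rfl fun s hs => ?_
    rw [h1 _ (insert_subset (mem_sdiff.1 hs).1 hσ), mul_add, mul_sum]
    congr 1
    · ring
    · exact sum_congr rfl fun t _ => by ring
  rw [h2, TT_apply, Dop_apply, if_pos hσ, h1 σ hσ, h3, sum_add_distrib, ← mul_sum]
  ring

theorem exists_missing (hN : 2 ≤ N) (hσ : σ ⊆ Ioo 0 N) (h : ¬ Full N σ) :
    ∃ u ∈ Ioo 0 N \ σ, ∀ τ, Full N τ → σ ⊆ τ → u ∈ τ := by
  by_cases hA : ∃ s ∈ σ, Odd s ∧ s - 1 ∉ insert 0 σ
  · obtain ⟨s, hs, hso, hs1⟩ := hA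
    have hsN := (mem_Ioo.1 (hσ hs)).2
    have hs0 := (mem_Ioo.1 (hσ hs)).1
    have hne : s - 1 ≠ 0 := fun h0 => hs1 (by rw [h0]; exact mem_insert_self _ _)
    refine ⟨s - 1, mem_sdiff.2 ⟨mem_Ioo.2 ⟨by omega, by omega⟩,
      fun h0 => hs1 (mem_insert_of_mem h0)⟩, fun τ hτ hst => ?_⟩
    rcases mem_insert.1 (hτ.2.1 s (hst hs) hso).1 with h0 | h0
    · exact absurd h0 hne
    · exact h0
  · by_cases hB : ∃ s ∈ σ, Odd s ∧ s + 1 ∉ insert N σ
    · obtain ⟨s, hs, hso, hs1⟩ := hB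
      have hsN := (mem_Ioo.1 (hσ hs)).2
      have hs0 := (mem_Ioo.1 (hσ hs)).1
      have hne : s + 1 ≠ N := fun h0 => hs1 (by rw [h0]; exact mem_insert_self _ _)
      refine ⟨s + 1, mem_sdiff.2 ⟨mem_Ioo.2 ⟨by omega, by omega⟩,
        fun h0 => hs1 (mem_insert_of_mem h0)⟩, fun τ hτ hst => ?_⟩
      rcases mem_insert.1 (hτ.2.1 s (hst hs) hso).2 with h0 | h0
      · exact absurd h0 hne
      · exact h0
    · have hC : Odd N ∧ N - 1 ∉ insert 0 σ := by
        by_contra hC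
        apply h
        refine ⟨hσ, fun s hs hso => ⟨?_, ?_⟩, fun hNo => ?_⟩
        · by_contra h1
          exact hA ⟨s, hs, hso, h1⟩
        · by_contra h1
          exact hB ⟨s, hs, hso, h1⟩
        · by_contra h1
          exact hC ⟨hNo, h1⟩
      have hne : N - 1 ≠ 0 := by omega
      refine ⟨N - 1, mem_sdiff.2 ⟨mem_Ioo.2 ⟨by omega, by omega⟩,
        fun h0 => hC.2 (mem_insert_of_mem h0)⟩, fun τ hτ _ => ?_⟩
      rcases mem_insert.1 (hτ.2.2 hC.1) with h0 | h0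
      · exact absurd h0 hne
      · exact h0

theorem h1_deficient (hτ : TauData τ) (hN : 2 ≤ N) (l : ℕ) (hσ : σ ⊆ Ioo 0 N)
    (h : ¬ Full N σ) :
    ∃ L : (ℝ × (ℕ → ℝ)) →ₗ[ℝ] ℝ, ∀ a, L a = 0 → (TT N a * TT N a) (WW τ N l) σ ≤ 0 := by
  obtain ⟨u, hu, hmiss⟩ := exists_missing hN hσ h
  obtain ⟨hu1, hu2⟩ := mem_sdiff.1 hu
  have hu0 := (mem_Ioo.1 hu1).1
  have huN := (mem_Ioo.1 hu1).2
  let L : (ℝ × (ℕ → ℝ)) →ₗ[ℝ] ℝ :=
    { toFun := fun a => dev N σ a.2 u
      map_add' := fun a b => dev_add N σ a.2 b.2 u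
      map_smul' := fun c a => dev_smul N σ c a.2 u }
  refine ⟨L, fun a ha => ?_⟩
  have ha' : dev N σ a.2 u = 0 := ha
  have hW : ∀ ρ : Finset ℕ, ρ ⊆ Ioo 0 N → σ ⊆ ρ → u ∉ ρ → WW τ N l ρ = 0 := by
    intro ρ hρ hσρ huρ
    have h1 := WW_nonneg hτ hN l hρ
    rcases h1.lt_or_eq with h2 | h2
    · exact absurd (hmiss ρ ((WW_pos_iff hτ hN l hρ).1 h2).1 hσρ) huρ
    · exact h2.symm
  rw [TT_TT_apply hσ, hW σ hσ subset_rfl hu2]
  have h2 : ∑ s ∈ Ioo 0 N \ σ, dev N σ a.2 s * WW τ N l (insert s σ) = 0 := by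
    refine sum_eq_zero fun s hs => ?_
    by_cases hsu : s = u
    · rw [hsu, ha', zero_mul]
    · rw [hW (insert s σ) (insert_subset (mem_sdiff.1 hs).1 hσ) (subset_insert _ _), mul_zero]
      intro h0
      rcases mem_insert.1 h0 with h0 | h0
      · exact hsu h0.symm
      · exact hu2 h0
  rw [h2, mul_zero, mul_zero, zero_add, zero_add]
  refine sum_nonpos fun s hs => sum_nonpos fun t ht => ?_
  obtain ⟨hs1, hs2⟩ := mem_sdiff.1 hs
  obtain ⟨ht1, ht2⟩ := mem_sdiff.1 ht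
  have hsub : insert t (insert s σ) ⊆ Ioo 0 N := insert_subset ht1 (insert_subset hs1 hσ)
  by_cases hsu : s = u
  · rw [hsu, ha', zero_mul, zero_mul]
  by_cases htu : t = u
  · have hWn : 0 ≤ WW τ N l (insert t (insert s σ)) := WW_nonneg hτ hN l hsub
    rw [htu] at hWn ⊢
    rw [dev_insert hσ a.2 hs hu (Ne.symm hsu), ha']
    have hlo : (lo σ u : ℝ) < u := by exact_mod_cast lo_lt (σ := σ) hu0
    have hhi : (u : ℝ) < hi N σ u := by exact_mod_cast lt_hi (σ := σ) huN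
    split_ifs with h3 h4
    · have h5 : (s : ℝ) < u := by exact_mod_cast h3.2
      have hc : 0 ≤ ((hi N σ u : ℝ) - u) / ((hi N σ u : ℝ) - s) :=
        div_nonneg (by linarith) (by linarith)
      have e : dev N σ a.2 s * (0 - dev N σ a.2 s * (((hi N σ u : ℝ) - u) / ((hi N σ u : ℝ) - s))) *
          WW τ N l (insert u (insert s σ)) =
          -(dev N σ a.2 s ^ 2 * (((hi N σ u : ℝ) - u) / ((hi N σ u : ℝ) - s)) *
          WW τ N l (insert u (insert s σ))) := by ring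
      rw [e, neg_nonpos]
      exact mul_nonneg (mul_nonneg (sq_nonneg _) hc) hWn
    · have h5 : (u : ℝ) < s := by exact_mod_cast h4.1
      have hc : 0 ≤ ((u : ℝ) - lo σ u) / ((s : ℝ) - lo σ u) :=
        div_nonneg (by linarith) (by linarith)
      have e : dev N σ a.2 s * (0 - dev N σ a.2 s * (((u : ℝ) - lo σ u) / ((s : ℝ) - lo σ u))) *
          WW τ N l (insert u (insert s σ)) =
          -(dev N σ a.2 s ^ 2 * (((u : ℝ) - lo σ u) / ((s : ℝ) - lo σ u)) *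
          WW τ N l (insert u (insert s σ))) := by ring
      rw [e, neg_nonpos]
      exact mul_nonneg (mul_nonneg (sq_nonneg _) hc) hWn
    · rw [mul_zero, zero_mul]
  · rw [hW (insert t (insert s σ)) hsub
      ((subset_insert _ _).trans (subset_insert _ _)), mul_zero]
    intro h0
    rcases mem_insert.1 h0 with h0 | h0
    · exact htu h0.symm
    · rcases mem_insert.1 h0 with h0 | h0
      · exact hsu h0.symm
      · exact hu2 h0

end Pool.Agent.LHC
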