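import Mathlib

/-!
Project LHC (MP_b3345f_ag): definitions of the one dimensional model.

Positions are the integers strictly between `0` and `N`.  For a set `σ` of positions the points
of `insert 0 (insert N σ)` cut `[0, N]` into gaps.
-/

open Finset

namespace Pool.Agent.LHC

/-- Lower neighbour of `s` in `insert 0 σ`. -/
def lo (σ : Finset ℕ) (s : ℕ) : ℕ := (σ.filter (fun t => t < s)).sup id

/-- Upper neighbour of `s` in `insert N σ`. -/
def hi (N : ℕ) (σ : Finset ℕ) (s : ℕ) : ℕ :=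
  if h : (σ.filter (fun t => s < t)).Nonempty then (σ.filter (fun t => s < t)).min' h else N

/-- Value at `s` of `f` minus the linear interpolation of `f` between the two neighbours. -/
noncomputable def dev (N : ℕ) (σ : Finset ℕ) (f : ℕ → ℝ) (s : ℕ) : ℝ :=
  f s - (((hi N σ s : ℝ) - s) * f (lo σ s) + ((s : ℝ) - lo σ s) * f (hi N σ s)) /
    ((hi N σ s : ℝ) - lo σ s)

theorem dev_add (N : ℕ) (σ : Finset ℕ) (f g : ℕ → ℝ) (s : ℕ) :
    dev N σ (f + g) s = dev N σ f s + dev N σ g s := by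
  simp only [dev, Pi.add_apply]; ring

theorem dev_smul (N : ℕ) (σ : Finset ℕ) (c : ℝ) (f : ℕ → ℝ) (s : ℕ) :
    dev N σ (c • f) s = c * dev N σ f s := by
  simp only [dev, Pi.smul_apply, smul_eq_mul]; ring

/-- The operator `D_f`. -/
noncomputable def Dop (N : ℕ) (f : ℕ → ℝ) : Module.End ℝ (Finset ℕ → ℝ) where
  toFun Φ σ := if σ ⊆ Ioo 0 N then ∑ s ∈ Ioo 0 N \ σ, dev N σ f s * Φ (insert s σ) else 0
  map_add' Φ Ψ := by
    ext σ
    by_cases h : σ ⊆ Ioo 0 N
    · simp only [if_pos h, Pi.add_apply, mul_add, sum_add_distrib]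
    · simp only [if_neg h, Pi.add_apply, add_zero]
  map_smul' c Φ := by
    ext σ
    by_cases h : σ ⊆ Ioo 0 N
    · simp only [if_pos h, Pi.smul_apply, smul_eq_mul, RingHom.id_apply, mul_sum]
      exact sum_congr rfl (fun s _ => by ring)
    · simp only [if_neg h, Pi.smul_apply, smul_eq_mul, RingHom.id_apply, mul_zero]

theorem Dop_apply (N : ℕ) (f : ℕ → ℝ) (Φ : Finset ℕ → ℝ) (σ : Finset ℕ) :
    Dop N f Φ σ =
      if σ ⊆ Ioo 0 N then ∑ s ∈ Ioo 0 N \ σ, dev N σ f s * Φ (insert s σ) else 0 := rfl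

/-- The operator `z + D_f` as a linear map in `(z, f)`. -/
noncomputable def TT (N : ℕ) : (ℝ × (ℕ → ℝ)) →ₗ[ℝ] Module.End ℝ (Finset ℕ → ℝ) where
  toFun a := a.1 • (1 : Module.End ℝ (Finset ℕ → ℝ)) + Dop N a.2
  map_add' a b := by
    ext Φ σ
    simp only [Prod.fst_add, Prod.snd_add, add_smul, LinearMap.add_apply, LinearMap.smul_apply,
      Module.End.one_apply, Pi.add_apply, Pi.smul_apply, smul_eq_mul, Dop_apply]
    by_cases h : σ ⊆ Ioo 0 N
    · simp only [if_pos h, dev_add, add_mul, sum_add_distrib]; ring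
    · simp only [if_neg h]; ring
  map_smul' c a := by
    ext Φ σ
    simp only [Prod.smul_fst, Prod.smul_snd, smul_eq_mul, mul_smul, LinearMap.add_apply,
      LinearMap.smul_apply, Module.End.one_apply, Pi.add_apply, Pi.smul_apply, Dop_apply,
      RingHom.id_apply, smul_add]
    by_cases h : σ ⊆ Ioo 0 N
    · simp only [if_pos h, dev_smul, mul_sum]
      congr 1
      exact sum_congr rfl (fun s _ => by ring)
    · simp only [if_neg h, mul_zero]

theorem TT_apply (N : ℕ) (a : ℝ × (ℕ → ℝ)) (Φ : Finset ℕ → ℝ) (σ : Finset ℕ) :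
    TT N a Φ σ = a.1 * Φ σ + Dop N a.2 Φ σ := rfl

/-- The bilinear form with `m` copies of `η`. -/
noncomputable def Bf (N : ℕ) (η : ℕ → ℝ) (W : Finset ℕ → ℝ) (m : ℕ) (σ : Finset ℕ)
    (a b : ℝ × (ℕ → ℝ)) : ℝ := ((Dop N η) ^ m * (TT N a * TT N b)) W σ

/-- Gap weight. -/
noncomputable def gapW (τ : ℕ → ℝ) (u v : ℕ) : ℝ :=
  if Even u ∧ Even v then τ ((v - u) / 2) else if v = u + 1 then 1 else 0

/-- Product of the gap weights. -/
noncomputable def Gp (τ : ℕ → ℝ) (N : ℕ) (σ : Finset ℕ) : ℝ :=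
  ∏ u ∈ insert 0 σ, gapW τ u (hi N σ u)

/-- Number of gaps with two even endpoints. -/
def pp (N : ℕ) (σ : Finset ℕ) : ℕ :=
  ((insert 0 σ).filter (fun u => Even u ∧ Even (hi N σ u))).card

/-- Number of odd elements. -/
def ee (σ : Finset ℕ) : ℕ := (σ.filter (fun s => Odd s)).card

/-- Binomial coefficient with integer lower index. -/
noncomputable def binZ (p : ℕ) (a : ℤ) : ℝ := if 0 ≤ a then (p.choose a.toNat : ℝ) else 0

/-- The weight `W_l`. -/
noncomputable def WW (τ : ℕ → ℝ) (N l : ℕ) (σ : Finset ℕ) : ℝ :=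
  (N.factorial : ℝ) * Gp τ N σ *
    binZ (pp N σ) ((l : ℤ) + ee σ + pp N σ - ((N / 2 : ℕ) : ℤ))

/-- Every odd element has both neighbours. -/
def Full (N : ℕ) (σ : Finset ℕ) : Prop :=
  σ ⊆ Ioo 0 N ∧ (∀ s ∈ σ, Odd s → s - 1 ∈ insert 0 σ ∧ s + 1 ∈ insert N σ) ∧
    (Odd N → N - 1 ∈ insert 0 σ)

/-- The cotangent class. -/
noncomputable def psi0 (N : ℕ) (s : ℕ) : ℝ := if s < N then (s : ℝ) / N else 0

/-- The data on the sequence `τ` used in the inequalities. -/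
structure TauData (τ : ℕ → ℝ) : Prop where
  pos : ∀ k, 1 ≤ k → 0 < τ k
  one : τ 1 = 1 / 2
  recu : ∀ h : ℕ, 2 ≤ h → (h : ℝ) * (2 * h - 1) * τ h =
    2 * ∑ k ∈ Ioo 0 h, (k : ℝ) * ((h : ℝ) - k) * (τ k * τ (h - k))
  logc : ∀ j k h : ℕ, 1 ≤ j → j < k → k < h → τ k * τ (h - j) ≤ τ h * τ (k - j)

/-- Tangent numbers divided by `(2h-1)!`. -/
noncomputable def theta : ℕ → ℝ
  | 0 => 0
  | 1 => 1
  | (n + 2) => (∑ k : Fin (n + 1), theta (k.1 + 1) * theta (n + 1 - k.1)) / (2 * (n + 2 : ℝ) - 1)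
decreasing_by
  · omega
  · omega

/-- Tangent numbers divided by `(2h)!`. -/
noncomputable def tau (h : ℕ) : ℝ := theta h / (2 * h)

end Pool.Agent.LHC
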