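import Pool.Agent.LHC.Hom

/-!
Module LHC-EvenA: forgetting a block `E`, the ring map.

`L` blocks, `E ∈ L`, `3 ≤ L.card`, `L₀ = L.erase E`.  `phiE` sends `X T` to `X T + X (T ∪ E)` for `T` valid for `L₀`
and to `0` otherwise.  The valid sets for `L` are: the valid sets `T` for `L₀`; the sets `T ∪ E`, `T` valid for `L₀`;
and the sets `A ∪ E`, `A ∈ L₀` (`valid_cases`).
`phiE_bI`: generators of `bI L₀`.  Invalid variable: `0`.  Incompatible `S, T` (both valid for `L₀`): the four
pairs `(S, T), (S, T ∪ E), (S ∪ E, T), (S ∪ E, T ∪ E)` are incompatible (`E` is disjoint from `S, T`).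
Linear relation for `a ∈ A`, `b ∈ B`, `A ≠ B` in `L₀`: every valid set for `L` containing `a, b` is `T` or `T ∪ E` with `T` valid for
`L₀` containing `a, b`, uniquely; so the image is the linear relation for `L` up to invalid variables.
-/

open Finset MvPolynomial Pool.Agent.helper17

namespace Pool.Agent.LHC

variable {γ : Type*} [DecidableEq γ] [Fintype γ] {L : Finset (Finset γ)} {E : Finset γ}

/-- The pull back under forgetting the block `E`. -/
noncomputable def phiE (L : Finset (Finset γ)) (E : Finset γ) :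
    MvPolynomial (Finset γ) ℚ →ₐ[ℚ] MvPolynomial (Finset γ) ℚ :=
  aeval (fun T => if Valid (L.erase E) T then X T + X (T ∪ E) else 0)

private theorem EvenA_X (T : Finset γ) :
    phiE L E (X T) = if Valid (L.erase E) T then X T + X (T ∪ E) else 0 := by
  unfold phiE
  rw [aeval_X]

omit [Fintype γ] in
private theorem EvenA_compat {S T E : Finset γ} (hE : E.Nonempty) (hS : Disjoint S E)
    (hT : Disjoint T E) (hST : ¬ Compat S T) :
    ¬ Compat S (T ∪ E) ∧ ¬ Compat (S ∪ E) T ∧ ¬ Compat (S ∪ E) (T ∪ E) := by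
  obtain ⟨x, hx⟩ := hE
  have key : ∀ {A B : Finset γ}, Disjoint A E → A ⊆ B ∪ E → A ⊆ B := by
    intro A B hA hAB y hy
    exact (mem_union.mp (hAB hy)).resolve_right (fun h => disjoint_left.mp hA hy h)
  refine ⟨?_, ?_, ?_⟩
  · rintro (h | h | h)
    · exact hST (Or.inl (key hS h))
    · exact disjoint_left.mp hS (h (mem_union_right _ hx)) hx
    · exact hST (Or.inr (Or.inr (disjoint_of_subset_right subset_union_left h)))
  · rintro (h | h | h)
    · exact disjoint_left.mp hT (h (mem_union_right _ hx)) hx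
    · exact hST (Or.inr (Or.inl (key hT h)))
    · exact hST (Or.inr (Or.inr (disjoint_of_subset_left subset_union_left h)))
  · rintro (h | h | h)
    · exact hST (Or.inl (key hS (subset_union_left.trans h)))
    · exact hST (Or.inr (Or.inl (key hT (subset_union_left.trans h))))
    · exact disjoint_left.mp h (mem_union_right _ hx) (mem_union_right _ hx)

theorem isBlocks_erase (hL : IsBlocks L) : IsBlocks (L.erase E) := by
  refine ⟨fun A hA => hL.ne A (mem_erase.mp hA).2, fun A hA B hB hne => ?_⟩
  exact hL.disj A (mem_erase.mp hA).2 B (mem_erase.mp hB).2 hne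

variable (hL : IsBlocks L) (hE : E ∈ L)
include hL hE

theorem disjoint_E {T : Finset γ} (hT : Valid (L.erase E) T) : Disjoint T E := by
  rw [disjoint_left]
  intro x hx hxE
  obtain ⟨A, hA, hxA⟩ := mem_U.mp (hT.1 hx)
  rw [mem_erase] at hA
  exact disjoint_left.mp (hL.disj A hA.2 E hE hA.1) hxA hxE

theorem valid_of_erase {T : Finset γ} (hT : Valid (L.erase E) T) :
    Valid L T ∧ Valid L (T ∪ E) := by
  have hd := disjoint_E hL hE hT
  have hU : T ⊆ U L := by
    intro x hx
    obtain ⟨A, hA, hxA⟩ := mem_U.mp (hT.1 hx)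
    exact mem_U.mpr ⟨A, (mem_erase.mp hA).2, hxA⟩
  refine ⟨⟨hU, ?_, ?_, hT.2.2.2⟩, ?_⟩
  · intro A hA
    by_cases h : A = E
    · rw [h]
      exact Or.inr hd.symm
    · exact hT.2.1 A (mem_erase.mpr ⟨h, hA⟩)
  · intro hTL
    have hTE : T ≠ E := by
      intro h
      obtain ⟨x, hx⟩ := hT.2.2.2
      exact disjoint_left.mp hd hx (h ▸ hx)
    exact hT.2.2.1 (mem_erase.mpr ⟨hTE, hTL⟩)
  · refine valid_of_union hL (union_subset hU (subset_U hE)) ?_ ?_
    · intro A hA
      by_cases h : A = E
      · rw [h]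
        exact Or.inl subset_union_right
      · rcases hT.2.1 A (mem_erase.mpr ⟨h, hA⟩) with h1 | h1
        · exact Or.inl (h1.trans subset_union_left)
        · right
          rw [disjoint_union_right]
          exact ⟨h1, hL.disj A hA E hE h⟩
    · refine hT.two_le.trans (card_le_card ?_)
      intro A hA
      rw [mem_blk, mem_erase] at hA
      rw [mem_blk]
      exact ⟨hA.1.2, hA.2.trans subset_union_left⟩

theorem valid_cases {T : Finset γ} (hT : Valid L T) :
    (Valid (L.erase E) T) ∨ (∃ S, Valid (L.erase E) S ∧ T = S ∪ E) ∨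
      (∃ A ∈ L.erase E, T = A ∪ E) := by
  rcases hT.2.1 E hE with hET | hET
  · right
    have hTS : T = (T \ E) ∪ E := (sdiff_union_of_subset hET).symm
    have hTne : T ≠ E := fun h => hT.2.2.1 (h ▸ hE)
    by_cases hS : (T \ E) ∈ L.erase E
    · exact Or.inr ⟨T \ E, hS, hTS⟩
    · left
      refine ⟨T \ E, ⟨?_, ?_, hS, ?_⟩, hTS⟩
      · intro x hx
        rw [mem_sdiff] at hx
        obtain ⟨A, hA, hxA⟩ := mem_U.mp (hT.1 hx.1)
        refine mem_U.mpr ⟨A, mem_erase.mpr ⟨?_, hA⟩, hxA⟩
        rintro rfl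
        exact hx.2 hxA
      · intro A hA
        rw [mem_erase] at hA
        have hAE := hL.disj A hA.2 E hE hA.1
        rcases hT.2.1 A hA.2 with h | h
        · left
          intro x hx
          rw [mem_sdiff]
          exact ⟨h hx, fun hxE => disjoint_left.mp hAE hx hxE⟩
        · right
          exact disjoint_of_subset_right sdiff_subset h
      · rw [sdiff_nonempty]
        intro h
        exact hTne (Subset.antisymm h hET)
  · left
    refine ⟨?_, fun A hA => hT.2.1 A (mem_erase.mp hA).2, fun h => hT.2.2.1 (mem_erase.mp h).2,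
      hT.2.2.2⟩
    intro x hx
    obtain ⟨A, hA, hxA⟩ := mem_U.mp (hT.1 hx)
    refine mem_U.mpr ⟨A, mem_erase.mpr ⟨?_, hA⟩, hxA⟩
    rintro rfl
    exact disjoint_left.mp hET hxA hx

theorem phiE_bI {p : MvPolynomial (Finset γ) ℚ} (hp : p ∈ bI (L.erase E)) :
    phiE L E p ∈ bI L := by
  have hle : bI (L.erase E) ≤ (bI L).comap (phiE L E) := by
    unfold bI
    rw [Ideal.span_le]
    rintro q ((⟨T, hT, rfl⟩ | ⟨S, T, hST, rfl⟩) | ⟨A, hA, B, hB, a, ha, b, hb, hne, rfl⟩)
    · change phiE L E (X T) ∈ bI L
      rw [EvenA_X, if_neg hT]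
      exact Ideal.zero_mem _
    · change phiE L E (X S * X T) ∈ bI L
      rw [map_mul, EvenA_X, EvenA_X]
      by_cases hS : Valid (L.erase E) S
      · by_cases hT : Valid (L.erase E) T
        · rw [if_pos hS, if_pos hT, add_mul, mul_add, mul_add]
          have hdS := disjoint_E hL hE hS
          have hdT := disjoint_E hL hE hT
          obtain ⟨c1, c2, c3⟩ := EvenA_compat (hL.ne E hE) hdS hdT hST
          exact Ideal.add_mem _
            (Ideal.add_mem _ (XX_mem_of_not_compat L hST) (XX_mem_of_not_compat L c1))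
            (Ideal.add_mem _ (XX_mem_of_not_compat L c2) (XX_mem_of_not_compat L c3))
        · rw [if_neg hT, mul_zero]
          exact Ideal.zero_mem _
      · rw [if_neg hS, zero_mul]
        exact Ideal.zero_mem _
    · change phiE L E (∑ T ∈ univ.filter (fun T : Finset γ => a ∈ T ∧ b ∈ T), X T) ∈ bI L
      rw [map_sum]
      rw [mem_erase] at hA hB
      have hlin := lin_mem hA.2 hB.2 hne ha hb
      have haE : a ∉ E := fun h => disjoint_left.mp (hL.disj A hA.2 E hE hA.1) ha h
      have hbE : b ∉ E := fun h => disjoint_left.mp (hL.disj B hB.2 E hE hB.1) hb h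
      -- left hand side
      have e1 : ∑ T ∈ univ.filter (fun T : Finset γ => a ∈ T ∧ b ∈ T), phiE L E (X T) =
          ∑ T ∈ univ.filter (fun T : Finset γ => (a ∈ T ∧ b ∈ T) ∧ Valid (L.erase E) T),
            (X T + X (T ∪ E) : MvPolynomial (Finset γ) ℚ) := by
        rw [sum_congr rfl (fun T _ => EvenA_X T), ← sum_filter, filter_filter]
      -- right hand side
      have e2 : ∑ T ∈ univ.filter (fun T : Finset γ => a ∈ T ∧ b ∈ T),
            (X T : MvPolynomial (Finset γ) ℚ) =
          ∑ T ∈ univ.filter (fun T : Finset γ => (a ∈ T ∧ b ∈ T) ∧ Valid L T), X T +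
          ∑ T ∈ univ.filter (fun T : Finset γ => (a ∈ T ∧ b ∈ T) ∧ ¬ Valid L T), X T := by
        rw [← sum_filter_add_sum_filter_not (univ.filter (fun T : Finset γ => a ∈ T ∧ b ∈ T))
          (fun T => Valid L T), filter_filter, filter_filter]
      have e3 : ∑ T ∈ univ.filter (fun T : Finset γ => (a ∈ T ∧ b ∈ T) ∧ ¬ Valid L T),
          (X T : MvPolynomial (Finset γ) ℚ) ∈ bI L := by
        apply Ideal.sum_mem
        intro T hT
        exact X_mem_of_not_valid (mem_filter.mp hT).2.2
      have e4 : univ.filter (fun T : Finset γ => (a ∈ T ∧ b ∈ T) ∧ Valid L T) =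
          univ.filter (fun T : Finset γ => (a ∈ T ∧ b ∈ T) ∧ Valid (L.erase E) T) ∪
          (univ.filter (fun T : Finset γ => (a ∈ T ∧ b ∈ T) ∧ Valid (L.erase E) T)).image
            (fun T => T ∪ E) := by
        ext T
        rw [mem_union, mem_image]
        simp only [mem_filter, mem_univ, true_and]
        constructor
        · rintro ⟨⟨haT, hbT⟩, hT⟩
          rcases valid_cases hL hE hT with h | ⟨S, hS, rfl⟩ | ⟨D, hD, rfl⟩
          · exact Or.inl ⟨⟨haT, hbT⟩, h⟩
          · refine Or.inr ⟨S, ⟨⟨?_, ?_⟩, hS⟩, rfl⟩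
            · exact (mem_union.mp haT).resolve_right haE
            · exact (mem_union.mp hbT).resolve_right hbE
          · exfalso
            have haD := (mem_union.mp haT).resolve_right haE
            have hbD := (mem_union.mp hbT).resolve_right hbE
            rw [mem_erase] at hD
            have hAD : A = D := by
              by_contra h
              exact disjoint_left.mp (hL.disj A hA.2 D hD.2 h) ha haD
            have hBD : B = D := by
              by_contra h
              exact disjoint_left.mp (hL.disj B hB.2 D hD.2 h) hb hbD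
            exact hne (hAD.trans hBD.symm)
        · rintro (⟨⟨haT, hbT⟩, hT⟩ | ⟨S, ⟨⟨haS, hbS⟩, hS⟩, rfl⟩)
          · exact ⟨⟨haT, hbT⟩, (valid_of_erase hL hE hT).1⟩
          · exact ⟨⟨mem_union_left _ haS, mem_union_left _ hbS⟩, (valid_of_erase hL hE hS).2⟩
      have e5 : Disjoint (univ.filter (fun T : Finset γ => (a ∈ T ∧ b ∈ T) ∧ Valid (L.erase E) T))
          ((univ.filter (fun T : Finset γ => (a ∈ T ∧ b ∈ T) ∧ Valid (L.erase E) T)).image
            (fun T => T ∪ E)) := by
        rw [disjoint_left]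
        intro T hT hT'
        obtain ⟨S, _, rfl⟩ := mem_image.mp hT'
        obtain ⟨x, hx⟩ := hL.ne E hE
        exact disjoint_left.mp (disjoint_E hL hE (mem_filter.mp hT).2.2) (mem_union_right _ hx) hx
      have e6 : Set.InjOn (fun T : Finset γ => T ∪ E)
          (univ.filter (fun T : Finset γ => (a ∈ T ∧ b ∈ T) ∧ Valid (L.erase E) T) :
            Finset (Finset γ)) := by
        intro S hS T hT hST
        have hdS := disjoint_E hL hE (mem_filter.mp hS).2.2
        have hdT := disjoint_E hL hE (mem_filter.mp hT).2.2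
        have hST' : S ∪ E = T ∪ E := hST
        have h1 : S = (S ∪ E) \ E := by rw [union_sdiff_right, sdiff_eq_self_of_disjoint hdS]
        have h2 : T = (T ∪ E) \ E := by rw [union_sdiff_right, sdiff_eq_self_of_disjoint hdT]
        rw [h1, h2, hST']
      rw [e2, e4, sum_union e5, sum_image e6, ← sum_add_distrib, ← e1] at hlin
      exact (Ideal.add_mem_iff_left _ e3).mp hlin
  exact hle hp

theorem od_erase {T : Finset γ} (hT : Valid (L.erase E) T) (hEe : Even E.card) :
    od L T = od (L.erase E) T ∧ od L (T ∪ E) = od (L.erase E) T := by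
  have hd := disjoint_E hL hE hT
  constructor
  · unfold od
    congr 1
    ext A
    rw [mem_filter, mem_filter, mem_blk, mem_blk, mem_erase]
    constructor
    · rintro ⟨⟨h1, h2⟩, h3⟩
      refine ⟨⟨⟨?_, h1⟩, h2⟩, h3⟩
      rintro rfl
      exact (Nat.not_odd_iff_even.mpr hEe) h3
    · rintro ⟨⟨h1, h2⟩, h3⟩
      exact ⟨⟨h1.2, h2⟩, h3⟩
  · unfold od
    congr 1
    ext A
    rw [mem_filter, mem_filter, mem_blk, mem_blk, mem_erase]
    constructor
    · rintro ⟨⟨h1, h2⟩, h3⟩
      have hAE : A ≠ E := by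
        rintro rfl
        exact (Nat.not_odd_iff_even.mpr hEe) h3
      refine ⟨⟨⟨hAE, h1⟩, ?_⟩, h3⟩
      intro x hx
      exact (mem_union.mp (h2 hx)).resolve_right
        (fun h => disjoint_left.mp (hL.disj A h1 E hE hAE) hx h)
    · rintro ⟨⟨h1, h2⟩, h3⟩
      exact ⟨⟨h1.2, h2.trans subset_union_left⟩, h3⟩

theorem od_pair {A : Finset γ} (hA : A ∈ L.erase E) (hEe : Even E.card) : od L (A ∪ E) ≤ 1 := by
  unfold od
  rw [blk_union_pair hL (mem_erase.mp hA).2 hE]
  calc (({A, E} : Finset (Finset γ)).filter (fun A => Odd A.card)).card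
      ≤ ({A} : Finset (Finset γ)).card := by
        apply card_le_card
        intro B hB
        rw [mem_filter, mem_insert, mem_singleton] at hB
        rw [mem_singleton]
        rcases hB.1 with h | h
        · exact h
        · exfalso
          rw [h] at hB
          exact (Nat.not_odd_iff_even.mpr hEe) hB.2
    _ = 1 := card_singleton _

end Pool.Agent.LHC
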