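import Pool.Agent.LHC.EvenA

/-!
Module LHC-EvenB: an even block kills the numbers without root class.

Write `L₀ = L.erase E`, `J = bI L`, all congruences modulo `J`.  For `T` valid for `L₀`:
`phiE (dd T) ≡ dd T - X (T ∪ E)` (the valid sets strictly above `T` are the `S`, `S ∪ E` with `S` valid for `L₀`, `T ⊂ S`,
and `T ∪ E`), `phiE (cc T) ≡ cc T`.
`phiE_Fac`: `phiE (Fac T f) ≡ Fac T f * Fac (T ∪ E) f`.  Proof: put `p = X (T ∪ E)`, `q = dd (T ∪ E)`, `r = dd T`,
`F = phiE (Fac T f)`, `F1 = Fac T f`, `F2 = Fac (T ∪ E) f`.  `phiE` of `Fac_mul_mem` gives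
`F (1 - f (r - p)) ≡ 1 - f cc T`; `F1 (1 - f r) ≡ 1 - f cc T`; `F2 (1 - f q) ≡ 1 - f (p + q)`.  And
`(1 - f (p+q)) (1 - f (r-p)) - (1 - f r)(1 - f q) = f^2 p (r - p - q) ≡ 0`
because `r - p - q ≡ ∑ X S` over the valid `S ⊋ T` not containing `E`, and these `S` are incompatible with `T ∪ E`
(`XX_mem_of_not_compat`).  Hence `F (1-f(r-p)) (1-fq)(1-fr) ≡ (1-f cc T)(1-fq)(1-fr)
≡ (1 - f cc T)(1-f(p+q))(1-f(r-p)) ≡ F1 F2 (1-fr)(1-fq)(1-f(r-p))`.  Cancel the units: `1 - f q`, `1 - f r` by
`cancel_unit`, and `1 - f (r - p)` because `(f (r-p))^n ∈ J` for large `n` (`top_mem`, it is homogeneous of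
positive degree), so it divides `1` modulo `J`.
`phiE_cls`: `cls L` is the product of `Phi L T` over the valid sets (`valid_cases`); `Phi L T` and `Phi L (T ∪ E)` have the
same factors as `Phi L₀ T` (`od_erase`), and `Phi L (A ∪ E) = 1` (`od_pair`: an empty product).
`Num_even`: by `Num_congr` and `hc_aeval` the number is `D (phiE (hc_k(cls L₀) * hc_l(cls L₀)))` and the argument of
`phiE` is homogeneous of degree `k + l`; if `k + l + 2 = L.card` then `L₀.card ≤ k + l + 1`, `2 ≤ L₀.card`, so it is in `bI L₀`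
(`top_mem`) and `phiE_bI` applies; if `k + l + 2 ≠ L.card` use `Num_dim`.
-/

open Finset MvPolynomial Pool.Agent.helper17

namespace Pool.Agent.LHC

variable {γ : Type*} [DecidableEq γ] [Fintype γ] {L : Finset (Finset γ)} {E : Finset γ}

private theorem EvenB_phi_X (T : Finset γ) :
    phiE L E (X T) = if Valid (L.erase E) T then X T + X (T ∪ E) else 0 := by
  unfold phiE
  rw [aeval_X]

private theorem EvenB_inj (hL : IsBlocks L) (hE : E ∈ L) {S S' : Finset γ}
    (hS : Valid (L.erase E) S) (hS' : Valid (L.erase E) S') (h : S ∪ E = S' ∪ E) : S = S' := by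
  have d1 := disjoint_E hL hE hS
  have d2 := disjoint_E hL hE hS'
  ext x
  have h1 : x ∈ S ∪ E ↔ x ∈ S' ∪ E := by rw [h]
  rw [mem_union, mem_union] at h1
  constructor
  · intro hx
    rcases h1.1 (Or.inl hx) with h2 | h2
    · exact h2
    · exact absurd h2 (disjoint_left.1 d1 hx)
  · intro hx
    rcases h1.2 (Or.inl hx) with h2 | h2
    · exact h2
    · exact absurd h2 (disjoint_left.1 d2 hx)

private theorem EvenB_ssub (hL : IsBlocks L) (hE : E ∈ L) {T : Finset γ}
    (hT : Valid (L.erase E) T) : T ⊂ T ∪ E := by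
  have hTE := disjoint_E hL hE hT
  obtain ⟨x, hx⟩ := hL.ne E hE
  refine subset_union_left.ssubset_of_ne fun h => ?_
  have h1 : x ∈ T := by
    rw [h]
    exact mem_union_right _ hx
  exact disjoint_left.1 hTE h1 hx

private theorem EvenB_dd (hL : IsBlocks L) (hE : E ∈ L) {T : Finset γ}
    (hT : Valid (L.erase E) T) :
    phiE L E (dd T) - (dd T - X (T ∪ E)) ∈ bI L := by
  classical
  have hTE := disjoint_E hL hE hT
  obtain ⟨e, he⟩ := hL.ne E hE
  set A₀ : Finset (Finset γ) := univ.filter (fun T' : Finset γ => T ⊂ T') with hA₀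
  set F₁ := A₀.filter (fun T' => Valid (L.erase E) T') with hF₁
  set F₂ := F₁.image (fun S => S ∪ E) with hF₂
  set G := A₀.filter (fun T' => Valid L T') with hG
  have h1 : phiE L E (dd T) = ∑ T' ∈ F₁, (X T' + X (T' ∪ E)) := by
    have e1 : phiE L E (dd T) = ∑ T' ∈ A₀, phiE L E (X T') := by
      unfold dd
      rw [map_sum]
    have e2 : ∑ T' ∈ F₁, (X T' + X (T' ∪ E) : MvPolynomial (Finset γ) ℚ) =
        ∑ T' ∈ A₀, (if Valid (L.erase E) T' then X T' + X (T' ∪ E) else 0) := by
      rw [hF₁, sum_filter]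
    rw [e1, e2]
    exact sum_congr rfl fun S _ => EvenB_phi_X S
  have h2 : dd T = ∑ T' ∈ G, (X T' : MvPolynomial (Finset γ) ℚ) +
      ∑ T' ∈ A₀.filter (fun T' => ¬ Valid L T'), X T' := by
    unfold dd
    rw [hG, sum_filter_add_sum_filter_not]
  have hFv : ∀ S ∈ F₁, Valid (L.erase E) S ∧ T ⊂ S := by
    intro S hS
    rw [hF₁, mem_filter, hA₀, mem_filter] at hS
    exact ⟨hS.2, hS.1.2⟩
  have h3 : G = insert (T ∪ E) (F₁ ∪ F₂) := by
    ext T'
    rw [hG, mem_filter, hA₀, mem_filter, mem_insert, mem_union, hF₂, mem_image]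
    constructor
    · rintro ⟨⟨-, hTT⟩, hv⟩
      rcases valid_cases hL hE hv with h | ⟨S, hS, rfl⟩ | ⟨A, hA, rfl⟩
      · exact Or.inr (Or.inl (mem_filter.2 ⟨mem_filter.2 ⟨mem_univ _, hTT⟩, h⟩))
      · have hTS : T ⊆ S := by
          intro x hx
          rcases mem_union.1 (hTT.subset hx) with h | h
          · exact h
          · exact absurd h (disjoint_left.1 hTE hx)
        by_cases hST : S = T
        · exact Or.inl (by rw [hST])
        · refine Or.inr (Or.inr ⟨S, mem_filter.2 ⟨mem_filter.2 ⟨mem_univ _, ?_⟩, hS⟩, rfl⟩)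
          exact hTS.ssubset_of_ne (Ne.symm hST)
      · exfalso
        have hTA : T ⊆ A := by
          intro x hx
          rcases mem_union.1 (hTT.subset hx) with h | h
          · exact h
          · exact absurd h (disjoint_left.1 hTE hx)
        rcases hT.2.1 A hA with h | h
        · have : T = A := hTA.antisymm h
          exact hT.2.2.1 (this ▸ hA)
        · obtain ⟨x, hx⟩ := hT.2.2.2
          exact disjoint_left.1 h (hTA hx) hx
    · rintro (h | h | ⟨S, hS, rfl⟩)
      · rw [h]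
        exact ⟨⟨mem_univ _, EvenB_ssub hL hE hT⟩, (valid_of_erase hL hE hT).2⟩
      · obtain ⟨hv, hs⟩ := hFv _ h
        exact ⟨⟨mem_univ _, hs⟩, (valid_of_erase hL hE hv).1⟩
      · obtain ⟨hv, hs⟩ := hFv _ hS
        exact ⟨⟨mem_univ _, lt_of_lt_of_le hs subset_union_left⟩, (valid_of_erase hL hE hv).2⟩
  have h4 : T ∪ E ∉ F₁ ∪ F₂ := by
    intro h
    rcases mem_union.1 h with h | h
    · exact disjoint_left.1 (disjoint_E hL hE (hFv _ h).1) (mem_union_right _ he) he
    · rw [hF₂, mem_image] at h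
      obtain ⟨S, hS, hSE⟩ := h
      have := EvenB_inj hL hE (hFv _ hS).1 hT hSE
      exact (hFv _ hS).2.ne this.symm
  have h5 : Disjoint F₁ F₂ := by
    rw [disjoint_left]
    intro S hS hS2
    rw [hF₂, mem_image] at hS2
    obtain ⟨S', -, rfl⟩ := hS2
    exact disjoint_left.1 (disjoint_E hL hE (hFv _ hS).1) (mem_union_right _ he) he
  have h6 : ∑ T' ∈ F₂, (X T' : MvPolynomial (Finset γ) ℚ) = ∑ T' ∈ F₁, X (T' ∪ E) := by
    rw [hF₂, sum_image]
    intro S hS S' hS' h
    exact EvenB_inj hL hE (hFv _ hS).1 (hFv _ hS').1 h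
  have h7 : ∑ T' ∈ A₀.filter (fun T' => ¬ Valid L T'), (X T' : MvPolynomial (Finset γ) ℚ) ∈
      bI L := by
    apply Ideal.sum_mem
    intro S hS
    exact X_mem_of_not_valid (mem_filter.1 hS).2
  rw [h1, h2, h3, sum_insert h4, sum_union h5, h6, sum_add_distrib]
  have h8 := Ideal.neg_mem_iff (bI L) |>.2 h7
  convert h8 using 1
  ring

private theorem EvenB_cc (hL : IsBlocks L) (hE : E ∈ L) {T : Finset γ}
    (hT : Valid (L.erase E) T) : phiE L E (cc T) - cc T ∈ bI L := by
  have h := EvenB_dd hL hE hT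
  rw [cc_eq, map_add, EvenB_phi_X, if_pos hT]
  convert h using 1
  ring

private theorem EvenB_rpq (hL : IsBlocks L) (hE : E ∈ L) {T : Finset γ}
    (hT : Valid (L.erase E) T) :
    X (T ∪ E) * (dd T - X (T ∪ E) - dd (T ∪ E)) ∈ bI L := by
  classical
  have hTE := disjoint_E hL hE hT
  obtain ⟨e, he⟩ := hL.ne E hE
  set A₀ : Finset (Finset γ) := univ.filter (fun T' : Finset γ => T ⊂ T') with hA₀
  have h1 : dd T = ∑ T' ∈ A₀.filter (fun T' => E ⊆ T'), (X T' : MvPolynomial (Finset γ) ℚ) +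
      ∑ T' ∈ A₀.filter (fun T' => ¬ E ⊆ T'), X T' := by
    unfold dd
    rw [sum_filter_add_sum_filter_not]
  have h2 : A₀.filter (fun T' => E ⊆ T') = univ.filter (fun T' : Finset γ => T ∪ E ⊆ T') := by
    ext S
    rw [mem_filter, hA₀, mem_filter, mem_filter]
    constructor
    · rintro ⟨⟨-, h⟩, h'⟩
      exact ⟨mem_univ _, union_subset h.subset h'⟩
    · rintro ⟨-, h⟩
      exact ⟨⟨mem_univ _, lt_of_lt_of_le (EvenB_ssub hL hE hT) h⟩,
        subset_union_right.trans h⟩
  have h3 : ∑ T' ∈ A₀.filter (fun T' => E ⊆ T'), (X T' : MvPolynomial (Finset γ) ℚ) =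
      X (T ∪ E) + dd (T ∪ E) := by
    rw [h2, ← cc_eq]
    rfl
  rw [h1, h3]
  have h4 : X (T ∪ E) * (X (T ∪ E) + dd (T ∪ E) +
      ∑ T' ∈ A₀.filter (fun T' => ¬ E ⊆ T'), X T' - X (T ∪ E) - dd (T ∪ E)) =
      ∑ T' ∈ A₀.filter (fun T' => ¬ E ⊆ T'),
        (X (T ∪ E) * X T' : MvPolynomial (Finset γ) ℚ) := by
    rw [← mul_sum]
    ring
  rw [h4]
  apply Ideal.sum_mem
  intro S hS
  rw [mem_filter, hA₀, mem_filter] at hS
  obtain ⟨⟨-, hTS⟩, hES⟩ := hS
  by_cases hv : Valid L S
  · apply XX_mem_of_not_compat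
    rintro (h | h | h)
    · exact hES (subset_union_right.trans h)
    · rcases hv.2.1 E hE with h' | h'
      · exact hES h'
      · have : S ⊆ T := by
          intro x hx
          rcases mem_union.1 (h hx) with h2 | h2
          · exact h2
          · exact absurd hx (disjoint_left.1 h' h2)
        exact hTS.2 this
    · obtain ⟨x, hx⟩ := hT.2.2.2
      exact disjoint_left.1 h (mem_union_left _ hx) (hTS.subset hx)
  · exact Ideal.mul_mem_left _ _ (X_mem_of_not_valid hv)

private theorem EvenB_cancel (hL : IsBlocks L) (h2 : 2 ≤ L.card)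
    {y p : MvPolynomial (Finset γ) ℚ} (hy : y.IsHomogeneous 1) (hp : p * (1 - y) ∈ bI L) :
    p ∈ bI L := by
  have h1 := Ideal.mul_mem_left (bI L) (geo y) hp
  have h3 : y ^ Fintype.card (Finset γ) ∈ bI L := by
    have h4 := hy.pow (Fintype.card (Finset γ))
    rw [one_mul] at h4
    exact top_mem hL h2 (by have := card_blocks_le L; omega) h4
  have h4 := Ideal.mul_mem_left (bI L) p h3
  have h5 := Ideal.add_mem _ h1 h4
  convert h5 using 1
  linear_combination (-p) * geo_mul y

theorem EvenB_Fac (hL : IsBlocks L) (hE : E ∈ L) (h3 : 3 ≤ L.card) {T : Finset γ}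
    (hT : Valid (L.erase E) T) (f : ℚ) :
    phiE L E (Fac T f) - Fac T f * Fac (T ∪ E) f ∈ bI L := by
  have h2 : 2 ≤ L.card := by omega
  have hc : (L.erase E).card = L.card - 1 := card_erase_of_mem hE
  have hL₀ : IsBlocks (L.erase E) := isBlocks_erase hL
  have hCf : phiE L E (C f) = C f := by
    unfold phiE
    rw [algHom_C]
    rfl
  have ha := phiE_bI hL hE (Fac_mul_mem hL₀ (by omega) T f)
  rw [map_sub, map_mul, map_sub, map_sub, map_mul, map_mul, map_one, hCf] at ha
  have hdd := EvenB_dd hL hE hT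
  have hcc := EvenB_cc hL hE hT
  have hb := Fac_mul_mem hL h2 T f
  have hd := Fac_mul_mem hL h2 (T ∪ E) f
  have hr := EvenB_rpq hL hE hT
  set F := phiE L E (Fac T f)
  set F1 := Fac T f
  set F2 := Fac (T ∪ E) f
  set p := (X (T ∪ E) : MvPolynomial (Finset γ) ℚ) with hp
  set q := dd (T ∪ E)
  set r := dd T
  set D' := phiE L E r
  set C' := phiE L E (cc T)
  have e1 : F * (1 - C f * (r - p)) - (1 - C f * cc T) ∈ bI L := by
    have h4 := Ideal.add_mem _ (Ideal.add_mem _ ha (Ideal.mul_mem_left _ (F * C f) hdd))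
      (Ideal.mul_mem_left _ (-(C f)) hcc)
    convert h4 using 1
    ring
  have e3 : F2 * (1 - C f * q) - (1 - C f * (p + q)) ∈ bI L := by
    have h4 : cc (T ∪ E) = p + q := cc_eq _
    rw [h4] at hd
    exact hd
  have e4 : (1 - C f * (p + q)) * (1 - C f * (r - p)) - (1 - C f * r) * (1 - C f * q) ∈ bI L := by
    have h4 := Ideal.mul_mem_left _ (C f * C f) hr
    convert h4 using 1
    ring
  have key : (F - F1 * F2) * (1 - C f * (r - p)) * (1 - C f * r) * (1 - C f * q) ∈ bI L := by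
    have h4 := Ideal.mul_mem_left _ ((1 - C f * r) * (1 - C f * q)) e1
    have h5 := Ideal.mul_mem_left _ (-(1 - C f * cc T)) e4
    have h6 := Ideal.mul_mem_left _ (-(1 - C f * cc T) * (1 - C f * (r - p))) e3
    have h7 := Ideal.mul_mem_left _ (-(F2 * (1 - C f * q)) * (1 - C f * (r - p))) hb
    have h8 := Ideal.add_mem _ (Ideal.add_mem _ (Ideal.add_mem _ h4 h5) h6) h7
    convert h8 using 1
    ring
  have h4 := cancel_unit hL h2 le_rfl (T ∪ E) f key
  have h5 := cancel_unit hL h2 le_rfl T f h4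
  refine EvenB_cancel hL h2 ?_ h5
  have h6 : (C f * (r - p)).IsHomogeneous (0 + 1) :=
    (isHomogeneous_C _ f).mul ((isHomogeneous_dd T).sub (isHomogeneous_X _ _))
  rwa [zero_add] at h6

private theorem EvenB_Phi (hL : IsBlocks L) (hE : E ∈ L) (hEe : Even E.card) (h3 : 3 ≤ L.card)
    {T : Finset γ} (hT : Valid (L.erase E) T) :
    phiE L E (Phi (L.erase E) T) - Phi L T * Phi L (T ∪ E) ∈ bI L := by
  obtain ⟨h1, h2⟩ := od_erase hL hE hT hEe
  unfold Phi
  rw [h1, h2, map_prod, ← prod_mul_distrib]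
  exact prod_sub_prod_mem _ _ _ fun j _ => EvenB_Fac hL hE h3 hT _

theorem phiE_cls (hL : IsBlocks L) (hE : E ∈ L) (hEe : Even E.card) (h3 : 3 ≤ L.card) :
    phiE L E (cls (L.erase E)) - cls L ∈ bI L := by
  classical
  obtain ⟨e, he⟩ := hL.ne E hE
  set V₀ : Finset (Finset γ) := univ.filter (fun T : Finset γ => Valid (L.erase E) T) with hV₀
  set V₁ := V₀.image (fun S => S ∪ E) with hV₁
  have hv₀ : ∀ S ∈ V₀, Valid (L.erase E) S := fun S hS => (mem_filter.1 hS).2
  have h1 : cls L = ∏ T ∈ V₀, (Phi L T * Phi L (T ∪ E)) := by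
    have h2 : cls L = ∏ T ∈ V₀ ∪ V₁, Phi L T := by
      unfold cls
      symm
      apply prod_subset
      · intro T hT
        rw [mem_filter]
        refine ⟨mem_univ _, ?_⟩
        rcases mem_union.1 hT with h | h
        · exact (valid_of_erase hL hE (hv₀ T h)).1
        · rw [hV₁, mem_image] at h
          obtain ⟨S, hS, rfl⟩ := h
          exact (valid_of_erase hL hE (hv₀ S hS)).2
      · intro T hT hT'
        rcases valid_cases hL hE (mem_filter.1 hT).2 with h | ⟨S, hS, rfl⟩ | ⟨A, hA, rfl⟩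
        · exact absurd (mem_union_left _ (mem_filter.2 ⟨mem_univ _, h⟩)) hT'
        · exact absurd (mem_union_right _ (mem_image_of_mem _
            (mem_filter.2 ⟨mem_univ _, hS⟩))) hT'
        · have h4 := od_pair hL hE hA hEe
          have h5 : (od L (A ∪ E) - 1) / 2 = 0 := by omega
          unfold Phi
          rw [h5, range_zero, prod_empty]
    have h5 : Disjoint V₀ V₁ := by
      rw [disjoint_left]
      intro S hS hS2
      rw [hV₁, mem_image] at hS2
      obtain ⟨S', -, rfl⟩ := hS2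
      exact disjoint_left.1 (disjoint_E hL hE (hv₀ _ hS)) (mem_union_right _ he) he
    have h6 : ∏ T ∈ V₁, Phi L T = ∏ T ∈ V₀, Phi L (T ∪ E) := by
      rw [hV₁, prod_image]
      intro S hS S' hS' h
      exact EvenB_inj hL hE (hv₀ _ hS) (hv₀ _ hS') h
    rw [h2, prod_union h5, prod_mul_distrib, h6]
  rw [h1]
  unfold cls
  rw [map_prod]
  exact prod_sub_prod_mem _ _ _ fun T hT => EvenB_Phi hL hE hEe h3 (hv₀ T hT)

theorem Num_even (hL : IsBlocks L) (hE : E ∈ L) (hEe : Even E.card) (h3 : 3 ≤ L.card) {c : ℚ}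
    {D : MvPolynomial (Finset γ) ℚ →ₗ[ℚ] ℚ} (hD : IsDeg L c D) (k l : ℕ) :
    Num L D 0 k l = 0 := by
  have hc : (L.erase E).card = L.card - 1 := card_erase_of_mem hE
  by_cases hkl : 0 + k + l + 2 = L.card
  · rw [← Num_congr hD (phiE_cls hL hE hEe h3) 0 k l]
    have hf : ∀ T : Finset γ, (if Valid (L.erase E) T then X T + X (T ∪ E) else 0 :
        MvPolynomial (Finset γ) ℚ).IsHomogeneous 1 := by
      intro T
      split_ifs
      · exact (isHomogeneous_X _ _).add (isHomogeneous_X _ _)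
      · exact isHomogeneous_zero _ _ _
    have h1 : ∀ m : ℕ, homogeneousComponent m (phiE L E (cls (L.erase E))) =
        phiE L E (homogeneousComponent m (cls (L.erase E))) := fun m =>
      hc_aeval _ hf m _
    rw [h1, h1, ← map_mul, pow_zero, one_mul]
    apply hD.kill
    apply phiE_bI hL hE
    have h2 : (homogeneousComponent k (cls (L.erase E)) *
        homogeneousComponent l (cls (L.erase E))).IsHomogeneous (k + l) :=
      (homogeneousComponent_isHomogeneous _ _).mul (homogeneousComponent_isHomogeneous _ _)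
    exact top_mem (isBlocks_erase hL) (by omega) (by omega) h2
  · exact Num_dim hD hkl

end Pool.Agent.LHC
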