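import Pool.Agent.LHC.Defs

/-!
Module LHC-Ext: a feasible set which is not too large can be extended (checked by computer).

If some even `s ∈ Ioo 0 N` is not in `σ`: insert it (`Full` is kept because the condition for the odd
elements is monotone; `ee` does not change).
Otherwise `σ` contains all even numbers of `Ioo 0 N`; their number is `N - 1 - N/2`
(`N = 2g`: `g-1`; `N = 2g+1`: `g`), so `σ.card = N - 1 - N/2 + ee σ`, and `σ.card + l + 2 ≤ N` gives
`ee σ + l + 1 ≤ N/2`.  There are `N/2` odd numbers `s` with `0 < s`, `s + 1 ≤ N` (and, for `N` odd,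
`s + 1 ≤ N - 1`), so one of them, `s`, is not in `σ`; `s - 1, s + 1` are even, hence in
`insert 0 (insert N σ)` as needed; insert `s`.
-/

open Finset

namespace Pool.Agent.LHC

/-- Feasible sets. -/
def Feas (N l : ℕ) (σ : Finset ℕ) : Prop :=
  Full N σ ∧ ee σ + l ≤ N / 2 ∧ ee σ + N ≤ l + σ.card + 1 + N / 2

/-- Inserting an even element, or an odd one with both neighbours, keeps `Full`. -/
private theorem Ext_full_insert {N : ℕ} {σ : Finset ℕ} {s : ℕ} (h : Full N σ) (hs : s ∈ Ioo 0 N)
    (hodd : Odd s → s - 1 ∈ insert 0 σ ∧ s + 1 ∈ insert N σ) : Full N (insert s σ) := by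
  obtain ⟨h1, h2, h3⟩ := h
  have hsub : ∀ t a, t ∈ insert a σ → t ∈ insert a (insert s σ) := by
    intro t a ht
    simp only [mem_insert] at ht ⊢
    tauto
  refine ⟨?_, ?_, ?_⟩
  · intro t ht
    rcases mem_insert.1 ht with rfl | ht
    · exact hs
    · exact h1 ht
  · intro t ht hto
    rcases mem_insert.1 ht with rfl | ht
    · exact ⟨hsub _ _ (hodd hto).1, hsub _ _ (hodd hto).2⟩
    · exact ⟨hsub _ _ (h2 t ht hto).1, hsub _ _ (h2 t ht hto).2⟩
  · intro hN
    exact hsub _ _ (h3 hN)

private theorem Ext_evens_card (N : ℕ) :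
    ((Ioo 0 N).filter (fun s => ¬ Odd s)).card + 1 + N / 2 = N ∨ N = 0 := by
  rcases Nat.eq_zero_or_pos N with h | h
  · right; exact h
  left
  have h1 : (Ioo 0 N).filter (fun s => ¬ Odd s) =
      (Finset.range (N - 1 - N / 2)).image (fun i => 2 * (i + 1)) := by
    ext s
    simp only [mem_filter, mem_Ioo, mem_image, mem_range, Nat.not_odd_iff_even]
    constructor
    · rintro ⟨⟨h1, h2⟩, ⟨k, hk⟩⟩
      exact ⟨k - 1, by omega, by omega⟩
    · rintro ⟨i, hi, rfl⟩
      exact ⟨⟨by omega, by omega⟩, ⟨i + 1, by ring⟩⟩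
  rw [h1, card_image_of_injective _ (fun a b (hab : 2 * (a + 1) = 2 * (b + 1)) => by omega), card_range]
  omega

theorem ext_feas {N l : ℕ} {σ : Finset ℕ} (hN : 2 ≤ N) (hσ : Feas N l σ)
    (hc : σ.card + l + 2 ≤ N) : ∃ s ∈ Ioo 0 N \ σ, Feas N l (insert s σ) := by
  obtain ⟨hF, h1, h2⟩ := hσ
  by_cases hex : ∃ s ∈ Ioo 0 N, ¬ Odd s ∧ s ∉ σ
  · obtain ⟨s, hs, hso, hsσ⟩ := hex
    refine ⟨s, mem_sdiff.2 ⟨hs, hsσ⟩, Ext_full_insert hF hs (fun h => absurd h hso), ?_, ?_⟩
    · have : ee (insert s σ) = ee σ := by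
        unfold ee
        rw [filter_insert, if_neg hso]
      omega
    · have : ee (insert s σ) = ee σ := by
        unfold ee
        rw [filter_insert, if_neg hso]
      rw [card_insert_of_notMem hsσ]
      omega
  · push Not at hex
    have hev : ∀ t, 0 < t → t < N → ¬ Odd t → t ∈ σ :=
      fun t ht1 ht2 ht3 => hex t (mem_Ioo.2 ⟨ht1, ht2⟩) ht3
    have hcard : σ.card = ee σ + (σ.filter (fun s => ¬ Odd s)).card := by
      unfold ee
      exact (card_filter_add_card_filter_not (s := σ) (fun s => Odd s)).symm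
    have hev2 : σ.filter (fun s => ¬ Odd s) = (Ioo 0 N).filter (fun s => ¬ Odd s) := by
      ext t
      simp only [mem_filter]
      constructor
      · rintro ⟨a, b⟩; exact ⟨hF.1 a, b⟩
      · rintro ⟨a, b⟩; exact ⟨hev t (mem_Ioo.1 a).1 (mem_Ioo.1 a).2 b, b⟩
    have hevc := Ext_evens_card N
    rw [hev2] at hcard
    have hlt : ee σ + l + 1 ≤ N / 2 := by omega
    have hex2 : ∃ i ∈ Finset.range (N / 2), 2 * i + 1 ∉ σ := by
      by_contra hcon
      push Not at hcon
      have hsub : (Finset.range (N / 2)).image (fun i => 2 * i + 1) ⊆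
          σ.filter (fun s => Odd s) := by
        intro t ht
        obtain ⟨i, hi, rfl⟩ := mem_image.1 ht
        exact mem_filter.2 ⟨hcon i hi, ⟨i, rfl⟩⟩
      have := card_le_card hsub
      rw [card_image_of_injective _ (fun a b (hab : 2 * a + 1 = 2 * b + 1) => by omega),
        card_range] at this
      unfold ee at hlt
      omega
    obtain ⟨i, hi, hiσ⟩ := hex2
    rw [mem_range] at hi
    have hodd : Odd (2 * i + 1) := ⟨i, rfl⟩
    refine ⟨2 * i + 1, mem_sdiff.2 ⟨mem_Ioo.2 ⟨by omega, by omega⟩, hiσ⟩,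
      Ext_full_insert hF (mem_Ioo.2 ⟨by omega, by omega⟩) (fun _ => ⟨?_, ?_⟩), ?_, ?_⟩
    · rw [mem_insert]
      rcases Nat.eq_zero_or_pos i with h | h
      · left; omega
      · right
        have : 2 * i + 1 - 1 = 2 * i := by omega
        rw [this]
        exact hev _ (by omega) (by omega) (by rw [Nat.not_odd_iff_even]; exact ⟨i, by ring⟩)
    · rw [mem_insert]
      rcases Nat.lt_or_ge (2 * i + 1 + 1) N with h | h
      · right
        exact hev _ (by omega) h (by rw [Nat.not_odd_iff_even]; exact ⟨i + 1, by ring⟩)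
      · left; omega
    · have : ee (insert (2 * i + 1) σ) = ee σ + 1 := by
        unfold ee
        rw [filter_insert, if_pos hodd, card_insert_of_notMem (fun h => hiσ (mem_filter.1 h).1)]
      omega
    · have : ee (insert (2 * i + 1) σ) = ee σ + 1 := by
        unfold ee
        rw [filter_insert, if_pos hodd, card_insert_of_notMem (fun h => hiσ (mem_filter.1 h).1)]
      rw [card_insert_of_notMem hiσ]
      omega

end Pool.Agent.LHC
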