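import Pool.Agent.LHC.SkelA
import Pool.Agent.LHC.Bochner

/-!
Module LHC-SkelB: the induction.

Induction on `m`.  `m = 0`: take `L` from `H1`.  With `b = (0, η)`: `Q(b) = Bf 0 σ b b ≥ 0` by
`Bf_eta_eta` and `pow_nonneg'`.  If `Q(b) = 0` the claim is trivial.  If `Q(b) > 0` then `L b ≠ 0`
(otherwise `Q(b) ≤ 0`); for `lam = L a / L b` the vector `a - lam • b` is in the kernel, so
`Q(a) - 2 lam B(a,b) + lam^2 Q(b) ≤ 0`, hence `Q(a) Q(b) ≤ B(a,b)^2`.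

`m + 1`: let `I = {t ∈ Ioo 0 N \ σ | 0 < Bf m (insert t σ) (0,η) (0,η)}`.  Apply `bochner` with
`V = ℝ × (ℕ → ℝ)`, `B = Bf (m+1) σ`, `ι = I` (subtype), `c t = dev σ η t`, `e t = (0, Pi.single t 1)`,
`(0, η)`.
* If `t ∉ I` (but `t ∈ Ioo 0 N \ σ`) then `Bf m (insert t σ) = 0` identically: by `pow_pos_iff` no
  `τ ⊇ insert t σ` with `|τ| = |σ| + 1 + (m+2)` has `W τ > 0`; by `H3` (sizes below `K`, since
  `|σ| + (m+1) + 2 ≤ K`) also none with `|τ| = |σ| + 1 + m` or `|σ| + 1 + (m+1)`; use `Bf_eq_zero`.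
* `hη`: `Bf_eta`, the terms `t ∉ I` vanish (`Bf_single_succ`).  `hp`: `Bf_single_succ`, symmetry.
* `star`: `Bf_succ` and the induction hypothesis
  `Bf m (insert t σ) a a * p t ≤ (Bf m (insert t σ) a (0,η))^2 = (B a (e t))^2`.
* `hnn`, `hconn`: `Bf_single_single`, `pow_nonneg'`, `pow_pos_iff` and `H2` with `M = m + 3`:
  `t ∈ I` means (by `Bf_eta_eta`, `pow_pos_iff`) that some `τ ⊇ insert t σ` with
  `|τ| = |σ| + 1 + (m + 2) = |σ| + M` has `W τ > 0`, and `Adj` is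
  `0 < ((D_η)^(m+1) W)(insert s (insert t σ))`, `|τ| = |σ| + 2 + (m+1)`.  The intermediate points of
  the path given by `H2` are in `I` because of the same sets `τ` (lift the path from `ℕ` to the
  subtype `I` by induction on `Relation.ReflTransGen`).
-/

open Finset

namespace Pool.Agent.LHC

/-- `s` and `t` are contained in a common feasible set. -/
def Adj (N : ℕ) (W : Finset ℕ → ℝ) (σ : Finset ℕ) (M s t : ℕ) : Prop :=
  s ∉ σ ∧ t ∉ σ ∧ s ≠ t ∧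
    ∃ τ, τ ⊆ Ioo 0 N ∧ insert s (insert t σ) ⊆ τ ∧ τ.card = σ.card + M ∧ 0 < W τ

private theorem SkelB_expand {V : Type*} [AddCommGroup V] [Module ℝ V] (B : V → V → ℝ)
    (hadd : ∀ a b c, B (a + b) c = B a c + B b c) (hsmul : ∀ (r : ℝ) a b, B (r • a) b = r * B a b)
    (hsymm : ∀ a b, B a b = B b a) (a b : V) (r : ℝ) :
    B (a + r • b) (a + r • b) = B a a + 2 * r * B a b + r ^ 2 * B b b := by
  rw [hadd, hsmul, hsymm a (a + r • b), hsymm b (a + r • b), hadd, hadd, hsmul, hsmul, hsymm b a]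
  ring

private theorem SkelB_zero (N K : ℕ) (W : Finset ℕ → ℝ) (η : ℕ → ℝ)
    (hW : ∀ σ, σ ⊆ Ioo 0 N → 0 ≤ W σ)
    (hη : ∀ σ, σ ⊆ Ioo 0 N → ∀ s ∈ Ioo 0 N \ σ, 0 < dev N σ η s)
    (H1 : ∀ σ, σ ⊆ Ioo 0 N → σ.card + 2 ≤ K → ∃ L : (ℝ × (ℕ → ℝ)) →ₗ[ℝ] ℝ,
      ∀ a, L a = 0 → (TT N a * TT N a) W σ ≤ 0)
    (σ : Finset ℕ) (hσ : σ ⊆ Ioo 0 N) (hK : σ.card + 2 ≤ K) (a : ℝ × (ℕ → ℝ)) :
      Bf N η W 0 σ a a * Bf N η W 0 σ (0, η) (0, η) ≤ Bf N η W 0 σ a (0, η) ^ 2 := by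
  obtain ⟨L, hL⟩ := H1 σ hσ hK
  have hL' : ∀ a, L a = 0 → Bf N η W 0 σ a a ≤ 0 := by
    intro a ha
    have h1 := hL a ha
    unfold Bf
    rw [pow_zero, one_mul]
    exact h1
  have hb0 : 0 ≤ Bf N η W 0 σ (0, η) (0, η) := by
    rw [Bf_eta_eta]
    exact pow_nonneg' hW hη hσ _
  rcases hb0.eq_or_lt with h | h
  · rw [← h, mul_zero]
    positivity
  · have hLb : L (0, η) ≠ 0 := by
      intro h0
      exact absurd (hL' _ h0) (not_le.2 h)
    set r : ℝ := -(L a / L (0, η)) with hr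
    have hLc : L (a + r • (0, η)) = 0 := by
      rw [map_add, map_smul, smul_eq_mul, hr]
      field_simp
      ring
    have h1 := hL' _ hLc
    rw [SkelB_expand (Bf N η W 0 σ) (fun a b c => Bf_add 0 a b c) (fun r a b => Bf_smul 0 r a b)
      (fun a b => Bf_symm 0 a b)] at h1
    nlinarith [sq_nonneg (Bf N η W 0 σ a (0, η) + r * Bf N η W 0 σ (0, η) (0, η))]

private theorem SkelB_extend (N K : ℕ) (W : Finset ℕ → ℝ)
    (H3 : ∀ σ, σ ⊆ Ioo 0 N → σ.card + 1 ≤ K → 0 < W σ →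
      ∃ s ∈ Ioo 0 N \ σ, 0 < W (insert s σ)) (σ : Finset ℕ) :
    ∀ (j : ℕ) (τ : Finset ℕ), τ ⊆ Ioo 0 N → σ ⊆ τ → τ.card + j ≤ K → 0 < W τ →
      ∃ τ', τ' ⊆ Ioo 0 N ∧ σ ⊆ τ' ∧ τ'.card = τ.card + j ∧ 0 < W τ' := by
  intro j
  induction j with
  | zero =>
    intro τ h1 h2 _ h4
    exact ⟨τ, h1, h2, rfl, h4⟩
  | succ j ih =>
    intro τ h1 h2 h3 h4
    obtain ⟨s, hs, hs'⟩ := H3 τ h1 (by omega) h4
    rw [mem_sdiff] at hs
    have hc : (insert s τ).card = τ.card + 1 := card_insert_of_notMem hs.2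
    obtain ⟨τ', h5, h6, h7, h8⟩ := ih (insert s τ) (insert_subset hs.1 h1)
      (h2.trans (subset_insert _ _)) (by omega) hs'
    exact ⟨τ', h5, h6, by omega, h8⟩

theorem skeleton (N K : ℕ) (W : Finset ℕ → ℝ) (η : ℕ → ℝ)
    (hW : ∀ σ, σ ⊆ Ioo 0 N → 0 ≤ W σ)
    (hη : ∀ σ, σ ⊆ Ioo 0 N → ∀ s ∈ Ioo 0 N \ σ, 0 < dev N σ η s)
    (H1 : ∀ σ, σ ⊆ Ioo 0 N → σ.card + 2 ≤ K → ∃ L : (ℝ × (ℕ → ℝ)) →ₗ[ℝ] ℝ,
      ∀ a, L a = 0 → (TT N a * TT N a) W σ ≤ 0)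
    (H2 : ∀ σ, σ ⊆ Ioo 0 N → ∀ M, 3 ≤ M → σ.card + M ≤ K →
      ∀ s ∈ Ioo 0 N \ σ, ∀ t ∈ Ioo 0 N \ σ,
      (∃ τ, τ ⊆ Ioo 0 N ∧ insert s σ ⊆ τ ∧ τ.card = σ.card + M ∧ 0 < W τ) →
      (∃ τ, τ ⊆ Ioo 0 N ∧ insert t σ ⊆ τ ∧ τ.card = σ.card + M ∧ 0 < W τ) →
      Relation.ReflTransGen (Adj N W σ M) s t)
    (H3 : ∀ σ, σ ⊆ Ioo 0 N → σ.card + 1 ≤ K → 0 < W σ →
      ∃ s ∈ Ioo 0 N \ σ, 0 < W (insert s σ)) :
    ∀ (m : ℕ) (σ : Finset ℕ), σ ⊆ Ioo 0 N → σ.card + m + 2 ≤ K → ∀ a : ℝ × (ℕ → ℝ),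
      Bf N η W m σ a a * Bf N η W m σ (0, η) (0, η) ≤ Bf N η W m σ a (0, η) ^ 2 := by
  classical
  intro m
  induction m with
  | zero =>
    intro σ hσ hK a
    exact SkelB_zero N K W η hW hη H1 σ hσ (by omega) a
  | succ m ih =>
    intro σ hσ hK
    set I : Finset ℕ := (Ioo 0 N \ σ).filter
      (fun t => 0 < Bf N η W m (insert t σ) (0, η) (0, η)) with hI
    have hmemI : ∀ t, t ∈ I ↔ t ∈ Ioo 0 N \ σ ∧
        0 < Bf N η W m (insert t σ) (0, η) (0, η) := by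
      intro t
      rw [hI, mem_filter]
    have hsub : ∀ t ∈ Ioo 0 N \ σ, insert t σ ⊆ Ioo 0 N := fun t ht =>
      insert_subset (mem_sdiff.1 ht).1 hσ
    have hcard : ∀ t ∈ Ioo 0 N \ σ, (insert t σ).card = σ.card + 1 := fun t ht =>
      card_insert_of_notMem (mem_sdiff.1 ht).2
    -- membership in terms of sets
    have hpos : ∀ t ∈ Ioo 0 N \ σ, (0 < Bf N η W m (insert t σ) (0, η) (0, η) ↔
        ∃ τ, τ ⊆ Ioo 0 N ∧ insert t σ ⊆ τ ∧ τ.card = σ.card + (m + 3) ∧ 0 < W τ) := by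
      intro t ht
      rw [Bf_eta_eta, pow_pos_iff hW hη (hsub t ht)]
      constructor
      · rintro ⟨τ, h1, h2, h3, h4⟩
        exact ⟨τ, h1, h2, by rw [h3, hcard t ht]; ring, h4⟩
      · rintro ⟨τ, h1, h2, h3, h4⟩
        exact ⟨τ, h1, h2, by rw [h3, hcard t ht]; ring, h4⟩
    -- vanishing outside of `I`
    have hvan : ∀ t ∈ Ioo 0 N \ σ, t ∉ I → ∀ a b, Bf N η W m (insert t σ) a b = 0 := by
      intro t ht htI a b
      have hno : ¬ ∃ τ, τ ⊆ Ioo 0 N ∧ insert t σ ⊆ τ ∧ τ.card = σ.card + (m + 3) ∧ 0 < W τ := by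
        intro hex
        exact htI ((hmemI t).2 ⟨ht, (hpos t ht).2 hex⟩)
      refine Bf_eq_zero (hsub t ht) m ?_ a b
      intro k hk1 hk2 τ h1 h2 h3
      by_contra hne
      have h4 : 0 < W τ := lt_of_le_of_ne (hW τ h1) (Ne.symm hne)
      rw [hcard t ht] at h3
      obtain ⟨τ', h5, h6, h7, h8⟩ := SkelB_extend N K W H3 (insert t σ) (m + 2 - k) τ h1 h2
        (by omega) h4
      exact hno ⟨τ', h5, h6, by omega, h8⟩
    have hsumI : ∀ F : ℕ → ℝ, (∀ t ∈ Ioo 0 N \ σ, t ∉ I → F t = 0) →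
        ∑ t ∈ Ioo 0 N \ σ, F t = ∑ t : I, F t := by
      intro F hF
      rw [Finset.sum_coe_sort I F]
      exact (Finset.sum_subset (filter_subset _ _) fun t ht htI => hF t ht htI).symm
    have hmem : ∀ t : I, (t : ℕ) ∈ Ioo 0 N \ σ := fun t => ((hmemI t).1 t.2).1
    refine bochner (Bf N η W (m + 1) σ) (fun a b c => Bf_add _ a b c)
      (fun r a b => Bf_smul _ r a b) (fun a b => Bf_symm _ a b)
      (ι := I) (fun t => dev N σ η t) (fun t => hη σ hσ t (hmem t))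
      (fun t => (0, Pi.single (t : ℕ) 1)) (0, η) ?_ ?_ ?_ ?_ ?_
    · intro a
      rw [Bf_eta hσ]
      refine hsumI (fun t => dev N σ η t * Bf N η W (m + 1) σ a (0, Pi.single t 1)) ?_
      intro t ht htI
      rw [Bf_single_succ hσ ht, hvan t ht htI, mul_zero]
    · intro t
      rw [Bf_single_succ hσ (hmem t)]
      exact ((hmemI t).1 t.2).2
    · intro a
      rw [Bf_succ hσ, hsumI (fun t => dev N σ η t * Bf N η W m (insert t σ) a a) ?_]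
      · refine Finset.sum_le_sum fun t _ => ?_
        have hp : 0 < Bf N η W m (insert (t : ℕ) σ) (0, η) (0, η) := ((hmemI t).1 t.2).2
        rw [Bf_single_succ hσ (hmem t), Bf_single_succ hσ (hmem t), le_div_iff₀ hp, mul_assoc]
        refine mul_le_mul_of_nonneg_left ?_ (hη σ hσ t (hmem t)).le
        refine ih (insert (t : ℕ) σ) (hsub t (hmem t)) ?_ a
        rw [hcard t (hmem t)]
        omega
      · intro t ht htI
        rw [hvan t ht htI, mul_zero]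
    · intro s t hst
      have hst' : (s : ℕ) ≠ t := fun h => hst (Subtype.ext h)
      rw [Bf_single_single hσ (hmem s) (hmem t) hst']
      refine pow_nonneg' hW hη ?_ _
      exact insert_subset (mem_sdiff.1 (hmem s)).1 (hsub t (hmem t))
    · intro s t
      have hpath := H2 σ hσ (m + 3) (by omega) (by omega) s (hmem s) t (hmem t)
        ((hpos s (hmem s)).1 ((hmemI s).1 s.2).2) ((hpos t (hmem t)).1 ((hmemI t).1 t.2).2)
      have hlift : ∀ x y : ℕ, Relation.ReflTransGen (Adj N W σ (m + 3)) x y → ∀ hx : x ∈ I,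
          ∃ hy : y ∈ I, Relation.ReflTransGen
            (fun x y : I => 0 < Bf N η W (m + 1) σ (0, Pi.single (x : ℕ) 1)
              (0, Pi.single (y : ℕ) 1)) ⟨x, hx⟩ ⟨y, hy⟩ := by
        intro x y hxy hx
        induction hxy with
        | refl => exact ⟨hx, Relation.ReflTransGen.refl⟩
        | @tail b c _ hbc ih2 =>
          obtain ⟨hb, hpb⟩ := ih2
          obtain ⟨hbσ, hcσ, hne, τ, h1, h2, h3, h4⟩ := hbc
          have hcτ : c ∈ τ := h2 (mem_insert_of_mem (mem_insert_self _ _))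
          have hc1 : c ∈ Ioo 0 N \ σ := mem_sdiff.2 ⟨h1 hcτ, hcσ⟩
          have hcI : c ∈ I := (hmemI c).2 ⟨hc1, (hpos c hc1).2
            ⟨τ, h1, (subset_insert _ _).trans h2, h3, h4⟩⟩
          refine ⟨hcI, hpb.tail ?_⟩
          have hb1 : b ∈ Ioo 0 N \ σ := ((hmemI b).1 hb).1
          show 0 < Bf N η W (m + 1) σ (0, Pi.single b 1) (0, Pi.single c 1)
          rw [Bf_single_single hσ hb1 hc1 hne]
          rw [pow_pos_iff hW hη (insert_subset (mem_sdiff.1 hb1).1 (hsub c hc1))]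
          refine ⟨τ, h1, h2, ?_, h4⟩
          have hbc' : b ∉ insert c σ := by
            rw [mem_insert]
            push Not
            exact ⟨hne, hbσ⟩
          rw [card_insert_of_notMem hbc', hcard c hc1]
          omega
      obtain ⟨_, h⟩ := hlift s t hpath s.2
      exact h

end Pool.Agent.LHC
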