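import Pool.Agent.LHC.Zeta

/-!
Module LHC-TauD: the sequence `tau h = theta h / (2h)` satisfies `TauData`.

`pos`: strong induction from `theta_rec` (`theta 1 = 1`).  `one`: `theta 1 = 1`.
`recu`: `theta_rec` with `theta k = 2 k tau k`.
`logc`: by `theta_zeta`, `theta h = 2 (4/pi^2)^h Λ h`, where `Λ h = (1 - 4^(-h)) zeta(2h)` is the
sum over the odd `n` of `1/n^(2h)` (split the sum over `n` into even and odd `n`, the even ones
give `4^(-h) zeta(2h)`).  For `j < k < h`, put `a = k - j`, so that `k + (h-j) = h + a`,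
`a < k, h-j < h`.  Two facts, whose product is `logc`:
(1) `Λ k * Λ (h-j) ≤ Λ h * Λ (k-j)`: for example from
`Λ h Λ a - Λ k Λ (h-j) = 1/2 sum over odd x,y of (x^-2a - ...)`; precisely, with
`A = x^(-2)`, `B = y^(-2)`:
`A^h B^a + A^a B^h - A^k B^(h-j) - A^(h-j) B^k = (AB)^a (A^j - B^j)(A^(h-k) - B^(h-k)) ≥ 0`
(since `k = a + j`, `h-j = a + (h-k)`, `h = a + j + (h-k)`); it is enough to prove it for finite
partial sums (a double sum, symmetrised) and to pass to the limit.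
(2) `1/(k (h-j)) ≤ 1/(h (k-j))` because `h (k-j) ≤ k (h-j)`.
-/

open Finset

namespace Pool.Agent.LHC

private theorem TauD_fin (s : Finset ℕ) (u : ℕ → ℝ) (hu : ∀ n, 0 ≤ u n) (a p q : ℕ) :
    (∑ x ∈ s, u x ^ (a + p)) * (∑ y ∈ s, u y ^ (a + q)) ≤
      (∑ x ∈ s, u x ^ (a + p + q)) * (∑ y ∈ s, u y ^ a) := by
  have h1 : ∀ f g : ℕ → ℝ, (∑ x ∈ s, f x) * (∑ y ∈ s, g y) =
      ∑ x ∈ s, ∑ y ∈ s, f x * g y := fun f g => Finset.sum_mul_sum s s f g
  have h2 : ∀ f g : ℕ → ℝ, (∑ x ∈ s, f x) * (∑ y ∈ s, g y) =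
      ∑ x ∈ s, ∑ y ∈ s, f y * g x := by
    intro f g
    rw [h1, Finset.sum_comm]
  have h3 : 0 ≤ ∑ x ∈ s, ∑ y ∈ s, (u x * u y) ^ a * ((u x ^ p - u y ^ p) * (u x ^ q - u y ^ q)) := by
    refine Finset.sum_nonneg fun x _ => Finset.sum_nonneg fun y _ => ?_
    refine mul_nonneg (pow_nonneg (mul_nonneg (hu x) (hu y)) _) ?_
    rcases le_total (u x) (u y) with h | h
    · have e1 : u x ^ p ≤ u y ^ p := pow_le_pow_left₀ (hu x) h p
      have e2 : u x ^ q ≤ u y ^ q := pow_le_pow_left₀ (hu x) h q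
      exact mul_nonneg_of_nonpos_of_nonpos (by linarith) (by linarith)
    · have e1 : u y ^ p ≤ u x ^ p := pow_le_pow_left₀ (hu y) h p
      have e2 : u y ^ q ≤ u x ^ q := pow_le_pow_left₀ (hu y) h q
      exact mul_nonneg (by linarith) (by linarith)
  have h4 : ∑ x ∈ s, ∑ y ∈ s, (u x * u y) ^ a * ((u x ^ p - u y ^ p) * (u x ^ q - u y ^ q)) =
      2 * ((∑ x ∈ s, u x ^ (a + p + q)) * (∑ y ∈ s, u y ^ a)) -
      2 * ((∑ x ∈ s, u x ^ (a + p)) * (∑ y ∈ s, u y ^ (a + q))) := by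
    have e1 : 2 * ((∑ x ∈ s, u x ^ (a + p + q)) * (∑ y ∈ s, u y ^ a)) =
        (∑ x ∈ s, ∑ y ∈ s, u x ^ (a + p + q) * u y ^ a) +
        ∑ x ∈ s, ∑ y ∈ s, u y ^ (a + p + q) * u x ^ a := by
      rw [← h1, ← h2, two_mul]
    have e2 : 2 * ((∑ x ∈ s, u x ^ (a + p)) * (∑ y ∈ s, u y ^ (a + q))) =
        (∑ x ∈ s, ∑ y ∈ s, u x ^ (a + p) * u y ^ (a + q)) +
        ∑ x ∈ s, ∑ y ∈ s, u y ^ (a + p) * u x ^ (a + q) := by
      rw [← h1, ← h2, two_mul]
    rw [e1, e2]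
    simp only [← Finset.sum_add_distrib, ← Finset.sum_sub_distrib]
    refine Finset.sum_congr rfl fun x _ => Finset.sum_congr rfl fun y _ => ?_
    rw [mul_pow]
    ring
  linarith

private noncomputable def TauD_u (n : ℕ) : ℝ := 1 / ((2 * n + 1 : ℕ) : ℝ) ^ 2

private theorem TauD_u_nonneg (n : ℕ) : 0 ≤ TauD_u n := by
  unfold TauD_u
  positivity

private theorem TauD_u_pow (n h : ℕ) : TauD_u n ^ h = 1 / ((2 * n + 1 : ℕ) : ℝ) ^ (2 * h) := by
  unfold TauD_u
  rw [div_pow, one_pow, ← pow_mul]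

private theorem TauD_sum_all (h : ℕ) (hh : 1 ≤ h) :
    Summable fun n : ℕ => 1 / (n : ℝ) ^ (2 * h) :=
  Real.summable_one_div_nat_pow.2 (by omega)

private theorem TauD_sum (h : ℕ) (hh : 1 ≤ h) : Summable fun n => TauD_u n ^ h := by
  have h1 := (TauD_sum_all h hh).comp_injective (i := fun n : ℕ => 2 * n + 1)
    (fun a b hab => by
      simp only at hab
      omega)
  refine h1.congr fun n => ?_
  rw [TauD_u_pow]
  rfl

private noncomputable def TauD_L (h : ℕ) : ℝ := ∑' n, TauD_u n ^ h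

private theorem TauD_L_nonneg (h : ℕ) : 0 ≤ TauD_L h :=
  tsum_nonneg fun n => pow_nonneg (TauD_u_nonneg n) h

private theorem TauD_L_log (a p q : ℕ) (ha : 1 ≤ a) :
    TauD_L (a + p) * TauD_L (a + q) ≤ TauD_L (a + p + q) * TauD_L a := by
  have h1 : ∀ h, 1 ≤ h → Filter.Tendsto (fun s : Finset ℕ => ∑ n ∈ s, TauD_u n ^ h) Filter.atTop
      (nhds (TauD_L h)) := fun h hh => (TauD_sum h hh).hasSum
  exact le_of_tendsto_of_tendsto' ((h1 (a + p) (by omega)).mul (h1 (a + q) (by omega)))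
    ((h1 (a + p + q) (by omega)).mul (h1 a ha)) fun s => TauD_fin s TauD_u TauD_u_nonneg a p q

private theorem TauD_zeta (h : ℕ) (hh : 1 ≤ h) :
    (4 ^ h - 1) * ∑' n : ℕ, 1 / (n : ℝ) ^ (2 * h) = 4 ^ h * TauD_L h := by
  have hs := TauD_sum_all h hh
  have he : Summable fun n : ℕ => 1 / ((2 * n : ℕ) : ℝ) ^ (2 * h) :=
    hs.comp_injective (i := fun n : ℕ => 2 * n) (fun a b hab => by
      simp only at hab
      omega)
  have ho : Summable fun n : ℕ => 1 / ((2 * n + 1 : ℕ) : ℝ) ^ (2 * h) :=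
    hs.comp_injective (i := fun n : ℕ => 2 * n + 1) (fun a b hab => by
      simp only at hab
      omega)
  have h1 := tsum_even_add_odd (f := fun n : ℕ => 1 / (n : ℝ) ^ (2 * h)) he ho
  have h2 : ∑' n : ℕ, 1 / ((2 * n + 1 : ℕ) : ℝ) ^ (2 * h) = TauD_L h := by
    unfold TauD_L
    exact tsum_congr fun n => (TauD_u_pow n h).symm
  have h3 : ∑' n : ℕ, 1 / ((2 * n : ℕ) : ℝ) ^ (2 * h) =
      (4 ^ h)⁻¹ * ∑' n : ℕ, 1 / (n : ℝ) ^ (2 * h) := by
    rw [← tsum_mul_left]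
    refine tsum_congr fun n => ?_
    rw [Nat.cast_mul, mul_pow, Nat.cast_ofNat, pow_mul 2 2 h]
    norm_num
    ring
  rw [h2, h3] at h1
  have h4 : (4 : ℝ) ^ h ≠ 0 := by positivity
  have h5 : (4 : ℝ) ^ h * ((4 ^ h)⁻¹ * ∑' n : ℕ, 1 / (n : ℝ) ^ (2 * h)) =
      ∑' n : ℕ, 1 / (n : ℝ) ^ (2 * h) := by
    rw [← mul_assoc, mul_inv_cancel₀ h4, one_mul]
  have h6 := congrArg (fun t : ℝ => (4 : ℝ) ^ h * t) h1
  simp only at h6
  rw [mul_add, h5] at h6
  linarith

private theorem TauD_tau (h : ℕ) (hh : 1 ≤ h) :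
    tau h = (4 / Real.pi ^ 2) ^ h * (TauD_L h / h) := by
  unfold tau
  rw [theta_zeta h hh]
  have h1 := TauD_zeta h hh
  have hp : (Real.pi : ℝ) ^ (2 * h) ≠ 0 := by positivity
  have hh0 : (h : ℝ) ≠ 0 := by positivity
  have h2 : 2 * (4 ^ h - 1) / Real.pi ^ (2 * h) * ∑' n : ℕ, 1 / (n : ℝ) ^ (2 * h) =
      2 / Real.pi ^ (2 * h) * ((4 ^ h - 1) * ∑' n : ℕ, 1 / (n : ℝ) ^ (2 * h)) := by ring
  rw [h2, h1, div_pow, ← pow_mul]
  field_simp

private theorem TauD_pos (k : ℕ) : 1 ≤ k → 0 < theta k := by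
  induction k using Nat.strong_induction_on with
  | _ k ih =>
    intro hk
    rcases Nat.lt_or_ge k 2 with h | h
    · have : k = 1 := by omega
      subst this
      simp [theta]
    · have h1 := theta_rec k h
      have h2 : 0 < ∑ j ∈ Ioo 0 k, theta j * theta (k - j) := by
        refine Finset.sum_pos (fun j hj => ?_) ⟨1, ?_⟩
        · rw [Finset.mem_Ioo] at hj
          exact mul_pos (ih j (by omega) (by omega)) (ih (k - j) (by omega) (by omega))
        · rw [Finset.mem_Ioo]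
          omega
      rw [← h1] at h2
      have h3 : (0 : ℝ) < 2 * (k : ℝ) - 1 := by
        have : (2 : ℝ) ≤ k := by exact_mod_cast h
        linarith
      exact (mul_pos_iff_of_pos_left h3).1 h2

theorem tauData : TauData tau := by
  refine ⟨?_, ?_, ?_, ?_⟩
  · intro k hk
    unfold tau
    have h1 : (0 : ℝ) < k := by exact_mod_cast hk
    exact div_pos (TauD_pos k hk) (by linarith)
  · unfold tau
    simp [theta]
  · intro h hh
    have h0 : (h : ℝ) ≠ 0 := by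
      have : (2 : ℝ) ≤ h := by exact_mod_cast hh
      positivity
    have h1 : ∑ k ∈ Ioo 0 h, (k : ℝ) * ((h : ℝ) - k) * (tau k * tau (h - k)) =
        ∑ k ∈ Ioo 0 h, (theta k * theta (h - k)) / 4 := by
      refine Finset.sum_congr rfl fun k hk => ?_
      rw [Finset.mem_Ioo] at hk
      unfold tau
      rw [Nat.cast_sub hk.2.le]
      have h2 : (k : ℝ) ≠ 0 := by
        have : (0 : ℝ) < k := by exact_mod_cast hk.1
        exact this.ne'
      have h3 : (h : ℝ) - k ≠ 0 := by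
        have : (k : ℝ) < h := by exact_mod_cast hk.2
        exact (sub_pos.2 this).ne'
      field_simp
      ring
    rw [h1, ← Finset.sum_div, ← theta_rec h hh]
    unfold tau
    field_simp
    ring
  · intro j k h hj hjk hkh
    obtain ⟨a, rfl⟩ : ∃ a, k = a + j := ⟨k - j, by omega⟩
    obtain ⟨q, rfl⟩ : ∃ q, h = a + j + q := ⟨h - (a + j), by omega⟩
    have ha : 1 ≤ a := by omega
    have hq : 1 ≤ q := by omega
    have e1 : a + j + q - j = a + q := by omega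
    have e2 : a + j - j = a := by omega
    rw [e1, e2, TauD_tau (a + j) (by omega), TauD_tau (a + q) (by omega),
      TauD_tau (a + j + q) (by omega), TauD_tau a ha]
    have hL := TauD_L_log a j q ha
    have hc : (0 : ℝ) < 4 / Real.pi ^ 2 := by positivity
    have ha' : (1 : ℝ) ≤ a := by exact_mod_cast ha
    have hj' : (1 : ℝ) ≤ j := by exact_mod_cast hj
    have hq' : (1 : ℝ) ≤ q := by exact_mod_cast hq
    have h5 : TauD_L (a + j) * TauD_L (a + q) / (((a + j : ℕ) : ℝ) * ((a + q : ℕ) : ℝ)) ≤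
        TauD_L (a + j + q) * TauD_L a / (((a + j + q : ℕ) : ℝ) * (a : ℝ)) := by
      refine div_le_div₀ (mul_nonneg (TauD_L_nonneg _) (TauD_L_nonneg _)) hL ?_ ?_
      · push_cast
        positivity
      · push_cast
        nlinarith
    have e3 : (4 / Real.pi ^ 2) ^ (a + j) * (TauD_L (a + j) / ((a + j : ℕ) : ℝ)) *
        ((4 / Real.pi ^ 2) ^ (a + q) * (TauD_L (a + q) / ((a + q : ℕ) : ℝ))) =
        (4 / Real.pi ^ 2) ^ (a + j + (a + q)) *
        (TauD_L (a + j) * TauD_L (a + q) / (((a + j : ℕ) : ℝ) * ((a + q : ℕ) : ℝ))) := by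
      rw [pow_add (4 / Real.pi ^ 2) (a + j) (a + q)]
      ring
    have e4 : (4 / Real.pi ^ 2) ^ (a + j + q) * (TauD_L (a + j + q) / ((a + j + q : ℕ) : ℝ)) *
        ((4 / Real.pi ^ 2) ^ a * (TauD_L a / (a : ℝ))) =
        (4 / Real.pi ^ 2) ^ (a + j + (a + q)) *
        (TauD_L (a + j + q) * TauD_L a / (((a + j + q : ℕ) : ℝ) * (a : ℝ))) := by
      have e5 : a + j + (a + q) = a + j + q + a := by ring
      rw [e5, pow_add (4 / Real.pi ^ 2) (a + j + q) a]
      ring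
    rw [e3, e4]
    exact mul_le_mul_of_nonneg_left h5 (pow_nonneg hc.le _)

end Pool.Agent.LHC
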