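import Pool.Agent.LHC.HOne
import Pool.Agent.LHC.SkelB
import Pool.Agent.LHC.Conn
import Pool.Agent.LHC.TauD

/-!
Module LHC-Lim: the log-concavity theorem of the one dimensional model. Proofs by helper11.

For `ε > 0` let `η = psi0 N + ε • kappa`, `kappa x = x (N - x)`.  By `dev_psi0_nonneg`,
`dev_kappa_pos`, `dev_add`, `dev_smul` it satisfies `hη` of `skeleton`.  Apply `skeleton` with
`K = N - 1 - l` (note `σ.card + k ≤ K` for the given sizes means `σ.card + k + l + 1 ≤ N`), `W = WW tau N l`,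
`hW = WW_nonneg`, `H1 = h1_all`, `H3` from `WW_pos_iff` and `ext_feas` (`Feas` is the criterion of
`WW_pos_iff`), `H2` from `WW_pos_iff` and `conn_feas` (`FAdj` implies `Adj`), at `σ = ∅`,
`m = N - 1 - l - (i + 1)`, `a = (1, 0)`.  By `TT_one`, `TT_zero_left`:
`Bf m ∅ (1,0) (1,0) = (D_η^m W) ∅`, `Bf m ∅ (1,0) (0,η) = (D_η^(m+1) W) ∅`,
`Bf m ∅ (0,η) (0,η) = (D_η^(m+2) W) ∅`.
Finally let `ε → 0`: `ε ↦ ((Dop N (psi0 N + ε • kappa))^k Φ) σ` is continuous for every `σ`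
(induction on `k`; `Dop` is a finite sum with coefficients affine in `ε`).
-/

open Finset

namespace Pool.Agent.LHC

/-- The perturbed cotangent class. -/
private noncomputable def Lim_eta (N : ℕ) (ε : ℝ) : ℕ → ℝ :=
  psi0 N + ε • (fun x : ℕ => (x : ℝ) * ((N : ℝ) - x))

private theorem Lim_eta_zero (N : ℕ) : Lim_eta N 0 = psi0 N := by
  unfold Lim_eta
  rw [zero_smul, add_zero]

private theorem Lim_dev (N : ℕ) (σ : Finset ℕ) (ε : ℝ) (s : ℕ) :
    dev N σ (Lim_eta N ε) s =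
      dev N σ (psi0 N) s + ε * dev N σ (fun x : ℕ => (x : ℝ) * ((N : ℝ) - x)) s := by
  unfold Lim_eta
  rw [dev_add, dev_smul]

private theorem Lim_pos {N : ℕ} (hN : 2 ≤ N) {ε : ℝ} (hε : 0 < ε) :
    ∀ σ, σ ⊆ Ioo 0 N → ∀ s ∈ Ioo 0 N \ σ, 0 < dev N σ (Lim_eta N ε) s := by
  intro σ hσ s hs
  rw [Lim_dev]
  have h1 := dev_psi0_nonneg (by omega) hσ hs
  have h2 := dev_kappa_pos hσ hs
  have h3 := mul_pos hε h2
  linarith

private theorem Lim_cont (N : ℕ) (Φ : Finset ℕ → ℝ) (k : ℕ) :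
    ∀ σ : Finset ℕ, Continuous (fun ε : ℝ => ((Dop N (Lim_eta N ε)) ^ k) Φ σ) := by
  induction k with
  | zero =>
    intro σ
    simp only [pow_zero]
    exact continuous_const
  | succ k ih =>
    intro σ
    by_cases hσ : σ ⊆ Ioo 0 N
    · have h : (fun ε : ℝ => ((Dop N (Lim_eta N ε)) ^ (k + 1)) Φ σ) = fun ε : ℝ =>
          ∑ s ∈ Ioo 0 N \ σ, (dev N σ (psi0 N) s +
            ε * dev N σ (fun x : ℕ => (x : ℝ) * ((N : ℝ) - x)) s) *
            ((Dop N (Lim_eta N ε)) ^ k) Φ (insert s σ) := by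
        funext ε
        rw [pow_succ', Module.End.mul_apply, Dop_apply, if_pos hσ]
        exact sum_congr rfl (fun s _ => by rw [Lim_dev])
      rw [h]
      refine continuous_finsetSum _ (fun s _ => ?_)
      exact (continuous_const.add (continuous_id.mul continuous_const)).mul (ih (insert s σ))
    · have h : (fun ε : ℝ => ((Dop N (Lim_eta N ε)) ^ (k + 1)) Φ σ) = fun _ : ℝ => (0 : ℝ) := by
        funext ε
        rw [pow_succ', Module.End.mul_apply, Dop_apply, if_neg hσ]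
      rw [h]
      exact continuous_const

private theorem Lim_tendsto (N : ℕ) (Φ : Finset ℕ → ℝ) (k : ℕ) (σ : Finset ℕ) :
    Filter.Tendsto (fun ε : ℝ => ((Dop N (Lim_eta N ε)) ^ k) Φ σ) (nhdsWithin 0 (Set.Ioi 0))
      (nhds (((Dop N (psi0 N)) ^ k) Φ σ)) := by
  have h := ((Lim_cont N Φ k σ).tendsto 0).mono_left
    (nhdsWithin_le_nhds (s := Set.Ioi (0 : ℝ)))
  rw [Lim_eta_zero] at h
  exact h

private theorem Lim_feas {N l : ℕ} (hN : 2 ≤ N) {σ : Finset ℕ} (hσ : σ ⊆ Ioo 0 N) :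
    0 < WW tau N l σ ↔ Feas N l σ := WW_pos_iff tauData hN l hσ

private theorem Lim_eps (N l i : ℕ) (hN : 2 ≤ N) (hi : 1 ≤ i) (h : i + l + 2 ≤ N) {ε : ℝ}
    (hε : 0 < ε) :
    ((Dop N (Lim_eta N ε)) ^ (N - 1 - l - (i - 1))) (WW tau N l) ∅ *
      ((Dop N (Lim_eta N ε)) ^ (N - 1 - l - (i + 1))) (WW tau N l) ∅ ≤
    (((Dop N (Lim_eta N ε)) ^ (N - 1 - l - i)) (WW tau N l) ∅) ^ 2 := by
  obtain ⟨m, hm⟩ : ∃ m, N - 1 - l - (i + 1) = m := ⟨_, rfl⟩
  have e1 : N - 1 - l - (i - 1) = m + 2 := by omega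
  have e2 : N - 1 - l - i = m + 1 := by omega
  rw [e1, e2, hm]
  have hsk := skeleton N (N - 1 - l) (WW tau N l) (Lim_eta N ε)
    (fun σ hσ => WW_nonneg tauData hN l hσ) (Lim_pos hN hε)
    (fun σ hσ _ => h1_all tauData hN l hσ)
    (fun σ hσ M hM hc s hs t ht hs' ht' => by
      rw [mem_sdiff] at hs ht
      have hconv : ∀ x : ℕ,
          (∃ τ, τ ⊆ Ioo 0 N ∧ insert x σ ⊆ τ ∧ τ.card = σ.card + M ∧ 0 < WW tau N l τ) →
          ∃ τ, τ ⊆ Ioo 0 N ∧ insert x σ ⊆ τ ∧ τ.card = σ.card + M ∧ Feas N l τ := by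
        rintro x ⟨τ, h1, h2, h3, h4⟩
        exact ⟨τ, h1, h2, h3, (Lim_feas hN h1).1 h4⟩
      refine Relation.ReflTransGen.mono ?_ s t
        (conn_feas hN hσ hM hs.2 ht.2 (hconv s hs') (hconv t ht'))
      rintro x y ⟨h1, h2, h3, τ, h4, h5, h6, h7⟩
      exact ⟨h1, h2, h3, τ, h4, h5, h6, (Lim_feas hN h4).2 h7⟩)
    (fun σ hσ hc hpos => by
      obtain ⟨s, hs, hs'⟩ := ext_feas hN ((Lim_feas hN hσ).1 hpos) (by omega)
      exact ⟨s, hs, (Lim_feas hN (insert_subset (mem_sdiff.1 hs).1 hσ)).2 hs'⟩)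
    m ∅ (empty_subset _) (by rw [card_empty]; omega) (1, 0)
  rw [Bf_eta_eta] at hsk
  have h1 : Bf N (Lim_eta N ε) (WW tau N l) m ∅ (1, 0) (1, 0) =
      ((Dop N (Lim_eta N ε)) ^ m) (WW tau N l) ∅ := by
    unfold Bf
    rw [TT_one, mul_one, mul_one]
  have h2 : Bf N (Lim_eta N ε) (WW tau N l) m ∅ (1, 0) (0, Lim_eta N ε) =
      ((Dop N (Lim_eta N ε)) ^ (m + 1)) (WW tau N l) ∅ := by
    unfold Bf
    rw [TT_one, TT_zero_left, one_mul, ← pow_succ]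
  rw [h1, h2, mul_comm] at hsk
  exact hsk

theorem model_logconcave (N l i : ℕ) (hN : 2 ≤ N) (hi : 1 ≤ i) (h : i + l + 2 ≤ N) :
    ((Dop N (psi0 N)) ^ (N - 1 - l - (i - 1))) (WW tau N l) ∅ *
      ((Dop N (psi0 N)) ^ (N - 1 - l - (i + 1))) (WW tau N l) ∅ ≤
    (((Dop N (psi0 N)) ^ (N - 1 - l - i)) (WW tau N l) ∅) ^ 2 := by
  refine le_of_tendsto_of_tendsto
    ((Lim_tendsto N (WW tau N l) (N - 1 - l - (i - 1)) ∅).mul
      (Lim_tendsto N (WW tau N l) (N - 1 - l - (i + 1)) ∅))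
    ((Lim_tendsto N (WW tau N l) (N - 1 - l - i) ∅).pow 2) ?_
  filter_upwards [self_mem_nhdsWithin] with ε hε
  exact Lim_eps N l i hN hi h hε

/-- The numbers of the model are nonnegative. -/
theorem model_nonneg (N l k : ℕ) (hN : 2 ≤ N) :
    0 ≤ ((Dop N (psi0 N)) ^ k) (WW tau N l) ∅ := by
  refine ge_of_tendsto (Lim_tendsto N (WW tau N l) k ∅) ?_
  filter_upwards [self_mem_nhdsWithin] with ε hε
  exact pow_nonneg' (fun σ hσ => WW_nonneg tauData hN l hσ) (Lim_pos hN hε) (empty_subset _) k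

end Pool.Agent.LHC
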