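import Pool.Agent.LHC.Link
import Pool.Agent.LHC.Lim

/-!
Module LHC-Final: log-concavity of the sequences of Hodge integrals with two Hodge classes.
Proofs by helper59.

`deg_eq_Fn`: `prod_unique` (helper17/Check.lean) for `n = 2`, `![k, l]`, `y = psi^m` (`isHomog_psi.pow`), comparing `(deg, lam)` with
`(degC, lamC)` (`isDegree_degC`, `isHodge_lamC`); then `Num_sing` and the definition of `Fn`; `Fintype.card (Fin (N+1)) = N + 1`.
`deg_zero`: `psi^m * (lam k * lam l)` is homogeneous of degree `m + k + l` (`IsHomog.mul`), use `IsDegree.homog`.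
`seq_logconcave`: if `l + (i+1) ≤ N - 1` all three numbers are `deg_eq_Fn`, cast to `ℝ`, `model_eq` and `model_logconcave`
(`N - 1 - (l + j) = N - 1 - l - j`).  If `l + i + 1 > N - 1` the factor with `i + 1` is zero (`deg_zero`: the exponent of `psi` is `0`
by truncated subtraction and `0 + l + (i+1) ≠ N - 1`).
-/

open Finset Pool.Agent.helper17

namespace Pool.Agent.LHC

variable {N : ℕ} {deg : ChowRing (Fin (N + 1)) →ₗ[ℚ] ℚ} {lam : ℕ → ChowRing (Fin (N + 1))}

theorem deg_eq_Fn (hN : 2 ≤ N) (hd : IsDegree deg) (h : IsHodge deg lam) (m k l : ℕ)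
    (hm : m + k + l + 1 = N) :
    deg (psi (Fin (N + 1)) ^ m * (lam k * lam l)) = Fn (N + 1) m k l := by
  have h2 : 2 ≤ Fintype.card (Fin (N + 1)) := by rw [Fintype.card_fin]; omega
  have hpsi : IsHomog m (psi (Fin (N + 1)) ^ m) := by
    have := (isHomog_psi (α := Fin (N + 1))).pow m
    rwa [mul_one] at this
  have hu := prod_unique h2 hd h (isDegree_degC h2) (isHodge_lamC h2) 2 ![k, l] m
    (psi (Fin (N + 1)) ^ m) hpsi (by
      rw [Fintype.card_fin, Fin.sum_univ_two]
      simp only [Matrix.cons_val_zero, Matrix.cons_val_one]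
      omega)
  rw [Fin.prod_univ_two, Fin.prod_univ_two] at hu
  simp only [Matrix.cons_val_zero, Matrix.cons_val_one] at hu
  rw [hu]
  unfold Fn
  rw [Num_sing h2]

theorem deg_zero (hN : 2 ≤ N) (hd : IsDegree deg) (h : IsHodge deg lam) (m k l : ℕ)
    (hm : m + k + l + 1 ≠ N) :
    deg (psi (Fin (N + 1)) ^ m * (lam k * lam l)) = 0 := by
  have hpsi : IsHomog m (psi (Fin (N + 1)) ^ m) := by
    have := (isHomog_psi (α := Fin (N + 1))).pow m
    rwa [mul_one] at this
  have hk : IsHomog k (lam k) := h.homog k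
  have hl : IsHomog l (lam l) := h.homog l
  obtain ⟨p, hp, hpe⟩ := hpsi.mul (hk.mul hl)
  rw [← hpe]
  refine hd.homog _ p hp ?_
  rw [Fintype.card_fin]
  omega

theorem seq_logconcave (hN : 2 ≤ N) (hd : IsDegree deg) (h : IsHodge deg lam) (l i : ℕ)
    (hi : 1 ≤ i) :
    (2 ^ (l + (i - 1)) * deg (psi (Fin (N + 1)) ^ (N - 1 - (l + (i - 1))) *
        (lam l * lam (i - 1)))) *
      (2 ^ (l + (i + 1)) * deg (psi (Fin (N + 1)) ^ (N - 1 - (l + (i + 1))) *
        (lam l * lam (i + 1)))) ≤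
    (2 ^ (l + i) * deg (psi (Fin (N + 1)) ^ (N - 1 - (l + i)) * (lam l * lam i))) ^ 2 := by
  by_cases hc : i + l + 2 ≤ N
  · have key : ∀ j, j + l + 1 ≤ N →
        (((2 : ℚ) ^ (l + j) * deg (psi (Fin (N + 1)) ^ (N - 1 - (l + j)) *
          (lam l * lam j)) : ℚ) : ℝ) =
        ((Dop N (psi0 N)) ^ (N - 1 - l - j)) (WW tau N l) ∅ := by
      intro j hj
      have e : N - 1 - (l + j) = N - 1 - l - j := by omega
      rw [e, deg_eq_Fn hN hd h (N - 1 - l - j) l j (by omega),
        model_eq N l j (N - 1 - l - j) hN (by omega)]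
    have hm := model_logconcave N l i hN hi hc
    rw [← key (i - 1) (by omega), ← key (i + 1) (by omega), ← key i (by omega)] at hm
    exact_mod_cast hm
  · have h0 : deg (psi (Fin (N + 1)) ^ (N - 1 - (l + (i + 1))) * (lam l * lam (i + 1))) = 0 :=
      deg_zero hN hd h _ _ _ (by omega)
    rw [h0, mul_zero, mul_zero]
    exact sq_nonneg _

end Pool.Agent.LHC
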