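import Pool.Agent.LHC.Hom
import Pool.Agent.helper17.Check

/-!
Module LHC-Rank: vanishing of `lambda_k` above the genus, and the bridge between `Num` and `degC`.

`rank_strat`: if `F` is nested, `F.card + k + 2 = card α` and `hodgeDegree F ≠ 0` then `k ≤ (card α - 1)/2`.  All
vertices (including `univ`) have two children, or three children all odd, so `pot_vertex` (helper17/KeelVanish.lean; its
hypothesis is `vw (children F V) ≠ 0`, equivalent) applies to every `V ∈ insert univ F`; summing
(`sum_card_children_sub_two`, `sum_children` as in `card_of_ne_zero`) gives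
`k = ∑ (children - 2) ≤ pot univ = (card α - 1)/2`.
`rank_vanish`: `isHodge_lamC`, `degree`, induction on the span.
`Num_sing`: `Num (sing α) (degP α) m k l = degC (psi^m * (lamC k * lamC l))` (`U_sing`, `degC_mk`, `lamC`).
`Num_sing_rank`: if `m + k + l + 2 ≠ card α` use `Num_dim`; otherwise `Num_sing`, `rank_vanish` with
`y = psi^m * lamC l`, which is in `stSpan` (`IsHomog.mem_stSpan`).
-/

open Finset MvPolynomial Pool.Agent.helper17

namespace Pool.Agent.LHC

variable {α : Type*} [DecidableEq α] [Fintype α]

theorem rank_strat (h2 : 2 ≤ Fintype.card α) {F : Finset (Finset α)} (hF : Nested F) {k : ℕ}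
    (hd : F.card + k + 2 = Fintype.card α) (h : hodgeDegree F ≠ 0) :
    k ≤ (Fintype.card α - 1) / 2 := by
  have hv : ∀ V ∈ insert univ F, vw (children F V) ≠ 0 := by
    intro V hV
    have h1 := prod_ne_zero_iff.mp h V hV
    unfold vw
    by_cases hc2 : (children F V).card = 2
    · rw [if_pos hc2]
      exact one_ne_zero
    · rw [if_neg hc2] at h1 ⊢
      by_cases hc3 : (children F V).card = 3 ∧ ∀ C ∈ children F V, Odd C.card
      · have h3 : oddCount (children F V) = 3 := by
          unfold oddCount
          rw [filter_true_of_mem hc3.2, hc3.1]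
        rw [if_pos ⟨hc3.1, h3⟩]
        norm_num
      · rw [if_neg hc3] at h1
        exact absurd rfl h1
  have h4 : ∑ V ∈ insert univ F, ((children F V).card - 2 + ∑ c ∈ children F V, pot c) ≤
      ∑ V ∈ insert univ F, pot V :=
    sum_le_sum (fun V hV => pot_vertex hF (two_le_vertex hF h2 hV) (hv V hV))
  have h5 := sum_card_children_sub_two hF h2
  have h6 := sum_children hF h2 (fun c => pot c)
  have h7 : ∑ c ∈ nodes F, pot c = ∑ V ∈ F, pot V := by
    symm
    apply sum_subset
    · intro V hV
      exact mem_nodes.mpr (Or.inl hV)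
    · intro c hc hcF
      rcases mem_nodes.mp hc with h | h
      · exact absurd h hcF
      · simp [pot, h]
  rw [sum_add_distrib, h6, h7, sum_insert (univ_notMem hF) (f := fun V => pot V)] at h4
  have h8 : pot (univ : Finset α) = (Fintype.card α - 1) / 2 := by
    unfold pot
    rw [card_univ]
  omega

theorem rank_vanish (h2 : 2 ≤ Fintype.card α) {a k : ℕ} (hd : a + k + 2 = Fintype.card α)
    (hk : (Fintype.card α - 1) / 2 < k) {y : ChowRing α} (hy : y ∈ stSpan α a) :
    degC h2 (lamC α k * y) = 0 := by
  unfold stSpan at hy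
  induction hy using Submodule.span_induction with
  | mem y hy =>
    obtain ⟨F, hF, hFc, rfl⟩ := hy
    rw [(isHodge_lamC h2).degree k F hF (by omega)]
    by_contra hne
    have := rank_strat h2 hF (k := k) (by omega) hne
    omega
  | zero => rw [mul_zero, map_zero]
  | add x y _ _ hx hy => rw [mul_add, map_add, hx, hy, add_zero]
  | smul c x _ hx => rw [mul_smul_comm, map_smul, hx, smul_zero]

theorem Num_sing (h2 : 2 ≤ Fintype.card α) (m k l : ℕ) :
    Num (sing α) (degP α) m k l = degC h2 (psi α ^ m * (lamC α k * lamC α l)) := by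
  have h5 : psi α ^ m * (lamC α k * lamC α l) = Ideal.Quotient.mk (Ideal.span (relations α))
      ((-X univ) ^ m * (homogeneousComponent k (cls (sing α)) *
        homogeneousComponent l (cls (sing α)))) := by
    rw [map_mul, map_mul, map_pow, map_neg]
    rfl
  rw [h5, degC_mk]
  unfold Num
  rw [U_sing]

theorem Num_sing_rank (h2 : 2 ≤ Fintype.card α) (m k l : ℕ)
    (hk : (Fintype.card α - 1) / 2 < k) : Num (sing α) (degP α) m k l = 0 := by
  by_cases hd : m + k + l + 2 = Fintype.card α
  · rw [Num_sing h2]
    have e1 : psi α ^ m * (lamC α k * lamC α l) = lamC α k * (psi α ^ m * lamC α l) := by ring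
    rw [e1]
    have h1 : IsHomog (m * 1 + l) (psi α ^ m * lamC α l) :=
      (isHomog_psi.pow m).mul ((isHodge_lamC h2).homog l)
    exact rank_vanish h2 (by omega) hk (h1.mem_stSpan h2)
  · exact Num_dim (isDeg_degP h2) (by rwa [card_sing])

end Pool.Agent.LHC
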