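import Pool.Agent.helper17.BlockDeg

/-!
Module LHC-Top (proofs: helper41): in top degree every class is a multiple of a power of the root class, and the
degree functional is unique.

`top_one`: adapt the proof of `top_monomial` (file helper17/BlockTop.lean), strong induction on `n`.
It is enough to treat monomials `m` of degree `n - 2` (a general `p` is a linear combination; collect
the constants).  If the monomial contains an invalid variable or two incompatible variables it is in
`bI L` (`r = 0`).  If it only contains `U L` take `r = ± 1`.  Otherwise take `S ≠ U L` minimal in the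
support, `X^m = X S * (X S ^ a * X^m')` with `m'` outside `S`, replace `X S` by `cc S - dd S` in `X S ^ a`, expand:
terms `X S * cc S ^ i * q`, `q` homogeneous in `outA S` of degree `n - 3 - i`.  With `k + 2 = (blk L S).card`:
if `i > k` the term is in `bI L` (`iot_kill` and `XU_pow_mem'`); if `i < k` then `q` has degree above the top of
`contr L S` (`top_mem`, `out_kill`); if `i = k`, by induction in `contr L S` (which has fewer blocks)
`q - C r * (-X (U L)) ^ e` is in `bI (contr L S)` (`U_contr`), `e = n - 3 - k`, so (`out_kill`) the term is congruent to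
`C r * X S * cc S ^ k * (-X (U L)) ^ e`, and `norm_contr` gives `X S * (-cc S)^k * (-X (U L))^e ≡ (-X (U L))^(n-2)`.
(Case `n = 2`: degree `0`, `p` is a constant.)

`isDeg_unique`: both functionals kill the homogeneous components of degree `≠ n - 2`
(`sum_homogeneousComponent`), and on the component of degree `n - 2` use `top_one`, `kill` and `norm`.
-/

open Finset MvPolynomial Pool.Agent.helper17

namespace Pool.Agent.LHC

variable {γ : Type*} [DecidableEq γ] [Fintype γ]

omit [DecidableEq γ] [Fintype γ] in
private theorem Top_sum {I : Ideal (MvPolynomial (Finset γ) ℚ)} {z : MvPolynomial (Finset γ) ℚ}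
    {ι : Type*} (s : Finset ι) (f : ι → MvPolynomial (Finset γ) ℚ)
    (h : ∀ i ∈ s, ∃ r : ℚ, f i - C r * z ∈ I) : ∃ r : ℚ, ∑ i ∈ s, f i - C r * z ∈ I := by
  classical
  induction s using Finset.induction_on with
  | empty => exact ⟨0, by simp⟩
  | insert a s ha ih =>
    obtain ⟨r, hr⟩ := h a (mem_insert_self a s)
    obtain ⟨t, ht⟩ := ih (fun i hi => h i (mem_insert_of_mem hi))
    refine ⟨r + t, ?_⟩
    rw [sum_insert ha]
    have := Ideal.add_mem _ hr ht
    convert this using 1
    rw [map_add]
    ring

omit [DecidableEq γ] [Fintype γ] in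
private theorem Top_smul {I : Ideal (MvPolynomial (Finset γ) ℚ)} {z p : MvPolynomial (Finset γ) ℚ}
    (c : ℚ) (h : ∃ r : ℚ, p - C r * z ∈ I) : ∃ r : ℚ, C c * p - C r * z ∈ I := by
  obtain ⟨r, hr⟩ := h
  refine ⟨c * r, ?_⟩
  have := Ideal.mul_mem_left _ (C c) hr
  convert this using 1
  rw [map_mul]
  ring

omit [DecidableEq γ] [Fintype γ] in
private theorem Top_zero {I : Ideal (MvPolynomial (Finset γ) ℚ)} {z p : MvPolynomial (Finset γ) ℚ}
    (h : p ∈ I) : ∃ r : ℚ, p - C r * z ∈ I := ⟨0, by simpa using h⟩

omit [DecidableEq γ] [Fintype γ] in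
private theorem Top_pow (d : ℕ) (x : MvPolynomial (Finset γ) ℚ) :
    x ^ d - C ((-1 : ℚ) ^ d) * (-x) ^ d = 0 := by
  rw [map_pow, map_neg, map_one, ← mul_pow]
  simp

/-- One term of the binomial expansion. -/
private theorem Top_term {L : Finset (Finset γ)} (hL : IsBlocks L) {S : Finset γ} (hS : Valid L S)
    (hSU : S ≠ U L)
    (ih : ∀ p : MvPolynomial (Finset γ) ℚ, p.IsHomogeneous ((contr L S).card - 2) →
      ∃ r : ℚ, p - C r * (-X (U (contr L S))) ^ ((contr L S).card - 2) ∈ bI (contr L S))
    {i j : ℕ} {q : MvPolynomial (Finset γ) ℚ} (hq : q.IsHomogeneous j) (hout : q ∈ outA S)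
    (hij : i + j + 3 = L.card) :
    ∃ r : ℚ, X S * (cc S ^ i * q) - C r * (-X (U L)) ^ (L.card - 2) ∈ bI L := by
  have hcc := card_contr hL hS
  have hSk := hS.two_le
  have hc2 := card_contr_ge hL hS hSU
  by_cases h1 : (blk L S).card ≤ i + 1
  · apply Top_zero
    have h2 := iot_kill hL hS (XU_pow_mem' (isBlocks_blk hL hS) hSk h1)
    rw [U_blk hS, map_pow, iot_X_self] at h2
    exact mem_annI.1 (Ideal.mul_mem_right _ _ h2)
  · by_cases h2 : i + 2 < (blk L S).card
    · apply Top_zero
      have h3 := top_mem (isBlocks_contr hL hS) hc2 (d := j) (by omega) hq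
      exact mem_annI.1 (Ideal.mul_mem_left _ _ (out_kill hL hS hout h3))
    · have h3 : (blk L S).card = i + 2 := by omega
      have h4 : (contr L S).card - 2 = j := by omega
      rw [h4, U_contr hL hS] at ih
      obtain ⟨r, hr⟩ := ih q hq
      have h5 : q - C r * (-X (U L)) ^ j ∈ outA S := by
        refine Subalgebra.sub_mem _ hout (Subalgebra.mul_mem _ ?_ ?_)
        · exact (outA S).algebraMap_mem r
        · exact Subalgebra.pow_mem _ (Subalgebra.neg_mem _
            (X_mem_outA (not_U_subset hL hS hSU))) _
      have h6 := mem_annI.1 (out_kill hL hS h5 hr)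
      have h7 := norm_contr i L S hL hS hSU h3 j (by omega)
      have h8 : L.card - 2 = j + i + 1 := by omega
      refine ⟨r * (-1) ^ i, ?_⟩
      rw [h8]
      have h9 := Ideal.add_mem _ (Ideal.mul_mem_left _ (cc S ^ i) h6)
        (Ideal.mul_mem_left _ (C (r * (-1) ^ i)) h7)
      convert h9 using 1
      have h10 : (-cc S : MvPolynomial (Finset γ) ℚ) ^ i = C ((-1 : ℚ) ^ i) * cc S ^ i := by
        rw [neg_pow, map_pow, map_neg, map_one]
      have h11 : (C (r * (-1) ^ i) * C ((-1 : ℚ) ^ i) : MvPolynomial (Finset γ) ℚ) = C r := by
        rw [← map_mul, mul_assoc, ← mul_pow]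
        simp
      rw [h10]
      linear_combination (-(X S * cc S ^ i * (-X (U L)) ^ j)) * h11

private theorem Top_mono (n : ℕ) (ih : ∀ m < n, ∀ L : Finset (Finset γ), IsBlocks L →
      L.card = m → 2 ≤ m → ∀ p : MvPolynomial (Finset γ) ℚ, p.IsHomogeneous (m - 2) →
      ∃ r : ℚ, p - C r * (-X (U L)) ^ (m - 2) ∈ bI L)
    (L : Finset (Finset γ)) (hL : IsBlocks L) (hn : L.card = n) (h2 : 2 ≤ n)
    (m : Finset γ →₀ ℕ) (hmd : m.degree = n - 2) :
    ∃ r : ℚ, monomial m (1 : ℚ) - C r * (-X (U L)) ^ (n - 2) ∈ bI L := by
  by_cases hval : ∀ T ∈ m.support, Valid L T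
  · by_cases hcomp : ∀ S ∈ m.support, ∀ T ∈ m.support, Compat S T
    · -- main case
      by_cases hU : ∀ T ∈ m.support, T = U L
      · have h3 : m = Finsupp.single (U L) (n - 2) := by
          have h1 : m = Finsupp.single (U L) (m (U L)) := by
            ext T
            rw [Finsupp.single_apply]
            split_ifs with h
            · rw [h]
            · by_contra hne
              exact h (hU T (Finsupp.mem_support_iff.mpr hne)).symm
          rw [h1] at hmd
          rw [Finsupp.degree_single] at hmd
          rw [h1, hmd]
        rw [h3, ← X_pow_eq_monomial]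
        exact ⟨(-1) ^ (n - 2), by rw [Top_pow]; exact Ideal.zero_mem _⟩
      · push Not at hU
        obtain ⟨T₀, hT₀, hT₀U⟩ := hU
        -- minimal element of the support
        obtain ⟨S, hSm, hSmin⟩ := exists_min_image (m.support.filter (fun T => T ≠ U L))
          Finset.card ⟨T₀, mem_filter.mpr ⟨hT₀, hT₀U⟩⟩
        rw [mem_filter] at hSm
        have hS := hval S hSm.1
        have hSU := hSm.2
        have hmin : ∀ T ∈ m.support, T ≠ S → ¬ T ⊆ S := by
          intro T hT hne hTS
          have hlt := card_lt_card (hTS.ssubset_of_ne hne)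
          by_cases hTU : T = U L
          · exact hSU (hS.1.antisymm (hTU ▸ hTS))
          · have := hSmin T (mem_filter.mpr ⟨hT, hTU⟩)
            omega
        -- split the monomial
        have hms : m S ≠ 0 := Finsupp.mem_support_iff.mp hSm.1
        obtain ⟨a, ha⟩ : ∃ a, m S = a + 1 := ⟨m S - 1, by omega⟩
        have hsplit : m = Finsupp.single S (a + 1) + m.erase S := by
          rw [← ha, Finsupp.single_add_erase]
        set m' := m.erase S with hm'
        have hdeg : a + 1 + m'.degree = n - 2 := by
          rw [hsplit, map_add, Finsupp.degree_single] at hmd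
          exact hmd
        have hmono : (monomial m (1 : ℚ)) = X S * (X S ^ a * monomial m' 1) := by
          rw [hsplit, ← one_mul (1 : ℚ), ← monomial_mul, ← X_pow_eq_monomial, pow_succ, one_mul]
          ring
        have hout : (monomial m' (1 : ℚ)) ∈ outA S := by
          rw [monomial_eq, map_one, one_mul]
          unfold Finsupp.prod
          apply Subalgebra.prod_mem
          intro T hT
          apply Subalgebra.pow_mem
          apply X_mem_outA
          have hT' : T ∈ m.support ∧ T ≠ S := by
            rw [hm', Finsupp.support_erase, mem_erase] at hT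
            exact ⟨hT.2, hT.1⟩
          exact hmin T hT'.1 hT'.2
        have hhom' : (monomial m' (1 : ℚ) : MvPolynomial (Finset γ) ℚ).IsHomogeneous m'.degree :=
          isHomogeneous_monomial _ rfl
        have hcc := card_contr hL hS
        have hSk := hS.two_le
        have hc2 := card_contr_ge hL hS hSU
        have hXS : (X S : MvPolynomial (Finset γ) ℚ) = cc S + (-dd S) := by rw [cc_eq]; ring
        have hexp : (monomial m (1 : ℚ)) = ∑ i ∈ range (a + 1), C (a.choose i : ℚ) *
            (X S * (cc S ^ i * ((-dd S) ^ (a - i) * monomial m' 1))) := by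
          rw [hmono]
          have h3 : (X S : MvPolynomial (Finset γ) ℚ) ^ a = (cc S + (-dd S)) ^ a := by
            rw [← hXS]
          rw [h3, add_pow, sum_mul, mul_sum]
          apply sum_congr rfl
          intro i _
          rw [map_natCast]
          ring
        rw [hexp]
        apply Top_sum
        intro i hi
        rw [mem_range] at hi
        apply Top_smul
        have hdhom : ((-dd S) ^ (a - i) * monomial m' 1 :
            MvPolynomial (Finset γ) ℚ).IsHomogeneous (a - i + m'.degree) := by
          apply IsHomogeneous.mul _ hhom'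
          have h1 := (isHomogeneous_dd S).neg.pow (a - i)
          rwa [one_mul] at h1
        have hdout : ((-dd S) ^ (a - i) * monomial m' 1 :
            MvPolynomial (Finset γ) ℚ) ∈ outA S :=
          Subalgebra.mul_mem _ (Subalgebra.pow_mem _
            (Subalgebra.neg_mem _ (dd_mem_outA' (fun h => h.2 (Subset.refl _)))) _) hout
        have h4 := Top_term hL hS hSU
          (ih (contr L S).card (by have := card_contr_lt hL hS; omega) (contr L S)
            (isBlocks_contr hL hS) rfl hc2) (i := i) hdhom hdout (by omega)
        rw [hn] at h4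
        exact h4
    · push Not at hcomp
      obtain ⟨S, hS, T, hT, hST⟩ := hcomp
      have hne : S ≠ T := by
        rintro rfl
        exact hST (Or.inl (Subset.refl _))
      have hsplit : m = (Finsupp.single S 1 + Finsupp.single T 1) +
          (m - (Finsupp.single S 1 + Finsupp.single T 1)) := by
        ext V
        simp only [Finsupp.add_apply, Finsupp.tsub_apply, Finsupp.single_apply]
        have h1 : m S ≠ 0 := Finsupp.mem_support_iff.mp hS
        have h2 : m T ≠ 0 := Finsupp.mem_support_iff.mp hT
        by_cases h3 : S = V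
        · by_cases h4 : T = V
          · exact absurd (h3.trans h4.symm) hne
          · rw [if_pos h3, if_neg h4]
            rw [h3] at h1
            omega
        · by_cases h4 : T = V
          · rw [if_neg h3, if_pos h4]
            rw [h4] at h2
            omega
          · rw [if_neg h3, if_neg h4]
            omega
      apply Top_zero
      rw [hsplit, ← one_mul (1 : ℚ), ← monomial_mul]
      apply Ideal.mul_mem_right
      rw [← one_mul (1 : ℚ), ← monomial_mul]
      exact XX_mem_of_not_compat L hST
  · push Not at hval
    obtain ⟨T, hT, hTv⟩ := hval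
    have hsplit : m = Finsupp.single T 1 + (m - Finsupp.single T 1) := by
      ext V
      simp only [Finsupp.add_apply, Finsupp.tsub_apply, Finsupp.single_apply]
      have h2 : m T ≠ 0 := Finsupp.mem_support_iff.mp hT
      by_cases h4 : T = V
      · rw [if_pos h4]
        rw [h4] at h2
        omega
      · rw [if_neg h4]
        omega
    apply Top_zero
    rw [hsplit, ← one_mul (1 : ℚ), ← monomial_mul]
    apply Ideal.mul_mem_right
    exact X_mem_of_not_valid hTv

theorem top_one : ∀ (n : ℕ) (L : Finset (Finset γ)), IsBlocks L → L.card = n → 2 ≤ n →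
    ∀ p : MvPolynomial (Finset γ) ℚ, p.IsHomogeneous (n - 2) →
      ∃ r : ℚ, p - C r * (-X (U L)) ^ (n - 2) ∈ bI L := by
  intro n
  induction n using Nat.strong_induction_on with
  | _ n ih =>
    intro L hL hn h2 p hp
    have h3 := Top_sum (I := bI L) (z := (-X (U L)) ^ (n - 2)) p.support
      (fun m => monomial m (coeff m p)) (by
        intro m hm
        have hmd : m.degree = n - 2 := by
          have := hp (mem_support_iff.mp hm)
          rw [Finsupp.degree_eq_weight_one]
          exact this
        have hmon : (monomial m (coeff m p) : MvPolynomial (Finset γ) ℚ)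
            = C (coeff m p) * monomial m 1 := by rw [C_mul_monomial, mul_one]
        rw [hmon]
        exact Top_smul _ (Top_mono n ih L hL hn h2 m hmd))
    rw [← p.as_sum] at h3
    exact h3

theorem isDeg_unique {L : Finset (Finset γ)} (hL : IsBlocks L) (h2 : 2 ≤ L.card) {c : ℚ}
    {D D' : MvPolynomial (Finset γ) ℚ →ₗ[ℚ] ℚ} (hD : IsDeg L c D) (hD' : IsDeg L 1 D') :
    D = c • D' := by
  have key : ∀ (i : ℕ) (q : MvPolynomial (Finset γ) ℚ), q.IsHomogeneous i → D q = c * D' q := by
    intro i q hq
    by_cases hi : i + 2 = L.card
    · have hi' : i = L.card - 2 := by omega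
      rw [hi'] at hq
      obtain ⟨r, hr⟩ := top_one L.card L hL rfl h2 q hq
      have h3 := hD.kill _ hr
      have h4 := hD'.kill _ hr
      have h5 := hD.norm
      have h6 := hD'.norm
      rw [← smul_eq_C_mul, map_sub, map_smul, smul_eq_mul] at h3 h4
      rw [h5] at h3
      rw [h6] at h4
      have h7 : D q = r * c := by linarith
      have h8 : D' q = r * 1 := by linarith
      rw [h7, h8]
      ring
    · rw [hD.homog i q hq hi, hD'.homog i q hq hi, mul_zero]
  refine LinearMap.ext fun p => ?_
  rw [LinearMap.smul_apply, smul_eq_mul, ← sum_homogeneousComponent p, map_sum, map_sum, mul_sum]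
  apply sum_congr rfl
  intro i _
  exact key i _ (homogeneousComponent_isHomogeneous _ _)

end Pool.Agent.LHC
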