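import Pool.Agent.LHC.Hom
import Pool.Agent.LHC.Top

/-!
Module LHC-Split: the splitting recursion.

`isDeg_Din`: `isDeg_innD` with `p = (-X (U L))^(..)`, and `outD L T D p = 1` by `isDeg_outD` (`norm`, `U_contr`).
`D_split`: `innD L T D p` and `Din L T D` are both degree functionals for `blk L T`, the first with constant `outD L T D p`;
`isDeg_unique`.
`cls_hc`: from `cls_restrict`: take homogeneous components (`annI_hc`, `hc_mul`, `hc_aeval`: `iot` and `kap` send variables
to linear forms).
`Num_step`: `(-X (U L))^(m+1) = (-X (U L))^m * (-X (U L))` and by `lin_mem` for points `a ∈ A`, `b ∈ B`, modulo `bI L`,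
`-X (U L) ≡ ∑ X T` over the valid `T ≠ U L` containing `A` and `B` (a valid set containing a point of a block contains the
block; invalid variables are in `bI L`; see `lin_split` in helper17/BlockTop.lean).  For each `T`, modulo `bI L`,
`X T * (-X (U L))^m * hc_k(cls L) * hc_l(cls L)
  ≡ X T * iot T (∑ hc_i(cls blk) hc_j(cls blk)) * kap (contr L T) ((-X (U L))^m hc_(k-i)(cls contr) hc_(l-j)(cls contr))`
(`(-X (U L))^m` is in `outA T`, so equal to its `kap` image modulo `annI L T`: `out_sub_mem`), then `D_split`.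
-/

open Finset MvPolynomial Pool.Agent.helper17

namespace Pool.Agent.LHC

variable {γ : Type*} [DecidableEq γ] [Fintype γ] {L : Finset (Finset γ)}

/-- The normalised functional of the inner factor. -/
noncomputable def Din (L : Finset (Finset γ)) (T : Finset γ)
    (D : MvPolynomial (Finset γ) ℚ →ₗ[ℚ] ℚ) : MvPolynomial (Finset γ) ℚ →ₗ[ℚ] ℚ :=
  innD L T D ((-X (U L)) ^ ((contr L T).card - 2))

theorem isDeg_Din (hL : IsBlocks L) {T : Finset γ} (hT : Valid L T) (hTU : T ≠ U L)
    {D : MvPolynomial (Finset γ) ℚ →ₗ[ℚ] ℚ} (hD : IsDeg L 1 D) :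
    IsDeg (blk L T) 1 (Din L T D) := by
  have h1 := isDeg_innD hL hT hTU hD ((-X (U L)) ^ ((contr L T).card - 2))
  have h2 := (isDeg_outD hL hT hTU hD).norm
  rw [U_contr hL hT] at h2
  rw [h2] at h1
  exact h1

theorem D_split (hL : IsBlocks L) {T : Finset γ} (hT : Valid L T) (hTU : T ≠ U L)
    {D : MvPolynomial (Finset γ) ℚ →ₗ[ℚ] ℚ} (hD : IsDeg L 1 D)
    (q p : MvPolynomial (Finset γ) ℚ) :
    D (X T * iot T q * kap (contr L T) p) = Din L T D q * outD L T D p := by
  have h1 := isDeg_innD hL hT hTU hD p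
  have h2 := isDeg_Din hL hT hTU hD
  have h3 := isDeg_unique (isBlocks_blk hL hT) hT.two_le h1 h2
  have h4 := LinearMap.congr_fun h3 q
  rw [innD_apply, LinearMap.smul_apply, smul_eq_mul] at h4
  rw [h4, mul_comm]

/-- Homogeneous components of the restriction of the class to a boundary divisor. -/
theorem cls_hc (hL : IsBlocks L) (h2 : 2 ≤ L.card) {T : Finset γ} (hT : Valid L T) (k : ℕ) :
    homogeneousComponent k (cls L) - ∑ i ∈ range (k + 1),
      iot T (homogeneousComponent i (cls (blk L T))) *
        kap (contr L T) (homogeneousComponent (k - i) (cls (contr L T))) ∈ annI L T := by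
  have h1 := annI_hc (cls_restrict hL hT h2) k
  rw [map_sub, hc_mul] at h1
  have e1 : ∀ i, homogeneousComponent i (iot T (cls (blk L T)))
      = iot T (homogeneousComponent i (cls (blk L T))) := by
    intro i
    apply hc_aeval
    intro T'
    split_ifs
    · exact isHomogeneous_X _ _
    · exact isHomogeneous_cc _
    · exact isHomogeneous_zero _ _ _
  have e2 : ∀ i, homogeneousComponent i (kap (contr L T) (cls (contr L T)))
      = kap (contr L T) (homogeneousComponent i (cls (contr L T))) := by
    intro i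
    apply hc_aeval
    intro T'
    split_ifs
    · exact isHomogeneous_X _ _
    · exact isHomogeneous_zero _ _ _
  simp only [e1, e2] at h1
  exact h1

/-- The contribution of one boundary divisor. -/
theorem D_step (hL : IsBlocks L) (h2 : 2 ≤ L.card) {D : MvPolynomial (Finset γ) ℚ →ₗ[ℚ] ℚ}
    (hD : IsDeg L 1 D) {T : Finset γ} (hT : Valid L T) (hTU : T ≠ U L) (m k l : ℕ) :
    D (X T * ((-X (U L)) ^ m * (homogeneousComponent k (cls L) *
        homogeneousComponent l (cls L)))) =
      ∑ i ∈ range (k + 1), ∑ j ∈ range (l + 1),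
        Num (blk L T) (Din L T D) 0 i j *
          Num (contr L T) (outD L T D) m (k - i) (l - j) := by
  set P : ℕ → MvPolynomial (Finset γ) ℚ := fun k => ∑ i ∈ range (k + 1),
      iot T (homogeneousComponent i (cls (blk L T))) *
        kap (contr L T) (homogeneousComponent (k - i) (cls (contr L T))) with hP
  have hk : homogeneousComponent k (cls L) - P k ∈ annI L T := cls_hc hL h2 hT k
  have hl : homogeneousComponent l (cls L) - P l ∈ annI L T := cls_hc hL h2 hT l
  have hkl : homogeneousComponent k (cls L) * homogeneousComponent l (cls L) - P k * P l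
      ∈ annI L T := by
    have h3 := Ideal.add_mem _ (Ideal.mul_mem_left _ (homogeneousComponent k (cls L)) hl)
      (Ideal.mul_mem_left _ (P l) hk)
    convert h3 using 1
    ring
  have h4 := Ideal.mul_mem_left _ ((-X (U L)) ^ m) hkl
  rw [mem_annI] at h4
  have h5 := hD.kill _ h4
  have h6 : X T * ((-X (U L)) ^ m * (homogeneousComponent k (cls L) *
      homogeneousComponent l (cls L) - P k * P l)) =
      X T * ((-X (U L)) ^ m * (homogeneousComponent k (cls L) *
        homogeneousComponent l (cls L))) - X T * ((-X (U L)) ^ m * (P k * P l)) := by ring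
  rw [h6, map_sub, sub_eq_zero] at h5
  rw [h5]
  have hUk : kap (contr L T) ((-X (U L)) ^ m) = (-X (U L)) ^ m := by
    rw [map_pow, map_neg, kap_X_of_valid]
    rw [← U_contr hL hT]
    exact valid_U (isBlocks_contr hL hT) (card_contr_ge hL hT hTU)
  have h7 : X T * ((-X (U L)) ^ m * (P k * P l)) =
      ∑ i ∈ range (k + 1), ∑ j ∈ range (l + 1),
        X T * iot T (homogeneousComponent i (cls (blk L T)) *
            homogeneousComponent j (cls (blk L T))) *
          kap (contr L T) ((-X (U L)) ^ m * (homogeneousComponent (k - i) (cls (contr L T)) *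
            homogeneousComponent (l - j) (cls (contr L T)))) := by
    rw [hP]
    simp only [map_mul, hUk]
    rw [sum_mul_sum, mul_sum, mul_sum]
    refine sum_congr rfl fun i _ => ?_
    rw [mul_sum, mul_sum]
    refine sum_congr rfl fun j _ => ?_
    ring
  rw [h7, map_sum]
  refine sum_congr rfl fun i _ => ?_
  rw [map_sum]
  refine sum_congr rfl fun j _ => ?_
  rw [D_split hL hT hTU hD]
  unfold Num
  rw [pow_zero, one_mul, U_contr hL hT]

theorem Num_step (hL : IsBlocks L) (h2 : 2 ≤ L.card) {D : MvPolynomial (Finset γ) ℚ →ₗ[ℚ] ℚ}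
    (hD : IsDeg L 1 D) {A B : Finset γ} (hA : A ∈ L) (hB : B ∈ L) (hne : A ≠ B) (m k l : ℕ) :
    Num L D (m + 1) k l =
      ∑ T ∈ univ.filter (fun T : Finset γ => Valid L T ∧ T ≠ U L ∧ A ⊆ T ∧ B ⊆ T),
        ∑ i ∈ range (k + 1), ∑ j ∈ range (l + 1),
          Num (blk L T) (Din L T D) 0 i j *
            Num (contr L T) (outD L T D) m (k - i) (l - j) := by
  obtain ⟨a, ha⟩ := hL.ne A hA
  obtain ⟨b, hb⟩ := hL.ne B hB
  set H : MvPolynomial (Finset γ) ℚ :=
    homogeneousComponent k (cls L) * homogeneousComponent l (cls L) with hH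
  have h1 := lin_split hA hB hne ha hb
  have h3 := hD.kill _ (Ideal.mul_mem_right ((-X (U L)) ^ m * H) _ h1)
  rw [add_mul, map_add, sum_mul, map_sum] at h3
  have h4 : Num L D (m + 1) k l = -D (X (U L) * ((-X (U L)) ^ m * H)) := by
    unfold Num
    rw [← map_neg, ← hH]
    congr 1
    ring
  have h5 : Num L D (m + 1) k l = ∑ T ∈ univ.filter (fun T : Finset γ => a ∈ T ∧ b ∈ T ∧ T ≠ U L),
      D (X T * ((-X (U L)) ^ m * H)) := by
    rw [h4]; linarith
  rw [h5]
  have h6 : ∑ T ∈ univ.filter (fun T : Finset γ => a ∈ T ∧ b ∈ T ∧ T ≠ U L),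
      D (X T * ((-X (U L)) ^ m * H)) =
      ∑ T ∈ univ.filter (fun T : Finset γ => Valid L T ∧ T ≠ U L ∧ A ⊆ T ∧ B ⊆ T),
        D (X T * ((-X (U L)) ^ m * H)) := by
    symm
    apply sum_subset
    · intro T hT
      rw [mem_filter] at hT ⊢
      exact ⟨mem_univ _, hT.2.2.2.1 ha, hT.2.2.2.2 hb, hT.2.2.1⟩
    · intro T hT hT'
      rw [mem_filter] at hT hT'
      apply hD.kill
      apply Ideal.mul_mem_right
      apply X_mem_of_not_valid
      intro hv
      apply hT'
      refine ⟨mem_univ _, hv, hT.2.2.2, ?_, ?_⟩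
      · rcases hv.2.1 A hA with h | h
        · exact h
        · exact absurd hT.2.1 (disjoint_left.mp h ha)
      · rcases hv.2.1 B hB with h | h
        · exact h
        · exact absurd hT.2.2.1 (disjoint_left.mp h hb)
  rw [h6]
  refine sum_congr rfl fun T hT => ?_
  rw [mem_filter] at hT
  exact D_step hL h2 hD hT.2.1 hT.2.2.1 m k l

end Pool.Agent.LHC
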