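import Pool.Agent.LHC.RelB
import Pool.Agent.LHC.EvenB
import Pool.Agent.LHC.Split
import Pool.Agent.LHC.Rank

/-!
Module LHC-Fnum: the numbers depend only on the numbers of odd and even blocks; recursions.

`Num_odd`: `Num_relabel` with `L' = sing (Fin L.card)`, `isDeg_degP`, `card_sing`, all blocks odd on both sides.
`Num_ev`: `L` has one even block `E` and `n = L.card - 1 ≥ 1` odd blocks.  Case `m = 0`: if `n ≥ 2` it is `Num_even`; if `n = 1`
then `L.card = 2`: `Num_two`, `Num_dim`.  Case `m + 1`: if `n = 1`, `Num_dim`.  If `n ≥ 2` use `Num_step` with `A = E`, `B` any odd block.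
Every `T` contains `E`, so `E ∈ blk L T`, and by `Num_even` the first factor vanishes unless `(blk L T).card = 2`, that is
`T = E ∪ B`; there `i = j = 0` only (`Num_dim`), `Num (blk L T) = 1` (`Num_two`), and `contr L T` consists of `n` odd blocks
(`T` is odd), so the second factor is `Fn n m k l` (`Num_odd`); `T ≠ U L` since `n ≥ 2`.
`Fn_step`: `Num_step` for `L = sing (Fin n)`, two different singletons `{a}, {b}`; the sets `T` with `s` elements containing `a, b`,
`T ≠ univ`: there are `C(n-2, s-2)` of them, `2 ≤ s ≤ n-1` (`valid_sing`); `blk L T` has `s` odd blocks; `contr L T` has `n - s` odd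
blocks and the block `T`: `Num_odd` if `s` is odd (`n - s + 1` odd blocks), `Num_ev` if `s` is even.
-/

open Finset MvPolynomial Pool.Agent.helper17

namespace Pool.Agent.LHC

/-- `n` odd leaves. -/
noncomputable def Fn (n m k l : ℕ) : ℚ := Num (sing (Fin n)) (degP (Fin n)) m k l

/-- `n` odd leaves and one even leaf. -/
noncomputable def Fe (n : ℕ) : ℕ → ℕ → ℕ → ℚ
  | 0, k, l => if n = 1 ∧ k = 0 ∧ l = 0 then 1 else 0
  | (m + 1), k, l => if 2 ≤ n then Fn n m k l else 0

theorem Fn_comm (n m k l : ℕ) : Fn n m k l = Fn n m l k := Num_comm _ _ m k l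

theorem Fn_dim (n m k l : ℕ) (hn : 2 ≤ n) (h : m + k + l + 2 ≠ n) : Fn n m k l = 0 := by
  have h2 : 2 ≤ Fintype.card (Fin n) := by rwa [Fintype.card_fin]
  exact Num_dim (isDeg_degP h2) (by rwa [card_sing, Fintype.card_fin])

theorem Fn_rank (n m k l : ℕ) (hn : 2 ≤ n) (h : (n - 1) / 2 < k) : Fn n m k l = 0 := by
  have h2 : 2 ≤ Fintype.card (Fin n) := by rwa [Fintype.card_fin]
  exact Num_sing_rank h2 m k l (by rwa [Fintype.card_fin])

theorem Fn_two : Fn 2 0 0 0 = 1 := by
  have h2 : 2 ≤ Fintype.card (Fin 2) := by rw [Fintype.card_fin]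
  exact Num_two isBlocks_sing (by rw [card_sing, Fintype.card_fin]) (isDeg_degP h2)

variable {γ : Type*} [DecidableEq γ] [Fintype γ] {L : Finset (Finset γ)}

theorem Num_odd (hL : IsBlocks L) (h2 : 2 ≤ L.card) (ho : ∀ A ∈ L, Odd A.card)
    {D : MvPolynomial (Finset γ) ℚ →ₗ[ℚ] ℚ} (hD : IsDeg L 1 D) (m k l : ℕ) :
    Num L D m k l = Fn L.card m k l := by
  have h2' : 2 ≤ Fintype.card (Fin L.card) := by rwa [Fintype.card_fin]
  have hc : L.card = (sing (Fin L.card)).card := by rw [card_sing, Fintype.card_fin]
  refine Num_relabel hL isBlocks_sing h2 hc ?_ hD (isDeg_degP h2') m k l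
  rw [filter_true_of_mem ho, filter_true_of_mem, ← hc]
  intro A hA
  rw [mem_sing] at hA
  rw [hA]
  exact odd_one

private theorem Fnum_blk_two (hL : IsBlocks L) {T E B : Finset γ} (hT : Valid L T) (hE : E ∈ L)
    (hB : B ∈ L) (hne : E ≠ B) (hET : E ⊆ T) (hBT : B ⊆ T) (h : (blk L T).card = 2) :
    T = E ∪ B := by
  have h1 : ({E, B} : Finset (Finset γ)) ⊆ blk L T := by
    intro x hx
    rw [mem_insert, mem_singleton] at hx
    rw [mem_blk]
    rcases hx with rfl | rfl
    · exact ⟨hE, hET⟩
    · exact ⟨hB, hBT⟩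
  have h2 : ({E, B} : Finset (Finset γ)) = blk L T :=
    eq_of_subset_of_card_le h1 (by rw [h, card_pair hne])
  have h3 := hT.eq_biUnion
  rw [← h2] at h3
  rw [← h3]
  simp

theorem Num_ev (hL : IsBlocks L) (h2 : 2 ≤ L.card) {E : Finset γ} (hE : E ∈ L)
    (hEe : Even E.card) (ho : ∀ A ∈ L, A ≠ E → Odd A.card)
    {D : MvPolynomial (Finset γ) ℚ →ₗ[ℚ] ℚ} (hD : IsDeg L 1 D) (m k l : ℕ) :
    Num L D m k l = Fe (L.card - 1) m k l := by
  cases m with
  | zero =>
    simp only [Fe]
    by_cases h3 : 3 ≤ L.card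
    · rw [if_neg (by omega)]
      exact Num_even hL hE hEe h3 hD k l
    · by_cases h0 : k = 0 ∧ l = 0
      · rw [if_pos ⟨by omega, h0⟩, h0.1, h0.2]
        exact Num_two hL (by omega) hD
      · rw [if_neg (by tauto)]
        exact Num_dim hD (by omega)
  | succ m =>
    simp only [Fe]
    by_cases h3 : 3 ≤ L.card
    swap
    · rw [if_neg (by omega)]
      exact Num_dim hD (by omega)
    rw [if_pos (by omega)]
    obtain ⟨B, hB, hne⟩ : ∃ B ∈ L, B ≠ E := by
      by_contra hcon
      push Not at hcon
      have : L ⊆ {E} := fun A hA => mem_singleton.2 (hcon A hA)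
      have := card_le_card this
      rw [card_singleton] at this
      omega
    rw [Num_step hL h2 hD hE hB hne.symm]
    have hTv : Valid L (E ∪ B) := valid_union_pair hL hE hB hne.symm
    have hTb : blk L (E ∪ B) = {E, B} := blk_union_pair hL hE hB
    have hTc : (blk L (E ∪ B)).card = 2 := by rw [hTb, card_pair hne.symm]
    have hTU : E ∪ B ≠ U L := by
      intro h
      rw [h, blk_U] at hTc
      omega
    rw [sum_eq_single (E ∪ B)]
    · have hz : ∀ i j, (i ≠ 0 ∨ j ≠ 0) → Num (blk L (E ∪ B)) (Din L (E ∪ B) D) 0 i j = 0 := by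
        intro i j hij
        exact Num_dim (isDeg_Din hL hTv hTU hD) (by rw [hTc]; omega)
      rw [sum_eq_single 0]
      · rw [sum_eq_single 0]
        · rw [Num_two (isBlocks_blk hL hTv) hTc (isDeg_Din hL hTv hTU hD), one_mul,
            Nat.sub_zero, Nat.sub_zero]
          have hcc := card_contr hL hTv
          have hcard : (contr L (E ∪ B)).card = L.card - 1 := by omega
          rw [← hcard]
          refine Num_odd (isBlocks_contr hL hTv) (by omega) ?_ (isDeg_outD hL hTv hTU hD) m k l
          intro A hA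
          rcases mem_contr.mp hA with rfl | hA
          · rw [card_union_of_disjoint (hL.disj E hE B hB hne.symm)]
            exact hEe.add_odd (ho B hB hne)
          · refine ho A hA.1 ?_
            rintro rfl
            exact hA.2 subset_union_left
        · intro j _ hj
          rw [hz 0 j (Or.inr hj), zero_mul]
        · intro h
          exact absurd (mem_range.2 (Nat.succ_pos l)) h
      · intro i _ hi
        refine sum_eq_zero fun j _ => ?_
        rw [hz i j (Or.inl hi), zero_mul]
      · intro h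
        exact absurd (mem_range.2 (Nat.succ_pos k)) h
    · intro T hT hTne
      rw [mem_filter] at hT
      obtain ⟨-, hT1, hT2, hT3, hT4⟩ := hT
      have h4 : 3 ≤ (blk L T).card := by
        have h5 := hT1.two_le
        by_contra h6
        exact hTne (Fnum_blk_two hL hT1 hE hB hne.symm hT3 hT4 (by omega))
      refine sum_eq_zero fun i _ => sum_eq_zero fun j _ => ?_
      rw [Num_even (isBlocks_blk hL hT1) (mem_blk.2 ⟨hE, hT3⟩) hEe h4 (isDeg_Din hL hT1 hT2 hD),
        zero_mul]
    · intro h
      exact absurd (mem_filter.2 ⟨mem_univ _, hTv, hTU, subset_union_left, subset_union_right⟩) h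

private theorem Fnum_blk_sing {n : ℕ} (T : Finset (Fin n)) :
    (blk (sing (Fin n)) T).card = T.card := by
  have h : blk (sing (Fin n)) T = T.image (fun x => ({x} : Finset (Fin n))) := by
    ext A
    rw [mem_blk, mem_sing, mem_image]
    constructor
    · rintro ⟨h1, h2⟩
      obtain ⟨x, rfl⟩ := card_eq_one.1 h1
      exact ⟨x, h2 (mem_singleton_self x), rfl⟩
    · rintro ⟨x, hx, rfl⟩
      exact ⟨card_singleton x, singleton_subset_iff.2 hx⟩
  rw [h, card_image_of_injective _ singleton_injective]

private theorem Fnum_count {n : ℕ} (hn : 2 ≤ n) {a b : Fin n} (hab : a ≠ b) (g : ℕ → ℚ) :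
    ∑ T ∈ univ.filter (fun T : Finset (Fin n) => Valid (sing (Fin n)) T ∧ T ≠ U (sing (Fin n)) ∧
        {a} ⊆ T ∧ {b} ⊆ T), g T.card =
      ∑ s ∈ Icc 2 (n - 1), ((n - 2).choose (s - 2) : ℚ) * g s := by
  have hX : (univ \ {a, b} : Finset (Fin n)).card = n - 2 := by
    rw [card_sdiff_of_subset (subset_univ _), card_univ, Fintype.card_fin, card_pair hab]
  have h1 : ∑ T ∈ univ.filter (fun T : Finset (Fin n) => Valid (sing (Fin n)) T ∧
        T ≠ U (sing (Fin n)) ∧ {a} ⊆ T ∧ {b} ⊆ T), g T.card =
      ∑ R ∈ (univ \ {a, b} : Finset (Fin n)).powerset,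
        (fun r => if r = n - 2 then 0 else g (r + 2)) R.card := by
    have h2 : ∑ R ∈ (univ \ {a, b} : Finset (Fin n)).powerset,
        (fun r => if r = n - 2 then 0 else g (r + 2)) R.card =
        ∑ R ∈ ((univ \ {a, b} : Finset (Fin n)).powerset).filter (fun R => R.card ≠ n - 2),
          g (R.card + 2) := by
      rw [sum_filter]
      refine sum_congr rfl fun R _ => ?_
      by_cases h : R.card = n - 2
      · simp [h]
      · simp [h]
    rw [h2]
    refine sum_bij' (fun T _ => T \ {a, b}) (fun R _ => R ∪ {a, b}) ?_ ?_ ?_ ?_ ?_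
    · intro T hT
      rw [mem_filter, valid_sing, U_sing] at hT
      obtain ⟨-, hT1, hT2, hT3, hT4⟩ := hT
      rw [singleton_subset_iff] at hT3 hT4
      have h3 : ({a, b} : Finset (Fin n)) ⊆ T := by
        intro x hx
        rw [mem_insert, mem_singleton] at hx
        rcases hx with rfl | rfl <;> assumption
      rw [mem_filter, mem_powerset]
      refine ⟨sdiff_subset_sdiff (subset_univ _) (Subset.refl _), ?_⟩
      rw [card_sdiff_of_subset h3, card_pair hab]
      have h4 : T.card < n := by
        have h5 := card_lt_card (ssubset_univ_iff.2 hT2)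
        rwa [card_univ, Fintype.card_fin] at h5
      have h5 : 2 ≤ T.card := by
        have := card_le_card h3
        rwa [card_pair hab] at this
      omega
    · intro R hR
      rw [mem_filter, mem_powerset] at hR
      obtain ⟨hR1, hR2⟩ := hR
      have hd : Disjoint R {a, b} := by
        rw [disjoint_left]
        intro x hx hx2
        exact (mem_sdiff.1 (hR1 hx)).2 hx2
      have hc : (R ∪ {a, b}).card = R.card + 2 := by
        rw [card_union_of_disjoint hd, card_pair hab]
      rw [mem_filter, valid_sing, U_sing, singleton_subset_iff, singleton_subset_iff]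
      refine ⟨mem_univ _, by omega, ?_, by simp, by simp⟩
      intro h
      have h3 := congrArg Finset.card h
      rw [hc, card_univ, Fintype.card_fin] at h3
      omega
    · intro T hT
      rw [mem_filter, singleton_subset_iff, singleton_subset_iff] at hT
      obtain ⟨-, -, -, hT3, hT4⟩ := hT
      apply sdiff_union_of_subset
      intro x hx
      rw [mem_insert, mem_singleton] at hx
      rcases hx with rfl | rfl <;> assumption
    · intro R hR
      rw [mem_filter, mem_powerset] at hR
      have hd : Disjoint R {a, b} := by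
        rw [disjoint_left]
        intro x hx hx2
        exact (mem_sdiff.1 (hR.1 hx)).2 hx2
      rw [union_sdiff_right, sdiff_eq_self_of_disjoint hd]
    · intro T hT
      rw [mem_filter, singleton_subset_iff, singleton_subset_iff] at hT
      obtain ⟨-, -, -, hT3, hT4⟩ := hT
      have h3 : ({a, b} : Finset (Fin n)) ⊆ T := by
        intro x hx
        rw [mem_insert, mem_singleton] at hx
        rcases hx with rfl | rfl <;> assumption
      have h5 : 2 ≤ T.card := by
        have := card_le_card h3
        rwa [card_pair hab] at this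
      rw [card_sdiff_of_subset h3, card_pair hab, Nat.sub_add_cancel h5]
  rw [h1, (sum_powerset_apply_card (fun r => if r = n - 2 then (0 : ℚ) else g (r + 2)) :
    ∑ R ∈ (univ \ {a, b} : Finset (Fin n)).powerset, _ = _), hX]
  have h3 : Icc 2 (n - 1) = Ico 2 n := by
    ext x
    rw [mem_Icc, mem_Ico]
    omega
  rw [h3, sum_Ico_eq_sum_range, sum_range_succ]
  simp only [if_true, smul_zero, add_zero]
  refine sum_congr rfl fun r hr => ?_
  rw [mem_range] at hr
  have e : 2 + r - 2 = r := by omega
  rw [if_neg (by omega), e, nsmul_eq_mul, Nat.add_comm r 2]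

theorem Fn_step (n : ℕ) (hn : 2 ≤ n) (m k l : ℕ) :
    Fn n (m + 1) k l = ∑ s ∈ Icc 2 (n - 1), ((n - 2).choose (s - 2) : ℚ) *
      ∑ i ∈ range (k + 1), ∑ j ∈ range (l + 1), Fn s 0 i j *
        (if Odd s then Fn (n - s + 1) m (k - i) (l - j) else Fe (n - s) m (k - i) (l - j)) := by
  have h2 : 2 ≤ Fintype.card (Fin n) := by rwa [Fintype.card_fin]
  have hcard : (sing (Fin n)).card = n := by rw [card_sing, Fintype.card_fin]
  have hL : IsBlocks (sing (Fin n)) := isBlocks_sing
  have hD := isDeg_degP h2
  obtain ⟨a, b, hab⟩ : ∃ a b : Fin n, a ≠ b :=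
    ⟨⟨0, by omega⟩, ⟨1, by omega⟩, by simp [Fin.ext_iff]⟩
  have hA : ({a} : Finset (Fin n)) ∈ sing (Fin n) := by rw [mem_sing, card_singleton]
  have hB : ({b} : Finset (Fin n)) ∈ sing (Fin n) := by rw [mem_sing, card_singleton]
  have hne : ({a} : Finset (Fin n)) ≠ {b} := fun h => hab (singleton_injective h)
  unfold Fn
  rw [Num_step hL (by rw [hcard]; exact hn) hD hA hB hne]
  refine (sum_congr rfl fun T hT => ?_).trans (Fnum_count hn hab
    (fun s => ∑ i ∈ range (k + 1), ∑ j ∈ range (l + 1), Fn s 0 i j *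
        (if Odd s then Fn (n - s + 1) m (k - i) (l - j) else Fe (n - s) m (k - i) (l - j))))
  rw [mem_filter] at hT
  obtain ⟨-, hT1, hT2, hT3, hT4⟩ := hT
  have hbc : (blk (sing (Fin n)) T).card = T.card := Fnum_blk_sing T
  have hTn : T.card < n := by
    rw [U_sing] at hT2
    have h5 := card_lt_card (ssubset_univ_iff.2 hT2)
    rwa [card_univ, Fintype.card_fin] at h5
  have hT5 := hT1.two_le
  have hcc := card_contr hL hT1
  rw [hbc, hcard] at hcc
  refine sum_congr rfl fun i _ => sum_congr rfl fun j _ => ?_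
  have e1 : Num (blk (sing (Fin n)) T) (Din (sing (Fin n)) T (degP (Fin n))) 0 i j =
      Fn T.card 0 i j := by
    rw [Num_odd (isBlocks_blk hL hT1) hT5 ?_ (isDeg_Din hL hT1 hT2 hD), hbc]
    intro A hA
    rw [mem_blk, mem_sing] at hA
    rw [hA.1]
    exact odd_one
  have hodd : ∀ A ∈ contr (sing (Fin n)) T, A ≠ T → Odd A.card := by
    intro A hA hAT
    rcases mem_contr.mp hA with h | h
    · exact absurd h hAT
    · have h6 := h.1
      rw [mem_sing] at h6
      rw [h6]
      exact odd_one
  have e2 : Num (contr (sing (Fin n)) T) (outD (sing (Fin n)) T (degP (Fin n))) m (k - i) (l - j) =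
      (if Odd T.card then Fn (n - T.card + 1) m (k - i) (l - j)
        else Fe (n - T.card) m (k - i) (l - j)) := by
    by_cases hs : Odd T.card
    · have h7 : (contr (sing (Fin n)) T).card = n - T.card + 1 := by omega
      rw [if_pos hs, ← h7]
      refine Num_odd (isBlocks_contr hL hT1) (by omega) ?_ (isDeg_outD hL hT1 hT2 hD) _ _ _
      intro A hA
      by_cases hAT : A = T
      · rw [hAT]; exact hs
      · exact hodd A hA hAT
    · have h7 : (contr (sing (Fin n)) T).card - 1 = n - T.card := by omega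
      rw [if_neg hs, ← h7]
      exact Num_ev (isBlocks_contr hL hT1) (by omega) (E := T)
        (mem_contr.mpr (Or.inl rfl)) (Nat.not_odd_iff_even.1 hs) hodd (isDeg_outD hL hT1 hT2 hD)
        _ _ _
  rw [e1, e2]

end Pool.Agent.LHC
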