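import Pool.Agent.LHC.PosIff

/-!
Module LHC-FullA: weights of the sets obtained from a full set by inserting one or two points.

`σ` is `Full`, `p = pp N σ`, `α = al N l σ`.  For `s ∈ Ioo 0 N \ σ` both neighbours `u = lo σ s`,
`v = hi N σ s` are even (`full_even`: an odd neighbour would have `s` itself as a neighbour or `s`
would be strictly inside a unit gap).
Put `rho σ s = τ((s-u)/2) τ((v-s)/2)/τ((v-u)/2)` for even `s`, `2` for odd `s` if `v = u+2`
(`1/τ 1 = 2`), and `0` for odd `s` if `v > u + 2`.  From `Gp_insert, pp_insert, ee_insert`: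
`Gp (insert s σ) = Gp σ * rho σ s`; `pp` becomes `p + 1` (`s` even) or `p - 1` (`s` odd, and then
`p ≥ 1`); `α` becomes `α + 1` (`s` even) and stays `α` (`s` odd).
Two points in different gaps: the neighbours of `t` in `insert s σ` are those in `σ`
(`lo_insert`, `hi_insert`), apply the one point step twice; `insert s σ` is full if `s` is even or if
`s` is odd and `v = u + 2` (otherwise all the products vanish by `Gp_insert_eq_zero`-like
arguments).
-/

open Finset

namespace Pool.Agent.LHC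

variable {N : ℕ} {σ : Finset ℕ} {τ : ℕ → ℝ} {s t : ℕ}

/-- The lower index of the binomial coefficient. -/
def al (N l : ℕ) (σ : Finset ℕ) : ℤ := (l : ℤ) + ee σ + pp N σ - ((N / 2 : ℕ) : ℤ)

/-- Ratio of the gap products. -/
noncomputable def rho (τ : ℕ → ℝ) (N : ℕ) (σ : Finset ℕ) (s : ℕ) : ℝ :=
  if Even s then τ ((s - lo σ s) / 2) * τ ((hi N σ s - s) / 2) / τ ((hi N σ s - lo σ s) / 2)
  else if hi N σ s = lo σ s + 2 then 2 else 0

theorem full_even (hσ : Full N σ) (hs : s ∈ Ioo 0 N \ σ) :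
    Even (lo σ s) ∧ Even (hi N σ s) := by
  rw [mem_sdiff, mem_Ioo] at hs
  obtain ⟨⟨hs0, hsN⟩, hsσ⟩ := hs
  have hu : lo σ s < s := lo_lt hs0
  have hv : s < hi N σ s := lt_hi hsN
  constructor
  · by_contra h
    rw [Nat.not_even_iff_odd] at h
    have h1 : lo σ s ∈ σ := by
      rcases mem_insert.1 (lo_mem (σ := σ) (s := s)) with h2 | h2
      · rw [h2] at h
        exact absurd h (by decide)
      · exact h2
    have h2 : lo σ s + 1 ∈ σ := by
      rcases mem_insert.1 (hσ.2.1 _ h1 h).2 with h3 | h3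
      · omega
      · exact h3
    rcases Nat.lt_or_ge (lo σ s + 1) s with h3 | h3
    · have h4 := le_lo h2 h3
      omega
    · have h4 : lo σ s + 1 = s := by omega
      rw [h4] at h2
      exact hsσ h2
  · by_contra h
    rw [Nat.not_even_iff_odd] at h
    have h1 : hi N σ s - 1 ∈ insert 0 σ := by
      rcases mem_insert.1 (hi_mem (N := N) (σ := σ) (s := s)) with h2 | h2
      · rw [h2]
        rw [h2] at h
        exact hσ.2.2 h
      · exact (hσ.2.1 _ h2 h).1
    have h2 : hi N σ s - 1 ∈ σ := by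
      rcases mem_insert.1 h1 with h3 | h3
      · omega
      · exact h3
    rcases Nat.lt_or_ge s (hi N σ s - 1) with h3 | h3
    · have h4 := hi_le_of_mem (N := N) h2 h3
      omega
    · have h4 : hi N σ s - 1 = s := by omega
      rw [h4] at h2
      exact hsσ h2

theorem FullA_Gp (hτ : TauData τ) (hσ : σ ⊆ Ioo 0 N) (hs : s ∈ Ioo 0 N \ σ)
    (hu : Even (lo σ s)) (hv : Even (hi N σ s)) :
    Gp τ N (insert s σ) = Gp τ N σ * rho τ N σ s := by
  have h1 := Gp_insert τ hσ hs
  rw [mem_sdiff, mem_Ioo] at hs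
  obtain ⟨⟨hs0, hsN⟩, hsσ⟩ := hs
  have hus : lo σ s < s := lo_lt hs0
  have hsv : s < hi N σ s := lt_hi hsN
  obtain ⟨a, ha⟩ := hu
  obtain ⟨b, hb⟩ := hv
  have h2 : gapW τ (lo σ s) (hi N σ s) = τ ((hi N σ s - lo σ s) / 2) := by
    unfold gapW
    rw [if_pos ⟨⟨a, ha⟩, ⟨b, hb⟩⟩]
  have h3 : 0 < τ ((hi N σ s - lo σ s) / 2) := hτ.pos _ (by omega)
  rw [h2] at h1
  by_cases hse : Even s
  · have h4 : gapW τ (lo σ s) s = τ ((s - lo σ s) / 2) := by
      unfold gapW
      rw [if_pos ⟨⟨a, ha⟩, hse⟩]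
    have h5 : gapW τ s (hi N σ s) = τ ((hi N σ s - s) / 2) := by
      unfold gapW
      rw [if_pos ⟨hse, ⟨b, hb⟩⟩]
    rw [h4, h5] at h1
    unfold rho
    rw [if_pos hse, mul_div_assoc', eq_div_iff h3.ne', h1]
  · unfold rho
    rw [if_neg hse]
    have h4 : gapW τ (lo σ s) s = if s = lo σ s + 1 then 1 else 0 := by
      unfold gapW
      rw [if_neg (fun h => hse h.2)]
    have h5 : gapW τ s (hi N σ s) = if hi N σ s = s + 1 then 1 else 0 := by
      unfold gapW
      rw [if_neg (fun h => hse h.1)]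
    rw [h4, h5] at h1
    by_cases h6 : hi N σ s = lo σ s + 2
    · rw [if_pos h6]
      rw [if_pos (by omega), if_pos (by omega)] at h1
      have h7 : (hi N σ s - lo σ s) / 2 = 1 := by omega
      rw [h7, hτ.one] at h1
      linarith
    · rw [if_neg h6, mul_zero]
      have h7 : ((if s = lo σ s + 1 then (1 : ℝ) else 0) * (if hi N σ s = s + 1 then 1 else 0)) = 0 := by
        by_cases h8 : s = lo σ s + 1
        · rw [if_neg (show ¬ hi N σ s = s + 1 by omega), mul_zero]
        · rw [if_neg h8, zero_mul]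
      rw [h7, mul_zero] at h1
      exact (mul_eq_zero.1 h1).resolve_right h3.ne'

theorem FullA_pp (hσ : σ ⊆ Ioo 0 N) (hs : s ∈ Ioo 0 N \ σ)
    (hu : Even (lo σ s)) (hv : Even (hi N σ s)) :
    pp N (insert s σ) + 1 = pp N σ + (if Even s then 2 else 0) := by
  have h1 := pp_insert hσ hs
  rw [if_pos ⟨hu, hv⟩] at h1
  rw [h1]
  by_cases hse : Even s
  · rw [if_pos ⟨hu, hse⟩, if_pos ⟨hse, hv⟩, if_pos hse]
  · rw [if_neg (fun h => hse h.2), if_neg (fun h => hse h.1), if_neg hse]

theorem FullA_al (hσ : σ ⊆ Ioo 0 N) (hs : s ∈ Ioo 0 N \ σ)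
    (hu : Even (lo σ s)) (hv : Even (hi N σ s)) (l : ℕ) :
    al N l (insert s σ) = al N l σ + (if Even s then 1 else 0) := by
  have h1 := FullA_pp hσ hs hu hv
  have h2 := ee_insert (mem_sdiff.1 hs).2
  unfold al
  by_cases hse : Even s
  · rw [if_pos hse] at h1 ⊢
    rw [if_neg (by rwa [Nat.not_odd_iff_even])] at h2
    omega
  · rw [if_neg hse] at h1 ⊢
    rw [if_pos (by rwa [← Nat.not_even_iff_odd])] at h2
    omega

theorem FullA_WW (hτ : TauData τ) (l : ℕ) (hσ : σ ⊆ Ioo 0 N) (hs : s ∈ Ioo 0 N \ σ)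
    (hu : Even (lo σ s)) (hv : Even (hi N σ s)) :
    WW τ N l (insert s σ) = (N.factorial : ℝ) * (Gp τ N σ * rho τ N σ s) *
      (if Even s then binZ (pp N σ + 1) (al N l σ + 1) else binZ (pp N σ - 1) (al N l σ)) := by
  have h1 := FullA_pp hσ hs hu hv
  have h2 := FullA_al hσ hs hu hv l
  have h3 : WW τ N l (insert s σ) = (N.factorial : ℝ) * Gp τ N (insert s σ) *
      binZ (pp N (insert s σ)) (al N l (insert s σ)) := rfl
  rw [h3, FullA_Gp hτ hσ hs hu hv, h2]
  by_cases hse : Even s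
  · rw [if_pos hse] at h1
    rw [if_pos hse, if_pos hse, show pp N (insert s σ) = pp N σ + 1 by omega]
  · rw [if_neg hse] at h1
    rw [if_neg hse, if_neg hse, show pp N (insert s σ) = pp N σ - 1 by omega, add_zero]

theorem FullA_nbr (hs : s ∈ Ioo 0 N \ σ) (ht : t ∈ Ioo 0 N \ σ) (hσ : σ ⊆ Ioo 0 N)
    (hst : lo σ s ≠ lo σ t) :
    lo (insert s σ) t = lo σ t ∧ hi N (insert s σ) t = hi N σ t := by
  rw [mem_sdiff, mem_Ioo] at hs ht
  obtain ⟨⟨hs0, hsN⟩, hsσ⟩ := hs
  obtain ⟨⟨ht0, htN⟩, htσ⟩ := ht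
  have hlt : lo σ t < t := lo_lt ht0
  constructor
  · rw [lo_insert]
    split_ifs with h
    · apply max_eq_right
      by_contra h2
      rw [not_le] at h2
      apply hst
      exact lo_eq lo_mem h2 (fun r hr hrs => le_lo hr (hrs.trans h))
    · rfl
  · rw [hi_insert hσ hsN]
    split_ifs with h
    · apply min_eq_right
      by_contra h2
      rw [not_le] at h2
      apply hst
      refine lo_eq lo_mem (hlt.trans h) (fun r hr hrs => ?_)
      rcases lt_trichotomy r t with h3 | h3 | h3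
      · exact le_lo hr h3
      · rw [h3] at hr
        exact absurd hr htσ
      · have h4 := hi_le_of_mem (N := N) hr h3
        omega
    · rfl

theorem Gp_insert_full (hτ : TauData τ) (hN : 2 ≤ N) (hσ : Full N σ) (hs : s ∈ Ioo 0 N \ σ) :
    Gp τ N (insert s σ) = Gp τ N σ * rho τ N σ s := by
  have _ := hN
  exact FullA_Gp hτ hσ.1 hs (full_even hσ hs).1 (full_even hσ hs).2

/-- Inserting one point. -/
theorem WW_insert_full (hτ : TauData τ) (hN : 2 ≤ N) (l : ℕ) (hσ : Full N σ)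
    (hs : s ∈ Ioo 0 N \ σ) :
    WW τ N l (insert s σ) = (N.factorial : ℝ) * Gp τ N σ * (rho τ N σ s *
      (if Even s then binZ (pp N σ + 1) (al N l σ + 1) else binZ (pp N σ - 1) (al N l σ))) := by
  have _ := hN
  rw [FullA_WW hτ l hσ.1 hs (full_even hσ hs).1 (full_even hσ hs).2]
  ring

/-- Inserting two points in different gaps. -/
theorem WW_insert_two (hτ : TauData τ) (hN : 2 ≤ N) (l : ℕ) (hσ : Full N σ)
    (hs : s ∈ Ioo 0 N \ σ) (ht : t ∈ Ioo 0 N \ σ) (hst : lo σ s ≠ lo σ t) :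
    WW τ N l (insert t (insert s σ)) = (N.factorial : ℝ) * Gp τ N σ *
      (rho τ N σ s * rho τ N σ t *
        (if Even s ∧ Even t then binZ (pp N σ + 2) (al N l σ + 2)
         else if Even s ∨ Even t then binZ (pp N σ) (al N l σ + 1)
         else binZ (pp N σ - 2) (al N l σ))) := by
  have _ := hN
  have hsub := hσ.1
  obtain ⟨hu, hv⟩ := full_even hσ hs
  obtain ⟨hu', hv'⟩ := full_even hσ ht
  obtain ⟨h1, h2⟩ := FullA_nbr hs ht hsub hst
  have hs' := hs
  have ht' := ht
  rw [mem_sdiff] at hs' ht'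
  have hts : t ≠ s := by
    rintro rfl
    exact hst rfl
  have hsub' : insert s σ ⊆ Ioo 0 N := insert_subset hs'.1 hsub
  have htm : t ∈ Ioo 0 N \ insert s σ := by
    rw [mem_sdiff, mem_insert]
    exact ⟨ht'.1, fun h => h.elim hts ht'.2⟩
  have h3 : rho τ N (insert s σ) t = rho τ N σ t := by
    unfold rho
    rw [h1, h2]
  have h4 := FullA_pp hsub hs hu hv
  have h5 := FullA_al hsub hs hu hv l
  rw [FullA_WW hτ l hsub' htm (by rwa [h1]) (by rwa [h2]), FullA_Gp hτ hsub hs hu hv, h3, h5]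
  by_cases hse : Even s
  · rw [if_pos hse] at h4 ⊢
    rw [show pp N (insert s σ) = pp N σ + 1 by omega]
    by_cases hte : Even t
    · rw [if_pos hte, if_pos ⟨hse, hte⟩, add_assoc, add_assoc]
      norm_num
      ring
    · rw [if_neg hte, if_neg (fun h => hte h.2), if_pos (Or.inl hse), Nat.add_sub_cancel]
      ring
  · rw [if_neg hse] at h4 ⊢
    rw [add_zero] at h4 ⊢
    by_cases hte : Even t
    · rw [if_pos hte, if_neg (fun h => hse h.1), if_pos (Or.inr hte), h4]
      ring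
    · rw [if_neg hte, if_neg (fun h => hse h.1), if_neg (fun h => h.elim hse hte),
        show pp N (insert s σ) - 1 = pp N σ - 2 by omega]
      ring

end Pool.Agent.LHC
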