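import Pool.Agent.LHC.FullA

/-!
Module LHC-FullB: inserting two points `s < t` in the same gap `(u, v)` of a full set.

`h = (v - u)/2`.  With `s, t` both even: the gap is cut in three even gaps, `pp` increases by `2`,
`ee` does not change.  With one of them odd: the set can have nonzero weight only if the odd point
has both its neighbours, so `(s, t) = (u+1, u+2)` or `(s,t) = (v-2, v-1)`, and (for `h ≥ 2`) the gaps are `1, 1, 2h-2`;
`pp` does not change and `ee` increases by one, so `α` becomes `α + 1`.  In all other cases the weight is zero: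
two odd points; or an odd point without one of its neighbours.  (For `h = 1` there is only one
point in the gap.)  Use `Gp_insert` twice (or `Gp_pos_iff` for the vanishing:
the set is not full, `Gp = 0`).
-/

open Finset

namespace Pool.Agent.LHC

variable {N : ℕ} {σ : Finset ℕ} {τ : ℕ → ℝ} {s t : ℕ}

private theorem FullB_even {u v : ℕ} (hu : Even u) (hv : Even v) :
    gapW τ u v = τ ((v - u) / 2) := if_pos ⟨hu, hv⟩

private theorem FullB_unit {u v : ℕ} (h : ¬ (Even u ∧ Even v)) (huv : v = u + 1) :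
    gapW τ u v = 1 := by
  unfold gapW
  rw [if_neg h, if_pos huv]

/-- The basic facts on the two points. -/
private theorem FullB_basic (hσ : Full N σ) (hs : s ∈ Ioo 0 N \ σ) (hst : s < t)
    (ht : t < hi N σ s) : insert s σ ⊆ Ioo 0 N ∧ t ∈ Ioo 0 N \ insert s σ ∧
      lo (insert s σ) t = s ∧ hi N (insert s σ) t = hi N σ s ∧
      t ∈ Ioo 0 N \ σ ∧ lo σ t = lo σ s ∧ hi N σ t = hi N σ s ∧
      insert t σ ⊆ Ioo 0 N ∧ s ∈ Ioo 0 N \ insert t σ ∧ lo (insert t σ) s = lo σ s ∧
      hi N (insert t σ) s = t := by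
  obtain ⟨hs1, hs2⟩ := mem_sdiff.1 hs
  obtain ⟨hs0, hsN⟩ := mem_Ioo.1 hs1
  have hlo : lo σ s < s := lo_lt hs0
  have hhN : hi N σ s ≤ N := hi_le hσ.1
  have htm : t ∉ σ := notMem_between (hlo.trans hst) ht hst.ne'
  have htI : t ∈ Ioo 0 N := mem_Ioo.2 ⟨hs0.trans hst, ht.trans_le hhN⟩
  obtain ⟨e1, e2⟩ := lo_eq_of_between hσ.1 hs2 (hlo.trans hst) ht hs1
  refine ⟨insert_subset hs1 hσ.1, mem_sdiff.2 ⟨htI, ?_⟩, ?_, ?_, mem_sdiff.2 ⟨htI, htm⟩, e1, e2,
    insert_subset htI hσ.1, mem_sdiff.2 ⟨hs1, ?_⟩, ?_, ?_⟩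
  · rw [mem_insert]
    rintro (h | h)
    · omega
    · exact htm h
  · rw [lo_insert, if_pos hst, e1]
    exact max_eq_left hlo.le
  · rw [hi_insert hσ.1 hsN, if_neg (by omega), e2]
  · rw [mem_insert]
    rintro (h | h)
    · omega
    · exact hs2 h
  · rw [lo_insert, if_neg (by omega)]
  · rw [hi_insert hσ.1 (mem_Ioo.1 htI).2, if_pos hst]
    exact min_eq_left ht.le

private theorem FullB_WW {σ' : Finset ℕ} {N l p : ℕ} {G : ℝ} {a : ℤ} (hG : Gp τ N σ' = G)
    (hp : pp N σ' = p) (ha : (l : ℤ) + ee σ' + p - ((N / 2 : ℕ) : ℤ) = a) :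
    WW τ N l σ' = (N.factorial : ℝ) * G * binZ p a := by
  unfold WW
  rw [hG, hp, ha]

/-- Two even points in one gap. -/
theorem WW_same_even (hτ : TauData τ) (hN : 2 ≤ N) (l : ℕ) (hσ : Full N σ)
    (hs : s ∈ Ioo 0 N \ σ) (hst : s < t) (ht : t < hi N σ s) (hse : Even s) (hte : Even t) :
    WW τ N l (insert t (insert s σ)) = (N.factorial : ℝ) * Gp τ N σ *
      (τ ((s - lo σ s) / 2) * τ ((t - s) / 2) * τ ((hi N σ s - t) / 2) /
        τ ((hi N σ s - lo σ s) / 2) * binZ (pp N σ + 2) (al N l σ + 2)) := by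
  obtain ⟨hσ', ht', hlo', hhi', -, -, -, -, -, -, -⟩ := FullB_basic hσ hs hst ht
  obtain ⟨hu, hv⟩ := full_even hσ hs
  have hs0 := (mem_Ioo.1 (mem_sdiff.1 hs).1).1
  have hlo : lo σ s < s := lo_lt hs0
  have hsv : s < hi N σ s := hst.trans ht
  have k1 : 0 < τ ((hi N σ s - lo σ s) / 2) := hτ.pos _ (by
    obtain ⟨a, ha⟩ := hu
    obtain ⟨b, hb⟩ := hv
    omega)
  have k2 : 0 < τ ((hi N σ s - s) / 2) := hτ.pos _ (by
    obtain ⟨a, ha⟩ := hse
    obtain ⟨b, hb⟩ := hv
    omega)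
  have g1 := Gp_insert τ hσ.1 hs
  have g2 := Gp_insert τ hσ' ht'
  rw [FullB_even hu hv, FullB_even hu hse, FullB_even hse hv] at g1
  rw [hlo', hhi', FullB_even hse hv, FullB_even hse hte, FullB_even hte hv] at g2
  have p1 := pp_insert hσ.1 hs
  have p2 := pp_insert hσ' ht'
  rw [if_pos ⟨hu, hv⟩, if_pos ⟨hu, hse⟩, if_pos ⟨hse, hv⟩] at p1
  rw [hlo', hhi', if_pos ⟨hse, hv⟩, if_pos ⟨hse, hte⟩, if_pos ⟨hte, hv⟩] at p2
  have e1 := ee_insert (mem_sdiff.1 hs).2
  have e2 := ee_insert (mem_sdiff.1 ht').2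
  rw [if_neg (Nat.not_odd_iff_even.2 hse)] at e1
  rw [if_neg (Nat.not_odd_iff_even.2 hte)] at e2
  have hG : Gp τ N (insert t (insert s σ)) = Gp τ N σ *
      (τ ((s - lo σ s) / 2) * τ ((t - s) / 2) * τ ((hi N σ s - t) / 2) /
        τ ((hi N σ s - lo σ s) / 2)) := by
    rw [← mul_div_assoc, eq_div_iff k1.ne']
    apply mul_right_cancel₀ k2.ne'
    linear_combination τ ((hi N σ s - lo σ s) / 2) * g2 +
      τ ((t - s) / 2) * τ ((hi N σ s - t) / 2) * g1
  rw [FullB_WW (l := l) (a := al N l σ + 2) hG (by omega : pp N (insert t (insert s σ)) = pp N σ + 2)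
    (by unfold al; omega)]
  ring

/-- At least one odd point in one gap, lower end. -/
theorem WW_same_low (hτ : TauData τ) (hN : 2 ≤ N) (l : ℕ) (hσ : Full N σ)
    (hs : s ∈ Ioo 0 N \ σ) (hst : s < t) (ht : t < hi N σ s) (h1 : s = lo σ s + 1)
    (h2 : t = lo σ s + 2) :
    WW τ N l (insert t (insert s σ)) = (N.factorial : ℝ) * Gp τ N σ *
      (τ ((hi N σ s - lo σ s) / 2 - 1) / τ ((hi N σ s - lo σ s) / 2) *
        binZ (pp N σ) (al N l σ + 1)) := by
  obtain ⟨-, -, -, -, htσ, hlt, hht, hσ', hs', hlo', hhi'⟩ := FullB_basic hσ hs hst ht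
  obtain ⟨hu, hv⟩ := full_even hσ hs
  have hso : ¬ Even s := by
    rw [h1]
    intro h3
    rcases hu with ⟨a, ha⟩
    rcases h3 with ⟨b, hb⟩
    omega
  have hte : Even t := by
    rw [h2]
    exact hu.add even_two
  have k1 : 0 < τ ((hi N σ s - lo σ s) / 2) := hτ.pos _ (by
    obtain ⟨a, ha⟩ := hu
    obtain ⟨b, hb⟩ := hv
    omega)
  have g1 := Gp_insert τ hσ.1 htσ
  have g2 := Gp_insert τ hσ' hs'
  rw [hlt, hht, FullB_even hu hv, FullB_even hu hte, FullB_even hte hv,
    (by omega : (t - lo σ s) / 2 = 1),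
    (by omega : (hi N σ s - t) / 2 = (hi N σ s - lo σ s) / 2 - 1), hτ.one] at g1
  rw [hlo', hhi', FullB_even hu hte, FullB_unit (fun h => hso h.2) h1,
    FullB_unit (fun h => hso h.1) (by omega), (by omega : (t - lo σ s) / 2 = 1), hτ.one] at g2
  have p1 := pp_insert hσ.1 htσ
  have p2 := pp_insert hσ' hs'
  rw [hlt, hht, if_pos ⟨hu, hv⟩, if_pos ⟨hu, hte⟩, if_pos ⟨hte, hv⟩] at p1
  rw [hlo', hhi', if_pos ⟨hu, hte⟩, if_neg (fun h => hso h.2), if_neg (fun h => hso h.1)] at p2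
  have e1 := ee_insert (mem_sdiff.1 htσ).2
  have e2 := ee_insert (mem_sdiff.1 hs').2
  rw [if_neg (Nat.not_odd_iff_even.2 hte)] at e1
  rw [if_pos (Nat.not_even_iff_odd.1 hso)] at e2
  rw [insert_comm t s σ]
  have hG : Gp τ N (insert s (insert t σ)) = Gp τ N σ *
      (τ ((hi N σ s - lo σ s) / 2 - 1) / τ ((hi N σ s - lo σ s) / 2)) := by
    rw [← mul_div_assoc, eq_div_iff k1.ne']
    linear_combination 2 * τ ((hi N σ s - lo σ s) / 2) * g2 + 2 * g1
  rw [FullB_WW (l := l) (a := al N l σ + 1) hG (by omega : pp N (insert s (insert t σ)) = pp N σ)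
    (by unfold al; omega)]
  ring

/-- At least one odd point in one gap, upper end. -/
theorem WW_same_high (hτ : TauData τ) (hN : 2 ≤ N) (l : ℕ) (hσ : Full N σ)
    (hs : s ∈ Ioo 0 N \ σ) (hst : s < t) (ht : t < hi N σ s) (h1 : s + 2 = hi N σ s)
    (h2 : t + 1 = hi N σ s) :
    WW τ N l (insert t (insert s σ)) = (N.factorial : ℝ) * Gp τ N σ *
      (τ ((hi N σ s - lo σ s) / 2 - 1) / τ ((hi N σ s - lo σ s) / 2) *
        binZ (pp N σ) (al N l σ + 1)) := by
  obtain ⟨hσ', ht', hlo', hhi', -, -, -, -, -, -, -⟩ := FullB_basic hσ hs hst ht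
  obtain ⟨hu, hv⟩ := full_even hσ hs
  have hs0 := (mem_Ioo.1 (mem_sdiff.1 hs).1).1
  have hlo : lo σ s < s := lo_lt hs0
  have hse : Even s := by
    obtain ⟨b, hb⟩ := hv
    exact ⟨b - 1, by omega⟩
  have hto : ¬ Even t := by
    intro h3
    rcases hse with ⟨a, ha⟩
    rcases h3 with ⟨b, hb⟩
    omega
  have k1 : 0 < τ ((hi N σ s - lo σ s) / 2) := hτ.pos _ (by
    obtain ⟨a, ha⟩ := hu
    obtain ⟨b, hb⟩ := hv
    omega)
  have g1 := Gp_insert τ hσ.1 hs
  have g2 := Gp_insert τ hσ' ht'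
  rw [FullB_even hu hv, FullB_even hu hse, FullB_even hse hv,
    (by omega : (hi N σ s - s) / 2 = 1),
    (by omega : (s - lo σ s) / 2 = (hi N σ s - lo σ s) / 2 - 1), hτ.one] at g1
  rw [hlo', hhi', FullB_even hse hv, FullB_unit (fun h => hto h.2) (by omega : t = s + 1),
    FullB_unit (fun h => hto h.1) h2.symm, (by omega : (hi N σ s - s) / 2 = 1), hτ.one] at g2
  have p1 := pp_insert hσ.1 hs
  have p2 := pp_insert hσ' ht'
  rw [if_pos ⟨hu, hv⟩, if_pos ⟨hu, hse⟩, if_pos ⟨hse, hv⟩] at p1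
  rw [hlo', hhi', if_pos ⟨hse, hv⟩, if_neg (fun h => hto h.2), if_neg (fun h => hto h.1)] at p2
  have e1 := ee_insert (mem_sdiff.1 hs).2
  have e2 := ee_insert (mem_sdiff.1 ht').2
  rw [if_neg (Nat.not_odd_iff_even.2 hse)] at e1
  rw [if_pos (Nat.not_even_iff_odd.1 hto)] at e2
  have hG : Gp τ N (insert t (insert s σ)) = Gp τ N σ *
      (τ ((hi N σ s - lo σ s) / 2 - 1) / τ ((hi N σ s - lo σ s) / 2)) := by
    rw [← mul_div_assoc, eq_div_iff k1.ne']
    linear_combination 2 * τ ((hi N σ s - lo σ s) / 2) * g2 + 2 * g1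
  rw [FullB_WW (l := l) (a := al N l σ + 1) hG (by omega : pp N (insert t (insert s σ)) = pp N σ)
    (by unfold al; omega)]
  ring

/-- All other cases. -/
theorem WW_same_zero (hτ : TauData τ) (hN : 2 ≤ N) (l : ℕ) (hσ : Full N σ)
    (hs : s ∈ Ioo 0 N \ σ) (hst : s < t) (ht : t < hi N σ s) (h0 : ¬ (Even s ∧ Even t))
    (h1 : ¬ (s = lo σ s + 1 ∧ t = lo σ s + 2))
    (h2 : ¬ (s + 2 = hi N σ s ∧ t + 1 = hi N σ s)) :
    WW τ N l (insert t (insert s σ)) = 0 := by
  obtain ⟨hσ', ht', -, -, -, -, -, -, -, -, -⟩ := FullB_basic hσ hs hst ht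
  obtain ⟨hs1, hs2⟩ := mem_sdiff.1 hs
  obtain ⟨ht1, ht2⟩ := mem_sdiff.1 ht'
  have hs0 := (mem_Ioo.1 hs1).1
  have hlo : lo σ s < s := lo_lt hs0
  have hhN : hi N σ s ≤ N := hi_le hσ.1
  have hσ'' : insert t (insert s σ) ⊆ Ioo 0 N := insert_subset ht1 hσ'
  have hnF : ¬ Full N (insert t (insert s σ)) := by
    intro hF
    by_cases hse : Even s
    · have hto : Odd t := Nat.not_even_iff_odd.1 fun h => h0 ⟨hse, h⟩
      obtain ⟨f1, f2⟩ := hF.2.1 t (mem_insert_self _ _) hto
      apply h2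
      have f3 : t = s + 1 := by
        by_contra hne
        have hm : t - 1 ∉ σ := notMem_between (s := s) (N := N) (by omega) (by omega) (by omega)
        rw [mem_insert, mem_insert, mem_insert] at f1
        rcases f1 with f1 | f1 | f1 | f1
        · omega
        · omega
        · omega
        · exact hm f1
      have f4 : t + 1 = hi N σ s := by
        by_contra hne
        have hm : t + 1 ∉ σ := notMem_between (s := s) (N := N) (by omega) (by omega) (by omega)
        rw [mem_insert, mem_insert, mem_insert] at f2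
        rcases f2 with f2 | f2 | f2 | f2
        · omega
        · omega
        · omega
        · exact hm f2
      exact ⟨by omega, f4⟩
    · have hso : Odd s := Nat.not_even_iff_odd.1 hse
      obtain ⟨f1, f2⟩ := hF.2.1 s (mem_insert_of_mem (mem_insert_self _ _)) hso
      apply h1
      have f3 : s = lo σ s + 1 := by
        by_contra hne
        have hm : s - 1 ∉ σ := notMem_between (s := s) (N := N) (by omega) (by omega) (by omega)
        rw [mem_insert, mem_insert, mem_insert] at f1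
        rcases f1 with f1 | f1 | f1 | f1
        · omega
        · omega
        · omega
        · exact hm f1
      have f4 : t = s + 1 := by
        by_contra hne
        have hm : s + 1 ∉ σ := notMem_between (s := s) (N := N) (by omega) (by omega) (by omega)
        rw [mem_insert, mem_insert, mem_insert] at f2
        rcases f2 with f2 | f2 | f2 | f2
        · omega
        · omega
        · omega
        · exact hm f2
      exact ⟨f3, by omega⟩
  have hG : Gp τ N (insert t (insert s σ)) = 0 := by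
    rcases (Gp_nonneg hτ hσ'' hN).lt_or_eq with h | h
    · exact absurd ((Gp_pos_iff hτ hN hσ'').1 h) hnF
    · exact h.symm
  unfold WW
  rw [hG, mul_zero, zero_mul]

end Pool.Agent.LHC
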