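import Pool.Agent.LHC.GapC

/-!
Module LHC-GapIneq: the two inequalities inside one gap used in the base case. Proofs by helper11.

(i) `rG ≤ mG^2`: divide `gap_c` by `(τ h)^2 > 0`; the left side of `gap_c` is nonnegative.
(ii) `RG ≤ 3 (mG^2 - rG)`.  For `h ≤ 1` the left side is `0`.  For `h ≥ 2`: completing squares
`2 a x - (2h-2)/(2h-1) a^2 ≤ (2h-1)/(2h-2) x^2`, hence
`RG ≤ (τ (h-1)/τ h) ((2h-1)/(2h-2) - 1/2) (x 1^2 + x (h-1)^2)
    = (τ (h-1)/τ h) (h/(2(h-1))) (x 1^2 + x (h-1)^2)`.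
By `gap_c`: `3 (mG^2 - rG) ≥ (6/τ h) sum_k τ k τ (h-k) x k^2`.  If `h ≥ 3` keep the two different
terms `k = 1` and `k = h-1`: `(6/τ h) τ 1 τ (h-1) (x 1^2 + x (h-1)^2)` with `τ 1 = 1/2`, and
`h/(2(h-1)) ≤ 3/4 ≤ 3`.  If `h = 2` the sum is the single term `k = 1`:
`(6/τ 2) (1/4) x 1^2 = (3/2)/τ 2 x 1^2`, while `RG ≤ (1/2)/τ 2 * 2 x 1^2`.
-/

open Finset

namespace Pool.Agent.LHC

/-- First order form of a gap. -/
noncomputable def mG (τ : ℕ → ℝ) (h : ℕ) (x : ℕ → ℝ) : ℝ :=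
  (∑ k ∈ Ioo 0 h, τ k * τ (h - k) * x k) / τ h

/-- Pair form (two even cuts) of a gap. -/
noncomputable def rG (τ : ℕ → ℝ) (h : ℕ) (x : ℕ → ℝ) : ℝ := rhat τ h x / τ h

/-- Pair form (an even cut and a mark) of a gap. -/
noncomputable def RG (τ : ℕ → ℝ) (h : ℕ) (x : ℕ → ℝ) (a b : ℝ) : ℝ :=
  if h ≤ 1 then 0 else τ (h - 1) / τ h *
    ((2 * a * x 1 - (2 * (h : ℝ) - 2) / (2 * h - 1) * a ^ 2 - x 1 ^ 2 / 2) +
     (2 * b * x (h - 1) - (2 * (h : ℝ) - 2) / (2 * h - 1) * b ^ 2 - x (h - 1) ^ 2 / 2))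

private theorem GapIneq_two {τ : ℕ → ℝ} (hτ : TauData τ) (h : ℕ) (hh : 1 ≤ h) (x : ℕ → ℝ) :
    2 * (∑ k ∈ Ioo 0 h, τ k * τ (h - k) * x k ^ 2) / τ h ≤ mG τ h x ^ 2 - rG τ h x := by
  have hT := hτ.pos h hh
  have hg := gap_c hτ h x
  rw [mG, rG]
  generalize (∑ k ∈ Ioo 0 h, τ k * τ (h - k) * x k ^ 2) = S at hg ⊢
  generalize (∑ k ∈ Ioo 0 h, τ k * τ (h - k) * x k) = M at hg ⊢
  generalize rhat τ h x = r at hg ⊢
  have e : (M / τ h) ^ 2 - r / τ h = (M ^ 2 - τ h * r) / τ h ^ 2 := by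
    field_simp
  rw [e, div_le_div_iff₀ hT (by positivity)]
  calc 2 * S * τ h ^ 2 = (2 * τ h * S) * τ h := by ring
    _ ≤ (M ^ 2 - τ h * r) * τ h := mul_le_mul_of_nonneg_right hg hT.le

private theorem GapIneq_nn {τ : ℕ → ℝ} (hτ : TauData τ) (h : ℕ) (x : ℕ → ℝ) {k : ℕ}
    (hk : k ∈ Ioo 0 h) : 0 ≤ τ k * τ (h - k) * x k ^ 2 := by
  rw [mem_Ioo] at hk
  have h1 := hτ.pos k (by omega)
  have h2 := hτ.pos (h - k) (by omega)
  positivity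

private theorem GapIneq_sq {c a x : ℝ} (hc : 2 / 3 ≤ c) :
    2 * a * x - c * a ^ 2 - x ^ 2 / 2 ≤ x ^ 2 := by
  nlinarith [sq_nonneg (2 * a - 3 * x), mul_le_mul_of_nonneg_right hc (sq_nonneg a)]

theorem rG_le {τ : ℕ → ℝ} (hτ : TauData τ) (h : ℕ) (hh : 1 ≤ h) (x : ℕ → ℝ) :
    rG τ h x ≤ mG τ h x ^ 2 := by
  have h1 := GapIneq_two hτ h hh x
  have h2 : 0 ≤ 2 * (∑ k ∈ Ioo 0 h, τ k * τ (h - k) * x k ^ 2) / τ h :=
    div_nonneg (mul_nonneg (by norm_num) (sum_nonneg (fun k hk => GapIneq_nn hτ h x hk)))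
      (hτ.pos h hh).le
  linarith

theorem RG_le {τ : ℕ → ℝ} (hτ : TauData τ) (h : ℕ) (hh : 1 ≤ h) (x : ℕ → ℝ) (a b : ℝ) :
    RG τ h x a b ≤ 3 * (mG τ h x ^ 2 - rG τ h x) := by
  by_cases h1 : h ≤ 1
  · rw [RG, if_pos h1]
    have := rG_le hτ h hh x
    linarith
  have h2 : 2 ≤ h := by omega
  have hT := hτ.pos h hh
  have hT1 := hτ.pos (h - 1) (by omega)
  have hg := GapIneq_two hτ h hh x
  refine le_trans ?_ (mul_le_mul_of_nonneg_left hg (by norm_num))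
  have hc : (2 : ℝ) / 3 ≤ (2 * (h : ℝ) - 2) / (2 * h - 1) := by
    have h3 : (2 : ℝ) ≤ (h : ℝ) := by exact_mod_cast h2
    rw [div_le_div_iff₀ (by norm_num) (by linarith)]
    linarith
  have hA := GapIneq_sq (a := a) (x := x 1) hc
  have hB := GapIneq_sq (a := b) (x := x (h - 1)) hc
  have hR : RG τ h x a b ≤ τ (h - 1) * (x 1 ^ 2 + x (h - 1) ^ 2) / τ h := by
    rw [RG, if_neg h1, div_mul_eq_mul_div]
    exact div_le_div_of_nonneg_right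
      (mul_le_mul_of_nonneg_left (add_le_add hA hB) hT1.le) hT.le
  refine hR.trans ?_
  have hS : τ (h - 1) * (x 1 ^ 2 + x (h - 1) ^ 2) ≤
      3 * (2 * ∑ k ∈ Ioo 0 h, τ k * τ (h - k) * x k ^ 2) := by
    rcases Nat.lt_or_ge 2 h with h3 | h3
    · have hsub : ({1, h - 1} : Finset ℕ) ⊆ Ioo 0 h := by
        intro k hk
        rw [mem_insert, mem_singleton] at hk
        rw [mem_Ioo]
        omega
      have hle : ∑ k ∈ ({1, h - 1} : Finset ℕ), τ k * τ (h - k) * x k ^ 2 ≤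
          ∑ k ∈ Ioo 0 h, τ k * τ (h - k) * x k ^ 2 :=
        sum_le_sum_of_subset_of_nonneg hsub (fun k hk _ => GapIneq_nn hτ h x hk)
      rw [sum_pair (by omega), hτ.one, show h - (h - 1) = 1 by omega, hτ.one] at hle
      have hnn : 0 ≤ τ (h - 1) * (x 1 ^ 2 + x (h - 1) ^ 2) := by positivity
      linarith
    · have h4 : h = 2 := by omega
      subst h4
      have h5 : Ioo 0 2 = ({1} : Finset ℕ) := by decide
      rw [h5, sum_singleton]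
      simp only [show 2 - 1 = 1 from rfl, hτ.one]
      nlinarith [sq_nonneg (x 1)]
  rw [← mul_div_assoc]
  exact div_le_div_of_nonneg_right hS hT.le

end Pool.Agent.LHC
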