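import Pool.Agent.LHC.FullB
import Pool.Agent.LHC.GapIneq
import Pool.Agent.LHC.CaseNum
import Pool.Agent.LHC.Defic

/-!
Module LHC-FullC: the base form of a full set in normalised coordinates (checked by computer).

`F s = dev N σ f s`.  The points of `Ioo 0 N \ σ` are distributed over the gaps `(u, hi N σ u)`,
`u ∈ GG N σ` (the even-even gaps; the other gaps are unit gaps and contain no point), by `u = lo σ s`.
Start from `TT_TT_apply`.
First order: by `WW_insert_full`,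
`∑_s F s W(insert s σ) = N! Gp σ (c1 ∑_u mm u + c4 ∑_u em u)`: in the gap of `u`, `h = (v-u)/2`, the even
points are `u + 2k`, `k ∈ Ioo 0 h`, with `rho = τ k τ (h-k) / τ h`; odd points contribute only if
`h = 1`: the point `u + 1` with `rho = 2`.
Second order, `s, t` in different gaps (`dev (insert s σ) f t = F t` by `dev_insert`): by
`WW_insert_two` the sum over these ordered pairs is `N! Gp σ` times
`c2 ((∑ mm)^2 - ∑ mm^2) + c3 (2 ∑ mm ∑ em - 2 ∑ mm em) + c5 ((∑ em)^2 - ∑ em^2)`,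
and `mm u * em u = 0` (if `h = 1` then `mm u = 0`, otherwise `em u = 0`).
Second order, same gap, unordered pair `s < t`: the two ordered pairs contribute, by `dev_insert`,
`(2 F s F t - (v-t)/(v-s) (F s)^2 - (s-u)/(t-u) (F t)^2) * W(insert t (insert s σ))`; with
`WW_same_even` the even pairs `s = u + 2j, t = u + 2k` give `N! Gp σ c2 * rG τ h x`, `x k = F (u+2k)`;
`WW_same_low`, `WW_same_high` give `N! Gp σ c3 * RG τ h x (F (u+1)) (F (v-1))`
(`(v-t)/(v-s) = (2h-2)/(2h-1)`, `(s-u)/(t-u) = 1/2` for `(s,t) = (u+1,u+2)`, and symmetrically), the others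
vanish by `WW_same_zero`.  It is convenient to prove first a lemma for the double sum over one gap.
-/

open Finset

namespace Pool.Agent.LHC

variable {N : ℕ} {σ : Finset ℕ} {τ : ℕ → ℝ}

/-- Left ends of the even-even gaps. -/
def GG (N : ℕ) (σ : Finset ℕ) : Finset ℕ :=
  (insert 0 σ).filter (fun u => Even u ∧ Even (hi N σ u))

/-- Half length of the gap starting at `u`. -/
def hh (N : ℕ) (σ : Finset ℕ) (u : ℕ) : ℕ := (hi N σ u - u) / 2

noncomputable def mm (τ : ℕ → ℝ) (N : ℕ) (σ : Finset ℕ) (f : ℕ → ℝ) (u : ℕ) : ℝ :=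
  mG τ (hh N σ u) (fun k => dev N σ f (u + 2 * k))

noncomputable def em (N : ℕ) (σ : Finset ℕ) (f : ℕ → ℝ) (u : ℕ) : ℝ :=
  if hh N σ u = 1 then 2 * dev N σ f (u + 1) else 0

noncomputable def rr (τ : ℕ → ℝ) (N : ℕ) (σ : Finset ℕ) (f : ℕ → ℝ) (u : ℕ) : ℝ :=
  rG τ (hh N σ u) (fun k => dev N σ f (u + 2 * k))

noncomputable def RR (τ : ℕ → ℝ) (N : ℕ) (σ : Finset ℕ) (f : ℕ → ℝ) (u : ℕ) : ℝ :=
  RG τ (hh N σ u) (fun k => dev N σ f (u + 2 * k)) (dev N σ f (u + 1))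
    (dev N σ f (u + 2 * hh N σ u - 1))


/-! ### Points of the gaps -/

private theorem FullC_hi_lo (hσ : σ ⊆ Ioo 0 N) {s : ℕ} (hs : s ∈ Ioo 0 N \ σ) :
    hi N σ (lo σ s) = hi N σ s := by
  obtain ⟨hs1, h3⟩ := mem_sdiff.mp hs
  obtain ⟨h1, h2⟩ := mem_Ioo.mp hs1
  have hl : lo σ s < s := lo_lt h1
  have hh : s < hi N σ s := lt_hi h2
  refine hi_eq hσ hi_mem (hl.trans hh) (fun t ht hlt => ?_)
  by_contra hcon
  rw [not_le] at hcon
  have hts : t ≠ s := by
    rintro rfl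
    exact h3 ht
  exact notMem_between hlt hcon hts ht

private theorem FullC_hi (hN : 2 ≤ N) (hσ : Full N σ) {u : ℕ} (hu : u ∈ GG N σ) :
    u ∈ insert 0 σ ∧ u < hi N σ u ∧ hi N σ u = u + 2 * hh N σ u ∧ Even u := by
  rw [GG, mem_filter] at hu
  obtain ⟨h1, h2, h3⟩ := hu
  have h4 : u < hi N σ u := lt_hi (PosIff_lt hσ.1 hN h1)
  refine ⟨h1, h4, ?_, h2⟩
  rw [hh]
  obtain ⟨a, ha⟩ := h2
  obtain ⟨b, hb⟩ := h3
  omega

private theorem FullC_pt (hN : 2 ≤ N) (hσ : Full N σ) {u i : ℕ} (hu : u ∈ GG N σ)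
    (h0 : 0 < i) (h1 : i < 2 * hh N σ u) :
    u + i ∈ Ioo 0 N \ σ ∧ lo σ (u + i) = u ∧ hi N σ (u + i) = u + 2 * hh N σ u := by
  obtain ⟨g1, g2, g3, g4⟩ := FullC_hi hN hσ hu
  have g5 := hi_le (s := u) hσ.1
  have g6 : u + i < hi N σ u := by omega
  have g7 : ∀ t ∈ σ, t < u + i → t ≤ u := by
    intro t ht htu
    by_contra hc
    have := hi_le_of_mem (N := N) ht (not_le.mp hc)
    omega
  have g8 : u + i ∉ σ := by
    intro hc
    have := hi_le_of_mem (N := N) hc (show u < u + i by omega)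
    omega
  have g9 : lo σ (u + i) = u := lo_eq g1 (by omega) g7
  refine ⟨mem_sdiff.mpr ⟨mem_Ioo.mpr ⟨by omega, by omega⟩, g8⟩, g9, ?_⟩
  rw [← g3]
  exact hi_eq hσ.1 hi_mem g6 (fun t ht htu => hi_le_of_mem ht (by omega))

private theorem FullC_maps (hσ : Full N σ) {s : ℕ} (hs : s ∈ Ioo 0 N \ σ) : lo σ s ∈ GG N σ := by
  rw [GG, mem_filter]
  obtain ⟨a, b⟩ := full_even hσ hs
  refine ⟨lo_mem, a, ?_⟩
  rw [FullC_hi_lo hσ.1 hs]
  exact b

private theorem FullC_sum (hN : 2 ≤ N) (hσ : Full N σ) (g : ℕ → ℝ) :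
    ∑ s ∈ Ioo 0 N \ σ, g s = ∑ u ∈ GG N σ, ∑ i ∈ Ioo 0 (2 * hh N σ u), g (u + i) := by
  rw [← sum_fiberwise_of_maps_to (fun s hs => FullC_maps hσ hs)]
  refine sum_congr rfl (fun u hu => ?_)
  obtain ⟨g1, g2, g3, g4⟩ := FullC_hi hN hσ hu
  have key : ∀ s ∈ (Ioo 0 N \ σ).filter (fun s => lo σ s = u), u < s ∧ s < u + 2 * hh N σ u := by
    intro s hs
    obtain ⟨k1, k2⟩ := mem_filter.mp hs
    obtain ⟨k3, k4⟩ := mem_Ioo.mp (mem_sdiff.mp k1).1
    have k5 := lo_lt (σ := σ) k3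
    have k6 := lt_hi (σ := σ) k4
    have k7 := FullC_hi_lo hσ.1 k1
    rw [k2] at k7 k5
    omega
  refine sum_nbij' (fun s => s - u) (fun i => u + i) ?_ ?_ ?_ ?_ ?_
  · intro s hs
    obtain ⟨k1, k2⟩ := key s hs
    show s - u ∈ Ioo 0 (2 * hh N σ u)
    rw [mem_Ioo]
    omega
  · intro i hi
    obtain ⟨k1, k2⟩ := mem_Ioo.mp hi
    obtain ⟨k3, k4, k5⟩ := FullC_pt hN hσ hu k1 k2
    exact mem_filter.mpr ⟨k3, k4⟩
  · intro s hs
    obtain ⟨k1, k2⟩ := key s hs
    show u + (s - u) = s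
    omega
  · intro i hi
    show u + i - u = i
    omega
  · intro s hs
    obtain ⟨k1, k2⟩ := key s hs
    show g s = g (u + (s - u))
    rw [Nat.add_sub_cancel' k1.le]

/-- Pairs of points in the same gap. -/
private theorem FullC_sum2 (hN : 2 ≤ N) (hσ : Full N σ) (g : ℕ → ℕ → ℝ) :
    ∑ s ∈ Ioo 0 N \ σ, ∑ t ∈ Ioo 0 N \ σ, (if lo σ s = lo σ t then g s t else 0) =
      ∑ u ∈ GG N σ, ∑ i ∈ Ioo 0 (2 * hh N σ u), ∑ j ∈ Ioo 0 (2 * hh N σ u), g (u + i) (u + j) := by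
  rw [FullC_sum hN hσ]
  refine sum_congr rfl (fun u hu => sum_congr rfl (fun i hi => ?_))
  obtain ⟨k1, k2⟩ := mem_Ioo.mp hi
  obtain ⟨k3, k4, k5⟩ := FullC_pt hN hσ hu k1 k2
  rw [FullC_sum hN hσ, k4]
  rw [sum_eq_single u]
  · refine sum_congr rfl (fun j hj => ?_)
    obtain ⟨m1, m2⟩ := mem_Ioo.mp hj
    obtain ⟨m3, m4, m5⟩ := FullC_pt hN hσ hu m1 m2
    rw [m4, if_pos rfl]
  · intro v hv hvu
    refine sum_eq_zero (fun j hj => ?_)
    obtain ⟨m1, m2⟩ := mem_Ioo.mp hj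
    obtain ⟨m3, m4, m5⟩ := FullC_pt hN hσ hv m1 m2
    rw [m4, if_neg (Ne.symm hvu)]
  · intro h
    exact absurd hu h

private theorem FullC_ev (h : ℕ) (g : ℕ → ℝ) :
    ∑ i ∈ Ioo 0 (2 * h), (if Even i then g i else 0) = ∑ k ∈ Ioo 0 h, g (2 * k) := by
  rw [← sum_filter]
  refine (sum_nbij' (fun k => 2 * k) (fun i => i / 2) ?_ ?_ ?_ ?_ ?_).symm
  · intro k hk
    simp only [mem_filter, mem_Ioo] at hk ⊢
    exact ⟨by omega, even_two_mul k⟩
  · intro i hi
    simp only [mem_filter, mem_Ioo] at hi ⊢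
    obtain ⟨h1, a, ha⟩ := hi
    omega
  · intro k hk
    show 2 * k / 2 = k
    omega
  · intro i hi
    simp only [mem_filter, mem_Ioo] at hi
    obtain ⟨h1, a, ha⟩ := hi
    show 2 * (i / 2) = i
    omega
  · intro k hk
    rfl

private theorem FullC_hpos (hN : 2 ≤ N) (hσ : Full N σ) {u : ℕ} (hu : u ∈ GG N σ) :
    1 ≤ hh N σ u := by
  obtain ⟨g1, g2, g3, g4⟩ := FullC_hi hN hσ hu
  omega

private theorem FullC_rho (τ : ℕ → ℝ) (hN : 2 ≤ N) (hσ : Full N σ) {u i : ℕ} (hu : u ∈ GG N σ)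
    (h0 : 0 < i) (h1 : i < 2 * hh N σ u) :
    rho τ N σ (u + i) = if Even i then τ (i / 2) * τ (hh N σ u - i / 2) / τ (hh N σ u)
      else if hh N σ u = 1 then 2 else 0 := by
  obtain ⟨g1, g2, g3, g4⟩ := FullC_hi hN hσ hu
  obtain ⟨k3, k4, k5⟩ := FullC_pt hN hσ hu h0 h1
  rw [rho, k4, k5]
  have e1 : Even (u + i) ↔ Even i := by
    rw [Nat.even_add]
    tauto
  by_cases he : Even i
  · rw [if_pos (e1.mpr he), if_pos he]
    obtain ⟨a, ha⟩ := he
    have e2 : (u + i - u) / 2 = i / 2 := by omega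
    have e3 : (u + 2 * hh N σ u - (u + i)) / 2 = hh N σ u - i / 2 := by omega
    have e4 : (u + 2 * hh N σ u - u) / 2 = hh N σ u := by omega
    rw [e2, e3, e4]
  · rw [if_neg (fun h => he (e1.mp h)), if_neg he]
    by_cases h2 : hh N σ u = 1
    · rw [if_pos h2, if_pos (by omega)]
    · rw [if_neg h2, if_neg (by omega)]

/-- Even part of the first order coefficients. -/
private noncomputable def FA (τ : ℕ → ℝ) (N : ℕ) (σ : Finset ℕ) (f : ℕ → ℝ) (s : ℕ) : ℝ :=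
  if Even s then dev N σ f s * rho τ N σ s else 0

/-- Odd part of the first order coefficients. -/
private noncomputable def FB (τ : ℕ → ℝ) (N : ℕ) (σ : Finset ℕ) (f : ℕ → ℝ) (s : ℕ) : ℝ :=
  if Even s then 0 else dev N σ f s * rho τ N σ s

private theorem FullC_even (hN : 2 ≤ N) (hσ : Full N σ) {u i : ℕ} (hu : u ∈ GG N σ) :
    Even (u + i) ↔ Even i := by
  obtain ⟨g1, g2, g3, g4⟩ := FullC_hi hN hσ hu
  rw [Nat.even_add]
  tauto

private theorem FullC_FA (τ : ℕ → ℝ) (hN : 2 ≤ N) (hσ : Full N σ) (f : ℕ → ℝ) {u : ℕ}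
    (hu : u ∈ GG N σ) :
    ∑ i ∈ Ioo 0 (2 * hh N σ u), FA τ N σ f (u + i) = mm τ N σ f u := by
  have e : ∀ i ∈ Ioo 0 (2 * hh N σ u), FA τ N σ f (u + i) =
      if Even i then dev N σ f (u + i) *
        (τ (i / 2) * τ (hh N σ u - i / 2) / τ (hh N σ u)) else 0 := by
    intro i hi
    obtain ⟨k1, k2⟩ := mem_Ioo.mp hi
    rw [FA]
    by_cases he : Even i
    · rw [if_pos ((FullC_even hN hσ hu).mpr he), if_pos he, FullC_rho τ hN hσ hu k1 k2, if_pos he]
    · rw [if_neg (fun h => he ((FullC_even hN hσ hu).mp h)), if_neg he]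
  rw [sum_congr rfl e,
    FullC_ev (hh N σ u) (fun i => dev N σ f (u + i) *
        (τ (i / 2) * τ (hh N σ u - i / 2) / τ (hh N σ u))), mm, mG, sum_div]
  refine sum_congr rfl (fun k hk => ?_)
  have e2 : 2 * k / 2 = k := by omega
  rw [e2]
  ring

private theorem FullC_FB (τ : ℕ → ℝ) (hN : 2 ≤ N) (hσ : Full N σ) (f : ℕ → ℝ) {u : ℕ}
    (hu : u ∈ GG N σ) :
    ∑ i ∈ Ioo 0 (2 * hh N σ u), FB τ N σ f (u + i) = em N σ f u := by
  rw [em]
  by_cases h1 : hh N σ u = 1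
  · rw [if_pos h1, h1]
    have h5 : Ioo 0 (2 * 1) = ({1} : Finset ℕ) := by decide
    rw [h5, sum_singleton, FB, if_neg (fun h => by
      have := (FullC_even hN hσ hu).mp h
      exact absurd this (by decide)), FullC_rho τ hN hσ hu (by omega) (by omega),
      if_neg (by decide), if_pos h1]
    ring
  · rw [if_neg h1]
    refine sum_eq_zero (fun i hi => ?_)
    obtain ⟨k1, k2⟩ := mem_Ioo.mp hi
    rw [FB]
    by_cases he : Even i
    · rw [if_pos ((FullC_even hN hσ hu).mpr he)]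
    · rw [if_neg (fun h => he ((FullC_even hN hσ hu).mp h)), FullC_rho τ hN hσ hu k1 k2,
        if_neg he, if_neg h1, mul_zero]

private theorem FullC_sA (τ : ℕ → ℝ) (hN : 2 ≤ N) (hσ : Full N σ) (f : ℕ → ℝ) :
    ∑ s ∈ Ioo 0 N \ σ, FA τ N σ f s = ∑ u ∈ GG N σ, mm τ N σ f u := by
  rw [FullC_sum hN hσ]
  exact sum_congr rfl (fun u hu => FullC_FA τ hN hσ f hu)

private theorem FullC_sB (τ : ℕ → ℝ) (hN : 2 ≤ N) (hσ : Full N σ) (f : ℕ → ℝ) :
    ∑ s ∈ Ioo 0 N \ σ, FB τ N σ f s = ∑ u ∈ GG N σ, em N σ f u := by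
  rw [FullC_sum hN hσ]
  exact sum_congr rfl (fun u hu => FullC_FB τ hN hσ f hu)

private theorem FullC_me (τ : ℕ → ℝ) (f : ℕ → ℝ) (u : ℕ) :
    mm τ N σ f u * em N σ f u = 0 := by
  rw [em]
  by_cases h1 : hh N σ u = 1
  · rw [mm, mG, h1]
    have h5 : Ioo 0 1 = (∅ : Finset ℕ) := by decide
    rw [h5, sum_empty, zero_div, zero_mul]
  · rw [if_neg h1, mul_zero]

/-- First order part. -/
theorem first_order (hτ : TauData τ) (hN : 2 ≤ N) (l : ℕ) (hσ : Full N σ) (f : ℕ → ℝ) :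
    ∑ s ∈ Ioo 0 N \ σ, dev N σ f s * WW τ N l (insert s σ) =
      (N.factorial : ℝ) * Gp τ N σ *
        (binZ (pp N σ + 1) (al N l σ + 1) * ∑ u ∈ GG N σ, mm τ N σ f u +
          binZ (pp N σ - 1) (al N l σ) * ∑ u ∈ GG N σ, em N σ f u) := by
  rw [← FullC_sA τ hN hσ f, ← FullC_sB τ hN hσ f, mul_sum, mul_sum, ← sum_add_distrib, mul_sum]
  refine sum_congr rfl (fun s hs => ?_)
  rw [WW_insert_full hτ hN l hσ hs, FA, FB]
  by_cases he : Even s
  · simp only [if_pos he]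
    ring
  · simp only [if_neg he]
    ring

/-! ### Second order -/

private theorem FullC_sym (n : ℕ) (g : ℕ → ℕ → ℝ) :
    ∑ i ∈ Ioo 0 n, ∑ j ∈ Ioo 0 n, (if j = i then 0 else g i j) =
      ∑ j ∈ Ioo 0 n, ∑ i ∈ Ioo 0 j, (g i j + g j i) := by
  have e1 : ∀ i ∈ Ioo 0 n, ∑ j ∈ Ioo 0 n, (if j = i then 0 else g i j) =
      ∑ j ∈ Ioo 0 n, (if i < j then g i j else 0) + ∑ j ∈ Ioo 0 i, g i j := by
    intro i hi
    have e2 : ∑ j ∈ Ioo 0 i, g i j = ∑ j ∈ Ioo 0 n, (if j < i then g i j else 0) := by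
      rw [← sum_filter]
      refine sum_congr ?_ (fun _ _ => rfl)
      ext j
      rw [mem_filter, mem_Ioo, mem_Ioo]
      have := mem_Ioo.mp hi
      omega
    rw [e2, ← sum_add_distrib]
    refine sum_congr rfl (fun j hj => ?_)
    rcases lt_trichotomy i j with h | h | h
    · rw [if_neg (by omega), if_pos h, if_neg (by omega), add_zero]
    · rw [if_pos h.symm, if_neg (by omega), if_neg (by omega), add_zero]
    · rw [if_neg (by omega), if_neg (by omega), if_pos h, zero_add]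
  rw [sum_congr rfl e1, sum_add_distrib, sum_comm]
  have e3 : ∀ j ∈ Ioo 0 n, ∑ i ∈ Ioo 0 n, (if i < j then g i j else 0) = ∑ i ∈ Ioo 0 j, g i j := by
    intro j hj
    rw [← sum_filter]
    refine sum_congr ?_ (fun _ _ => rfl)
    ext i
    rw [mem_filter, mem_Ioo, mem_Ioo]
    have := mem_Ioo.mp hj
    omega
  rw [sum_congr rfl e3, ← sum_add_distrib]
  exact sum_congr rfl (fun j _ => sum_add_distrib.symm)

/-- The two ordered pairs inside a gap. -/
private theorem FullC_pair (l : ℕ) (hN : 2 ≤ N) (hσ : Full N σ) (f : ℕ → ℝ) {u i j : ℕ}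
    (hu : u ∈ GG N σ) (h0 : 0 < i) (hij : i < j) (hj : j < 2 * hh N σ u) :
    dev N σ f (u + i) * dev N (insert (u + i) σ) f (u + j) *
        WW τ N l (insert (u + j) (insert (u + i) σ)) +
      dev N σ f (u + j) * dev N (insert (u + j) σ) f (u + i) *
        WW τ N l (insert (u + i) (insert (u + j) σ)) =
      (2 * dev N σ f (u + i) * dev N σ f (u + j) -
        (2 * (hh N σ u : ℝ) - j) / (2 * (hh N σ u : ℝ) - i) * dev N σ f (u + i) ^ 2 -
        (i : ℝ) / j * dev N σ f (u + j) ^ 2) *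
        WW τ N l (insert (u + j) (insert (u + i) σ)) := by
  obtain ⟨k1, k2, k3⟩ := FullC_pt hN hσ hu h0 (hij.trans hj)
  obtain ⟨m1, m2, m3⟩ := FullC_pt hN hσ hu (h0.trans hij) hj
  rw [insert_comm (u + i) (u + j) σ, dev_insert hσ.1 f k1 m1 (by omega),
    dev_insert hσ.1 f m1 k1 (by omega), k2, k3, m2, m3,
    if_pos ⟨by omega, by omega⟩, if_neg (by omega), if_pos ⟨by omega, by omega⟩]
  have c1 : (((u + 2 * hh N σ u : ℕ) : ℝ) - ((u + j : ℕ) : ℝ)) = 2 * (hh N σ u : ℝ) - j := by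
    push_cast
    ring
  have c2 : (((u + 2 * hh N σ u : ℕ) : ℝ) - ((u + i : ℕ) : ℝ)) = 2 * (hh N σ u : ℝ) - i := by
    push_cast
    ring
  have c3 : (((u + i : ℕ) : ℝ) - (u : ℝ)) = i := by
    push_cast
    ring
  have c4 : (((u + j : ℕ) : ℝ) - (u : ℝ)) = j := by
    push_cast
    ring
  rw [c1, c2, c3, c4]
  ring

private theorem FullC_W (hτ : TauData τ) (hN : 2 ≤ N) (l : ℕ) (hσ : Full N σ) {u i j : ℕ}
    (hu : u ∈ GG N σ) (h0 : 0 < i) (hij : i < j) (hj : j < 2 * hh N σ u) :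
    WW τ N l (insert (u + j) (insert (u + i) σ)) = (N.factorial : ℝ) * Gp τ N σ *
      ((if Even j then (if Even i then τ (i / 2) * τ (j / 2 - i / 2) * τ (hh N σ u - j / 2) /
          τ (hh N σ u) * binZ (pp N σ + 2) (al N l σ + 2) else 0) else 0) +
       (if i = 1 ∧ j = 2 then τ (hh N σ u - 1) / τ (hh N σ u) *
          binZ (pp N σ) (al N l σ + 1) else 0) +
       (if i = 2 * hh N σ u - 2 ∧ j = 2 * hh N σ u - 1 then τ (hh N σ u - 1) / τ (hh N σ u) *
          binZ (pp N σ) (al N l σ + 1) else 0)) := by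
  obtain ⟨k1, k2, k3⟩ := FullC_pt hN hσ hu h0 (hij.trans hj)
  have ei : Even (u + i) ↔ Even i := FullC_even hN hσ hu
  have ej : Even (u + j) ↔ Even j := FullC_even hN hσ hu
  have e4 : (u + 2 * hh N σ u - u) / 2 = hh N σ u := by omega
  by_cases h1 : Even i ∧ Even j
  · rw [WW_same_even hτ hN l hσ k1 (by omega) (by rw [k3]; omega) (ei.mpr h1.1) (ej.mpr h1.2),
      k2, k3]
    obtain ⟨⟨a, ha⟩, b, hb⟩ := h1
    have e1 : (u + i - u) / 2 = i / 2 := by omega
    have e2 : (u + j - (u + i)) / 2 = j / 2 - i / 2 := by omega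
    have e3 : (u + 2 * hh N σ u - (u + j)) / 2 = hh N σ u - j / 2 := by omega
    rw [e1, e2, e3, e4, if_pos ⟨b, hb⟩, if_pos ⟨a, ha⟩, if_neg (by omega), if_neg (by omega)]
    ring
  have z1 : (if Even j then (if Even i then τ (i / 2) * τ (j / 2 - i / 2) *
      τ (hh N σ u - j / 2) / τ (hh N σ u) * binZ (pp N σ + 2) (al N l σ + 2) else 0) else 0) = 0 := by
    by_cases h2 : Even j
    · rw [if_pos h2, if_neg (fun h3 => h1 ⟨h3, h2⟩)]
    · rw [if_neg h2]
  rw [z1, zero_add]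
  by_cases h2 : i = 1 ∧ j = 2
  · rw [WW_same_low hτ hN l hσ k1 (by omega) (by rw [k3]; omega) (by rw [k2, h2.1])
      (by rw [k2, h2.2]), k2, k3, e4, if_pos h2, if_neg (by omega), add_zero]
  by_cases h3 : i = 2 * hh N σ u - 2 ∧ j = 2 * hh N σ u - 1
  · rw [WW_same_high hτ hN l hσ k1 (by omega) (by rw [k3]; omega) (by rw [k3]; omega)
      (by rw [k3]; omega), k2, k3, e4, if_neg h2, if_pos h3, zero_add]
  rw [if_neg h2, if_neg h3, WW_same_zero hτ hN l hσ k1 (by omega) (by rw [k3]; omega)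
    (fun h => h1 ⟨ei.mp h.1, ej.mp h.2⟩) (by rw [k2]; omega) (by rw [k3]; omega)]
  ring

/-- Pairs inside one gap. -/
private theorem FullC_gap (hτ : TauData τ) (hN : 2 ≤ N) (l : ℕ) (hσ : Full N σ) (f : ℕ → ℝ)
    {u : ℕ} (hu : u ∈ GG N σ) :
    ∑ i ∈ Ioo 0 (2 * hh N σ u), ∑ j ∈ Ioo 0 (2 * hh N σ u), (if j = i then 0 else
      dev N σ f (u + i) * dev N (insert (u + i) σ) f (u + j) *
        WW τ N l (insert (u + j) (insert (u + i) σ))) =
      (N.factorial : ℝ) * Gp τ N σ * (binZ (pp N σ + 2) (al N l σ + 2) * rr τ N σ f u +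
        binZ (pp N σ) (al N l σ + 1) * RR τ N σ f u) := by
  have hpos := FullC_hpos hN hσ hu
  rw [FullC_sym (2 * hh N σ u) (fun i j => dev N σ f (u + i) * dev N (insert (u + i) σ) f (u + j) *
        WW τ N l (insert (u + j) (insert (u + i) σ)))]
  set h : ℕ := hh N σ u with hdef
  set C : ℝ := (N.factorial : ℝ) * Gp τ N σ with hC
  set c2 : ℝ := binZ (pp N σ + 2) (al N l σ + 2) with hc2
  set c3 : ℝ := binZ (pp N σ) (al N l σ + 1) with hc3
  set q : ℕ → ℕ → ℝ := fun i j => 2 * dev N σ f (u + i) * dev N σ f (u + j) -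
        (2 * (h : ℝ) - j) / (2 * (h : ℝ) - i) * dev N σ f (u + i) ^ 2 -
        (i : ℝ) / j * dev N σ f (u + j) ^ 2 with hq
  have e1 : ∀ j ∈ Ioo 0 (2 * h), ∀ i ∈ Ioo 0 j,
      (dev N σ f (u + i) * dev N (insert (u + i) σ) f (u + j) *
        WW τ N l (insert (u + j) (insert (u + i) σ)) +
      dev N σ f (u + j) * dev N (insert (u + j) σ) f (u + i) *
        WW τ N l (insert (u + i) (insert (u + j) σ))) =
      C * (c2 * (if Even j then (if Even i then q i j * (τ (i / 2) * τ (j / 2 - i / 2) *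
          τ (h - j / 2) / τ h) else 0) else 0) +
        c3 * (if i = 1 then (if j = 2 then q i j * (τ (h - 1) / τ h) else 0) else 0) +
        c3 * (if i = 2 * h - 2 then (if j = 2 * h - 1 then q i j * (τ (h - 1) / τ h) else 0)
          else 0)) := by
    intro j hj i hi
    obtain ⟨j1, j2⟩ := mem_Ioo.mp hj
    obtain ⟨i1, i2⟩ := mem_Ioo.mp hi
    rw [FullC_pair l hN hσ f hu i1 i2 j2, FullC_W hτ hN l hσ hu i1 i2 j2]
    show q i j * _ = _
    simp only [ite_and]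
    split_ifs <;> ring
  rw [sum_congr rfl (fun j hj => sum_congr rfl (e1 j hj))]
  simp only [← mul_sum, sum_add_distrib]
  have s1 : ∑ j ∈ Ioo 0 (2 * h), ∑ i ∈ Ioo 0 j, (if Even j then (if Even i then
      q i j * (τ (i / 2) * τ (j / 2 - i / 2) * τ (h - j / 2) / τ h) else 0) else 0) =
      rr τ N σ f u := by
    have s11 : ∀ j ∈ Ioo 0 (2 * h), ∑ i ∈ Ioo 0 j, (if Even j then (if Even i then
      q i j * (τ (i / 2) * τ (j / 2 - i / 2) * τ (h - j / 2) / τ h) else 0) else 0) =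
      if Even j then (∑ i ∈ Ioo 0 j, (if Even i then
      q i j * (τ (i / 2) * τ (j / 2 - i / 2) * τ (h - j / 2) / τ h) else 0)) else 0 := by
      intro j hj
      by_cases hje : Even j
      · simp only [if_pos hje]
      · simp only [if_neg hje, sum_const_zero]
    rw [sum_congr rfl s11, FullC_ev h (fun j => ∑ i ∈ Ioo 0 j, (if Even i then
      q i j * (τ (i / 2) * τ (j / 2 - i / 2) * τ (h - j / 2) / τ h) else 0)), rr, rG, rhat,
      sum_div]
    refine sum_congr rfl (fun b hb => ?_)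
    rw [FullC_ev b (fun i => q i (2 * b) * (τ (i / 2) * τ (2 * b / 2 - i / 2) *
      τ (h - 2 * b / 2) / τ h)), sum_div]
    refine sum_congr rfl (fun a ha => ?_)
    obtain ⟨b1, b2⟩ := mem_Ioo.mp hb
    obtain ⟨a1, a2⟩ := mem_Ioo.mp ha
    have d1 : 2 * b / 2 = b := by omega
    have d2 : 2 * a / 2 = a := by omega
    have d3 : (2 * (h : ℝ) - ((2 * b : ℕ) : ℝ)) / (2 * (h : ℝ) - ((2 * a : ℕ) : ℝ)) =
        ((h : ℝ) - b) / ((h : ℝ) - a) := by
      push_cast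
      rw [← mul_sub, ← mul_sub, mul_div_mul_left _ _ (by norm_num : (2 : ℝ) ≠ 0)]
    have d4 : (((2 * a : ℕ) : ℝ)) / (((2 * b : ℕ) : ℝ)) = (a : ℝ) / b := by
      push_cast
      rw [mul_div_mul_left _ _ (by norm_num : (2 : ℝ) ≠ 0)]
    rw [d1, d2, hq]
    show (2 * dev N σ f (u + 2 * a) * dev N σ f (u + 2 * b) -
        (2 * (h : ℝ) - ((2 * b : ℕ) : ℝ)) / (2 * (h : ℝ) - ((2 * a : ℕ) : ℝ)) *
          dev N σ f (u + 2 * a) ^ 2 -
        ((2 * a : ℕ) : ℝ) / ((2 * b : ℕ) : ℝ) * dev N σ f (u + 2 * b) ^ 2) * _ = _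
    rw [d3, d4]
    ring
  rcases Nat.lt_or_ge 1 h with h2 | h2
  · have s2 : ∑ j ∈ Ioo 0 (2 * h), ∑ i ∈ Ioo 0 j,
        (if i = 1 then (if j = 2 then q i j * (τ (h - 1) / τ h) else 0) else 0) =
        q 1 2 * (τ (h - 1) / τ h) := by
      rw [sum_eq_single 2]
      · rw [sum_eq_single 1]
        · rw [if_pos rfl, if_pos rfl]
        · intro i _ hi
          rw [if_neg hi]
        · intro hc
          exact absurd (mem_Ioo.mpr ⟨by omega, by omega⟩) hc
      · intro j _ hj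
        refine sum_eq_zero (fun i _ => ?_)
        rw [if_neg hj, ite_self]
      · intro hc
        exact absurd (mem_Ioo.mpr ⟨by omega, by omega⟩) hc
    have s3 : ∑ j ∈ Ioo 0 (2 * h), ∑ i ∈ Ioo 0 j,
        (if i = 2 * h - 2 then (if j = 2 * h - 1 then q i j * (τ (h - 1) / τ h) else 0) else 0) =
        q (2 * h - 2) (2 * h - 1) * (τ (h - 1) / τ h) := by
      rw [sum_eq_single (2 * h - 1)]
      · rw [sum_eq_single (2 * h - 2)]
        · rw [if_pos rfl, if_pos rfl]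
        · intro i _ hi
          rw [if_neg hi]
        · intro hc
          exact absurd (mem_Ioo.mpr ⟨by omega, by omega⟩) hc
      · intro j _ hj
        refine sum_eq_zero (fun i _ => ?_)
        rw [if_neg hj, ite_self]
      · intro hc
        exact absurd (mem_Ioo.mpr ⟨by omega, by omega⟩) hc
    rw [s1, s2, s3, RR, RG, ← hdef, if_neg (by omega)]
    have r1 : u + 2 * (h - 1) = u + (2 * h - 2) := by omega
    have r2 : u + 2 * h - 1 = u + (2 * h - 1) := by omega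
    have r3 : u + 2 * 1 = u + 2 := by omega
    have hh1 : (1 : ℝ) < (h : ℝ) := by exact_mod_cast h2
    have n1 : ((2 * h - 2 : ℕ) : ℝ) = 2 * (h : ℝ) - 2 := by
      rw [Nat.cast_sub (by omega)]
      push_cast
      ring
    have n2 : ((2 * h - 1 : ℕ) : ℝ) = 2 * (h : ℝ) - 1 := by
      rw [Nat.cast_sub (by omega)]
      push_cast
      ring
    have q1 : q 1 2 = 2 * dev N σ f (u + 1) * dev N σ f (u + 2) -
        (2 * (h : ℝ) - 2) / (2 * h - 1) * dev N σ f (u + 1) ^ 2 -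
        dev N σ f (u + 2) ^ 2 / 2 := by
      show 2 * dev N σ f (u + 1) * dev N σ f (u + 2) -
        (2 * (h : ℝ) - ((2 : ℕ) : ℝ)) / (2 * (h : ℝ) - ((1 : ℕ) : ℝ)) * dev N σ f (u + 1) ^ 2 -
        ((1 : ℕ) : ℝ) / ((2 : ℕ) : ℝ) * dev N σ f (u + 2) ^ 2 = _
      push_cast
      ring
    have q2 : q (2 * h - 2) (2 * h - 1) =
        2 * dev N σ f (u + (2 * h - 2)) * dev N σ f (u + (2 * h - 1)) -
        dev N σ f (u + (2 * h - 2)) ^ 2 / 2 -
        (2 * (h : ℝ) - 2) / (2 * h - 1) * dev N σ f (u + (2 * h - 1)) ^ 2 := by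
      show 2 * dev N σ f (u + (2 * h - 2)) * dev N σ f (u + (2 * h - 1)) -
        (2 * (h : ℝ) - ((2 * h - 1 : ℕ) : ℝ)) / (2 * (h : ℝ) - ((2 * h - 2 : ℕ) : ℝ)) *
          dev N σ f (u + (2 * h - 2)) ^ 2 -
        ((2 * h - 2 : ℕ) : ℝ) / ((2 * h - 1 : ℕ) : ℝ) * dev N σ f (u + (2 * h - 1)) ^ 2 = _
      rw [n1, n2]
      have n3 : (2 * (h : ℝ) - (2 * (h : ℝ) - 1)) / (2 * (h : ℝ) - (2 * (h : ℝ) - 2)) = 1 / 2 := by
        norm_num
      rw [n3]
      ring
    rw [q1, q2, r1, r2, r3]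
    ring
  · have h3 : h = 1 := by omega
    have h5 : Ioo 0 (2 * 1) = ({1} : Finset ℕ) := by decide
    have h6 : Ioo 0 1 = (∅ : Finset ℕ) := by decide
    rw [s1, RR, RG, ← hdef, if_pos h2, h3, h5, sum_singleton, sum_singleton, h6, sum_empty,
      sum_empty]
    ring

/-- Second order part. -/
theorem second_order (hτ : TauData τ) (hN : 2 ≤ N) (l : ℕ) (hσ : Full N σ) (f : ℕ → ℝ) :
    ∑ s ∈ Ioo 0 N \ σ, ∑ t ∈ Ioo 0 N \ (insert s σ),
        dev N σ f s * dev N (insert s σ) f t * WW τ N l (insert t (insert s σ)) =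
      (N.factorial : ℝ) * Gp τ N σ *
        (binZ (pp N σ + 2) (al N l σ + 2) * ((∑ u ∈ GG N σ, mm τ N σ f u) ^ 2 -
            ∑ u ∈ GG N σ, (mm τ N σ f u ^ 2 - rr τ N σ f u)) +
          binZ (pp N σ) (al N l σ + 1) * (2 * (∑ u ∈ GG N σ, mm τ N σ f u) *
            (∑ u ∈ GG N σ, em N σ f u) + ∑ u ∈ GG N σ, RR τ N σ f u) +
          binZ (pp N σ - 2) (al N l σ) * ((∑ u ∈ GG N σ, em N σ f u) ^ 2 -
            ∑ u ∈ GG N σ, em N σ f u ^ 2)) := by
  set C : ℝ := (N.factorial : ℝ) * Gp τ N σ with hC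
  set c2 : ℝ := binZ (pp N σ + 2) (al N l σ + 2) with hc2
  set c3 : ℝ := binZ (pp N σ) (al N l σ + 1) with hc3
  set c5 : ℝ := binZ (pp N σ - 2) (al N l σ) with hc5
  set X : ℕ → ℕ → ℝ := fun s t => C * (c2 * (FA τ N σ f s * FA τ N σ f t) +
    c3 * (FA τ N σ f s * FB τ N σ f t + FB τ N σ f s * FA τ N σ f t) +
    c5 * (FB τ N σ f s * FB τ N σ f t)) with hX
  have e1 : ∀ s ∈ Ioo 0 N \ σ, ∑ t ∈ Ioo 0 N \ (insert s σ),
        dev N σ f s * dev N (insert s σ) f t * WW τ N l (insert t (insert s σ)) =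
      ∑ t ∈ Ioo 0 N \ σ, X s t + ∑ t ∈ Ioo 0 N \ σ, (if lo σ s = lo σ t then
        ((if t = s then 0 else
          dev N σ f s * dev N (insert s σ) f t * WW τ N l (insert t (insert s σ))) - X s t)
        else 0) := by
    intro s hs
    have e2 : Ioo 0 N \ (insert s σ) = (Ioo 0 N \ σ).filter (fun t => ¬ t = s) := by
      ext t
      simp only [mem_sdiff, mem_filter, mem_insert, not_or]
      tauto
    rw [e2, sum_filter, ← sum_add_distrib]
    refine sum_congr rfl (fun t ht => ?_)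
    by_cases h1 : lo σ s = lo σ t
    · rw [if_pos h1]
      by_cases h2 : t = s
      · rw [if_neg (not_not.mpr h2), if_pos h2]
        ring
      · rw [if_pos h2, if_neg h2]
        ring
    · have h2 : t ≠ s := by
        rintro rfl
        exact h1 rfl
      rw [if_neg h1, if_pos h2, add_zero, WW_insert_two hτ hN l hσ hs ht h1,
        dev_insert hσ.1 f hs ht h2]
      have h3 : ¬ (lo σ t < s ∧ s < t) := by
        rintro ⟨h4, h5⟩
        obtain ⟨m1, m2⟩ := mem_sdiff.mp ht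
        exact h1 (lo_eq_of_between hσ.1 m2 h4 (h5.trans (lt_hi (mem_Ioo.mp m1).2)) m1).1
      have h6 : ¬ (t < s ∧ s < hi N σ t) := by
        rintro ⟨h4, h5⟩
        obtain ⟨m1, m2⟩ := mem_sdiff.mp ht
        exact h1 (lo_eq_of_between hσ.1 m2 ((lo_lt (mem_Ioo.mp m1).1).trans h4) h5 m1).1
      rw [if_neg h3, if_neg h6, hX]
      show _ = C * (c2 * (FA τ N σ f s * FA τ N σ f t) +
        c3 * (FA τ N σ f s * FB τ N σ f t + FB τ N σ f s * FA τ N σ f t) +
        c5 * (FB τ N σ f s * FB τ N σ f t))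
      simp only [FA, FB]
      by_cases hse : Even s
      · by_cases hte : Even t
        · simp only [if_pos hse, if_pos hte, if_pos (And.intro hse hte)]
          ring
        · simp only [if_pos hse, if_neg hte, if_neg (fun h : Even s ∧ Even t => hte h.2),
            if_pos (Or.inl hse : Even s ∨ Even t)]
          ring
      · by_cases hte : Even t
        · simp only [if_neg hse, if_pos hte, if_neg (fun h : Even s ∧ Even t => hse h.1),
            if_pos (Or.inr hte : Even s ∨ Even t)]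
          ring
        · simp only [if_neg hse, if_neg hte, if_neg (fun h : Even s ∧ Even t => hse h.1),
            if_neg (fun h : Even s ∨ Even t => h.elim hse hte)]
          ring
  rw [sum_congr rfl e1, sum_add_distrib, FullC_sum2 hN hσ (fun s t =>
    ((if t = s then 0 else
      dev N σ f s * dev N (insert s σ) f t * WW τ N l (insert t (insert s σ))) - X s t))]
  have gen : ∀ (S : Finset ℕ) (g : ℕ → ℕ), ∑ s ∈ S, ∑ t ∈ S, X (g s) (g t) =
      C * (c2 * (∑ s ∈ S, FA τ N σ f (g s)) ^ 2 +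
        c3 * (2 * (∑ s ∈ S, FA τ N σ f (g s)) * (∑ s ∈ S, FB τ N σ f (g s))) +
        c5 * (∑ s ∈ S, FB τ N σ f (g s)) ^ 2) := by
    intro S g
    have g1 : ∀ s ∈ S, ∑ t ∈ S, X (g s) (g t) =
        C * (c2 * (FA τ N σ f (g s) * ∑ t ∈ S, FA τ N σ f (g t)) +
          c3 * (FA τ N σ f (g s) * ∑ t ∈ S, FB τ N σ f (g t) +
            FB τ N σ f (g s) * ∑ t ∈ S, FA τ N σ f (g t)) +
          c5 * (FB τ N σ f (g s) * ∑ t ∈ S, FB τ N σ f (g t))) := by
      intro s _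
      rw [hX]
      simp only [← mul_sum, sum_add_distrib]
    rw [sum_congr rfl g1]
    simp only [← mul_sum, sum_add_distrib, ← sum_mul]
    ring
  have e3 := gen (Ioo 0 N \ σ) (fun s => s)
  simp only [FullC_sA τ hN hσ f, FullC_sB τ hN hσ f] at e3
  rw [e3]
  have e4 : ∀ u ∈ GG N σ, ∑ i ∈ Ioo 0 (2 * hh N σ u), ∑ j ∈ Ioo 0 (2 * hh N σ u),
      ((if u + j = u + i then 0 else
        dev N σ f (u + i) * dev N (insert (u + i) σ) f (u + j) *
          WW τ N l (insert (u + j) (insert (u + i) σ))) - X (u + i) (u + j)) =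
      C * (c2 * (rr τ N σ f u - mm τ N σ f u ^ 2) + c3 * RR τ N σ f u -
        c5 * em N σ f u ^ 2) := by
    intro u hu
    simp only [add_right_inj]
    rw [sum_congr rfl (fun i _ => sum_sub_distrib _ _), sum_sub_distrib,
      FullC_gap hτ hN l hσ f hu]
    have e5 := gen (Ioo 0 (2 * hh N σ u)) (fun i => u + i)
    simp only [FullC_FA τ hN hσ f hu, FullC_FB τ hN hσ f hu] at e5
    rw [e5]
    have e6 := FullC_me (N := N) (σ := σ) τ f u
    linear_combination (-2 * C * c3) * e6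
  rw [sum_congr rfl e4]
  simp only [← mul_sum, sum_add_distrib, sum_sub_distrib]
  ring

end Pool.Agent.LHC
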