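import Pool.Agent.LHC.Defs

/-!
Module LHC-GapC: the quadratic inequality inside one gap.

Write `v k = k (h-k)` (real), `M = sum_k τ k τ (h-k) x k`, `σ' k = sum_(j in Ioo 0 k) τ j τ (k-j)`.
Exact identity for `h ≥ 2` (all sums over `Ioo 0 h`; checked by computer):
`M^2 - τ h * rhat - 2 τ h sum_k τ k τ (h-k) x k^2 =
  sum_(j<k) τ j τ (h-k) (τ h τ (k-j) - τ k τ (h-j)) v j v k (x j / v j - x k / v k)^2
  + τ h τ 1 τ (h-1) / (2 (h-1)) * (x 1 ^2 + x (h-1) ^2)`,
and the right side is nonnegative by `logc` and `pos`.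

Proof of the identity: compare coefficients.  Coefficient of `x j x k`, `j<k`:
`2 τ j τ (h-j) τ k τ (h-k) - 2 τ h τ j τ (k-j) τ (h-k)` on both sides.  Coefficient of `x k^2`:
left `(τ k τ (h-k))^2 + 1/2 τ h (τ (h-k) σ' k + τ k σ' (h-k)) - 2 τ h τ k τ (h-k)`
(in `rhat` use `sum_(j<k) τ j τ (k-j) (j/k) = σ' k / 2`, symmetrise `j` and `k-j`; the same for the
part above `k`).  Right side: `sum_(j<k) (..) v j / v k + sum_(i>k) (..) v i / v k`.  Use
`j (h-j) = j (h-k) + j (k-j)` and `i (h-i) = k (h-i) + (i-k)(h-i)`, and the recursion `recu`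
in the form `sum_(j in Ioo 0 n) j (n-j) τ j τ (n-j) = n (2n-1) τ n / 2` for `n = k`, `n = h-k`
(only if `≥ 2`; for `n = 1` the sum is `0` and the formula would give `τ 1 / 2`, this is the
extra term of the identity) and for `n = h`.
The numerical identity behind the coefficient of `τ h τ k τ (h-k) x k^2` is
`(2k-1)/(2(h-k)) + (2(h-k)-1)/(2k) - h(2h-1)/(2k(h-k)) = -2`.

Alternative to comparing coefficients of a double sum: it is enough to prove the inequality; one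
can bound as convenient.
-/

open Finset

namespace Pool.Agent.LHC

/-- The pair form of two even cuts inside a gap, times `τ h`. -/
noncomputable def rhat (τ : ℕ → ℝ) (h : ℕ) (x : ℕ → ℝ) : ℝ :=
  ∑ k ∈ Ioo 0 h, ∑ j ∈ Ioo 0 k, τ j * τ (k - j) * τ (h - k) *
    (2 * x j * x k - ((h : ℝ) - k) / ((h : ℝ) - j) * x j ^ 2 - (j : ℝ) / k * x k ^ 2)

/-- Splitting a sum over `Ioo 0 h` at `k`. -/
private theorem GapC_split (h k : ℕ) (hk : k ∈ Ioo 0 h) (f : ℕ → ℝ) :
    ∑ i ∈ Ioo 0 h, f i = ∑ i ∈ Ioo 0 k, f i + f k + ∑ i ∈ Ioo k h, f i := by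
  have hk' := mem_Ioo.1 hk
  have h1 : Ioo 0 h = (insert k (Ioo 0 k)) ∪ Ioo k h := by
    ext i; simp only [mem_Ioo, mem_union, mem_insert]; omega
  have h2 : Disjoint (insert k (Ioo 0 k)) (Ioo k h) := by
    rw [Finset.disjoint_left]; intro i; simp only [mem_Ioo, mem_insert]; omega
  have h3 : k ∉ Ioo 0 k := by simp
  rw [h1, sum_union h2, sum_insert h3]; ring

/-- Exchange of the order of summation. -/
private theorem GapC_swap (h : ℕ) (f : ℕ → ℕ → ℝ) :
    ∑ k ∈ Ioo 0 h, ∑ j ∈ Ioo 0 k, f j k = ∑ j ∈ Ioo 0 h, ∑ k ∈ Ioo j h, f j k := by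
  apply Finset.sum_comm'
  intro x y
  simp only [mem_Ioo]; omega

private theorem GapC_sq (h : ℕ) (a : ℕ → ℝ) :
    (∑ k ∈ Ioo 0 h, a k) ^ 2 =
      ∑ k ∈ Ioo 0 h, a k ^ 2 + 2 * ∑ k ∈ Ioo 0 h, ∑ j ∈ Ioo 0 k, a j * a k := by
  have h1 : (∑ k ∈ Ioo 0 h, a k) ^ 2 = ∑ k ∈ Ioo 0 h, ∑ j ∈ Ioo 0 h, a j * a k := by
    rw [sq, sum_mul_sum, sum_comm]
  have h2 : ∀ k ∈ Ioo 0 h, ∑ j ∈ Ioo 0 h, a j * a k =
      ∑ j ∈ Ioo 0 k, a j * a k + a k * a k + ∑ j ∈ Ioo k h, a j * a k :=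
    fun k hk => GapC_split h k hk (fun j => a j * a k)
  rw [h1, sum_congr rfl h2, sum_add_distrib, sum_add_distrib]
  have h3 : ∑ k ∈ Ioo 0 h, ∑ j ∈ Ioo k h, a j * a k =
      ∑ k ∈ Ioo 0 h, ∑ j ∈ Ioo 0 k, a j * a k := by
    rw [GapC_swap h (fun j k => a j * a k)]
    exact sum_congr rfl (fun k _ => sum_congr rfl (fun j _ => mul_comm _ _))
  rw [h3]
  have h4 : ∑ k ∈ Ioo 0 h, a k * a k = ∑ k ∈ Ioo 0 h, a k ^ 2 :=
    sum_congr rfl (fun k _ => (sq (a k)).symm)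
  rw [h4]; ring

/-- The sum in the recursion. -/
private noncomputable def GapC_S (τ : ℕ → ℝ) (n : ℕ) : ℝ :=
  ∑ k ∈ Ioo 0 n, (k : ℝ) * ((n : ℝ) - k) * (τ k * τ (n - k))

private theorem GapC_S_le {τ : ℕ → ℝ} (hτ : TauData τ) (n : ℕ) (hn : 1 ≤ n) :
    GapC_S τ n ≤ (n : ℝ) * (2 * n - 1) * τ n / 2 := by
  rcases Nat.lt_or_ge n 2 with h | h
  · have : n = 1 := by omega
    subst this
    have h0 : Ioo 0 1 = (∅ : Finset ℕ) := by
      ext i; simp only [mem_Ioo, notMem_empty, iff_false]; omega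
    have h1 : GapC_S τ 1 = 0 := by rw [GapC_S, h0, sum_empty]
    rw [h1, hτ.one]; norm_num
  · have := hτ.recu n h
    unfold GapC_S
    linarith

private theorem GapC_S_shift (τ : ℕ → ℝ) (h k : ℕ) (hk : k ∈ Ioo 0 h) :
    ∑ i ∈ Ioo k h, τ (i - k) * τ (h - i) * (((h : ℝ) - i) * ((i : ℝ) - k)) = GapC_S τ (h - k) := by
  have hk' := mem_Ioo.1 hk
  unfold GapC_S
  symm
  apply Finset.sum_nbij' (fun m => m + k) (fun i => i - k)
  · intro m hm; simp only [mem_Ioo] at hm ⊢; omega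
  · intro i hi; simp only [mem_Ioo] at hi ⊢; omega
  · intro m hm; omega
  · intro i hi; simp only [mem_Ioo] at hi; show i - k + k = i; omega
  · intro m hm
    simp only [mem_Ioo] at hm
    have h1 : m + k - k = m := by omega
    have h2 : h - (m + k) = h - k - m := by omega
    rw [h1, h2, Nat.cast_sub hk'.2.le]
    push_cast
    ring

private theorem GapC_pt {X Y u v : ℝ} (hu : 0 < u) (hv : 0 < v) :
    0 ≤ X ^ 2 * (v / u) + Y ^ 2 * (u / v) - 2 * X * Y := by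
  have : X ^ 2 * (v / u) + Y ^ 2 * (u / v) - 2 * X * Y = (X * v - Y * u) ^ 2 / (u * v) := by
    field_simp
    ring
  rw [this]; positivity

theorem gap_c {τ : ℕ → ℝ} (hτ : TauData τ) (h : ℕ) (x : ℕ → ℝ) :
    2 * τ h * ∑ k ∈ Ioo 0 h, τ k * τ (h - k) * x k ^ 2 ≤
      (∑ k ∈ Ioo 0 h, τ k * τ (h - k) * x k) ^ 2 - τ h * rhat τ h x := by
  rcases Nat.lt_or_ge h 2 with hh | hh
  · have : Ioo 0 h = ∅ := by
      ext i; simp only [mem_Ioo, notMem_empty, iff_false]; omega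
    simp [rhat, this]
  set v : ℕ → ℝ := fun k => (k : ℝ) * ((h : ℝ) - k) with hv
  set b : ℕ → ℝ := fun k => τ k * τ (h - k) with hb
  set C : ℕ → ℕ → ℝ := fun j k => τ j * τ (h - k) * (τ h * τ (k - j)) with hC
  have hvpos : ∀ k ∈ Ioo 0 h, 0 < v k := by
    intro k hk
    have hk' := mem_Ioo.1 hk
    have h1 : (0 : ℝ) < k := by exact_mod_cast hk'.1
    have h2 : (k : ℝ) < h := by exact_mod_cast hk'.2
    exact mul_pos h1 (by linarith)
  -- the nonnegative sum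
  have hR : 0 ≤ ∑ k ∈ Ioo 0 h, ∑ j ∈ Ioo 0 k, (C j k - b j * b k) *
      (x j ^ 2 * (v k / v j) + x k ^ 2 * (v j / v k) - 2 * x j * x k) := by
    apply sum_nonneg
    intro k hk
    apply sum_nonneg
    intro j hj
    have hk' := mem_Ioo.1 hk
    have hj' := mem_Ioo.1 hj
    apply mul_nonneg
    · have h1 := hτ.logc j k h (by omega) (by omega) (by omega)
      have h2 : 0 < τ j := hτ.pos j (by omega)
      have h3 : 0 < τ (h - k) := hτ.pos _ (by omega)
      have h4 : C j k - b j * b k = τ j * τ (h - k) * (τ h * τ (k - j) - τ k * τ (h - j)) := by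
        simp only [hC, hb]; ring
      rw [h4]
      exact mul_nonneg (mul_nonneg h2.le h3.le) (by linarith)
    · exact GapC_pt (hvpos j (mem_Ioo.2 ⟨hj'.1, by omega⟩)) (hvpos k hk)
  -- the coefficients on the diagonal
  set E : ℕ → ℝ := fun k => (∑ i ∈ Ioo k h, (-(C k i * (((h : ℝ) - i) * ((i : ℝ) - k)) / v k) +
      b k * b i * (v i / v k))) + (∑ j ∈ Ioo 0 k, (-(C j k * ((j : ℝ) * ((k : ℝ) - j)) / v k) +
      b j * b k * (v j / v k))) + b k ^ 2 - 2 * τ h * b k with hE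
  have hEnn : ∀ k ∈ Ioo 0 h, 0 ≤ E k := by
    intro k hk
    have hk' := mem_Ioo.1 hk
    have hvk := hvpos k hk
    have h1 : ∑ i ∈ Ioo k h, (-(C k i * (((h : ℝ) - i) * ((i : ℝ) - k)) / v k) +
        b k * b i * (v i / v k)) = -(τ h * τ k / v k * GapC_S τ (h - k)) +
        b k / v k * ∑ i ∈ Ioo k h, b i * v i := by
      rw [sum_add_distrib, ← GapC_S_shift τ h k hk, mul_sum, mul_sum, ← sum_neg_distrib]
      congr 1
      · exact sum_congr rfl (fun i _ => by simp only [hC]; ring)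
      · exact sum_congr rfl (fun i _ => by ring)
    have h2 : ∑ j ∈ Ioo 0 k, (-(C j k * ((j : ℝ) * ((k : ℝ) - j)) / v k) +
        b j * b k * (v j / v k)) = -(τ h * τ (h - k) / v k * GapC_S τ k) +
        b k / v k * ∑ i ∈ Ioo 0 k, b i * v i := by
      rw [sum_add_distrib, GapC_S, mul_sum, mul_sum, ← sum_neg_distrib]
      congr 1
      · exact sum_congr rfl (fun i _ => by simp only [hC]; ring)
      · exact sum_congr rfl (fun i _ => by ring)
    have h3 : ∑ i ∈ Ioo 0 h, b i * v i = (h : ℝ) * (2 * h - 1) * τ h / 2 := by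
      have := hτ.recu h hh
      have h4 : ∑ i ∈ Ioo 0 h, b i * v i =
          ∑ k ∈ Ioo 0 h, (k : ℝ) * ((h : ℝ) - k) * (τ k * τ (h - k)) :=
        sum_congr rfl (fun i _ => by simp only [hb, hv]; ring)
      rw [h4]; linarith
    have h5 := GapC_split h k hk (fun i => b i * v i)
    have h6 : b k ^ 2 = b k / v k * (b k * v k) := by
      field_simp
    have h7 : E k = b k / v k * ((h : ℝ) * (2 * h - 1) * τ h / 2) - 2 * τ h * b k -
        τ h * τ k / v k * GapC_S τ (h - k) - τ h * τ (h - k) / v k * GapC_S τ k := by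
      simp only [hE]
      rw [h1, h2, h6, ← h3, h5]; ring
    have hpk : 0 < τ k := hτ.pos k (by omega)
    have hph : 0 < τ h := hτ.pos h (by omega)
    have hphk : 0 < τ (h - k) := hτ.pos _ (by omega)
    have h8 := GapC_S_le hτ k (by omega)
    have h9 := GapC_S_le hτ (h - k) (by omega)
    rw [Nat.cast_sub hk'.2.le] at h9
    have h10 : τ h * τ k / v k * GapC_S τ (h - k) ≤ τ h * τ k / v k *
        (((h : ℝ) - k) * (2 * ((h : ℝ) - k) - 1) * τ (h - k) / 2) :=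
      mul_le_mul_of_nonneg_left h9 (by positivity)
    have h11 : τ h * τ (h - k) / v k * GapC_S τ k ≤ τ h * τ (h - k) / v k *
        ((k : ℝ) * (2 * k - 1) * τ k / 2) :=
      mul_le_mul_of_nonneg_left h8 (by positivity)
    have h12 : b k / v k * ((h : ℝ) * (2 * h - 1) * τ h / 2) - 2 * τ h * b k -
        τ h * τ k / v k * (((h : ℝ) - k) * (2 * ((h : ℝ) - k) - 1) * τ (h - k) / 2) -
        τ h * τ (h - k) / v k * ((k : ℝ) * (2 * k - 1) * τ k / 2) = 0 := by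
      have hvk' : v k ≠ 0 := hvk.ne'
      have : b k = τ k * τ (h - k) := rfl
      rw [this]
      field_simp
      simp only [hv]
      ring
    rw [h7]; linarith
  have hEsum : 0 ≤ ∑ k ∈ Ioo 0 h, E k * x k ^ 2 :=
    sum_nonneg (fun k hk => mul_nonneg (hEnn k hk) (sq_nonneg _))
  -- the identity
  have hid : (∑ k ∈ Ioo 0 h, τ k * τ (h - k) * x k) ^ 2 - τ h * rhat τ h x -
      2 * τ h * ∑ k ∈ Ioo 0 h, τ k * τ (h - k) * x k ^ 2 =
      (∑ k ∈ Ioo 0 h, ∑ j ∈ Ioo 0 k, (C j k - b j * b k) *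
      (x j ^ 2 * (v k / v j) + x k ^ 2 * (v j / v k) - 2 * x j * x k)) +
      ∑ k ∈ Ioo 0 h, E k * x k ^ 2 := by
    have e1 : (∑ k ∈ Ioo 0 h, τ k * τ (h - k) * x k) ^ 2 =
        ∑ k ∈ Ioo 0 h, b k ^ 2 * x k ^ 2 +
        ∑ k ∈ Ioo 0 h, ∑ j ∈ Ioo 0 k, 2 * (b j * b k * (x j * x k)) := by
      rw [GapC_sq h (fun k => τ k * τ (h - k) * x k), mul_sum]
      congr 1
      · exact sum_congr rfl (fun k _ => by simp only [hb]; ring)
      · apply sum_congr rfl
        intro k _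
        rw [mul_sum]
        exact sum_congr rfl (fun j _ => by simp only [hb]; ring)
    have e2 : τ h * rhat τ h x = ∑ k ∈ Ioo 0 h, ∑ j ∈ Ioo 0 k, C j k *
        (2 * x j * x k - ((h : ℝ) - k) / ((h : ℝ) - j) * x j ^ 2 - (j : ℝ) / k * x k ^ 2) := by
      rw [rhat, mul_sum]
      apply sum_congr rfl
      intro k _
      rw [mul_sum]
      exact sum_congr rfl (fun j _ => by simp only [hC]; ring)
    have e3 : 2 * τ h * ∑ k ∈ Ioo 0 h, τ k * τ (h - k) * x k ^ 2 =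
        ∑ k ∈ Ioo 0 h, 2 * τ h * b k * x k ^ 2 := by
      rw [mul_sum]
      exact sum_congr rfl (fun k _ => by simp only [hb]; ring)
    have e4 : ∑ k ∈ Ioo 0 h, E k * x k ^ 2 =
        ∑ k ∈ Ioo 0 h, ∑ j ∈ Ioo 0 k, ((-(C j k * (((h : ℝ) - k) * ((k : ℝ) - j)) / v j) +
          b j * b k * (v k / v j)) * x j ^ 2 + (-(C j k * ((j : ℝ) * ((k : ℝ) - j)) / v k) +
          b j * b k * (v j / v k)) * x k ^ 2) + ∑ k ∈ Ioo 0 h, b k ^ 2 * x k ^ 2 -
        ∑ k ∈ Ioo 0 h, 2 * τ h * b k * x k ^ 2 := by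
      have s1 : ∑ k ∈ Ioo 0 h, ∑ j ∈ Ioo 0 k, ((-(C j k * (((h : ℝ) - k) * ((k : ℝ) - j)) / v j) +
          b j * b k * (v k / v j)) * x j ^ 2 + (-(C j k * ((j : ℝ) * ((k : ℝ) - j)) / v k) +
          b j * b k * (v j / v k)) * x k ^ 2) =
          (∑ k ∈ Ioo 0 h, (∑ i ∈ Ioo k h, (-(C k i * (((h : ℝ) - i) * ((i : ℝ) - k)) / v k) +
            b k * b i * (v i / v k))) * x k ^ 2) +
          ∑ k ∈ Ioo 0 h, (∑ j ∈ Ioo 0 k, (-(C j k * ((j : ℝ) * ((k : ℝ) - j)) / v k) +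
            b j * b k * (v j / v k))) * x k ^ 2 := by
        have t1 : ∀ k ∈ Ioo 0 h, ∑ j ∈ Ioo 0 k,
            ((-(C j k * (((h : ℝ) - k) * ((k : ℝ) - j)) / v j) +
            b j * b k * (v k / v j)) * x j ^ 2 + (-(C j k * ((j : ℝ) * ((k : ℝ) - j)) / v k) +
            b j * b k * (v j / v k)) * x k ^ 2) =
            ∑ j ∈ Ioo 0 k, (-(C j k * (((h : ℝ) - k) * ((k : ℝ) - j)) / v j) +
            b j * b k * (v k / v j)) * x j ^ 2 +
            ∑ j ∈ Ioo 0 k, (-(C j k * ((j : ℝ) * ((k : ℝ) - j)) / v k) +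
            b j * b k * (v j / v k)) * x k ^ 2 := fun k _ => sum_add_distrib
        rw [sum_congr rfl t1, sum_add_distrib]
        congr 1
        · rw [GapC_swap h (fun j k => (-(C j k * (((h : ℝ) - k) * ((k : ℝ) - j)) / v j) +
            b j * b k * (v k / v j)) * x j ^ 2)]
          exact sum_congr rfl (fun k _ => by rw [sum_mul])
        · exact sum_congr rfl (fun k _ => by rw [sum_mul])
      rw [s1, ← sum_add_distrib, ← sum_add_distrib, ← sum_sub_distrib]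
      apply sum_congr rfl
      intro k _
      simp only [hE]; ring
    have e5 : ∑ k ∈ Ioo 0 h, ∑ j ∈ Ioo 0 k, 2 * (b j * b k * (x j * x k)) -
        ∑ k ∈ Ioo 0 h, ∑ j ∈ Ioo 0 k, C j k *
        (2 * x j * x k - ((h : ℝ) - k) / ((h : ℝ) - j) * x j ^ 2 - (j : ℝ) / k * x k ^ 2) =
        (∑ k ∈ Ioo 0 h, ∑ j ∈ Ioo 0 k, (C j k - b j * b k) *
          (x j ^ 2 * (v k / v j) + x k ^ 2 * (v j / v k) - 2 * x j * x k)) +
        ∑ k ∈ Ioo 0 h, ∑ j ∈ Ioo 0 k, ((-(C j k * (((h : ℝ) - k) * ((k : ℝ) - j)) / v j) +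
          b j * b k * (v k / v j)) * x j ^ 2 + (-(C j k * ((j : ℝ) * ((k : ℝ) - j)) / v k) +
          b j * b k * (v j / v k)) * x k ^ 2) := by
      rw [← sum_sub_distrib, ← sum_add_distrib]
      apply sum_congr rfl
      intro k hk
      rw [← sum_sub_distrib, ← sum_add_distrib]
      apply sum_congr rfl
      intro j hj
      have hk' := mem_Ioo.1 hk
      have hj' := mem_Ioo.1 hj
      have r1 : (0 : ℝ) < j := by exact_mod_cast hj'.1
      have r2 : (j : ℝ) < k := by exact_mod_cast hj'.2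
      have r3 : (k : ℝ) < h := by exact_mod_cast hk'.2
      have r4 : (j : ℝ) ≠ 0 := r1.ne'
      have r5 : (k : ℝ) ≠ 0 := by linarith
      have r6 : (h : ℝ) - j ≠ 0 := by intro hz; linarith
      have r7 : (h : ℝ) - k ≠ 0 := by intro hz; linarith
      have q1 : ((h : ℝ) - k) / ((h : ℝ) - j) =
          v k / v j - ((h : ℝ) - k) * ((k : ℝ) - j) / v j := by
        simp only [hv]; field_simp; ring
      have q2 : (j : ℝ) / k = v j / v k - (j : ℝ) * ((k : ℝ) - j) / v k := by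
        simp only [hv]; field_simp; ring
      rw [q1, q2]; ring
    rw [e1, e2, e3, e4]
    linarith
  linarith

end Pool.Agent.LHC
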