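import Pool.Agent.LHC.Nbr

/-!
Module LHC-GapIns: how the gap product and the counts change when a point is inserted. Proofs by
helper11.

`s ∈ Ioo 0 N \ σ`, `u = lo σ s`, `v = hi N σ s`.  In `insert s σ`: `hi u = s`, `hi s = v`, and
`hi w` does not change for the other `w ∈ insert 0 σ` (`hi_insert`: for `w < s`, `w ≠ u` there is an
element of `σ` in `(w, s)`, namely `u`).  So the product over `insert 0 (insert s σ)` is the product
over `insert 0 σ` with the factor of `u` replaced by `gapW u s * gapW s v`.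
-/

open Finset

namespace Pool.Agent.LHC

variable {N : ℕ} {σ : Finset ℕ} {s : ℕ}

private theorem GapIns_pos (hs : s ∈ Ioo 0 N \ σ) : 0 < s ∧ s < N ∧ s ∉ σ := by
  rw [mem_sdiff, mem_Ioo] at hs
  exact ⟨hs.1.1, hs.1.2, hs.2⟩

private theorem GapIns_notMem (hs : s ∈ Ioo 0 N \ σ) : s ∉ insert 0 σ := by
  obtain ⟨h1, _, h3⟩ := GapIns_pos hs
  rw [mem_insert]
  rintro (h | h)
  · omega
  · exact h3 h

private theorem GapIns_hi_lo (hσ : σ ⊆ Ioo 0 N) (hs : s ∈ Ioo 0 N \ σ) :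
    hi N σ (lo σ s) = hi N σ s := by
  obtain ⟨h1, h2, h3⟩ := GapIns_pos hs
  have hl : lo σ s < s := lo_lt h1
  have hh : s < hi N σ s := lt_hi h2
  refine hi_eq hσ hi_mem (hl.trans hh) (fun t ht hlt => ?_)
  by_contra hcon
  rw [not_le] at hcon
  have hts : t ≠ s := by
    rintro rfl
    exact h3 ht
  exact notMem_between hlt hcon hts ht

private theorem GapIns_hi_s (hσ : σ ⊆ Ioo 0 N) (hs : s ∈ Ioo 0 N \ σ) :
    hi N (insert s σ) s = hi N σ s := by
  obtain ⟨_, h2, _⟩ := GapIns_pos hs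
  rw [hi_insert hσ h2, if_neg (lt_irrefl s)]

private theorem GapIns_hi_u (hσ : σ ⊆ Ioo 0 N) (hs : s ∈ Ioo 0 N \ σ) :
    hi N (insert s σ) (lo σ s) = s := by
  obtain ⟨h1, h2, _⟩ := GapIns_pos hs
  have hl : lo σ s < s := lo_lt h1
  have hh : s < hi N σ s := lt_hi h2
  rw [hi_insert hσ h2, if_pos hl, GapIns_hi_lo hσ hs]
  exact min_eq_left hh.le

private theorem GapIns_hi_w (hσ : σ ⊆ Ioo 0 N) (hs : s ∈ Ioo 0 N \ σ) {w : ℕ}
    (hw : w ∈ (insert 0 σ).erase (lo σ s)) : hi N (insert s σ) w = hi N σ w := by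
  obtain ⟨h1, h2, h3⟩ := GapIns_pos hs
  rw [mem_erase] at hw
  obtain ⟨hne, hw⟩ := hw
  rw [hi_insert hσ h2]
  by_cases hws : w < s
  · rw [if_pos hws]
    have hwu : w < lo σ s := by
      rw [mem_insert] at hw
      rcases hw with hw | hw
      · omega
      · exact lt_of_le_of_ne (le_lo hw hws) hne
    have hum : lo σ s ∈ σ := by
      have h4 : lo σ s ∈ insert 0 σ := lo_mem
      rw [mem_insert] at h4
      rcases h4 with h4 | h4
      · omega
      · exact h4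
    have h5 : hi N σ w ≤ lo σ s := hi_le_of_mem hum hwu
    have hl : lo σ s < s := lo_lt h1
    exact min_eq_right (h5.trans hl.le)
  · rw [if_neg hws]

private theorem GapIns_Gp (τ : ℕ → ℝ) (hσ : σ ⊆ Ioo 0 N) (hs : s ∈ Ioo 0 N \ σ) :
    Gp τ N (insert s σ) = gapW τ s (hi N σ s) * (gapW τ (lo σ s) s *
      ∏ w ∈ (insert 0 σ).erase (lo σ s), gapW τ w (hi N σ w)) := by
  rw [Gp, insert_comm 0 s σ, prod_insert (GapIns_notMem hs), GapIns_hi_s hσ hs,
    ← mul_prod_erase (insert 0 σ) _ (lo_mem (σ := σ) (s := s)), GapIns_hi_u hσ hs]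
  congr 2
  exact prod_congr rfl (fun w hw => by rw [GapIns_hi_w hσ hs hw])

theorem Gp_insert (τ : ℕ → ℝ) (hσ : σ ⊆ Ioo 0 N) (hs : s ∈ Ioo 0 N \ σ) :
    Gp τ N (insert s σ) * gapW τ (lo σ s) (hi N σ s) =
      Gp τ N σ * (gapW τ (lo σ s) s * gapW τ s (hi N σ s)) := by
  rw [GapIns_Gp τ hσ hs, Gp, ← mul_prod_erase (insert 0 σ) _ (lo_mem (σ := σ) (s := s)),
    GapIns_hi_lo hσ hs]
  ring

theorem pp_insert (hσ : σ ⊆ Ioo 0 N) (hs : s ∈ Ioo 0 N \ σ) :
    pp N (insert s σ) + (if Even (lo σ s) ∧ Even (hi N σ s) then 1 else 0) =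
      pp N σ + (if Even (lo σ s) ∧ Even s then 1 else 0) +
        (if Even s ∧ Even (hi N σ s) then 1 else 0) := by
  rw [pp, pp, card_filter, card_filter, insert_comm 0 s σ, sum_insert (GapIns_notMem hs),
    GapIns_hi_s hσ hs, ← add_sum_erase (insert 0 σ) _ (lo_mem (σ := σ) (s := s)),
    ← add_sum_erase (insert 0 σ) _ (lo_mem (σ := σ) (s := s)), GapIns_hi_u hσ hs,
    GapIns_hi_lo hσ hs]
  have h : ∑ x ∈ (insert 0 σ).erase (lo σ s), (if Even x ∧ Even (hi N (insert s σ) x) then 1 else 0)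
      = ∑ x ∈ (insert 0 σ).erase (lo σ s), (if Even x ∧ Even (hi N σ x) then 1 else 0) :=
    sum_congr rfl (fun w hw => by rw [GapIns_hi_w hσ hs hw])
  rw [h]
  ring

theorem ee_insert (hs : s ∉ σ) : ee (insert s σ) = ee σ + if Odd s then 1 else 0 := by
  rw [ee, ee, card_filter, card_filter, sum_insert hs, add_comm]

/-- If a gap with weight zero is created the product vanishes. -/
theorem Gp_insert_eq_zero (τ : ℕ → ℝ) (hσ : σ ⊆ Ioo 0 N) (hs : s ∈ Ioo 0 N \ σ)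
    (h : gapW τ (lo σ s) s * gapW τ s (hi N σ s) = 0) : Gp τ N (insert s σ) = 0 := by
  rw [GapIns_Gp τ hσ hs, ← mul_assoc, mul_comm (gapW τ s (hi N σ s)), h, zero_mul]

end Pool.Agent.LHC
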