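import Pool.Agent.LHC.Fnum

/-!
Module LHC-GenRec: generating polynomials of the numbers `Fn`.

`Apol c n = ∑_(k + l ≤ n-2) 2^(k+l) Fn n (n-2-k-l) k l c^l X^k` for `n ≥ 2`, and `1` for `n < 2`.
Let `Pn c s = ∑_(i+j = s-2) 2^(i+j) Fn s 0 i j c^j X^i` be the part without root class.  By `Fn_rank` (both for `k` and, by
`Fn_comm`, for `l`), for `s = 2h+1`, `h ≥ 1`: only `(i,j) = (h, h-1), (h-1, h)` remain, so
`Pn c s = E h * (X^h c^(h-1) + X^(h-1) c^h)`; for `s = 2h+2`: only `(h,h)`: `Pn c s = Z h * c^h X^h`.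
Sum `Fn_step` times `2^(k+l) c^l X^k` over `m + 1 + k + l = n - 2` (the product formula: `2^(k+l) = 2^(i+j) 2^(k-i+l-j)`; terms
with the wrong dimension vanish by `Fn_dim`), and add the part `m = 0`, `Pn c n`:
`Apol c n = Pn c n + ∑_(2 ≤ s ≤ n-1) C(n-2,s-2) Pn c s * (outer s)`, `outer s = Apol c (n-s+1)` for odd `s` and, for even `s`,
`∑_m` of the `Fe` polynomials `= Apol c (n - s)` (if `n - s ≥ 2`: `Fe (n-s) 0 = 0` and `Fe (n-s) (m+1) = Fn (n-s) m`;
if `n - s = 1`: `1 = Apol c 1`).  The term `Pn c n` is the term `s = n` because `Apol c 1 = Apol c 0 = 1`.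
`Apol_coeff_*`: read off the coefficients; the sum over `l` may be cut at the rank by `Fn_rank`.
-/

open Finset Polynomial

namespace Pool.Agent.LHC

/-- Pure numbers of an odd vertex. -/
noncomputable def EE (h : ℕ) : ℚ := 2 ^ (2 * h - 1) * Fn (2 * h + 1) 0 h (h - 1)

/-- Pure numbers of an even vertex. -/
noncomputable def ZZ (h : ℕ) : ℚ := 2 ^ (2 * h) * Fn (2 * h + 2) 0 h h

/-- Generating polynomial. -/
noncomputable def Apol (c : ℚ) (n : ℕ) : ℚ[X] :=
  if n < 2 then 1 else ∑ k ∈ range (n - 1), ∑ l ∈ range (n - 1 - k),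
    C (2 ^ (k + l) * Fn n (n - 2 - k - l) k l * c ^ l) * X ^ k

/-- two-variable polynomial with coefficients `F k l`, `k, l < M` -/
private noncomputable def GenRec_P (M : ℕ) (F : ℕ → ℕ → ℚ) : ℚ[X][X] :=
  ∑ k ∈ range M, ∑ l ∈ range M, monomial k (monomial l (F k l))

private theorem GenRec_P_coeff (M : ℕ) (F : ℕ → ℕ → ℚ) (k l : ℕ) :
    ((GenRec_P M F).coeff k).coeff l = if k < M ∧ l < M then F k l else 0 := by
  unfold GenRec_P
  simp only [finsetSum_coeff, coeff_monomial]
  rw [Finset.sum_congr rfl (g := fun x => if x = k then (if l < M then F k l else 0) else 0)]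
  · rw [Finset.sum_ite_eq']
    by_cases hk : k < M
    · simp [hk]
    · simp [hk]
  · intro x _
    by_cases hx : x = k
    · subst hx
      simp only [if_true, finsetSum_coeff, coeff_monomial]
      rw [Finset.sum_ite_eq']
      simp
    · simp [hx]

/-- the evaluation: inner variable to `2 c`, outer variable to `2 X` -/
private noncomputable def GenRec_phi (c : ℚ) : ℚ[X][X] →+* ℚ[X] :=
  eval₂RingHom ((C : ℚ →+* ℚ[X]).comp (evalRingHom (2 * c))) (C 2 * X)

private theorem GenRec_phi_mono (c : ℚ) (k l : ℕ) (a : ℚ) :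
    GenRec_phi c (monomial k (monomial l a)) = C (2 ^ (k + l) * a * c ^ l) * X ^ k := by
  unfold GenRec_phi
  rw [coe_eval₂RingHom, eval₂_monomial]
  simp only [RingHom.comp_apply, coe_evalRingHom, eval_monomial]
  rw [show (C (2 : ℚ) * X : ℚ[X]) ^ k = C (2 ^ k) * X ^ k by rw [mul_pow, C_pow], ← mul_assoc, ← C_mul]
  congr 2
  rw [mul_pow, pow_add]
  ring

private theorem GenRec_phi_P (c : ℚ) (M : ℕ) (F : ℕ → ℕ → ℚ) :
    GenRec_phi c (GenRec_P M F) =
      ∑ k ∈ range M, ∑ l ∈ range M, C (2 ^ (k + l) * F k l * c ^ l) * X ^ k := by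
  unfold GenRec_P
  rw [map_sum]
  refine Finset.sum_congr rfl (fun k _ => ?_)
  rw [map_sum]
  exact Finset.sum_congr rfl (fun l _ => GenRec_phi_mono c k l _)

/-- the full coefficient functions -/
private noncomputable def GenRec_F (n k l : ℕ) : ℚ :=
  if n < 2 then (if k = 0 ∧ l = 0 then 1 else 0)
  else if k + l ≤ n - 2 then Fn n (n - 2 - k - l) k l else 0

private theorem GenRec_F_zero (n k l : ℕ) (h : n ≤ k + l) (h0 : 0 < k + l) :
    GenRec_F n k l = 0 := by
  unfold GenRec_F
  by_cases hn : n < 2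
  · rw [if_pos hn, if_neg]; omega
  · rw [if_neg hn, if_neg]; omega

private theorem GenRec_Apol (c : ℚ) (n M : ℕ) (hM : n ≤ M) (hM1 : 1 ≤ M) :
    Apol c n = GenRec_phi c (GenRec_P M (GenRec_F n)) := by
  rw [GenRec_phi_P]
  unfold Apol
  by_cases hn : n < 2
  · rw [if_pos hn]
    rw [Finset.sum_eq_single 0, Finset.sum_eq_single 0]
    · simp [GenRec_F, hn]
    · intro b _ hb
      simp [GenRec_F, hn, hb]
    · intro h; exact absurd (Finset.mem_range.mpr (by omega)) h
    · intro b _ hb
      refine Finset.sum_eq_zero (fun l _ => ?_)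
      simp [GenRec_F, hn, hb]
    · intro h; exact absurd (Finset.mem_range.mpr (by omega)) h
  · rw [if_neg hn]
    have hsub : range (n - 1) ⊆ range M := by
      intro x hx; rw [Finset.mem_range] at *; omega
    rw [← Finset.sum_subset hsub]
    · refine Finset.sum_congr rfl (fun k hk => ?_)
      rw [Finset.mem_range] at hk
      have hsub2 : range (n - 1 - k) ⊆ range M := by
        intro x hx; rw [Finset.mem_range] at *; omega
      rw [← Finset.sum_subset hsub2]
      · refine Finset.sum_congr rfl (fun l hl => ?_)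
        rw [Finset.mem_range] at hl
        have : GenRec_F n k l = Fn n (n - 2 - k - l) k l := by
          unfold GenRec_F
          rw [if_neg hn, if_pos (by omega)]
        rw [this]
      · intro l _ hl
        rw [Finset.mem_range] at hl
        have : GenRec_F n k l = 0 := by
          unfold GenRec_F
          rw [if_neg hn, if_neg (by omega)]
        rw [this]; simp
    · intro k _ hk
      rw [Finset.mem_range] at hk
      refine Finset.sum_eq_zero (fun l _ => ?_)
      have : GenRec_F n k l = 0 := by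
        unfold GenRec_F
        rw [if_neg hn, if_neg (by omega)]
      rw [this]; simp

/-- number of the outer vertex -/
private def GenRec_out (n s : ℕ) : ℕ := if Odd s then n - s + 1 else n - s

private theorem GenRec_term (n s m k l i j : ℕ) (hs2 : 2 ≤ s) (hsn : s ≤ n - 1) (hn : 2 ≤ n)
    (hm : n - 2 - k - l = m + 1) (hi : i ≤ k) (hj : j ≤ l) :
    Fn s 0 i j * (if Odd s then Fn (n - s + 1) m (k - i) (l - j) else Fe (n - s) m (k - i) (l - j)) =
    Fn s 0 i j * GenRec_F (GenRec_out n s) (k - i) (l - j) := by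
  by_cases hd : 0 + i + j + 2 ≠ s
  · rw [Fn_dim s 0 i j hs2 hd, zero_mul, zero_mul]
  push Not at hd
  congr 1
  unfold GenRec_out
  by_cases ho : Odd s
  · rw [if_pos ho, if_pos ho]
    unfold GenRec_F
    rw [if_neg (by omega), if_pos (by omega)]
    congr 1
    omega
  · rw [if_neg ho, if_neg ho]
    unfold GenRec_F
    by_cases h1 : n - s < 2
    · rw [if_pos h1]
      have hns : n - s = 1 := by omega
      have hm0 : m = 0 := by omega
      subst hm0
      rw [if_pos (by omega), hns]
      show (if (1 : ℕ) = 1 ∧ k - i = 0 ∧ l - j = 0 then (1 : ℚ) else 0) = 1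
      rw [if_pos ⟨rfl, by omega, by omega⟩]
    · rw [if_neg h1]
      rcases m with _ | m
      · rw [if_neg (by omega)]
        simp only [Fe]
        rw [if_neg (by omega)]
      · rw [if_pos (by omega)]
        simp only [Fe]
        rw [if_pos (by omega)]
        congr 1
        omega

private theorem GenRec_conv (n : ℕ) (hn : 2 ≤ n) (k l : ℕ) :
    GenRec_F n k l = ∑ s ∈ Icc 2 n, ((n - 2).choose (s - 2) : ℚ) *
      ∑ i ∈ range (k + 1), ∑ j ∈ range (l + 1),
        Fn s 0 i j * GenRec_F (GenRec_out n s) (k - i) (l - j) := by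
  -- split off s = n
  have hIcc : Icc 2 n = insert n (Icc 2 (n - 1)) := by
    ext x; simp only [Finset.mem_Icc, Finset.mem_insert]; omega
  rw [hIcc, Finset.sum_insert (by simp only [Finset.mem_Icc]; omega)]
  have hlast : ∑ i ∈ range (k + 1), ∑ j ∈ range (l + 1),
      Fn n 0 i j * GenRec_F (GenRec_out n n) (k - i) (l - j) = Fn n 0 k l := by
    have hout : GenRec_out n n < 2 := by
      unfold GenRec_out; split_ifs <;> omega
    rw [Finset.sum_eq_single k, Finset.sum_eq_single l]
    · unfold GenRec_F; rw [if_pos hout, if_pos (by omega), mul_one]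
    · intro j hj hjl
      rw [Finset.mem_range] at hj
      unfold GenRec_F; rw [if_pos hout, if_neg (by omega), mul_zero]
    · intro h; exact absurd (Finset.mem_range.mpr (by omega)) h
    · intro i hi hik
      rw [Finset.mem_range] at hi
      refine Finset.sum_eq_zero (fun j _ => ?_)
      unfold GenRec_F; rw [if_pos hout, if_neg (by omega), mul_zero]
    · intro h; exact absurd (Finset.mem_range.mpr (by omega)) h
  rw [hlast, Nat.choose_self, Nat.cast_one, one_mul]
  by_cases hlt : k + l < n - 2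
  · -- use Fn_step
    obtain ⟨m, hm⟩ : ∃ m, n - 2 - k - l = m + 1 := ⟨n - 2 - k - l - 1, by omega⟩
    have h0 : Fn n 0 k l = 0 := Fn_dim n 0 k l hn (by omega)
    rw [h0, zero_add]
    have hF : GenRec_F n k l = Fn n (m + 1) k l := by
      unfold GenRec_F; rw [if_neg (by omega), if_pos (by omega), hm]
    rw [hF, Fn_step n hn m k l]
    refine Finset.sum_congr rfl (fun s hs => ?_)
    rw [Finset.mem_Icc] at hs
    congr 1
    refine Finset.sum_congr rfl (fun i hi => Finset.sum_congr rfl (fun j hj => ?_))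
    rw [Finset.mem_range] at hi hj
    exact GenRec_term n s m k l i j hs.1 hs.2 hn hm (by omega) (by omega)
  · have hz : ∑ s ∈ Icc 2 (n - 1), ((n - 2).choose (s - 2) : ℚ) *
        ∑ i ∈ range (k + 1), ∑ j ∈ range (l + 1),
          Fn s 0 i j * GenRec_F (GenRec_out n s) (k - i) (l - j) = 0 := by
      refine Finset.sum_eq_zero (fun s hs => ?_)
      rw [Finset.mem_Icc] at hs
      have : ∑ i ∈ range (k + 1), ∑ j ∈ range (l + 1),
          Fn s 0 i j * GenRec_F (GenRec_out n s) (k - i) (l - j) = 0 := by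
        refine Finset.sum_eq_zero (fun i hi => Finset.sum_eq_zero (fun j hj => ?_))
        rw [Finset.mem_range] at hi hj
        by_cases hd : 0 + i + j + 2 ≠ s
        · rw [Fn_dim s 0 i j hs.1 hd, zero_mul]
        push Not at hd
        have : GenRec_F (GenRec_out n s) (k - i) (l - j) = 0 := by
          unfold GenRec_F GenRec_out
          by_cases ho : Odd s
          · rw [if_pos ho, if_neg (by omega), if_neg (by omega)]
          · rw [if_neg ho]
            by_cases h1 : n - s < 2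
            · rw [if_pos h1, if_neg (by omega)]
            · rw [if_neg h1, if_neg (by omega)]
        rw [this, mul_zero]
      rw [this, mul_zero]
    rw [hz, add_zero]
    unfold GenRec_F
    rw [if_neg (by omega)]
    by_cases he : k + l ≤ n - 2
    · rw [if_pos he]
      congr 1
      omega
    · rw [if_neg he, Fn_dim n 0 k l hn (by omega)]

private theorem GenRec_poly (n : ℕ) (hn : 2 ≤ n) (M : ℕ) (hM : 2 * n + 2 ≤ M) :
    GenRec_P M (GenRec_F n) = ∑ s ∈ Icc 2 n, (C (C ((n - 2).choose (s - 2) : ℚ))) *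
      (GenRec_P M (fun i j => Fn s 0 i j) * GenRec_P M (GenRec_F (GenRec_out n s))) := by
  ext k l
  rw [GenRec_P_coeff, finsetSum_coeff, finsetSum_coeff]
  have hterm : ∀ s ∈ Icc 2 n, ((C (C ((n - 2).choose (s - 2) : ℚ)) *
      (GenRec_P M (fun i j => Fn s 0 i j) * GenRec_P M (GenRec_F (GenRec_out n s)))).coeff k).coeff l =
      ((n - 2).choose (s - 2) : ℚ) * ∑ i ∈ range (k + 1), ∑ j ∈ range (l + 1),
        Fn s 0 i j * GenRec_F (GenRec_out n s) (k - i) (l - j) := by
    intro s hs
    rw [Finset.mem_Icc] at hs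
    rw [coeff_C_mul, coeff_C_mul]
    congr 1
    rw [coeff_mul, Finset.Nat.sum_antidiagonal_eq_sum_range_succ_mk, finsetSum_coeff]
    refine Finset.sum_congr rfl (fun i hi => ?_)
    rw [Finset.mem_range] at hi
    rw [coeff_mul, Finset.Nat.sum_antidiagonal_eq_sum_range_succ_mk]
    refine Finset.sum_congr rfl (fun j hj => ?_)
    rw [Finset.mem_range] at hj
    rw [GenRec_P_coeff, GenRec_P_coeff]
    have hout : GenRec_out n s ≤ n := by
      unfold GenRec_out; split_ifs <;> omega
    have e1 : (if i < M ∧ j < M then Fn s 0 i j else 0) = Fn s 0 i j := by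
      split_ifs with h
      · rfl
      · rw [Fn_dim s 0 i j hs.1 (by omega)]
    have e2 : (if k - i < M ∧ l - j < M then GenRec_F (GenRec_out n s) (k - i) (l - j) else 0) =
        GenRec_F (GenRec_out n s) (k - i) (l - j) := by
      split_ifs with h
      · rfl
      · rw [GenRec_F_zero _ _ _ (by omega) (by omega)]
    rw [e1, e2]
  rw [Finset.sum_congr rfl hterm, ← GenRec_conv n hn k l]
  split_ifs with h
  · rfl
  · rw [GenRec_F_zero n k l (by omega) (by omega)]

private theorem GenRec_pure (c : ℚ) (s M : ℕ) (hs : 2 ≤ s) (hM : s ≤ M) :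
    GenRec_phi c (GenRec_P M (fun i j => Fn s 0 i j)) =
      if Odd s then C (EE ((s - 1) / 2) * c ^ ((s - 1) / 2 - 1)) * (X + C c) * X ^ ((s - 1) / 2 - 1)
      else C (ZZ ((s - 2) / 2) * c ^ ((s - 2) / 2)) * X ^ ((s - 2) / 2) := by
  rw [GenRec_phi_P]
  have hrank : ∀ i j, (s - 1) / 2 < i ∨ (s - 1) / 2 < j → Fn s 0 i j = 0 := by
    rintro i j (h | h)
    · exact Fn_rank s 0 i j hs h
    · rw [Fn_comm]; exact Fn_rank s 0 j i hs h
  by_cases ho : Odd s
  · rw [if_pos ho]
    obtain ⟨h, rfl⟩ := ho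
    have e1 : (2 * h + 1 - 1) / 2 = h := by omega
    rw [e1] at hrank ⊢
    obtain ⟨g, rfl⟩ : ∃ g, h = g + 1 := ⟨h - 1, by omega⟩
    have hval : ∀ i j, Fn (2 * (g + 1) + 1) 0 i j ≠ 0 → (i = g + 1 ∧ j = g) ∨ (i = g ∧ j = g + 1) := by
      intro i j hne
      by_contra hcon
      apply hne
      by_cases hd : 0 + i + j + 2 ≠ 2 * (g + 1) + 1
      · exact Fn_dim _ 0 i j hs hd
      · push Not at hd
        apply hrank
        omega
    have hsum : ∑ k ∈ range M, ∑ l ∈ range M,
        C (2 ^ (k + l) * Fn (2 * (g + 1) + 1) 0 k l * c ^ l) * (X : ℚ[X]) ^ k =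
        C (2 ^ (g + 1 + g) * Fn (2 * (g + 1) + 1) 0 (g + 1) g * c ^ g) * X ^ (g + 1) +
        C (2 ^ (g + (g + 1)) * Fn (2 * (g + 1) + 1) 0 g (g + 1) * c ^ (g + 1)) * X ^ g := by
      rw [← Finset.sum_product', Finset.sum_eq_add (g + 1, g) (g, g + 1)]
      · intro h; have := congrArg Prod.fst h; simp at this
      · rintro ⟨a, b⟩ _ hab
        by_cases hz : Fn (2 * (g + 1) + 1) 0 a b = 0
        · simp [hz]
        · rcases hval a b hz with ⟨rfl, rfl⟩ | ⟨rfl, rfl⟩
          · exact absurd rfl hab.1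
          · exact absurd rfl hab.2
      · intro h
        exact absurd (Finset.mem_product.mpr ⟨Finset.mem_range.mpr (by simp; omega),
          Finset.mem_range.mpr (by simp; omega)⟩) h
      · intro h
        exact absurd (Finset.mem_product.mpr ⟨Finset.mem_range.mpr (by simp; omega),
          Finset.mem_range.mpr (by simp; omega)⟩) h
    rw [hsum, Fn_comm _ 0 g (g + 1)]
    unfold EE
    have e2 : 2 * (g + 1) - 1 = g + 1 + g := by omega
    have e3 : g + 1 - 1 = g := by omega
    have e4 : g + (g + 1) = g + 1 + g := by omega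
    rw [e2, e3, e4]
    simp only [C_mul, C_pow, pow_succ]
    ring
  · rw [if_neg ho]
    rw [Nat.not_odd_iff_even] at ho
    obtain ⟨h, hh⟩ := ho
    obtain ⟨g, rfl⟩ : ∃ g, h = g + 1 := ⟨h - 1, by omega⟩
    have hs' : s = 2 * g + 2 := by omega
    subst hs'
    have e1 : (2 * g + 2 - 1) / 2 = g := by omega
    have e2 : (2 * g + 2 - 2) / 2 = g := by omega
    rw [e1] at hrank
    rw [e2]
    have hsum : ∑ k ∈ range M, ∑ l ∈ range M,
        C (2 ^ (k + l) * Fn (2 * g + 2) 0 k l * c ^ l) * (X : ℚ[X]) ^ k =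
        C (2 ^ (g + g) * Fn (2 * g + 2) 0 g g * c ^ g) * X ^ g := by
      rw [← Finset.sum_product', Finset.sum_eq_single (g, g)]
      · rintro ⟨a, b⟩ _ hab
        have hz : Fn (2 * g + 2) 0 a b = 0 := by
          by_cases hd : 0 + a + b + 2 ≠ 2 * g + 2
          · exact Fn_dim _ 0 a b hs hd
          · push Not at hd
            apply hrank
            have : ¬ (a = g ∧ b = g) := fun ⟨h1, h2⟩ => hab (by rw [h1, h2])
            omega
        simp [hz]
      · intro h
        exact absurd (Finset.mem_product.mpr ⟨Finset.mem_range.mpr (by simp; omega),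
          Finset.mem_range.mpr (by simp; omega)⟩) h
    rw [hsum]
    unfold ZZ
    rw [two_mul]

private theorem GenRec_split (n : ℕ) (T : ℕ → ℚ[X]) :
    ∑ s ∈ Icc 2 n, T s = (∑ h ∈ Icc 1 ((n - 1) / 2), T (2 * h + 1)) + ∑ h ∈ range (n / 2), T (2 * h + 2) := by
  rw [← Finset.sum_filter_add_sum_filter_not (Icc 2 n) (fun s => Odd s)]
  congr 1
  · symm
    refine Finset.sum_bij (fun h _ => 2 * h + 1) ?_ ?_ ?_ ?_
    · intro h hh
      rw [Finset.mem_Icc] at hh
      rw [Finset.mem_filter, Finset.mem_Icc]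
      exact ⟨by omega, ⟨h, rfl⟩⟩
    · intro a _ b _ hab; omega
    · intro b hb
      rw [Finset.mem_filter, Finset.mem_Icc] at hb
      obtain ⟨h, hh⟩ := hb.2
      exact ⟨h, by rw [Finset.mem_Icc]; omega, hh.symm⟩
    · intro a _; rfl
  · symm
    refine Finset.sum_bij (fun h _ => 2 * h + 2) ?_ ?_ ?_ ?_
    · intro h hh
      rw [Finset.mem_range] at hh
      rw [Finset.mem_filter, Finset.mem_Icc, Nat.not_odd_iff_even]
      exact ⟨by omega, ⟨h + 1, by omega⟩⟩
    · intro a _ b _ hab; omega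
    · intro b hb
      rw [Finset.mem_filter, Finset.mem_Icc, Nat.not_odd_iff_even] at hb
      obtain ⟨h, hh⟩ := hb.2
      exact ⟨h - 1, by rw [Finset.mem_range]; omega, by omega⟩
    · intro a _; rfl

theorem Apol_rec (c : ℚ) (n : ℕ) (hn : 2 ≤ n) :
    Apol c n = (∑ h ∈ Icc 1 ((n - 1) / 2),
        C (((n - 2).choose (2 * h - 1) : ℚ) * EE h * c ^ (h - 1)) * (X + C c) * X ^ (h - 1) *
          Apol c (n - 2 * h)) +
      ∑ h ∈ range (n / 2), C (((n - 2).choose (2 * h) : ℚ) * ZZ h * c ^ h) * X ^ h *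
        Apol c (n - 2 * h - 2) := by
  have h1 := congrArg (GenRec_phi c) (GenRec_poly n hn (2 * n + 2) le_rfl)
  rw [← GenRec_Apol c n (2 * n + 2) (by omega) (by omega), map_sum] at h1
  have h2 : ∀ s ∈ Icc 2 n, GenRec_phi c (C (C ((n - 2).choose (s - 2) : ℚ)) *
      (GenRec_P (2 * n + 2) (fun i j => Fn s 0 i j) *
        GenRec_P (2 * n + 2) (GenRec_F (GenRec_out n s)))) =
      C ((n - 2).choose (s - 2) : ℚ) *
      ((if Odd s then C (EE ((s - 1) / 2) * c ^ ((s - 1) / 2 - 1)) * (X + C c) * X ^ ((s - 1) / 2 - 1)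
        else C (ZZ ((s - 2) / 2) * c ^ ((s - 2) / 2)) * X ^ ((s - 2) / 2)) *
        Apol c (GenRec_out n s)) := by
    intro s hs
    rw [Finset.mem_Icc] at hs
    have hout : GenRec_out n s ≤ n := by
      unfold GenRec_out; split_ifs <;> omega
    rw [map_mul, map_mul, GenRec_pure c s (2 * n + 2) hs.1 (by omega),
      ← GenRec_Apol c (GenRec_out n s) (2 * n + 2) (by omega) (by omega)]
    congr 1
    unfold GenRec_phi
    rw [coe_eval₂RingHom, eval₂_C]
    simp
  rw [Finset.sum_congr rfl h2, GenRec_split] at h1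
  rw [h1]
  congr 1
  · refine Finset.sum_congr rfl (fun h hh => ?_)
    rw [Finset.mem_Icc] at hh
    have ho : Odd (2 * h + 1) := ⟨h, rfl⟩
    unfold GenRec_out
    rw [if_pos ho, if_pos ho]
    have e1 : (2 * h + 1 - 1) / 2 = h := by omega
    have e2 : 2 * h + 1 - 2 = 2 * h - 1 := by omega
    have e3 : n - (2 * h + 1) + 1 = n - 2 * h := by omega
    rw [e1, e2, e3]
    simp only [C_mul]
    ring
  · refine Finset.sum_congr rfl (fun h hh => ?_)
    rw [Finset.mem_range] at hh
    have ho : ¬ Odd (2 * h + 2) := by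
      rw [Nat.not_odd_iff_even]; exact ⟨h + 1, by omega⟩
    unfold GenRec_out
    rw [if_neg ho, if_neg ho]
    have e1 : (2 * h + 2 - 2) / 2 = h := by omega
    have e2 : 2 * h + 2 - 2 = 2 * h := by omega
    have e3 : n - (2 * h + 2) = n - 2 * h - 2 := by omega
    rw [e1, e2, e3]
    simp only [C_mul]
    ring

theorem Apol_coeff (c : ℚ) (n k : ℕ) (hn : 2 ≤ n) :
    (Apol c n).coeff k = if k < n - 1 then
      ∑ l ∈ range (n - 1 - k), 2 ^ (k + l) * Fn n (n - 2 - k - l) k l * c ^ l else 0 := by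
  unfold Apol
  rw [if_neg (by omega), finsetSum_coeff]
  have h1 : ∀ x ∈ range (n - 1), (∑ l ∈ range (n - 1 - x),
      C (2 ^ (x + l) * Fn n (n - 2 - x - l) x l * c ^ l) * (X : ℚ[X]) ^ x).coeff k =
      if k = x then ∑ l ∈ range (n - 1 - k), 2 ^ (k + l) * Fn n (n - 2 - k - l) k l * c ^ l else 0 := by
    intro x _
    rw [finsetSum_coeff]
    by_cases hx : k = x
    · subst hx
      rw [if_pos rfl]
      refine Finset.sum_congr rfl (fun l _ => ?_)
      rw [coeff_C_mul, coeff_X_pow, if_pos rfl, mul_one]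
    · rw [if_neg hx]
      refine Finset.sum_eq_zero (fun l _ => ?_)
      rw [coeff_C_mul, coeff_X_pow, if_neg hx, mul_zero]
  rw [Finset.sum_congr rfl h1, Finset.sum_ite_eq]
  simp only [Finset.mem_range]

theorem Apol_coeff_rank (c : ℚ) (n k : ℕ) (hn : 2 ≤ n) (hk : (n - 1) / 2 < k) :
    (Apol c n).coeff k = 0 := by
  rw [Apol_coeff c n k hn]
  split_ifs with h
  · refine Finset.sum_eq_zero (fun l _ => ?_)
    rw [Fn_rank n _ k l hn hk]
    ring
  · rfl

end Pool.Agent.LHC
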