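import Pool.Agent.LHC.FullC

/-!
Module LHC-HOne: hypothesis `H1` of the skeleton for the weight `WW`.

If `σ` is not full: `h1_deficient`.  If `σ` is full: by `TT_TT_apply`, `first_order`, `second_order`,
`(TT a * TT a) W σ = N! * Gp σ * Qn (GG N σ) (pp N σ) (al N l σ) a.1 mm em rr RR`, where
`pp N σ = (GG N σ).card` by definition.  Take
`L a = Ln (pp N σ) (al N l σ) a.1 (∑ mm) (∑ em)`; it is linear in `a` because `dev` is linear in `f`
(`dev_add`, `dev_smul`) and `mG` is linear in `x`.  Apply `Qn_nonpos`: `mm u * em u = 0` (if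
`hh = 1` the sum defining `mG` is empty, otherwise `em = 0`), `rG_le`, `RG_le`
(`hh N σ u ≥ 1` for `u ∈ GG`), and `N! * Gp σ ≥ 0`.
-/

open Finset

namespace Pool.Agent.LHC

variable {N : ℕ} {σ : Finset ℕ} {τ : ℕ → ℝ}

private theorem HOne_mG_add (τ : ℕ → ℝ) (h : ℕ) (x y : ℕ → ℝ) :
    mG τ h (fun k => x k + y k) = mG τ h x + mG τ h y := by
  unfold mG
  rw [← add_div, ← sum_add_distrib]
  congr 1
  exact sum_congr rfl fun k _ => by ring

private theorem HOne_mG_smul (τ : ℕ → ℝ) (h : ℕ) (c : ℝ) (x : ℕ → ℝ) :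
    mG τ h (fun k => c * x k) = c * mG τ h x := by
  unfold mG
  rw [← mul_div_assoc, mul_sum]
  congr 1
  exact sum_congr rfl fun k _ => by ring

private theorem HOne_mm_add (f g : ℕ → ℝ) (u : ℕ) :
    mm τ N σ (f + g) u = mm τ N σ f u + mm τ N σ g u := by
  unfold mm
  rw [← HOne_mG_add]
  congr 1
  funext k
  exact dev_add N σ f g _

private theorem HOne_mm_smul (c : ℝ) (f : ℕ → ℝ) (u : ℕ) :
    mm τ N σ (c • f) u = c * mm τ N σ f u := by
  unfold mm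
  rw [← HOne_mG_smul]
  congr 1
  funext k
  exact dev_smul N σ c f _

private theorem HOne_em_add (f g : ℕ → ℝ) (u : ℕ) :
    em N σ (f + g) u = em N σ f u + em N σ g u := by
  unfold em
  split_ifs
  · rw [dev_add]
    ring
  · ring

private theorem HOne_em_smul (c : ℝ) (f : ℕ → ℝ) (u : ℕ) :
    em N σ (c • f) u = c * em N σ f u := by
  unfold em
  split_ifs
  · rw [dev_smul]
    ring
  · ring

private theorem HOne_me (f : ℕ → ℝ) (u : ℕ) : mm τ N σ f u * em N σ f u = 0 := by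
  unfold em
  split_ifs with h
  · have h1 : mm τ N σ f u = 0 := by
      unfold mm mG
      have h0 : Ioo 0 1 = (∅ : Finset ℕ) := by decide
      rw [h, h0, sum_empty, zero_div]
    rw [h1, zero_mul]
  · rw [mul_zero]

private theorem HOne_hh (hN : 2 ≤ N) (hσ : σ ⊆ Ioo 0 N) {u : ℕ} (hu : u ∈ GG N σ) :
    1 ≤ hh N σ u := by
  unfold GG at hu
  rw [mem_filter] at hu
  obtain ⟨h1, h2, h3⟩ := hu
  have h4 := PosIff_lt hσ hN h1
  have h5 := lt_hi (σ := σ) h4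
  unfold hh
  obtain ⟨a, ha⟩ := h2
  obtain ⟨b, hb⟩ := h3
  omega

/-- The linear form. -/
private noncomputable def HOne_L (τ : ℕ → ℝ) (N l : ℕ) (σ : Finset ℕ) :
    (ℝ × (ℕ → ℝ)) →ₗ[ℝ] ℝ where
  toFun a := Ln (pp N σ) (al N l σ) a.1 (∑ u ∈ GG N σ, mm τ N σ a.2 u)
    (∑ u ∈ GG N σ, em N σ a.2 u)
  map_add' a b := by
    simp only [Prod.fst_add, Prod.snd_add, HOne_mm_add, HOne_em_add, sum_add_distrib]
    unfold Ln
    split_ifs <;> ring
  map_smul' c a := by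
    simp only [Prod.smul_fst, Prod.smul_snd, HOne_mm_smul, HOne_em_smul, ← mul_sum, smul_eq_mul,
      RingHom.id_apply]
    unfold Ln
    split_ifs <;> ring

private theorem HOne_eq (hτ : TauData τ) (hN : 2 ≤ N) (l : ℕ) (hσ : Full N σ)
    (a : ℝ × (ℕ → ℝ)) :
    (TT N a * TT N a) (WW τ N l) σ = (N.factorial : ℝ) * Gp τ N σ *
      Qn (GG N σ) (pp N σ) (al N l σ) a.1 (mm τ N σ a.2) (em N σ a.2) (rr τ N σ a.2)
        (RR τ N σ a.2) := by
  rw [TT_TT_apply hσ.1, first_order hτ hN l hσ a.2, second_order hτ hN l hσ a.2]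
  have hW : WW τ N l σ = (N.factorial : ℝ) * Gp τ N σ * binZ (pp N σ) (al N l σ) := rfl
  rw [hW]
  unfold Qn
  ring

theorem h1_all (hτ : TauData τ) (hN : 2 ≤ N) (l : ℕ) (hσ : σ ⊆ Ioo 0 N) :
    ∃ L : (ℝ × (ℕ → ℝ)) →ₗ[ℝ] ℝ, ∀ a, L a = 0 → (TT N a * TT N a) (WW τ N l) σ ≤ 0 := by
  by_cases hF : Full N σ
  · refine ⟨HOne_L τ N l σ, fun a ha => ?_⟩
    rw [HOne_eq hτ hN l hF a]
    have h0 : 0 ≤ (N.factorial : ℝ) * Gp τ N σ :=
      mul_nonneg (Nat.cast_nonneg _) (Gp_nonneg hτ hσ hN)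
    refine mul_nonpos_of_nonneg_of_nonpos h0 ?_
    refine Qn_nonpos (GG N σ) (al N l σ) a.1 (mm τ N σ a.2) (em N σ a.2) (rr τ N σ a.2)
      (RR τ N σ a.2) (fun u _ => HOne_me a.2 u) ?_ ?_ ha
    · intro u hu
      exact rG_le hτ _ (HOne_hh hN hσ hu) _
    · intro u hu
      exact RG_le hτ _ (HOne_hh hN hσ hu) _ _ _
  · exact h1_deficient hτ hN l hσ hF

end Pool.Agent.LHC
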