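import Pool.Agent.helper17.BlockHodge

/-!
Module LHC-Hom: homogeneous components, and the definition of the numbers `Num`.

`bI_hc`: `bI L = Ideal.span (brel L)` and all generators are homogeneous (degrees 1, 2, 1), so the ideal is
homogeneous (`Ideal.homogeneous_span` for `MvPolynomial.homogeneousSubmodule`, or directly: the set
of `p` all of whose homogeneous components are in `bI L` is an ideal containing the generators;
for multiplication by a polynomial use `hc_mul`).
`annI_hc`: `p ∈ annI L S` means `X S * p ∈ bI L`, and `homogeneousComponent (k+1) (X S * p) = X S * homogeneousComponent k p`.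
`hc_aeval`: both sides are additive in `p`; check on monomials.
`Num_dim`: the argument is homogeneous of degree `m + k + l`.
-/

open Finset MvPolynomial Pool.Agent.helper17

namespace Pool.Agent.LHC

variable {γ : Type*} [DecidableEq γ] [Fintype γ]

omit [DecidableEq γ] [Fintype γ] in
private theorem Hom_of {p : MvPolynomial (Finset γ) ℚ} {m : ℕ} (h : p.IsHomogeneous m) (k : ℕ) :
    homogeneousComponent k p = if k = m then p else 0 :=
  homogeneousComponent_of_mem h

theorem hc_mul (k : ℕ) (p q : MvPolynomial (Finset γ) ℚ) :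
    homogeneousComponent k (p * q) =
      ∑ i ∈ range (k + 1), homogeneousComponent i p * homogeneousComponent (k - i) q := by
  induction p using MvPolynomial.induction_on' with
  | add p₁ p₂ h₁ h₂ =>
    rw [add_mul, map_add, h₁, h₂, ← sum_add_distrib]
    refine sum_congr rfl fun i _ => ?_
    rw [map_add, add_mul]
  | monomial d c =>
    induction q using MvPolynomial.induction_on' with
    | add q₁ q₂ h₁ h₂ =>
      rw [mul_add, map_add, h₁, h₂, ← sum_add_distrib]
      refine sum_congr rfl fun i _ => ?_
      rw [map_add, mul_add]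
    | monomial e b =>
      have hd : (monomial d c : MvPolynomial (Finset γ) ℚ).IsHomogeneous d.degree :=
        isHomogeneous_monomial c rfl
      have he : (monomial e b : MvPolynomial (Finset γ) ℚ).IsHomogeneous e.degree :=
        isHomogeneous_monomial b rfl
      rw [Hom_of (hd.mul he) k]
      split_ifs with hk
      · rw [sum_eq_single d.degree]
        · have h1 : k - d.degree = e.degree := by omega
          rw [Hom_of hd, if_pos rfl, Hom_of he, if_pos h1]
        · intro i _ hi
          rw [Hom_of hd, if_neg hi, zero_mul]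
        · intro h
          rw [mem_range] at h
          omega
      · refine (sum_eq_zero fun i hi => ?_).symm
        rw [mem_range] at hi
        rw [Hom_of hd, Hom_of he]
        split_ifs with h1 h2
        · omega
        · rw [mul_zero]
        · rw [zero_mul]
        · rw [zero_mul]

theorem hc_aeval {γ' : Type*} [DecidableEq γ'] [Fintype γ']
    (f : Finset γ → MvPolynomial (Finset γ') ℚ) (hf : ∀ T, (f T).IsHomogeneous 1) (k : ℕ)
    (p : MvPolynomial (Finset γ) ℚ) :
    homogeneousComponent k (aeval f p) = aeval f (homogeneousComponent k p) := by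
  induction p using MvPolynomial.induction_on' with
  | add p₁ p₂ h₁ h₂ => rw [map_add, map_add, map_add, map_add, h₁, h₂]
  | monomial d c =>
    have hd : (monomial d c : MvPolynomial (Finset γ) ℚ).IsHomogeneous d.degree :=
      isHomogeneous_monomial c rfl
    have ha := hd.aeval f hf
    rw [one_mul] at ha
    rw [Hom_of ha, Hom_of hd]
    split_ifs
    · rfl
    · rw [map_zero]

private theorem Hom_gen {L : Finset (Finset γ)} {p : MvPolynomial (Finset γ) ℚ}
    (hp : p ∈ brel L) : ∃ m, p.IsHomogeneous m := by
  rcases hp with (⟨T, _, rfl⟩ | ⟨S, T, _, rfl⟩) | ⟨A, _, B, _, a, _, b, _, _, rfl⟩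
  · exact ⟨1, isHomogeneous_X ℚ T⟩
  · exact ⟨1 + 1, (isHomogeneous_X ℚ S).mul (isHomogeneous_X ℚ T)⟩
  · exact ⟨1, IsHomogeneous.sum _ _ _ fun T _ => isHomogeneous_X ℚ T⟩

theorem bI_hc {L : Finset (Finset γ)} {p : MvPolynomial (Finset γ) ℚ} (hp : p ∈ bI L) (k : ℕ) :
    homogeneousComponent k p ∈ bI L := by
  have key : ∀ k : ℕ, homogeneousComponent k p ∈ bI L := by
    unfold bI at hp
    induction hp using Submodule.span_induction with
    | mem x hx =>
      intro k
      obtain ⟨m, hm⟩ := Hom_gen hx
      rw [Hom_of hm]
      split_ifs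
      · exact Ideal.subset_span hx
      · exact Submodule.zero_mem _
    | zero =>
      intro k
      rw [map_zero]
      exact Submodule.zero_mem _
    | add x y _ _ hx hy =>
      intro k
      rw [map_add]
      exact Submodule.add_mem _ (hx k) (hy k)
    | smul a x _ hx =>
      intro k
      rw [smul_eq_mul, hc_mul]
      refine Submodule.sum_mem _ fun i _ => ?_
      exact Ideal.mul_mem_left _ _ (hx (k - i))
  exact key k

theorem annI_hc {L : Finset (Finset γ)} {S : Finset γ} {p : MvPolynomial (Finset γ) ℚ}
    (hp : p ∈ annI L S) (k : ℕ) : homogeneousComponent k p ∈ annI L S := by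
  rw [mem_annI] at hp ⊢
  have h := bI_hc hp (k + 1)
  rw [hc_mul, sum_eq_single 1] at h
  · rw [Hom_of (isHomogeneous_X ℚ S), if_pos rfl, Nat.add_sub_cancel] at h
    exact h
  · intro i _ hi
    rw [Hom_of (isHomogeneous_X ℚ S), if_neg hi, zero_mul]
  · intro h1
    exact absurd (mem_range.2 (by omega)) h1

/-- The Hodge integral `∫ psi^m lambda_k lambda_l` for the blocks `L`. -/
noncomputable def Num (L : Finset (Finset γ)) (D : MvPolynomial (Finset γ) ℚ →ₗ[ℚ] ℚ)
    (m k l : ℕ) : ℚ :=
  D ((-X (U L)) ^ m * (homogeneousComponent k (cls L) * homogeneousComponent l (cls L)))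

theorem Num_comm (L : Finset (Finset γ)) (D : MvPolynomial (Finset γ) ℚ →ₗ[ℚ] ℚ) (m k l : ℕ) :
    Num L D m k l = Num L D m l k := by
  unfold Num
  rw [mul_comm (homogeneousComponent k (cls L))]

theorem Num_dim {L : Finset (Finset γ)} {c : ℚ} {D : MvPolynomial (Finset γ) ℚ →ₗ[ℚ] ℚ}
    (hD : IsDeg L c D) {m k l : ℕ} (h : m + k + l + 2 ≠ L.card) : Num L D m k l = 0 := by
  unfold Num
  have h1 : ((-X (U L)) ^ m : MvPolynomial (Finset γ) ℚ).IsHomogeneous m := by
    have := (isHomogeneous_X ℚ (U L)).neg.pow m
    rwa [one_mul] at this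
  have h2 := h1.mul ((homogeneousComponent_isHomogeneous k (cls L)).mul
    (homogeneousComponent_isHomogeneous l (cls L)))
  exact hD.homog _ _ h2 (by omega)

private theorem Hom_cls_zero (L : Finset (Finset γ)) : constantCoeff (cls L) = 1 := by
  unfold cls Phi Fac
  rw [map_prod]
  refine prod_eq_one fun T _ => ?_
  rw [map_prod]
  refine prod_eq_one fun j _ => ?_
  rw [map_sub, map_one, map_mul, map_mul, constantCoeff_X, mul_zero, zero_mul, sub_zero]

/-- Two blocks: the space is a point. -/
theorem Num_two {L : Finset (Finset γ)} {D : MvPolynomial (Finset γ) ℚ →ₗ[ℚ] ℚ}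
    (hL : IsBlocks L) (h2 : L.card = 2) (hD : IsDeg L 1 D) : Num L D 0 0 0 = 1 := by
  have _ := hL
  unfold Num
  have h1 : coeff 0 (cls L) = 1 := Hom_cls_zero L
  have h3 := hD.norm
  rw [h2, Nat.sub_self, pow_zero] at h3
  rw [homogeneousComponent_zero, h1, C_1, pow_zero, one_mul, one_mul, h3]

/-- Only the component of the right degree matters. -/
theorem Num_congr {L : Finset (Finset γ)} {c : ℚ} {D : MvPolynomial (Finset γ) ℚ →ₗ[ℚ] ℚ}
    (hD : IsDeg L c D) {p : MvPolynomial (Finset γ) ℚ} (hp : p - cls L ∈ bI L) (m k l : ℕ) :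
    D ((-X (U L)) ^ m * (homogeneousComponent k p * homogeneousComponent l p)) =
      Num L D m k l := by
  unfold Num
  have h1 : ∀ i, homogeneousComponent i p - homogeneousComponent i (cls L) ∈ bI L := by
    intro i
    have h := bI_hc hp i
    rwa [map_sub] at h
  have h2 : (-X (U L)) ^ m * (homogeneousComponent k p * homogeneousComponent l p) -
      (-X (U L)) ^ m * (homogeneousComponent k (cls L) * homogeneousComponent l (cls L)) ∈
        bI L := by
    have e : (-X (U L)) ^ m * (homogeneousComponent k p * homogeneousComponent l p) -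
        (-X (U L)) ^ m * (homogeneousComponent k (cls L) * homogeneousComponent l (cls L)) =
        ((-X (U L)) ^ m * homogeneousComponent k p) *
          (homogeneousComponent l p - homogeneousComponent l (cls L)) +
        ((-X (U L)) ^ m * homogeneousComponent l (cls L)) *
          (homogeneousComponent k p - homogeneousComponent k (cls L)) := by ring
    rw [e]
    exact Ideal.add_mem _ (Ideal.mul_mem_left _ _ (h1 l)) (Ideal.mul_mem_left _ _ (h1 k))
  have h3 := hD.kill _ h2
  rw [map_sub, sub_eq_zero] at h3
  exact h3

end Pool.Agent.LHC
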