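import Pool.Agent.LHC.Defs

/-!
Module LHC-Ode: the sequences `E`, `Z` are determined by four recursions (power series).

Power series over `ℚ` in `u`: `s = ∑ p g u^(2g+1)/(2g+1)!`, `γ = ∑_(h≥1) (-1)^(h-1) E h u^(2h-1)/(2h-1)!`,
`ζ = ∑_(h≥0) (-1)^h Z h u^(2h)/(2h)!`, `K = 2 ∑_(g≥0) 2^g q g u^(2g+2)/(2g+2)!`.  Coefficientwise `h1, h2, h3, h4` are
`s'' = γ s'`, `γ s' = ζ s`, `K''/2 = ζ + γ K'`, `ζ K = γ K'/2`
(for `h1`: the coefficient of `u^(2g+1)/(2g+1)!` in `s''` is `p (g+1)`, in `s'` the coefficient of `u^(2j)/(2j)!` is `p j`;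
for `h3`: coefficient of `u^(2g+2)/(2g+2)!` in `K''/2` is `2^(g+1) q (g+1)`, in `K'` the one of `u^(2j+1)/(2j+1)!` is `2^(j+1) q j`;
multiply `h3` by `2^(g+1)` and use `(-1/2)^(h-1) 2^(g+1) = 2 * (-1)^(h-1) 2^(g+1-h)`; also the constant coefficients of
`h3` in series form: `K''(0)/2 = q 0 = 1 = Z 0`; `h4`: coefficient of `u^(2g+2)/(2g+2)!`).
Solution.  `E 1 = 1` (`h2` for `g = 0`: `E 1 p 0 = Z 0 p 0`), so `γ ≠ 0`.
From `ζ s = γ s'` and `ζ K = γ K'/2`: `γ (s' K - s K'/2) = 0`, so `s K' = 2 s' K`.  `R = K - s^2` satisfies `s R' = 2 s' R`;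
if `R ≠ 0` has order `n` the leading coefficients give `n = 2`, but the coefficient of `u^2` in `R` is `1 - 1 = 0`
(and `R` is even), so `R = 0`, `K = s^2`.  Then `K''/2 = s'^2 + s s'' = ζ + 2 γ s s' = ζ + 2 s s''`, so
`s'^2 = s s'' + ζ`, times `s`: `s s'^2 = (1 + s^2) s''`.  Let `w = s'^2 - s^2 - 1`:
`w' = 2 s' (s'' - s)` and `(1+s^2)(s'' - s) = s w`, so `(1 + s^2) w' = 2 s s' w`, `w(0) = 0`, hence `w = 0` (order argument:
the order of the left side is one less than the order of `w`, the order of the right side is larger).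
So `s'' = s` (`1+s^2` is a unit), `s'^2 = 1 + s^2`, `ζ s = s'' = s` gives `ζ = 1` (so `Z h = 0` for `h ≥ 1`), `γ s' = s`, and
`γ' s'^2 = s'' ... `: from `γ s' = s`: `γ' s' + γ s'' = s'`, so `γ' s'^2 = s'^2 - γ s' s = s'^2 - s^2 = 1`, and
`γ' = 1 - γ^2` because `(1 - γ^2) s'^2 = s'^2 - s^2 = 1`.  The coefficient of `u^(2h-2)` in `γ' = 1 - γ^2` is the recursion.
One may also avoid power series and argue with the recursions directly by induction.
-/

open Finset

namespace Pool.Agent.LHC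

open PowerSeries in
private theorem Ode_coeff_d (f : PowerSeries ℚ) (n : ℕ) :
    coeff n (derivative ℚ f) = coeff (n + 1) f * (n + 1) := by
  rw [← coeff_derivative]

open PowerSeries in
/-- first uniqueness lemma -/
private theorem Ode_uniq1 (A B W : PowerSeries ℚ) (a b : ℚ) (hA0 : coeff 0 A = 0)
    (hA1 : coeff 1 A = a) (hB : coeff 0 B = b) (h : A * derivative ℚ W = B * W)
    (hW : ∀ n : ℕ, coeff n W = 0 ∨ (n : ℚ) * a ≠ b) : W = 0 := by
  have key : ∀ n : ℕ, coeff n W = 0 := by
    intro n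
    induction n using Nat.strong_induction_on with
    | _ n ih =>
      rcases hW n with h0 | hne
      · exact h0
      have e1 : coeff n (A * derivative ℚ W) = a * (n * coeff n W) := by
        rw [coeff_mul]
        rcases Nat.eq_zero_or_pos n with rfl | hn
        · simp [hA0]
        · rw [Finset.sum_eq_single (1, n - 1)]
          · rw [hA1, Ode_coeff_d]
            have e2 : n - 1 + 1 = n := by omega
            have e3 : ((n - 1 : ℕ) : ℚ) + 1 = n := by
              exact_mod_cast e2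
            simp only [e2, e3]
            ring
          · rintro ⟨i, j⟩ hij hne'
            rw [Finset.HasAntidiagonal.mem_antidiagonal] at hij
            simp only at hij ⊢
            rcases Nat.eq_zero_or_pos i with rfl | hi
            · rw [hA0, zero_mul]
            · have hi1 : i ≠ 1 := by
                rintro rfl
                apply hne'
                ext
                · rfl
                · simp only
                  omega
              rw [Ode_coeff_d, ih (j + 1) (by omega), zero_mul, mul_zero]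
          · intro hnot
            exact absurd (Finset.HasAntidiagonal.mem_antidiagonal.2 (by show 1 + (n - 1) = n; omega)) hnot
      have e4 : coeff n (B * W) = b * coeff n W := by
        rw [coeff_mul, Finset.sum_eq_single (0, n)]
        · rw [hB]
        · rintro ⟨i, j⟩ hij hne'
          rw [Finset.HasAntidiagonal.mem_antidiagonal] at hij
          simp only at hij ⊢
          have hj : j < n := by
            rcases Nat.eq_zero_or_pos i with rfl | hi
            · exfalso
              apply hne'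
              ext
              · rfl
              · simp only
                omega
            · omega
          rw [ih j hj, mul_zero]
        · intro hnot
          exact absurd (Finset.HasAntidiagonal.mem_antidiagonal.2 (by simp)) hnot
      rw [h, e4] at e1
      by_contra hc
      apply hne
      have e5 : (b - n * a) * coeff n W = 0 := by
        linear_combination e1
      rcases mul_eq_zero.1 e5 with h6 | h6
      · linarith
      · exact absurd h6 hc
  ext n
  rw [key n, map_zero]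

open PowerSeries in
/-- second uniqueness lemma -/
private theorem Ode_uniq2 (A B W : PowerSeries ℚ) (hA0 : coeff 0 A ≠ 0) (hW0 : coeff 0 W = 0)
    (h : A * derivative ℚ W = B * W) : W = 0 := by
  have key : ∀ n : ℕ, coeff n W = 0 := by
    intro n
    induction n using Nat.strong_induction_on with
    | _ n ih =>
      rcases Nat.eq_zero_or_pos n with rfl | hn
      · exact hW0
      obtain ⟨m, rfl⟩ : ∃ m, n = m + 1 := ⟨n - 1, by omega⟩
      have e1 : coeff m (A * derivative ℚ W) = coeff 0 A * (coeff (m + 1) W * (m + 1)) := by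
        rw [coeff_mul, Finset.sum_eq_single (0, m)]
        · rw [Ode_coeff_d]
        · rintro ⟨i, j⟩ hij hne'
          rw [Finset.HasAntidiagonal.mem_antidiagonal] at hij
          simp only at hij ⊢
          have hj : j < m := by
            rcases Nat.eq_zero_or_pos i with rfl | hi
            · exfalso
              apply hne'
              ext
              · rfl
              · simp only
                omega
            · omega
          rw [Ode_coeff_d, ih (j + 1) (by omega), zero_mul, mul_zero]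
        · intro hnot
          exact absurd (Finset.HasAntidiagonal.mem_antidiagonal.2 (by simp)) hnot
      have e4 : coeff m (B * W) = 0 := by
        rw [coeff_mul]
        apply Finset.sum_eq_zero
        rintro ⟨i, j⟩ hij
        rw [Finset.HasAntidiagonal.mem_antidiagonal] at hij
        simp only at hij ⊢
        rw [ih j (by omega), mul_zero]
      rw [h, e4] at e1
      have e5 : ((m : ℚ) + 1) ≠ 0 := by positivity
      rcases mul_eq_zero.1 e1.symm with h6 | h6
      · exact absurd h6 hA0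
      · rcases mul_eq_zero.1 h6 with h7 | h7
        · exact h7
        · exact absurd h7 e5
  ext n
  rw [key n, map_zero]

open PowerSeries in
/-- exponential generating function -/
private noncomputable def Ode_e (a : ℕ → ℚ) : PowerSeries ℚ :=
  PowerSeries.mk fun n => a n / (n.factorial : ℚ)

open PowerSeries in
private theorem Ode_e_coeff (a : ℕ → ℚ) (n : ℕ) :
    coeff n (Ode_e a) = a n / (n.factorial : ℚ) := by
  unfold Ode_e
  rw [coeff_mk]

open PowerSeries in
private theorem Ode_e_inj {a b : ℕ → ℚ} (h : Ode_e a = Ode_e b) (n : ℕ) : a n = b n := by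
  have h1 := congrArg (coeff n) h
  rw [Ode_e_coeff, Ode_e_coeff] at h1
  have h2 : (n.factorial : ℚ) ≠ 0 := by positivity
  field_simp at h1
  exact h1

open PowerSeries in
private theorem Ode_e_deriv (a : ℕ → ℚ) :
    derivative ℚ (Ode_e a) = Ode_e (fun n => a (n + 1)) := by
  ext n
  rw [Ode_coeff_d, Ode_e_coeff, Ode_e_coeff, Nat.factorial_succ]
  push_cast
  have h2 : (n.factorial : ℚ) ≠ 0 := by positivity
  have h3 : ((n : ℚ) + 1) ≠ 0 := by positivity
  field_simp

/-- binomial convolution -/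
private def Ode_cv (a b : ℕ → ℚ) (n : ℕ) : ℚ :=
  ∑ k ∈ range (n + 1), (n.choose k : ℚ) * (a k * b (n - k))

open PowerSeries in
private theorem Ode_e_mul (a b : ℕ → ℚ) : Ode_e a * Ode_e b = Ode_e (Ode_cv a b) := by
  ext n
  rw [coeff_mul, Ode_e_coeff, Ode_cv, Finset.Nat.sum_antidiagonal_eq_sum_range_succ_mk,
    Finset.sum_div]
  refine Finset.sum_congr rfl fun k hk => ?_
  rw [Finset.mem_range] at hk
  simp only
  rw [Ode_e_coeff, Ode_e_coeff]
  have h1 : k ≤ n := by omega
  have h2 := Nat.choose_mul_factorial_mul_factorial h1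
  have h3 : ((n.choose k : ℕ) : ℚ) * (k.factorial : ℚ) * ((n - k).factorial : ℚ) =
      (n.factorial : ℚ) := by exact_mod_cast h2
  have h4 : (k.factorial : ℚ) ≠ 0 := by positivity
  have h5 : ((n - k).factorial : ℚ) ≠ 0 := by positivity
  have h6 : (n.factorial : ℚ) ≠ 0 := by positivity
  rw [div_mul_div_comm, div_eq_div_iff (mul_ne_zero h4 h5) h6, ← h3]
  ring

private theorem Ode_e_add (a b : ℕ → ℚ) : Ode_e a + Ode_e b = Ode_e (fun n => a n + b n) := by
  ext n
  rw [map_add, Ode_e_coeff, Ode_e_coeff, Ode_e_coeff, add_div]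

private theorem Ode_e_smul (c : ℚ) (a : ℕ → ℚ) :
    PowerSeries.C c * Ode_e a = Ode_e (fun n => c * a n) := by
  ext n
  rw [PowerSeries.coeff_C_mul, Ode_e_coeff, Ode_e_coeff, mul_div_assoc]

private theorem Ode_range2 (f : ℕ → ℚ) (m : ℕ) :
    ∑ k ∈ range (2 * m), f k = ∑ h ∈ range m, (f (2 * h) + f (2 * h + 1)) := by
  induction m with
  | zero => simp
  | succ m ih =>
    rw [show 2 * (m + 1) = 2 * m + 1 + 1 by ring, Finset.sum_range_succ, Finset.sum_range_succ,
      ih, Finset.sum_range_succ]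
    ring

private theorem Ode_Icc (f : ℕ → ℚ) (m : ℕ) :
    ∑ h ∈ Icc 1 m, f h = ∑ h ∈ range m, f (h + 1) := by
  induction m with
  | zero => simp
  | succ m ih => rw [Finset.sum_Icc_succ_top (by omega), ih, Finset.sum_range_succ]

private theorem Ode_Ioo (f : ℕ → ℚ) (m : ℕ) :
    ∑ h ∈ Ioo 0 (m + 1), f h = ∑ h ∈ range m, f (h + 1) := by
  rw [← Ode_Icc]
  apply Finset.sum_congr _ fun _ _ => rfl
  ext x
  simp only [Finset.mem_Ioo, Finset.mem_Icc]
  omega

/-- odd extension: value `a g` at `2 g + 1` -/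
private def Ode_o (a : ℕ → ℚ) (n : ℕ) : ℚ := if n % 2 = 1 then a (n / 2) else 0

/-- even extension: value `a g` at `2 g` -/
private def Ode_v (a : ℕ → ℚ) (n : ℕ) : ℚ := if n % 2 = 0 then a (n / 2) else 0

private theorem Ode_o_odd (a : ℕ → ℚ) (g : ℕ) : Ode_o a (2 * g + 1) = a g := by
  unfold Ode_o
  rw [if_pos (by omega)]
  congr 1
  omega

private theorem Ode_o_even (a : ℕ → ℚ) (g : ℕ) : Ode_o a (2 * g) = 0 := by
  unfold Ode_o
  rw [if_neg (by omega)]

private theorem Ode_v_odd (a : ℕ → ℚ) (g : ℕ) : Ode_v a (2 * g + 1) = 0 := by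
  unfold Ode_v
  rw [if_neg (by omega)]

private theorem Ode_v_even (a : ℕ → ℚ) (g : ℕ) : Ode_v a (2 * g) = a g := by
  unfold Ode_v
  rw [if_pos (by omega)]
  congr 1
  omega

private theorem Ode_o_shift (a : ℕ → ℚ) : (fun n => Ode_o a (n + 1)) = Ode_v a := by
  funext n
  rcases Nat.even_or_odd' n with ⟨g, rfl | rfl⟩
  · rw [Ode_o_odd, Ode_v_even]
  · rw [show 2 * g + 1 + 1 = 2 * (g + 1) by ring, Ode_o_even, Ode_v_odd]

private theorem Ode_v_shift (a : ℕ → ℚ) : (fun n => Ode_v a (n + 1)) = Ode_o (fun g => a (g + 1)) := by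
  funext n
  rcases Nat.even_or_odd' n with ⟨g, rfl | rfl⟩
  · rw [Ode_v_odd, Ode_o_even]
  · rw [show 2 * g + 1 + 1 = 2 * (g + 1) by ring, Ode_v_even, Ode_o_odd]

/-- odd times even -/
private theorem Ode_cv_ov (a b : ℕ → ℚ) : Ode_cv (Ode_o a) (Ode_v b) =
    Ode_o (fun g => ∑ h ∈ range (g + 1), ((2 * g + 1).choose (2 * h + 1) : ℚ) * (a h * b (g - h))) := by
  funext n
  rcases Nat.even_or_odd' n with ⟨g, rfl | rfl⟩
  · rw [Ode_o_even]
    unfold Ode_cv
    apply Finset.sum_eq_zero
    intro k hk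
    rw [Finset.mem_range] at hk
    rcases Nat.even_or_odd' k with ⟨h, rfl | rfl⟩
    · rw [Ode_o_even, zero_mul, mul_zero]
    · rw [show 2 * g - (2 * h + 1) = 2 * (g - h - 1) + 1 by omega, Ode_v_odd, mul_zero, mul_zero]
  · rw [Ode_o_odd]
    unfold Ode_cv
    rw [show 2 * g + 1 + 1 = 2 * (g + 1) by ring, Ode_range2]
    refine Finset.sum_congr rfl fun h hh => ?_
    rw [Finset.mem_range] at hh
    rw [Ode_o_even, Ode_o_odd, show 2 * g + 1 - (2 * h + 1) = 2 * (g - h) by omega, Ode_v_even]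
    ring

/-- odd times odd -/
private theorem Ode_cv_oo (a b : ℕ → ℚ) : Ode_cv (Ode_o a) (Ode_o b) =
    Ode_v (fun g => ∑ h ∈ range g, ((2 * g).choose (2 * h + 1) : ℚ) * (a h * b (g - 1 - h))) := by
  funext n
  rcases Nat.even_or_odd' n with ⟨g, rfl | rfl⟩
  · rw [Ode_v_even]
    unfold Ode_cv
    rw [Finset.sum_range_succ, Ode_range2, Ode_o_even, zero_mul, mul_zero, add_zero]
    refine Finset.sum_congr rfl fun h hh => ?_
    rw [Finset.mem_range] at hh
    rw [Ode_o_even, Ode_o_odd, show 2 * g - (2 * h + 1) = 2 * (g - 1 - h) + 1 by omega, Ode_o_odd]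
    ring
  · rw [Ode_v_odd]
    unfold Ode_cv
    apply Finset.sum_eq_zero
    intro k hk
    rw [Finset.mem_range] at hk
    rcases Nat.even_or_odd' k with ⟨h, rfl | rfl⟩
    · rw [Ode_o_even, zero_mul, mul_zero]
    · rw [show 2 * g + 1 - (2 * h + 1) = 2 * (g - h) by omega, Ode_o_even, mul_zero, mul_zero]

/-- even times odd -/
private theorem Ode_cv_vo (a b : ℕ → ℚ) : Ode_cv (Ode_v a) (Ode_o b) =
    Ode_o (fun g => ∑ h ∈ range (g + 1), ((2 * g + 1).choose (2 * h) : ℚ) * (a h * b (g - h))) := by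
  funext n
  rcases Nat.even_or_odd' n with ⟨g, rfl | rfl⟩
  · rw [Ode_o_even]
    unfold Ode_cv
    apply Finset.sum_eq_zero
    intro k hk
    rw [Finset.mem_range] at hk
    rcases Nat.even_or_odd' k with ⟨h, rfl | rfl⟩
    · rw [show 2 * g - 2 * h = 2 * (g - h) by omega, Ode_o_even, mul_zero, mul_zero]
    · rw [Ode_v_odd, zero_mul, mul_zero]
  · rw [Ode_o_odd]
    unfold Ode_cv
    rw [show 2 * g + 1 + 1 = 2 * (g + 1) by ring, Ode_range2]
    refine Finset.sum_congr rfl fun h hh => ?_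
    rw [Finset.mem_range] at hh
    rw [Ode_v_even, Ode_v_odd, show 2 * g + 1 - 2 * h = 2 * (g - h) + 1 by omega, Ode_o_odd]
    ring

/-- even times even -/
private theorem Ode_cv_vv (a b : ℕ → ℚ) : Ode_cv (Ode_v a) (Ode_v b) =
    Ode_v (fun g => ∑ h ∈ range (g + 1), ((2 * g).choose (2 * h) : ℚ) * (a h * b (g - h))) := by
  funext n
  rcases Nat.even_or_odd' n with ⟨g, rfl | rfl⟩
  · rw [Ode_v_even]
    unfold Ode_cv
    have hb : Ode_v b (2 * g - 2 * g) = b (g - g) := by
      rw [Nat.sub_self, Nat.sub_self]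
      exact Ode_v_even b 0
    rw [Finset.sum_range_succ, Ode_range2, Finset.sum_range_succ, Ode_v_even, hb]
    congr 1
    refine Finset.sum_congr rfl fun h hh => ?_
    rw [Finset.mem_range] at hh
    rw [Ode_v_even, Ode_v_odd, show 2 * g - 2 * h = 2 * (g - h) by omega, Ode_v_even]
    ring
  · rw [Ode_v_odd]
    unfold Ode_cv
    apply Finset.sum_eq_zero
    intro k hk
    rw [Finset.mem_range] at hk
    rcases Nat.even_or_odd' k with ⟨h, rfl | rfl⟩
    · rw [show 2 * g + 1 - 2 * h = 2 * (g - h) + 1 by omega, Ode_v_odd, mul_zero, mul_zero]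
    · rw [Ode_v_odd, zero_mul, mul_zero]

open PowerSeries in
/-- the algebra of the four equations -/
private theorem Ode_alg (S G Z K : PowerSeries ℚ) (hS0 : coeff 0 S = 0) (hS1 : coeff 1 S = 1)
    (hG : coeff 1 G = 1) (hK : coeff 2 K = 1)
    (k1 : derivative ℚ (derivative ℚ S) = G * derivative ℚ S)
    (k2 : G * derivative ℚ S = Z * S)
    (k3 : derivative ℚ (derivative ℚ K) = 2 * Z + 2 * (G * derivative ℚ K))
    (k4 : 2 * (Z * K) = G * derivative ℚ K) :
    Z = 1 ∧ derivative ℚ G = 1 - G * G := by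
  have hG0 : G ≠ 0 := by
    rintro rfl
    simp at hG
  obtain ⟨S', hS'⟩ : ∃ S', S' = derivative ℚ S := ⟨_, rfl⟩
  have hS'0 : coeff 0 S' = 1 := by
    rw [hS', Ode_coeff_d, hS1]
    simp
  rw [← hS'] at k1 k2
  have hS0' : constantCoeff S = 0 := by
    rw [← coeff_zero_eq_constantCoeff_apply, hS0]
  have hS'0' : constantCoeff S' = 1 := by
    rw [← coeff_zero_eq_constantCoeff_apply, hS'0]
  have hSne : S ≠ 0 := by
    rintro rfl
    simp at hS1
  have hS'ne : S' ≠ 0 := by
    intro h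
    rw [h] at hS'0
    simp at hS'0
  have a1 : S * derivative ℚ K = 2 * S' * K := by
    have h1 : G * (2 * S' * K - S * derivative ℚ K) = 0 := by
      linear_combination 2 * K * k2 + S * k4
    rcases mul_eq_zero.1 h1 with h2 | h2
    · exact absurd h2 hG0
    · linear_combination -h2
  have a2 : K = S * S := by
    have h1 : K - S * S = 0 := by
      apply Ode_uniq1 S (2 * S') (K - S * S) 1 2 hS0 hS1
      · rw [coeff_zero_eq_constantCoeff_apply, map_mul, hS'0', mul_one]
        exact map_ofNat _ 2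
      · rw [map_sub, Derivation.leibniz, smul_eq_mul, ← hS']
        linear_combination a1
      · intro n
        by_cases hn : n = 2
        · left
          rw [hn, map_sub, hK, coeff_mul, Finset.Nat.sum_antidiagonal_eq_sum_range_succ_mk]
          simp [Finset.sum_range_succ, hS0', hS1]
        · right
          rw [mul_one]
          exact_mod_cast hn
    linear_combination h1
  have dK : derivative ℚ K = 2 * (S * S') := by
    rw [a2, Derivation.leibniz, smul_eq_mul, ← hS']
    ring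
  have ddK : derivative ℚ (derivative ℚ K) = 2 * (S' * S' + S * derivative ℚ S') := by
    rw [dK, Derivation.leibniz, Derivation.leibniz, smul_eq_mul, smul_eq_mul, smul_eq_mul, ← hS']
    have : derivative ℚ (2 : PowerSeries ℚ) = 0 := by
      have h2 : (2 : PowerSeries ℚ) = C 2 := by
        rw [map_ofNat]
      rw [h2, derivative_C]
    rw [this]
    simp only [smul_eq_mul]
    ring
  have a3 : S' * S' = S * derivative ℚ S' + Z := by
    have h1 : (2 : PowerSeries ℚ) * (S' * S' - S * derivative ℚ S' - Z) = 0 := by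
      rw [ddK, dK] at k3
      linear_combination k3 - 4 * S * k1
    rcases mul_eq_zero.1 h1 with h2 | h2
    · exfalso
      have := congrArg (coeff 0) h2
      rw [show (2 : PowerSeries ℚ) = C 2 by rw [map_ofNat]] at this
      simp at this
    · linear_combination h2
  have a4 : S * (S' * S') = (1 + S * S) * derivative ℚ S' := by
    linear_combination S * a3 - k2 - k1
  have a5 : S' * S' - S * S - 1 = 0 := by
    apply Ode_uniq2 (1 + S * S) (2 * (S * S')) _
    · rw [coeff_zero_eq_constantCoeff_apply]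
      simp [hS0']
    · rw [coeff_zero_eq_constantCoeff_apply]
      simp [hS0', hS'0']
    · rw [map_sub, map_sub, Derivation.leibniz, Derivation.leibniz, smul_eq_mul, smul_eq_mul,
        Derivation.map_one_eq_zero, ← hS']
      linear_combination (-2) * S' * a4
  have hu : (1 + S * S) ≠ 0 := by
    intro h
    have := congrArg (coeff 0) h
    rw [coeff_zero_eq_constantCoeff_apply] at this
    simp [hS0'] at this
  have a6 : derivative ℚ S' = S := by
    have h1 : (1 + S * S) * (derivative ℚ S' - S) = 0 := by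
      linear_combination S * a5 - a4
    rcases mul_eq_zero.1 h1 with h2 | h2
    · exact absurd h2 hu
    · linear_combination h2
  have a7 : Z = 1 := by
    have h1 : (Z - 1) * S = 0 := by
      linear_combination a6 - k1 - k2
    rcases mul_eq_zero.1 h1 with h2 | h2
    · linear_combination h2
    · exact absurd h2 hSne
  refine ⟨a7, ?_⟩
  have a8 : G * S' = S := by
    rw [← k1, a6]
  have a9 : derivative ℚ G * S' + G * S = S' := by
    have h1 := congrArg (derivative ℚ) a8
    rw [Derivation.leibniz, smul_eq_mul, smul_eq_mul, a6, ← hS'] at h1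
    linear_combination h1
  have h1 : (derivative ℚ G - (1 - G * G)) * (S' * S') = 0 := by
    linear_combination S' * a9 + G * S' * a8
  rcases mul_eq_zero.1 h1 with h2 | h2
  · linear_combination h2
  · exact absurd h2 (mul_ne_zero hS'ne hS'ne)

private theorem Ode_e_ov (a b : ℕ → ℚ) : Ode_e (Ode_o a) * Ode_e (Ode_v b) = Ode_e (Ode_o
    (fun g => ∑ h ∈ range (g + 1), ((2 * g + 1).choose (2 * h + 1) : ℚ) * (a h * b (g - h)))) := by
  rw [Ode_e_mul, Ode_cv_ov]

theorem ode_solve (p q E Z : ℕ → ℚ) (hp : p 0 = 1) (hq : q 0 = 1) (hZ : Z 0 = 1)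
    (h1 : ∀ g : ℕ, p (g + 1) = ∑ h ∈ Icc 1 (g + 1),
      ((2 * g + 1).choose (2 * h - 1) : ℚ) * (-1) ^ (h - 1) * E h * p (g + 1 - h))
    (h2 : ∀ g : ℕ, ∑ h ∈ Icc 1 (g + 1),
      ((2 * g + 1).choose (2 * h - 1) : ℚ) * (-1) ^ (h - 1) * E h * p (g + 1 - h) =
      ∑ h ∈ range (g + 1), ((2 * g + 1).choose (2 * h) : ℚ) * (-1) ^ h * Z h * p (g - h))
    (h3 : ∀ g : ℕ, q (g + 1) = (∑ h ∈ Icc 1 (g + 1),
      ((2 * g + 2).choose (2 * h - 1) : ℚ) * (-1 / 2) ^ (h - 1) * E h * q (g + 1 - h)) +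
      Z (g + 1) * (-1 / 2) ^ (g + 1))
    (h4 : ∀ g : ℕ, (1 / 2) * ∑ h ∈ Icc 1 (g + 1),
      ((2 * g + 2).choose (2 * h - 1) : ℚ) * (-1 / 2) ^ (h - 1) * E h * q (g + 1 - h) =
      ∑ h ∈ range (g + 1), ((2 * g + 2).choose (2 * h) : ℚ) * (-1 / 2) ^ h * Z h * q (g - h)) :
    (∀ h, 1 ≤ h → Z h = 0) ∧ E 1 = 1 ∧
      ∀ h, 2 ≤ h → E h = ∑ k ∈ Ioo 0 h, ((2 * h - 2).choose (2 * k - 1) : ℚ) * (E k * E (h - k)) := by
  -- the sequences
  obtain ⟨γ, hγ⟩ : ∃ γ : ℕ → ℚ, ∀ g, γ g = (-1) ^ g * E (g + 1) := ⟨_, fun _ => rfl⟩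
  obtain ⟨ζ, hζ⟩ : ∃ ζ : ℕ → ℚ, ∀ g, ζ g = (-1) ^ g * Z g := ⟨_, fun _ => rfl⟩
  obtain ⟨κ, hκ0, hκ⟩ : ∃ κ : ℕ → ℚ, κ 0 = 0 ∧ ∀ g, κ (g + 1) = 2 * 2 ^ g * q g :=
    ⟨fun g => if g = 0 then 0 else 2 * 2 ^ (g - 1) * q (g - 1), by simp, fun g => by simp⟩
  have hE1 : E 1 = 1 := by
    have h := h2 0
    simp only [zero_add, Finset.Icc_self, Finset.sum_singleton, Finset.range_one] at h
    norm_num [hp, hZ] at h
    exact h
  -- the two sums
  have s1 : ∀ g, ∑ h ∈ Icc 1 (g + 1),
      ((2 * g + 1).choose (2 * h - 1) : ℚ) * (-1) ^ (h - 1) * E h * p (g + 1 - h) =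
      ∑ h ∈ range (g + 1), ((2 * g + 1).choose (2 * h + 1) : ℚ) * (γ h * p (g - h)) := by
    intro g
    rw [Ode_Icc]
    refine Finset.sum_congr rfl fun h hh => ?_
    rw [hγ, show 2 * (h + 1) - 1 = 2 * h + 1 by omega, Nat.add_sub_cancel,
      show g + 1 - (h + 1) = g - h by omega]
    ring
  have s2 : ∀ g, ∑ h ∈ range (g + 1), ((2 * g + 1).choose (2 * h) : ℚ) * (-1) ^ h * Z h * p (g - h) =
      ∑ h ∈ range (g + 1), ((2 * g + 1).choose (2 * h) : ℚ) * (ζ h * p (g - h)) := by
    intro g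
    refine Finset.sum_congr rfl fun h _ => ?_
    rw [hζ]
    ring
  have s3 : ∀ g, 2 ^ (g + 1) * (∑ h ∈ Icc 1 (g + 1),
      ((2 * g + 2).choose (2 * h - 1) : ℚ) * (-1 / 2) ^ (h - 1) * E h * q (g + 1 - h)) =
      ∑ h ∈ range (g + 1), ((2 * (g + 1)).choose (2 * h + 1) : ℚ) *
        (γ h * κ (g + 1 - 1 - h + 1)) := by
    intro g
    rw [Ode_Icc, Finset.mul_sum]
    refine Finset.sum_congr rfl fun h hh => ?_
    rw [Finset.mem_range] at hh
    obtain ⟨d, rfl⟩ : ∃ d, g = h + d := ⟨g - h, by omega⟩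
    rw [hγ, hκ, show 2 * (h + 1) - 1 = 2 * h + 1 by omega, Nat.add_sub_cancel,
      show h + d + 1 - (h + 1) = d by omega, show h + d + 1 - 1 - h = d by omega,
      show 2 * (h + d) + 2 = 2 * (h + d + 1) by ring, div_pow, pow_add, pow_add]
    have : (2 : ℚ) ^ h ≠ 0 := by positivity
    field_simp
  have s4 : ∀ g, 2 ^ (g + 1) * (∑ h ∈ range (g + 1),
      ((2 * g + 2).choose (2 * h) : ℚ) * (-1 / 2) ^ h * Z h * q (g - h)) =
      ∑ h ∈ range (g + 1 + 1), ((2 * (g + 1)).choose (2 * h) : ℚ) * (ζ h * κ (g + 1 - h)) := by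
    intro g
    rw [Finset.sum_range_succ (fun h => ((2 * (g + 1)).choose (2 * h) : ℚ) * (ζ h * κ (g + 1 - h))),
      Nat.sub_self, hκ0, mul_zero, mul_zero, add_zero, Finset.mul_sum]
    refine Finset.sum_congr rfl fun h hh => ?_
    rw [Finset.mem_range] at hh
    obtain ⟨d, rfl⟩ : ∃ d, g = h + d := ⟨g - h, by omega⟩
    rw [hζ, show h + d + 1 - h = d + 1 by omega, hκ, show h + d - h = d by omega,
      show 2 * (h + d) + 2 = 2 * (h + d + 1) by ring, div_pow, pow_add, pow_add]
    have : (2 : ℚ) ^ h ≠ 0 := by positivity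
    field_simp
  -- the series
  have dS : PowerSeries.derivative ℚ (Ode_e (Ode_o p)) = Ode_e (Ode_v p) := by
    rw [Ode_e_deriv, Ode_o_shift]
  have dG : PowerSeries.derivative ℚ (Ode_e (Ode_o γ)) = Ode_e (Ode_v γ) := by
    rw [Ode_e_deriv, Ode_o_shift]
  have dK : PowerSeries.derivative ℚ (Ode_e (Ode_v κ)) = Ode_e (Ode_o fun g => κ (g + 1)) := by
    rw [Ode_e_deriv, Ode_v_shift]
  have two : (2 : PowerSeries ℚ) = PowerSeries.C 2 := by rw [map_ofNat]
  obtain ⟨r1, r2⟩ := Ode_alg (Ode_e (Ode_o p)) (Ode_e (Ode_o γ)) (Ode_e (Ode_v ζ))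
    (Ode_e (Ode_v κ))
    (by rw [Ode_e_coeff, show (0 : ℕ) = 2 * 0 by rfl, Ode_o_even]; simp)
    (by rw [Ode_e_coeff, show (1 : ℕ) = 2 * 0 + 1 by rfl, Ode_o_odd, hp]; simp)
    (by rw [Ode_e_coeff, show (1 : ℕ) = 2 * 0 + 1 by rfl, Ode_o_odd, hγ]; simp [hE1])
    (by rw [Ode_e_coeff, show (2 : ℕ) = 2 * 1 by rfl, Ode_v_even, show (1 : ℕ) = 0 + 1 by rfl, hκ,
          hq]; norm_num)
    (by
      rw [dS, Ode_e_deriv, Ode_v_shift, Ode_e_ov]
      congr 2
      funext g
      rw [h1, s1])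
    (by
      rw [dS, Ode_e_ov, Ode_e_mul, Ode_cv_vo]
      congr 2
      funext g
      rw [← s1, h2, s2])
    (by
      rw [dK, Ode_e_deriv, Ode_o_shift, Ode_e_mul, Ode_cv_oo, two, Ode_e_smul, Ode_e_smul, Ode_e_add]
      congr 1
      funext n
      rcases Nat.even_or_odd' n with ⟨g, rfl | rfl⟩
      · rw [Ode_v_even, Ode_v_even, Ode_v_even]
        rcases Nat.eq_zero_or_pos g with rfl | hg
        · rw [hκ, hζ, hq, hZ]
          norm_num
        · obtain ⟨m, rfl⟩ : ∃ m, g = m + 1 := ⟨g - 1, by omega⟩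
          rw [← s3, hκ, h3, hζ]
          have e1 : (2 : ℚ) ^ (m + 1) * (-1 / 2) ^ (m + 1) = (-1) ^ (m + 1) := by
            rw [← mul_pow]
            norm_num
          linear_combination 2 * Z (m + 1) * e1
      · rw [Ode_v_odd, Ode_v_odd, Ode_v_odd]
        ring)
    (by
      rw [dK, Ode_e_mul, Ode_e_mul, Ode_cv_vv, Ode_cv_oo, two, Ode_e_smul]
      congr 1
      funext n
      rcases Nat.even_or_odd' n with ⟨g, rfl | rfl⟩
      · rw [Ode_v_even, Ode_v_even]
        rcases Nat.eq_zero_or_pos g with rfl | hg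
        · simp [hκ0]
        · obtain ⟨m, rfl⟩ : ∃ m, g = m + 1 := ⟨g - 1, by omega⟩
          rw [← s3, ← s4, ← h4]
          ring
      · rw [Ode_v_odd, Ode_v_odd]
        ring)
  refine ⟨?_, hE1, ?_⟩
  · intro h hh
    have e1 := congrArg (PowerSeries.coeff (2 * h)) r1
    rw [Ode_e_coeff, Ode_v_even, PowerSeries.coeff_one, if_neg (by omega), hζ] at e1
    have e2 : ((2 * h).factorial : ℚ) ≠ 0 := by positivity
    rw [div_eq_zero_iff] at e1
    rcases e1 with e1 | e1
    · rcases mul_eq_zero.1 e1 with e3 | e3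
      · exact absurd e3 (pow_ne_zero _ (by norm_num))
      · exact e3
    · exact absurd e1 e2
  · intro h hh
    obtain ⟨m, rfl⟩ : ∃ m, h = m + 2 := ⟨h - 2, by omega⟩
    rw [dG, Ode_e_mul, Ode_cv_oo] at r2
    have e1 := congrArg (PowerSeries.coeff (2 * (m + 1))) r2
    rw [map_sub, Ode_e_coeff, Ode_e_coeff, Ode_v_even, Ode_v_even, PowerSeries.coeff_one,
      if_neg (by omega), zero_sub, ← neg_div] at e1
    have e2 : ((2 * (m + 1)).factorial : ℚ) ≠ 0 := by positivity
    rw [div_left_inj' e2] at e1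
    rw [hγ] at e1
    rw [Ode_Ioo]
    have e3 : ∑ k ∈ range (m + 1), ((2 * (m + 1)).choose (2 * k + 1) : ℚ) *
        (γ k * γ (m + 1 - 1 - k)) = (-1) ^ m * ∑ k ∈ range (m + 1),
        ((2 * (m + 2) - 2).choose (2 * (k + 1) - 1) : ℚ) * (E (k + 1) * E (m + 2 - (k + 1))) := by
      rw [Finset.mul_sum]
      refine Finset.sum_congr rfl fun k hk => ?_
      rw [Finset.mem_range] at hk
      obtain ⟨d, rfl⟩ : ∃ d, m = k + d := ⟨m - k, by omega⟩
      rw [hγ, hγ, show k + d + 1 - 1 - k = d by omega, show k + d + 2 - (k + 1) = d + 1 by omega,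
        show 2 * (k + d + 2) - 2 = 2 * (k + d + 1) by omega, show 2 * (k + 1) - 1 = 2 * k + 1 by omega,
        pow_add]
      ring
    rw [e3] at e1
    have e4 : ((-1 : ℚ) ^ m) * (-1) ^ m = 1 := by
      rw [← mul_pow]
      norm_num
    have e5 := congrArg (fun t => -((-1 : ℚ) ^ m) * t) e1
    beta_reduce at e5
    rw [pow_succ] at e5
    have e6 : ∀ t : ℚ, (-1 : ℚ) ^ m * ((-1) ^ m * t) = t := by
      intro t
      rw [← mul_assoc, e4, one_mul]
    have e7 := e6 (E (m + 1 + 1))
    have e8 := e6 (∑ k ∈ range (m + 1),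
        ((2 * (m + 2) - 2).choose (2 * (k + 1) - 1) : ℚ) * (E (k + 1) * E (m + 2 - (k + 1))))
    show E (m + 1 + 1) = _
    linear_combination e5 + e8 - e7

/-- The tangent recursion determines the sequence: `E h = (2h)! * tau h`. -/
theorem eq_tau (E : ℕ → ℚ) (h1 : E 1 = 1)
    (hE : ∀ h, 2 ≤ h → E h =
      ∑ k ∈ Ioo 0 h, ((2 * h - 2).choose (2 * k - 1) : ℚ) * (E k * E (h - k)))
    (h : ℕ) (hh : 1 ≤ h) : (E h : ℝ) = ((2 * h).factorial : ℝ) * tau h := by
  have key : ∀ n : ℕ, (E (n + 1) : ℝ) = ((2 * n + 1).factorial : ℝ) * theta (n + 1) := by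
    intro n
    induction n using Nat.strong_induction_on with
    | _ n ih =>
      rcases Nat.eq_zero_or_pos n with rfl | hn
      · simp [h1, theta]
      obtain ⟨m, rfl⟩ : ∃ m, n = m + 1 := ⟨n - 1, by omega⟩
      show (E (m + 2) : ℝ) = _ * theta (m + 2)
      rw [theta, hE (m + 2) (by omega)]
      have e1 : Ioo 0 (m + 2) = Finset.Icc 1 (m + 1) := by
        ext x
        simp only [Finset.mem_Ioo, Finset.mem_Icc]
        omega
      rw [e1, Ode_Icc]
      push_cast
      rw [show 2 * (m + 1) + 1 = 2 * m + 2 + 1 by ring, Nat.factorial_succ]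
      have e2 : (∑ k : Fin (m + 1), theta (k.1 + 1) * theta (m + 1 - k.1)) =
          ∑ k ∈ range (m + 1), theta (k + 1) * theta (m + 1 - k) :=
        Fin.sum_univ_eq_sum_range (fun k => theta (k + 1) * theta (m + 1 - k)) (m + 1)
      rw [e2]
      have e3 : (2 * ((m : ℝ) + 2) - 1) ≠ 0 := by
        have : (0 : ℝ) ≤ m := Nat.cast_nonneg m
        intro h
        linarith
      push_cast
      have e4 : ((2 * (m : ℝ) + 2 + 1) * ((2 * m + 2).factorial : ℝ)) *
          ((∑ k ∈ range (m + 1), theta (k + 1) * theta (m + 1 - k)) / (2 * ((m : ℝ) + 2) - 1)) =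
          ((2 * m + 2).factorial : ℝ) * ∑ k ∈ range (m + 1), theta (k + 1) * theta (m + 1 - k) := by
        field_simp
        ring
      rw [e4, Finset.mul_sum]
      refine Finset.sum_congr rfl fun k hk => ?_
      rw [Finset.mem_range] at hk
      obtain ⟨d, rfl⟩ : ∃ d, m = k + d := ⟨m - k, by omega⟩
      rw [show k + d + 1 - k = d + 1 by omega, ih k (by omega), ih d (by omega),
        show 2 * (k + d + 2) - 2 = 2 * (k + d) + 2 by omega, show 2 * (k + 1) - 1 = 2 * k + 1 by omega]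
      have e5 := Nat.choose_mul_factorial_mul_factorial (n := 2 * (k + d) + 2) (k := 2 * k + 1)
        (by omega)
      rw [show 2 * (k + d) + 2 - (2 * k + 1) = 2 * d + 1 by omega] at e5
      have e6 : (((2 * (k + d) + 2).choose (2 * k + 1) : ℕ) : ℝ) * ((2 * k + 1).factorial : ℝ) *
          ((2 * d + 1).factorial : ℝ) = ((2 * (k + d) + 2).factorial : ℝ) := by
        exact_mod_cast e5
      rw [← e6]
      ring
  obtain ⟨n, rfl⟩ : ∃ n, h = n + 1 := ⟨h - 1, by omega⟩
  have e : ((2 * (n + 1)).factorial : ℝ) = (2 * (n + 1)) * ((2 * n + 1).factorial : ℝ) := by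
    rw [show 2 * (n + 1) = 2 * n + 1 + 1 by ring, Nat.factorial_succ]
    push_cast
    ring
  rw [key, tau, e]
  push_cast
  have : (2 * ((n : ℝ) + 1)) ≠ 0 := by positivity
  field_simp

end Pool.Agent.LHC
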