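import Pool.Agent.LHC.PsiStrat

/-!
Module LHC-VanEven: alternating vanishing for an unramified root (`2g + 2` ramified leaves).

`Fintype.card α = 2g + 2`.  For a nested family `F` with `F.card = k ≤ g - 1`, put `d = 2g - k` (so
`F.card + d + 2 = card α`), and `P = children F univ`, `oddN P` is even (`odd_card_biUnion`, `biUnion_children`), `oddN P = 2r + 2` or `0`,
`n' = P.card - 2`.  By `degC_psi_strat` the sum
`∑_(m ≤ d) (-1)^(d-m) degC (lamC (d-m) * (psi^m * strat F)) = (∏_(V ∈ F) wv) * ∑_(m ≤ n') (-1)^(d-m) e_(n'-m)`,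
`e_i` the elementary symmetric sums of the numbers `oddN P/2 - 1 - j`, `j < (oddN P - 1)/2`, which are `r, r-1, ..., 1`
(none if `oddN P ≤ 2`).  Since `n' + 2 = P.card ≥ oddN P = 2r+2` we have `n' ≥ r` (number of factors), so the
alternating sum is `± ∏ (1 - i)` over `i = 1..r` (`Finset.prod_one_add` or `Finset.prod_add`), which is `0` if `r ≥ 1`.
If `oddN P ≤ 2`: we claim that some `wv (children F V) = 0`, `V ∈ F`.  Otherwise use the potential
`pot c = (c.card - 1)/2` of helper17/KeelVanish.lean: `pot_vertex` holds for every `V ∈ F` (`wv ≠ 0` means two children, or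
three children all odd, as for `vw`), and at the root `(P.card - 2) + ∑_(c ∈ P) pot c ≤ g`
(`c.card = 2 pot c + 2` for even `c`, `2 pot c + 1` for odd `c`; sum over `P` is `2g+2`; so
`∑ pot + #even = g + 1 - oddN P / 2` and `P.card - 2 = #even + oddN P - 2`, total `g - 1 + oddN P/2 ≤ g`).
Summing over all vertices as in `card_of_ne_zero` (`sum_card_children_sub_two`, `sum_children`):
`2g - F.card = ∑ (children - 2) ≤ g`, so `g ≤ F.card`, contradiction with `F.card ≤ g - 1`.
Then extend linearly to `y ∈ stSpan α k` as in `vanish_of_mem`.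
`van_even`: `y = lamC α l` is in `stSpan α l` (`IsHomog.mem_stSpan`, `isHodge_lamC`), `k = l`, reindex `i = d - m`.
-/

open Finset MvPolynomial Pool.Agent.helper17

namespace Pool.Agent.LHC

variable {α : Type*} [DecidableEq α] [Fintype α]

/-- The alternating sum of the root weights. -/
private theorem VanEven_alt_root (P : Finset (Finset α)) (d : ℕ) (hP : 2 ≤ P.card)
    (hd : P.card - 2 ≤ d) (he : Even (oddN P)) (ho : 4 ≤ oddN P) :
    ∑ m ∈ range (d + 1), (-1 : ℚ) ^ (d - m) * rootW P m = 0 := by
  obtain ⟨n, hn⟩ : ∃ n, P.card = n + 2 := ⟨P.card - 2, by omega⟩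
  obtain ⟨r, hr⟩ := he
  have hle : oddN P ≤ P.card := card_filter_le _ _
  set f : ℕ → ℚ := fun j => (oddN P : ℚ) / 2 - 1 - j with hf
  set q := (oddN P - 1) / 2 with hq
  have hnd : n ≤ d := by omega
  have hqn : q ≤ n := by omega
  -- restrict to `m ≤ n`
  have h1 : ∑ m ∈ range (d + 1), (-1 : ℚ) ^ (d - m) * rootW P m
      = ∑ m ∈ range (n + 1), (-1 : ℚ) ^ (d - m) *
        ∑ t ∈ powersetCard (n - m) (range q), ∏ j ∈ t, f j := by
    symm
    have hsub : range (n + 1) ⊆ range (d + 1) := by
      intro x hx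
      rw [mem_range] at hx ⊢
      omega
    rw [← sum_subset hsub (f := fun m => (-1 : ℚ) ^ (d - m) * rootW P m)]
    · apply sum_congr rfl
      intro m hm
      rw [mem_range] at hm
      have e : P.card - 2 - m = n - m := by omega
      unfold rootW
      rw [if_pos (by omega), e]
    · intro m _ hm
      rw [mem_range] at hm
      unfold rootW
      rw [if_neg (by omega), mul_zero]
  have h2 : ∑ m ∈ range (n + 1), (-1 : ℚ) ^ (d - m) *
        ∑ t ∈ powersetCard (n - m) (range q), ∏ j ∈ t, f j
      = ∑ i ∈ range (n + 1), (-1 : ℚ) ^ (d - n) * ∑ t ∈ powersetCard i (range q),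
        ∏ j ∈ t, (-f j) := by
    rw [← sum_range_reflect]
    apply sum_congr rfl
    intro i hi
    rw [mem_range] at hi
    have e1 : d - (n + 1 - 1 - i) = (d - n) + i := by omega
    have e2 : n - (n + 1 - 1 - i) = i := by omega
    rw [e1, e2, pow_add, mul_assoc, mul_sum (a := (-1 : ℚ) ^ i)]
    congr 1
    apply sum_congr rfl
    intro t ht
    rw [mem_powersetCard] at ht
    rw [prod_neg, ht.2]
  have h3 : ∑ i ∈ range (n + 1), ∑ t ∈ powersetCard i (range q), ∏ j ∈ t, (-f j)
      = ∏ j ∈ range q, (1 + (-f j)) := by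
    rw [prod_one_add, sum_powerset, card_range]
    symm
    apply sum_subset
    · intro x hx
      rw [mem_range] at hx ⊢
      omega
    · intro i _ hi
      rw [mem_range] at hi
      rw [powersetCard_eq_empty.mpr (by rw [card_range]; omega), sum_empty]
  rw [h1, h2, ← mul_sum, h3]
  have h4 : ∏ j ∈ range q, (1 + (-f j)) = 0 := by
    apply prod_eq_zero (i := r - 2)
    · rw [mem_range]
      omega
    · simp only [hf]
      rw [hr, Nat.cast_sub (by omega)]
      push_cast
      ring
  rw [h4, mul_zero]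

/-- The potential at an unramified root. -/
private theorem VanEven_pot_root {F : Finset (Finset α)} (hF : Nested F) {g : ℕ}
    (hN : Fintype.card α = 2 * g + 2) (h : oddN (children F univ) ≤ 2) :
    (children F univ).card - 2 + ∑ c ∈ children F univ, pot c ≤ g := by
  have hsum := sum_card_children hF (V := (univ : Finset α)) (by rw [card_univ]; omega)
  have hch := two_le_card_children (F := F) (V := (univ : Finset α)) (by rw [card_univ]; omega)
  have hc : ∀ c ∈ children F univ, c.card + (if Odd c.card then 1 else 0) = 2 * pot c + 2 := by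
    intro c hc
    have := card_pos.mpr (child_nonempty hF hc)
    unfold pot
    split_ifs with h1
    · obtain ⟨k, hk⟩ := h1; omega
    · rw [Nat.not_odd_iff_even] at h1
      obtain ⟨k, hk⟩ := h1; omega
  have hs := sum_congr rfl hc
  rw [sum_add_distrib, sum_add_distrib, hsum, ← mul_sum, sum_const, smul_eq_mul, ← card_filter,
    card_univ] at hs
  change Fintype.card α + oddN (children F univ) = _ at hs
  omega

private theorem VanEven_vw_ne {P : Finset (Finset α)} (h : wv P ≠ 0) : vw P ≠ 0 := by
  unfold wv at h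
  unfold vw
  by_cases h2 : P.card = 2
  · rw [if_pos h2]; exact one_ne_zero
  · rw [if_neg h2] at h ⊢
    by_cases h3 : P.card = 3 ∧ ∀ C ∈ P, Odd C.card
    · rw [if_pos]
      · norm_num
      · refine ⟨h3.1, ?_⟩
        unfold oddCount
        rw [filter_true_of_mem h3.2, h3.1]
    · rw [if_neg h3] at h
      exact absurd rfl h

private theorem VanEven_card {F : Finset (Finset α)} (hF : Nested F) {g : ℕ}
    (hN : Fintype.card α = 2 * g + 2) (ho : oddN (children F univ) ≤ 2)
    (h : ∏ V ∈ F, wv (children F V) ≠ 0) : g ≤ F.card := by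
  have hN2 : 2 ≤ Fintype.card α := by omega
  have h2 : ∀ V ∈ F, vw (children F V) ≠ 0 := fun V hV =>
    VanEven_vw_ne (prod_ne_zero_iff.mp h V hV)
  have h3 := VanEven_pot_root hF hN ho
  have h4 : ∑ V ∈ F, ((children F V).card - 2 + ∑ c ∈ children F V, pot c) ≤ ∑ V ∈ F, pot V :=
    sum_le_sum (fun V hV => pot_vertex hF (hF.two_le V hV) (h2 V hV))
  have h5 := sum_card_children_sub_two hF hN2
  have h6 := sum_children hF hN2 (fun c => pot c)
  have h7 : ∑ c ∈ nodes F, pot c = ∑ V ∈ F, pot V := by
    symm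
    apply sum_subset
    · intro V hV
      exact mem_nodes.mpr (Or.inl hV)
    · intro c hc hcF
      rcases mem_nodes.mp hc with h | h
      · exact absurd h hcF
      · simp [pot, h]
  rw [sum_insert (univ_notMem hF)] at h5 h6
  rw [sum_add_distrib] at h4
  omega

private theorem VanEven_even {F : Finset (Finset α)} (hF : Nested F) {g : ℕ}
    (hN : Fintype.card α = 2 * g + 2) : Even (oddN (children F univ)) := by
  have hsum := sum_card_children hF (V := (univ : Finset α)) (by rw [card_univ]; omega)
  rw [← Nat.not_odd_iff_even]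
  intro h
  have h1 : Odd (∑ C ∈ children F univ, C.card) := by
    rw [odd_sum_iff_odd_card_odd]
    exact h
  rw [hsum, card_univ, hN] at h1
  obtain ⟨k, hk⟩ := h1
  omega

private theorem VanEven_strat {g : ℕ} (hN : Fintype.card α = 2 * g + 2) (hg : 0 < g)
    (h2 : 2 ≤ Fintype.card α) {k : ℕ} (hk : k ≤ g - 1) {F : Finset (Finset α)} (hF : Nested F)
    (hFc : F.card = k) :
    ∑ m ∈ range (2 * g - k + 1), (-1 : ℚ) ^ (2 * g - k - m) *
      degC h2 (lamC α (2 * g - k - m) * (psi α ^ m * strat F)) = 0 := by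
  have h1 : ∀ m ∈ range (2 * g - k + 1), (-1 : ℚ) ^ (2 * g - k - m) *
      degC h2 (lamC α (2 * g - k - m) * (psi α ^ m * strat F))
      = (-1 : ℚ) ^ (2 * g - k - m) * rootW (children F univ) m * ∏ V ∈ F, wv (children F V) := by
    intro m hm
    rw [mem_range] at hm
    rw [degC_psi_strat h2 F hF m (2 * g - k - m) (by omega), mul_assoc]
  rw [sum_congr rfl h1, ← sum_mul]
  by_cases ho : 4 ≤ oddN (children F univ)
  · rw [VanEven_alt_root (children F univ) (2 * g - k)
      (two_le_card_children (by rw [card_univ]; omega)) ?_ (VanEven_even hF hN) ho, zero_mul]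
    have h5 := sum_card_children_sub_two hF h2
    rw [sum_insert (univ_notMem hF)] at h5
    omega
  · have h3 : ∏ V ∈ F, wv (children F V) = 0 := by
      by_contra hne
      have he := VanEven_even hF hN
      have ho2 : oddN (children F univ) ≤ 2 := by
        obtain ⟨r, hr⟩ := he
        omega
      have := VanEven_card hF hN ho2 hne
      omega
    rw [h3, mul_zero]

theorem vanish_even_of_mem {g : ℕ} (hN : Fintype.card α = 2 * g + 2) (hg : 0 < g)
    (h2 : 2 ≤ Fintype.card α) {k : ℕ} (hk : k ≤ g - 1) {y : ChowRing α} (hy : y ∈ stSpan α k) :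
    ∑ m ∈ range (2 * g - k + 1), (-1 : ℚ) ^ (2 * g - k - m) *
      degC h2 (lamC α (2 * g - k - m) * (psi α ^ m * y)) = 0 := by
  unfold stSpan at hy
  induction hy using Submodule.span_induction with
  | mem y hy =>
    obtain ⟨F, hF, hFk, rfl⟩ := hy
    exact VanEven_strat hN hg h2 hk hF hFk
  | zero => simp
  | add x y _ _ hx hy =>
    have : ∀ m ∈ range (2 * g - k + 1), (-1 : ℚ) ^ (2 * g - k - m) *
        degC h2 (lamC α (2 * g - k - m) * (psi α ^ m * (x + y)))
        = (-1 : ℚ) ^ (2 * g - k - m) * degC h2 (lamC α (2 * g - k - m) * (psi α ^ m * x))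
        + (-1 : ℚ) ^ (2 * g - k - m) * degC h2 (lamC α (2 * g - k - m) * (psi α ^ m * y)) := by
      intro m _
      rw [mul_add, mul_add, map_add, mul_add]
    rw [sum_congr rfl this, sum_add_distrib, hx, hy, add_zero]
  | smul c x _ hx =>
    have : ∀ m ∈ range (2 * g - k + 1), (-1 : ℚ) ^ (2 * g - k - m) *
        degC h2 (lamC α (2 * g - k - m) * (psi α ^ m * (c • x)))
        = c * ((-1 : ℚ) ^ (2 * g - k - m) *
          degC h2 (lamC α (2 * g - k - m) * (psi α ^ m * x))) := by
      intro m _
      rw [mul_smul_comm, mul_smul_comm, map_smul, smul_eq_mul]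
      ring
    rw [sum_congr rfl this, ← mul_sum, hx, mul_zero]

theorem van_even {g : ℕ} (hN : Fintype.card α = 2 * g + 2) (hg : 0 < g)
    (h2 : 2 ≤ Fintype.card α) {l : ℕ} (hl : l ≤ g - 1) :
    ∑ i ∈ range (2 * g - l + 1), (-1 : ℚ) ^ i *
      degC h2 (psi α ^ (2 * g - l - i) * (lamC α l * lamC α i)) = 0 := by
  have hy : lamC α l ∈ stSpan α l := IsHomog.mem_stSpan h2 ((isHodge_lamC h2).homog l)
  have h := vanish_even_of_mem hN hg h2 hl hy
  rw [← sum_range_reflect] at h
  rw [← h]
  apply sum_congr rfl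
  intro i hi
  rw [mem_range] at hi
  have e1 : 2 * g - l - (2 * g - l + 1 - 1 - i) = i := by omega
  have e2 : 2 * g - l + 1 - 1 - i = 2 * g - l - i := by omega
  rw [e1, e2]
  congr 2
  ring

end Pool.Agent.LHC
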