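import Pool.Agent.LHC.GenRec
import Pool.Agent.LHC.VanEven
import Pool.Agent.LHC.Ode

/-!
Module LHC-Solve: the pure numbers are the tangent numbers and zero.

`Apol_odd`: for `g ≥ 1` the coefficients of `X^k`, `k ≤ g - 1`, of `Apol (-1) (2g+1)` vanish: by `Apol_coeff`, `Num_sing` the coefficient is
`2^k ∑_l (-2)^l degC (psi^(2g-1-k-l) * (lamC k * lamC l))`, `l < 2g - k`; the terms `l > g` vanish (`Fn_rank`, `Fn_comm`), the rest is
`alternating_vanishing` (helper17/KeelVanish.lean, `isHodge_lamC`) for the tuple `![k]`.  The coefficients for `k > g` vanish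
(`Apol_coeff_rank`).  So `Apol (-1) (2g+1) = C (p g) * X^g`, with `p 0 = 1` (`Apol c 1 = 1`).
`Apol_even`: for `g ≥ 1` the coefficients of `X^k`, `k ≤ g-1`, of `Apol (-1/2) (2g+2)` vanish: the coefficient is
`2^k ∑_l (-1)^l degC (psi^(2g-k-l) * (lamC k * lamC l))`, `l ≤ 2g - k`, which is `van_even`.  So
`Apol (-1/2) (2g+2) = C (q g) * X^g`, `q 0 = 1` (`Fn_two`), and `Apol c 0 = 1`.
Insert this in `Apol_rec` for `n = 2g+3`, `c = -1`: all terms are multiples of `X^g` or `X^(g+1)`; the coefficients of `X^(g+1)` and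
`X^g` are `h1` and `h2` of `ode_solve`.  For `n = 2g+4`, `c = -1/2`: coefficients of `X^(g+1)`, `X^g`: `h3` and `h4` (the term
`h = g+1` of the second sum has the factor `Apol c 0 = 1` and is `ZZ (g+1) (-1/2)^(g+1) X^(g+1)`).
`ZZ 0 = 1` is `Fn_two`.  Then `ode_solve` and `eq_tau`.
-/

open Finset Polynomial

namespace Pool.Agent.LHC

theorem ZZ_zero : ZZ 0 = 1 := by
  unfold ZZ
  simpa using Fn_two

private theorem Solve_one (c : ℚ) : Apol c 1 = 1 := by
  unfold Apol
  rw [if_pos (by norm_num)]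

private theorem Solve_zero (c : ℚ) : Apol c 0 = 1 := by
  unfold Apol
  rw [if_pos (by norm_num)]

private theorem Solve_two (c : ℚ) : (Apol c 2).coeff 0 = 1 := by
  rw [Apol_coeff c 2 0 le_rfl, if_pos (by norm_num)]
  simp [Fn_two]

private theorem Solve_single {P : ℚ[X]} {g : ℕ} (h : ∀ k, k ≠ g → P.coeff k = 0) :
    P = C (P.coeff g) * X ^ g := by
  ext k
  rw [coeff_C_mul, coeff_X_pow]
  by_cases hk : k = g
  · subst hk
    simp
  · rw [h k hk, if_neg hk, mul_zero]

private theorem Solve_odd (g : ℕ) :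
    Apol (-1) (2 * g + 1) = C ((Apol (-1) (2 * g + 1)).coeff g) * X ^ g := by
  rcases Nat.eq_zero_or_pos g with rfl | hg
  · rw [mul_zero, zero_add, Solve_one]
    simp
  refine Solve_single fun k hk => ?_
  rcases lt_or_gt_of_ne hk with h | h
  · have hcard : Fintype.card (Fin (2 * g + 1)) = 2 * g + 1 := Fintype.card_fin _
    have h2 : 2 ≤ Fintype.card (Fin (2 * g + 1)) := by omega
    rw [Apol_coeff _ _ _ (by omega), if_pos (by omega)]
    have hA := Pool.Agent.helper17.alternating_vanishing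
      (Pool.Agent.helper17.isHodge_lamC h2) hcard hg (n := 1) ![k] (by simp; omega)
    have e1 : ∑ t, (![k] : Fin 1 → ℕ) t = k := by simp
    have e2 : ∏ t, Pool.Agent.helper17.lamC (Fin (2 * g + 1)) ((![k] : Fin 1 → ℕ) t) =
        Pool.Agent.helper17.lamC (Fin (2 * g + 1)) k := by simp
    rw [e1, e2] at hA
    have e3 : range (g + 1) ⊆ range (2 * g + 1 - 1 - k) := by
      intro x hx
      rw [mem_range] at hx ⊢
      omega
    rw [← sum_subset e3]
    · have e4 : ∀ l ∈ range (g + 1), (2 : ℚ) ^ (k + l) * Fn (2 * g + 1) (2 * g + 1 - 2 - k - l) k l *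
          (-1) ^ l = 2 ^ k * ((-2 : ℚ) ^ l * (Pool.Agent.helper17.degC h2)
            (Pool.Agent.helper17.psi (Fin (2 * g + 1)) ^ (2 * g - 1 - (k + l)) *
              (Pool.Agent.helper17.lamC (Fin (2 * g + 1)) k *
                Pool.Agent.helper17.lamC (Fin (2 * g + 1)) l))) := by
        intro l _
        unfold Fn
        rw [Num_sing h2, show 2 * g + 1 - 2 - k - l = 2 * g - 1 - (k + l) by omega, pow_add,
          show (-2 : ℚ) = 2 * (-1) by norm_num, mul_pow]
        ring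
      rw [sum_congr rfl e4, ← mul_sum, hA, mul_zero]
    · intro l _ hl
      rw [mem_range] at hl
      rw [Fn_comm, Fn_rank _ _ _ _ (by omega) (by omega)]
      ring
  · exact Apol_coeff_rank _ _ _ (by rcases Nat.eq_zero_or_pos g with h' | h' <;> omega) (by omega)

private theorem Solve_even (g : ℕ) :
    Apol (-1 / 2) (2 * g + 2) = C ((Apol (-1 / 2) (2 * g + 2)).coeff g) * X ^ g := by
  refine Solve_single fun k hk => ?_
  rcases lt_or_gt_of_ne hk with h | h
  · have hcard : Fintype.card (Fin (2 * g + 2)) = 2 * g + 2 := Fintype.card_fin _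
    have h2 : 2 ≤ Fintype.card (Fin (2 * g + 2)) := by omega
    rw [Apol_coeff _ _ _ (by omega), if_pos (by omega)]
    have hA := van_even (α := Fin (2 * g + 2)) hcard (by omega) h2 (l := k) (by omega)
    have e4 : ∀ l ∈ range (2 * g - k + 1), (2 : ℚ) ^ (k + l) *
        Fn (2 * g + 2) (2 * g + 2 - 2 - k - l) k l *
        (-1 / 2) ^ l = 2 ^ k * ((-1 : ℚ) ^ l * (Pool.Agent.helper17.degC h2)
          (Pool.Agent.helper17.psi (Fin (2 * g + 2)) ^ (2 * g - k - l) *
            (Pool.Agent.helper17.lamC (Fin (2 * g + 2)) k *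
              Pool.Agent.helper17.lamC (Fin (2 * g + 2)) l))) := by
      intro l _
      unfold Fn
      rw [Num_sing h2, show 2 * g + 2 - 2 - k - l = 2 * g - k - l by omega, pow_add, div_pow]
      field_simp
    rw [show 2 * g + 2 - 1 - k = 2 * g - k + 1 by omega, sum_congr rfl e4, ← mul_sum, hA,
      mul_zero]
  · exact Apol_coeff_rank _ _ _ (by omega) (by omega)

theorem Apol_odd (g : ℕ) : ∃ r : ℚ, Apol (-1) (2 * g + 1) = C r * X ^ g := ⟨_, Solve_odd g⟩

theorem Apol_even (g : ℕ) : ∃ r : ℚ, Apol (-1 / 2) (2 * g + 2) = C r * X ^ g := ⟨_, Solve_even g⟩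

private noncomputable def Solve_p (g : ℕ) : ℚ := (Apol (-1) (2 * g + 1)).coeff g

private noncomputable def Solve_q (g : ℕ) : ℚ := (Apol (-1 / 2) (2 * g + 2)).coeff g

private theorem Solve_odd' (g : ℕ) : Apol (-1) (2 * g + 1) = C (Solve_p g) * X ^ g := Solve_odd g

private theorem Solve_even' (g : ℕ) :
    Apol (-1 / 2) (2 * g + 2) = C (Solve_q g) * X ^ g := Solve_even g

private theorem Solve_compare {P A B c : ℚ} {g : ℕ}
    (h : C P * X ^ (g + 1) = C A * (X + C c) * X ^ g + C B * (X ^ g : ℚ[X])) :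
    P = A ∧ A * c + B = 0 := by
  have e : C A * (X + C c) * X ^ g + C B * (X ^ g : ℚ[X]) =
      C A * X ^ (g + 1) + C (A * c + B) * X ^ g := by
    rw [C_add, C_mul]
    ring
  rw [e] at h
  constructor
  · have := congrArg (fun p : ℚ[X] => p.coeff (g + 1)) h
    simp only [coeff_add, coeff_C_mul, coeff_X_pow] at this
    simpa using this
  · have := congrArg (fun p : ℚ[X] => p.coeff g) h
    simp only [coeff_add, coeff_C_mul, coeff_X_pow] at this
    simpa using this.symm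

private theorem Solve_h12 (g : ℕ) :
    Solve_p (g + 1) = (∑ h ∈ Icc 1 (g + 1),
      ((2 * g + 1).choose (2 * h - 1) : ℚ) * (-1) ^ (h - 1) * EE h * Solve_p (g + 1 - h)) ∧
    (∑ h ∈ Icc 1 (g + 1),
      ((2 * g + 1).choose (2 * h - 1) : ℚ) * (-1) ^ (h - 1) * EE h * Solve_p (g + 1 - h)) * (-1) +
      ∑ h ∈ range (g + 1), ((2 * g + 1).choose (2 * h) : ℚ) * (-1) ^ h * ZZ h * Solve_p (g - h)
      = 0 := by
  apply Solve_compare (g := g)
  have hrec := Apol_rec (-1) (2 * g + 3) (by omega)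
  have e0 : Apol (-1) (2 * g + 3) = C (Solve_p (g + 1)) * X ^ (g + 1) := by
    have := Solve_odd' (g + 1)
    rwa [show 2 * (g + 1) + 1 = 2 * g + 3 by ring] at this
  rw [e0] at hrec
  rw [hrec]
  congr 1
  · rw [show (2 * g + 3 - 1) / 2 = g + 1 by omega, map_sum, sum_mul, sum_mul]
    refine sum_congr rfl fun h hh => ?_
    rw [mem_Icc] at hh
    have e1 : Apol (-1) (2 * g + 3 - 2 * h) = C (Solve_p (g + 1 - h)) * X ^ (g + 1 - h) := by
      have := Solve_odd' (g + 1 - h)
      rwa [show 2 * (g + 1 - h) + 1 = 2 * g + 3 - 2 * h by omega] at this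
    have e2 : (X : ℚ[X]) ^ g = X ^ (h - 1) * X ^ (g + 1 - h) := by
      rw [← pow_add]
      congr 1
      omega
    rw [e1, e2, show 2 * g + 3 - 2 = 2 * g + 1 by omega]
    simp only [C_mul]
    ring
  · rw [show (2 * g + 3) / 2 = g + 1 by omega, map_sum, sum_mul]
    refine sum_congr rfl fun h hh => ?_
    rw [mem_range] at hh
    have e1 : Apol (-1) (2 * g + 3 - 2 * h - 2) = C (Solve_p (g - h)) * X ^ (g - h) := by
      have := Solve_odd' (g - h)
      rwa [show 2 * (g - h) + 1 = 2 * g + 3 - 2 * h - 2 by omega] at this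
    have e2 : (X : ℚ[X]) ^ g = X ^ h * X ^ (g - h) := by
      rw [← pow_add]
      congr 1
      omega
    rw [e1, e2, show 2 * g + 3 - 2 = 2 * g + 1 by omega]
    simp only [C_mul]
    ring

private theorem Solve_h34 (g : ℕ) :
    Solve_q (g + 1) - ZZ (g + 1) * (-1 / 2) ^ (g + 1) = (∑ h ∈ Icc 1 (g + 1),
      ((2 * g + 2).choose (2 * h - 1) : ℚ) * (-1 / 2) ^ (h - 1) * EE h * Solve_q (g + 1 - h)) ∧
    (∑ h ∈ Icc 1 (g + 1),
      ((2 * g + 2).choose (2 * h - 1) : ℚ) * (-1 / 2) ^ (h - 1) * EE h * Solve_q (g + 1 - h)) *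
        (-1 / 2) +
      ∑ h ∈ range (g + 1), ((2 * g + 2).choose (2 * h) : ℚ) * (-1 / 2) ^ h * ZZ h *
        Solve_q (g - h) = 0 := by
  apply Solve_compare (g := g)
  have hrec := Apol_rec (-1 / 2) (2 * g + 4) (by omega)
  have e0 : Apol (-1 / 2) (2 * g + 4) = C (Solve_q (g + 1)) * X ^ (g + 1) := by
    have := Solve_even' (g + 1)
    rwa [show 2 * (g + 1) + 2 = 2 * g + 4 by ring] at this
  rw [e0, show (2 * g + 4) / 2 = g + 1 + 1 by omega, sum_range_succ,
    show 2 * g + 4 - 2 * (g + 1) - 2 = 0 by omega, Solve_zero,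
    show 2 * g + 4 - 2 = 2 * g + 2 by omega, show 2 * (g + 1) = 2 * g + 2 by ring,
    Nat.choose_self] at hrec
  rw [C_sub, sub_mul, hrec]
  have e5 : (C (((1 : ℕ) : ℚ) * ZZ (g + 1) * (-1 / 2) ^ (g + 1)) : ℚ[X]) * X ^ (g + 1) * 1 =
      C (ZZ (g + 1) * (-1 / 2) ^ (g + 1)) * X ^ (g + 1) := by
    rw [Nat.cast_one, one_mul, mul_one]
  rw [e5, add_sub_assoc, add_sub_cancel_right]
  congr 1
  · rw [show (2 * g + 4 - 1) / 2 = g + 1 by omega, map_sum, sum_mul, sum_mul]
    refine sum_congr rfl fun h hh => ?_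
    rw [mem_Icc] at hh
    have e1 : Apol (-1 / 2) (2 * g + 4 - 2 * h) = C (Solve_q (g + 1 - h)) * X ^ (g + 1 - h) := by
      have := Solve_even' (g + 1 - h)
      rwa [show 2 * (g + 1 - h) + 2 = 2 * g + 4 - 2 * h by omega] at this
    have e2 : (X : ℚ[X]) ^ g = X ^ (h - 1) * X ^ (g + 1 - h) := by
      rw [← pow_add]
      congr 1
      omega
    rw [e1, e2]
    simp only [C_mul]
    ring
  · rw [map_sum, sum_mul]
    refine sum_congr rfl fun h hh => ?_
    rw [mem_range] at hh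
    have e1 : Apol (-1 / 2) (2 * g + 4 - 2 * h - 2) = C (Solve_q (g - h)) * X ^ (g - h) := by
      have := Solve_even' (g - h)
      rwa [show 2 * (g - h) + 2 = 2 * g + 4 - 2 * h - 2 by omega] at this
    have e2 : (X : ℚ[X]) ^ g = X ^ h * X ^ (g - h) := by
      rw [← pow_add]
      congr 1
      omega
    rw [e1, e2]
    simp only [C_mul]
    ring

private theorem Solve_all : (∀ h, 1 ≤ h → ZZ h = 0) ∧ EE 1 = 1 ∧
    ∀ h, 2 ≤ h → EE h =
      ∑ k ∈ Ioo 0 h, ((2 * h - 2).choose (2 * k - 1) : ℚ) * (EE k * EE (h - k)) := by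
  refine ode_solve Solve_p Solve_q EE ZZ ?_ ?_ ZZ_zero (fun g => (Solve_h12 g).1) (fun g => ?_)
    (fun g => ?_) (fun g => ?_)
  · unfold Solve_p
    rw [mul_zero, zero_add, Solve_one]
    simp
  · exact Solve_two _
  · have := (Solve_h12 g).2
    linarith
  · have := (Solve_h34 g).1
    linarith
  · have := (Solve_h34 g).2
    linarith

theorem ZZ_eq_zero (h : ℕ) (hh : 1 ≤ h) : ZZ h = 0 := Solve_all.1 h hh

theorem EE_eq_tau (h : ℕ) (hh : 1 ≤ h) : (EE h : ℝ) = ((2 * h).factorial : ℝ) * tau h :=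
  eq_tau EE Solve_all.2.1 Solve_all.2.2 h hh

end Pool.Agent.LHC
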