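import Pool.Agent.LHC.Chain
import Pool.Agent.LHC.Solve
import Pool.Agent.LHC.TauD

/-!
Module LHC-Link: the Hodge numbers are the chain numbers.

`link`: induction on `m`, for all `n ≥ 1`, `k`, `l` with `m + k + l + 1 = n`:
(a) `coeff k (ZP tau m 0 n) = 2^(k+l) Fn (n+1) m k l`, (b) `coeff k (ZP tau m 1 n) = 2^(k+l) Fe n m k l`, and
(c) both coefficients vanish if `n < m + k + 1`.
`m = 0`: (a) `n = 2h`: `n! gpoly 0 n = (2h)! tau h (1+X) X^(h-1) = EE h (X^(h-1) + X^h)` (`EE_eq_tau`), and `Fn (2h+1) 0 k l` with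
`k + l = 2h-1` vanishes unless `{k,l} = {h,h-1}` (`Fn_rank`, `Fn_comm`).  `n = 1`: `gpoly 0 1 = 1`, `Fn_two`.  `n = 2h+1`, `h ≥ 1`:
`gpoly 0 n = 0`, and `Fn (2h+2) 0 k l`, `k + l = 2h`, vanishes by rank unless `k = l = h`, where it is `ZZ h / 2^(2h) = 0`.
(b) `gpoly 1 (1+n)` is `1` for `n = 1` and `0` otherwise; the same for `Fe n 0`.
Step (a): `Fn_step` for `n + 1` leaves, `s' = s + 1`, `s ∈ Icc 1 (n-1) = Ioo 0 n`: the binomial is `C(n-1, s-1)`, the inner numbers
`2^(i+j) Fn (s+1) 0 i j` are the coefficients of `s! gpoly 0 s` (case `m = 0`), the outer ones are, for even `s`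
(`s' = s+1` odd), `Fn (n-s+1) m` and `ZP m s (n-s) = ZP m 0 (n-s)` (`ZP_period`), and for odd `s`, `Fe (n-s) m` and `ZP m 1 (n-s)`.
Convolution of coefficients: the sum over `i, j` has only terms with `i + j = s - 1`, the others vanish (`Fn_dim`).
Step (b): in `ZP (m+1) 1 n` only `s = 1` contributes (`gpoly 1 (1+s) = 0` for `s ≥ 2`), giving `ZP m 2 (n-1) = ZP m 0 (n-1)`, and
`Fe n (m+1) k l = Fn n m k l` for `n ≥ 2`.
-/

open Finset Polynomial

namespace Pool.Agent.LHC

/-! Auxiliary lemmas -/

theorem Link_gpoly_even {u h : ℕ} (hu : Even u) :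
    gpoly tau u (u + 2 * h) = C (tau h) * (1 + X) * X ^ (h - 1) := by
  have h1 : Even (u + 2 * h) := hu.add (even_two_mul h)
  rw [gpoly, if_pos ⟨hu, h1⟩]
  have : (u + 2 * h - u) / 2 = h := by omega
  rw [this]

/-- Coefficients of the even-even weight. -/
theorem Link_coeff_pair (c : ℝ) (h k : ℕ) (hh : 1 ≤ h) :
    (C c * (1 + X) * X ^ (h - 1) : ℝ[X]).coeff k = if k = h - 1 ∨ k = h then c else 0 := by
  have e1 : (C c * (1 + X) * X ^ (h - 1) : ℝ[X]) = C c * X ^ (h - 1) + C c * X ^ h := by
    have : (X : ℝ[X]) ^ h = X ^ (h - 1) * X := by rw [← pow_succ]; congr 1; omega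
    rw [this]; ring
  rw [e1, coeff_add, coeff_C_mul_X_pow, coeff_C_mul_X_pow]
  by_cases h1 : k = h - 1
  · have h2 : k ≠ h := by omega
    rw [if_pos h1, if_neg h2, if_pos (Or.inl h1), add_zero]
  · by_cases h2 : k = h
    · rw [if_neg h1, if_pos h2, if_pos (Or.inr h2), zero_add]
    · rw [if_neg h1, if_neg h2, if_neg (not_or.2 ⟨h1, h2⟩), add_zero]

/-- The degree of a gap weight of length `s ≥ 1` is at most `s - 1`. -/
theorem Link_gpoly_coeff (u s i : ℕ) (hs : 1 ≤ s) (hi : s ≤ i) :
    (gpoly tau u (u + s)).coeff i = 0 := by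
  by_cases h : Even u ∧ Even (u + s)
  · obtain ⟨hu, hus⟩ := h
    have hes : Even s := (Nat.even_add.1 hus).1 hu
    obtain ⟨h, rfl⟩ := hes
    rw [← two_mul, Link_gpoly_even hu, Link_coeff_pair _ _ _ (by omega), if_neg (by omega)]
  · rw [gpoly, if_neg h]
    split_ifs with h1
    · rw [coeff_one, if_neg (by omega)]
    · rw [coeff_zero]

/-- Vanishing of the coefficients beyond the dimension. -/
theorem Link_vanish (m : ℕ) : ∀ u n k : ℕ, 1 ≤ n → n < m + k + 1 → (ZP tau m u n).coeff k = 0 := by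
  induction m with
  | zero =>
    intro u n k hn hk
    rw [ZP, coeff_C_mul, Link_gpoly_coeff u n k hn (by omega), mul_zero]
  | succ m ih =>
    intro u n k hn hk
    rw [ZP, finsetSum_coeff]
    apply sum_eq_zero
    intro s hs
    rw [mem_Ioo] at hs
    rw [mul_assoc, coeff_C_mul, coeff_mul]
    apply mul_eq_zero_of_right
    apply sum_eq_zero
    intro x hx
    rw [HasAntidiagonal.mem_antidiagonal] at hx
    by_cases h1 : s ≤ x.1
    · rw [Link_gpoly_coeff u s x.1 (by omega) h1, zero_mul]
    · rw [ih (u + s) (n - s) x.2 (by omega) (by omega), mul_zero]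

theorem Link_period (m u n : ℕ) : ZP tau m u n = ZP tau m (u % 2) n := by
  induction u using Nat.strong_induction_on with
  | _ u ih =>
    by_cases hu : u < 2
    · rw [Nat.mod_eq_of_lt hu]
    · obtain ⟨v, rfl⟩ : ∃ v, u = v + 2 := ⟨u - 2, by omega⟩
      rw [ZP_period, ih v (by omega), Nat.add_mod_right]

/-- The case `m = 0`, root of even parity. -/
theorem Link_base (n k l : ℕ) (hn : 1 ≤ n) (hkl : k + l + 1 = n) :
    (ZP tau 0 0 n).coeff k = ((2 ^ (k + l) * Fn (n + 1) 0 k l : ℚ) : ℝ) := by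
  rw [ZP, coeff_C_mul]
  rcases Nat.even_or_odd n with he | ho
  · obtain ⟨h, rfl⟩ := he
    have hh : 1 ≤ h := by omega
    have e1 : gpoly tau 0 (0 + (h + h)) = C (tau h) * (1 + X) * X ^ (h - 1) := by
      rw [← two_mul]; exact Link_gpoly_even (by decide)
    rw [e1, Link_coeff_pair _ _ _ hh]
    have hE := EE_eq_tau h hh
    rw [← two_mul]
    by_cases h1 : k = h
    · have h2 : l = h - 1 := by omega
      rw [if_pos (Or.inr h1), ← hE, EE, h1, h2]
      congr 3
      omega
    · by_cases h2 : k = h - 1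
      · have h3 : l = h := by omega
        rw [if_pos (Or.inl h2), ← hE, EE, h2, h3, Fn_comm]
        congr 3
        omega
      · rw [if_neg (not_or.2 ⟨h2, h1⟩), mul_zero]
        by_cases h3 : h < k
        · rw [Fn_rank _ _ _ _ (by omega) (by omega), mul_zero, Rat.cast_zero]
        · rw [Fn_comm, Fn_rank _ _ _ _ (by omega) (by omega), mul_zero, Rat.cast_zero]
  · obtain ⟨h, rfl⟩ := ho
    by_cases hh : h = 0
    · subst hh
      have hk : k = 0 := by omega
      have hl : l = 0 := by omega
      subst hk hl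
      have e1 : gpoly tau 0 (0 + (2 * 0 + 1)) = 1 := by
        rw [gpoly, if_neg (by decide), if_pos (by rfl)]
      rw [e1]
      have := Fn_two
      simp [this]
    · have e1 : gpoly tau 0 (0 + (2 * h + 1)) = 0 := by
        rw [gpoly, if_neg, if_neg]
        · omega
        · rintro ⟨-, h2⟩
          rw [zero_add, Nat.even_iff] at h2
          omega
      rw [e1, coeff_zero, mul_zero]
      have : Fn (2 * h + 1 + 1) 0 k l = 0 := by
        by_cases h1 : h < k
        · exact Fn_rank _ _ _ _ (by omega) (by omega)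
        · by_cases h2 : k < h
          · rw [Fn_comm]; exact Fn_rank _ _ _ _ (by omega) (by omega)
          · have h3 : k = h := by omega
            have h4 : l = h := by omega
            have hZ := ZZ_eq_zero h (by omega)
            rw [ZZ] at hZ
            rw [h3, h4]
            exact (mul_eq_zero.1 hZ).resolve_left (by positivity)
      rw [this, mul_zero, Rat.cast_zero]

/-- The case `m = 0`, root of odd parity. -/
theorem Link_base_one (n k l : ℕ) (hn : 1 ≤ n) (h : k + l + 1 = n) :
    (ZP tau 0 1 n).coeff k = ((2 ^ (k + l) * Fe n 0 k l : ℚ) : ℝ) := by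
  rw [ZP, coeff_C_mul, gpoly, if_neg (by rintro ⟨h1, -⟩; exact absurd h1 (by decide))]
  by_cases h1 : n = 1
  · subst h1
    have hk : k = 0 := by omega
    have hl : l = 0 := by omega
    subst hk hl
    rw [if_pos (by rfl)]
    simp [Fe]
  · rw [if_neg (by omega), coeff_zero, mul_zero, Fe, if_neg (fun h2 => h1 h2.1), mul_zero,
      Rat.cast_zero]

/-- The product formula for one `s`. -/
theorem Link_term (m n k l s : ℕ) (hs : s ∈ Ioo 0 n) (h : m + 1 + k + l + 1 = n)
    (A : ℕ → ℕ → ℚ) (Z : ℝ[X])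
    (hZ : ∀ i' l', m + i' + l' + 1 = n - s → Z.coeff i' = ((2 ^ (i' + l') * A i' l' : ℚ) : ℝ))
    (hZ0 : ∀ i', n - s < m + i' + 1 → Z.coeff i' = 0) :
    (C (s.factorial : ℝ) * gpoly tau 0 s * Z).coeff k =
      ((2 ^ (k + l) * ∑ i ∈ range (k + 1), ∑ j ∈ range (l + 1), Fn (s + 1) 0 i j *
        A (k - i) (l - j) : ℚ) : ℝ) := by
  rw [mem_Ioo] at hs
  have hP : (C (s.factorial : ℝ) * gpoly tau 0 s : ℝ[X]) = ZP tau 0 0 s := by
    rw [ZP, zero_add]
  rw [hP, coeff_mul, Nat.sum_antidiagonal_eq_sum_range_succ_mk, mul_sum, Rat.cast_sum]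
  apply sum_congr rfl
  intro i hi
  rw [mem_range] at hi
  dsimp only
  by_cases h1 : s ≤ i
  · rw [Link_vanish 0 0 s i (by omega) (by omega), zero_mul]
    rw [sum_eq_zero, mul_zero, Rat.cast_zero]
    intro j _
    rw [Fn_dim _ _ _ _ (by omega) (by omega), zero_mul]
  · have e1 := Link_base s i (s - 1 - i) (by omega) (by omega)
    by_cases h2 : s - 1 - i ≤ l
    · have e2 := hZ (k - i) (l - (s - 1 - i)) (by omega)
      rw [e1, e2, sum_eq_single (s - 1 - i)]
      · rw [← Rat.cast_mul]
        congr 1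
        have : (2 : ℚ) ^ (k + l) = 2 ^ (i + (s - 1 - i)) * 2 ^ (k - i + (l - (s - 1 - i))) := by
          rw [← pow_add]; congr 1; omega
        rw [this]; ring
      · intro j _ hj
        rw [Fn_dim _ _ _ _ (by omega) (by omega), zero_mul]
      · intro hj
        exact absurd (mem_range.2 (by omega)) hj
    · rw [hZ0 (k - i) (by omega), mul_zero]
      rw [sum_eq_zero, mul_zero, Rat.cast_zero]
      intro j hj
      rw [mem_range] at hj
      rw [Fn_dim _ _ _ _ (by omega) (by omega), zero_mul]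

theorem link (m n k l : ℕ) (hn : 1 ≤ n) (h : m + k + l + 1 = n) :
    (ZP tau m 0 n).coeff k = ((2 ^ (k + l) * Fn (n + 1) m k l : ℚ) : ℝ) ∧
    (ZP tau m 1 n).coeff k = ((2 ^ (k + l) * Fe n m k l : ℚ) : ℝ) := by
  induction m generalizing n k l with
  | zero => exact ⟨Link_base n k l hn (by omega), Link_base_one n k l hn (by omega)⟩
  | succ m ih =>
    constructor
    · rw [ZP, finsetSum_coeff, Fn_step (n + 1) (by omega)]
      have hI : Icc 2 (n + 1 - 1) = (Ioo 0 n).image (fun s => s + 1) := by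
        ext x
        simp only [mem_Icc, mem_image, mem_Ioo]
        constructor
        · intro hx; exact ⟨x - 1, by omega, by omega⟩
        · rintro ⟨a, ha, rfl⟩; omega
      rw [hI, sum_image (by intro a _ b _ hab; simpa using hab), mul_sum, Rat.cast_sum]
      apply sum_congr rfl
      intro s hs
      have hs' := mem_Ioo.1 hs
      have e1 : n + 1 - 2 = n - 1 := by omega
      have e2 : s + 1 - 2 = s - 1 := by omega
      rw [e1, e2]
      have e3 : (C (((n - 1).choose (s - 1) : ℝ) * (s.factorial : ℝ)) * gpoly tau 0 (0 + s) *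
          ZP tau m (0 + s) (n - s)) = C (((n - 1).choose (s - 1) : ℝ)) *
          (C (s.factorial : ℝ) * gpoly tau 0 s * ZP tau m s (n - s)) := by
        rw [zero_add, C_mul]; ring
      rw [e3, coeff_C_mul]
      have e4 : ((2 : ℚ) ^ (k + l) * (((n - 1).choose (s - 1) : ℚ) *
          ∑ i ∈ range (k + 1), ∑ j ∈ range (l + 1), Fn (s + 1) 0 i j *
          (if Odd (s + 1) then Fn (n + 1 - (s + 1) + 1) m (k - i) (l - j)
            else Fe (n + 1 - (s + 1)) m (k - i) (l - j)))) =
          ((n - 1).choose (s - 1) : ℚ) * (2 ^ (k + l) *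
          ∑ i ∈ range (k + 1), ∑ j ∈ range (l + 1), Fn (s + 1) 0 i j *
          (if Odd (s + 1) then Fn (n + 1 - (s + 1) + 1) m (k - i) (l - j)
            else Fe (n + 1 - (s + 1)) m (k - i) (l - j))) := by ring
      rw [e4, Rat.cast_mul, Rat.cast_natCast]
      congr 1
      rw [Nat.add_sub_add_right]
      rcases Nat.even_or_odd s with he | ho
      · have hodd : Odd (s + 1) := he.add_one
        have hp : ZP tau m s (n - s) = ZP tau m 0 (n - s) := by
          rw [Link_period, Nat.even_iff.1 he]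
        simp only [if_pos hodd]
        rw [hp]
        exact Link_term m n k l s hs h (fun a b => Fn (n - s + 1) m a b) _
          (fun i' l' hh => (ih (n - s) i' l' (by omega) hh).1)
          (fun i' hh => Link_vanish m 0 (n - s) i' (by omega) hh)
      · have hodd : ¬ Odd (s + 1) := by
          rw [Nat.not_odd_iff_even]; exact ho.add_one
        have hp : ZP tau m s (n - s) = ZP tau m 1 (n - s) := by
          rw [Link_period, Nat.odd_iff.1 ho]
        simp only [if_neg hodd]
        rw [hp]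
        exact Link_term m n k l s hs h (fun a b => Fe (n - s) m a b) _
          (fun i' l' hh => (ih (n - s) i' l' (by omega) hh).2)
          (fun i' hh => Link_vanish m 1 (n - s) i' (by omega) hh)
    · rw [ZP, sum_eq_single 1]
      · have e1 : gpoly tau 1 (1 + 1) = 1 := by
          rw [gpoly, if_neg (by rintro ⟨h1, -⟩; exact absurd h1 (by decide)), if_pos rfl]
        rw [e1, Link_period m (1 + 1) (n - 1)]
        simp only [Nat.sub_self, Nat.choose_zero_right, Nat.cast_one, Nat.factorial_one, mul_one,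
          map_one, one_mul]
        rw [show (1 + 1) % 2 = 0 by rfl, (ih (n - 1) k l (by omega) (by omega)).1, Fe,
          if_pos (by omega), Nat.sub_add_cancel hn]
      · intro s hs hs1
        rw [mem_Ioo] at hs
        have e1 : gpoly tau 1 (1 + s) = 0 := by
          rw [gpoly, if_neg (by rintro ⟨h1, -⟩; exact absurd h1 (by decide)), if_neg (by omega)]
        rw [e1, mul_zero, zero_mul]
      · intro h1
        exact absurd (mem_Ioo.2 (by omega)) h1

/-- The numbers of the model are the Hodge numbers. -/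
theorem model_eq (N l i m : ℕ) (hN : 2 ≤ N) (h : m + l + i + 1 = N) :
    ((Dop N (psi0 N)) ^ m) (WW tau N l) ∅ = ((2 ^ (l + i) * Fn (N + 1) m l i : ℚ) : ℝ) := by
  rw [chain_formula tauData hN l m, (link m N l i (by omega) h).1]

end Pool.Agent.LHC
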