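import Pool.Agent.LHC.Defs

/-!
Module LHC-Nbr: basic facts about the neighbours `lo σ s`, `hi N σ s` and about `dev`.

All statements are elementary: `lo σ s` is the largest element of `insert 0 σ` below `s`, and
(for `σ ⊆ Ioo 0 N`, `s < N`) `hi N σ s` is the smallest element of `insert N σ` above `s`.
For `dev_insert`: with `u = lo σ t`, `v = hi N σ t`.
If `u < s < t` then in `insert s σ` the neighbours of `t` are `s, v`, and the neighbours of `s` in
`σ` are `u, v`; compute
`f t - ((v-t) f s + (t-s) f v)/(v-s)` and compare with `dev σ f t - (v-t)/(v-s) dev σ f s`.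
If `t < s < v` the neighbours of `t` are `u, s`.  Otherwise they do not change.
-/

open Finset

namespace Pool.Agent.LHC

variable {N : ℕ} {σ : Finset ℕ} {s t : ℕ}

theorem lo_lt (hs : 0 < s) : lo σ s < s := by
  unfold lo
  rw [Finset.sup_lt_iff (by simpa using hs)]
  intro b hb
  exact (mem_filter.mp hb).2

theorem lo_mem : lo σ s ∈ insert 0 σ := by
  unfold lo
  rcases (σ.filter (fun t => t < s)).eq_empty_or_nonempty with h | h
  · rw [h]; simp
  · obtain ⟨b, hb, hbe⟩ := Finset.exists_mem_eq_sup _ h (id : ℕ → ℕ)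
    rw [hbe]
    exact mem_insert_of_mem (mem_filter.mp hb).1

theorem lt_hi (hs : s < N) : s < hi N σ s := by
  unfold hi
  split_ifs with h
  · exact (mem_filter.mp (min'_mem _ h)).2
  · exact hs

theorem hi_mem : hi N σ s ∈ insert N σ := by
  unfold hi
  split_ifs with h
  · exact mem_insert_of_mem (mem_filter.mp (min'_mem _ h)).1
  · exact mem_insert_self _ _

theorem hi_le (hσ : σ ⊆ Ioo 0 N) : hi N σ s ≤ N := by
  rcases mem_insert.mp (hi_mem (N := N) (σ := σ) (s := s)) with h | h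
  · exact h.le
  · exact (mem_Ioo.mp (hσ h)).2.le

theorem le_lo (ht : t ∈ σ) (hts : t < s) : t ≤ lo σ s := by
  unfold lo
  exact Finset.le_sup (f := id) (mem_filter.mpr ⟨ht, hts⟩)

theorem hi_le_of_mem (ht : t ∈ σ) (hst : s < t) : hi N σ s ≤ t := by
  unfold hi
  have hm : t ∈ σ.filter (fun t => s < t) := mem_filter.mpr ⟨ht, hst⟩
  rw [dif_pos ⟨t, hm⟩]
  exact min'_le _ _ hm

/-- No element of `σ` strictly between the neighbours of `s`, except possibly `s`. -/
theorem notMem_between (h1 : lo σ s < t) (h2 : t < hi N σ s) (hts : t ≠ s) : t ∉ σ := by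
  intro ht
  rcases lt_or_gt_of_ne hts with h | h
  · exact absurd (le_lo ht h) (not_le.mpr h1)
  · exact absurd (hi_le_of_mem (N := N) ht h) (not_le.mpr h2)

theorem lo_eq {u : ℕ} (hu : u ∈ insert 0 σ) (hus : u < s) (h : ∀ t ∈ σ, t < s → t ≤ u) :
    lo σ s = u := by
  apply le_antisymm
  · rcases mem_insert.mp (lo_mem (σ := σ) (s := s)) with h1 | h1
    · rw [h1]; exact Nat.zero_le _
    · exact h _ h1 (lo_lt (lt_of_le_of_lt (Nat.zero_le _) hus))
  · rcases mem_insert.mp hu with h1 | h1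
    · rw [h1]; exact Nat.zero_le _
    · exact le_lo h1 hus

theorem hi_eq {v : ℕ} (hσ : σ ⊆ Ioo 0 N) (hv : v ∈ insert N σ) (hsv : s < v)
    (h : ∀ t ∈ σ, s < t → v ≤ t) : hi N σ s = v := by
  have hvN : v ≤ N := by
    rcases mem_insert.mp hv with h1 | h1
    · exact h1.le
    · exact (mem_Ioo.mp (hσ h1)).2.le
  apply le_antisymm
  · rcases mem_insert.mp hv with h1 | h1
    · rw [h1]; exact hi_le hσ
    · exact hi_le_of_mem h1 hsv
  · rcases mem_insert.mp (hi_mem (N := N) (σ := σ) (s := s)) with h1 | h1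
    · rw [h1]; exact hvN
    · exact h _ h1 (lt_hi (lt_of_lt_of_le hsv hvN))

theorem lo_insert : lo (insert t σ) s = if t < s then max t (lo σ s) else lo σ s := by
  unfold lo
  rw [filter_insert]
  split_ifs with h
  · rw [sup_insert]; rfl
  · rfl

theorem hi_insert (hσ : σ ⊆ Ioo 0 N) (ht : t < N) :
    hi N (insert t σ) s = if s < t then min t (hi N σ s) else hi N σ s := by
  split_ifs with h
  · -- s < t
    have hne : ((insert t σ).filter (fun x => s < x)).Nonempty :=
      ⟨t, mem_filter.mpr ⟨mem_insert_self _ _, h⟩⟩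
    have hsN : s < N := h.trans ht
    have e1 : hi N (insert t σ) s = ((insert t σ).filter (fun x => s < x)).min' hne := by
      unfold hi; rw [dif_pos hne]
    rw [e1]
    apply le_antisymm
    · apply le_min
      · exact min'_le _ _ (mem_filter.mpr ⟨mem_insert_self _ _, h⟩)
      · rcases mem_insert.mp (hi_mem (N := N) (σ := σ) (s := s)) with h1 | h1
        · rw [h1]
          exact (min'_le _ t (mem_filter.mpr ⟨mem_insert_self _ _, h⟩)).trans ht.le
        · exact min'_le _ _ (mem_filter.mpr ⟨mem_insert_of_mem h1, lt_hi hsN⟩)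
    · apply le_min'
      intro y hy
      obtain ⟨hy1, hy2⟩ := mem_filter.mp hy
      rcases mem_insert.mp hy1 with h2 | h2
      · rw [h2]; exact min_le_left _ _
      · exact (min_le_right _ _).trans (hi_le_of_mem h2 hy2)
  · have : (insert t σ).filter (fun x => s < x) = σ.filter (fun x => s < x) := by
      rw [filter_insert, if_neg h]
    unfold hi
    simp only [this]

/-- Two points of the same gap have the same neighbours. -/
theorem lo_eq_of_between (hσ : σ ⊆ Ioo 0 N) (hs : s ∉ σ) (h1 : lo σ s < t) (h2 : t < hi N σ s)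
    (hsN : s ∈ Ioo 0 N) : lo σ t = lo σ s ∧ hi N σ t = hi N σ s := by
  have hs0 := (mem_Ioo.mp hsN).1
  have hsN' := (mem_Ioo.mp hsN).2
  constructor
  · refine lo_eq lo_mem h1 (fun x hx hxt => ?_)
    by_contra hlt
    rw [not_le] at hlt
    rcases lt_trichotomy x s with h | h | h
    · exact absurd (le_lo hx h) (not_le.mpr hlt)
    · exact hs (h ▸ hx)
    · exact absurd (hi_le_of_mem (N := N) hx h) (not_le.mpr (hxt.trans h2))
  · refine hi_eq hσ hi_mem h2 (fun x hx htx => ?_)
    by_contra hlt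
    rw [not_le] at hlt
    rcases lt_trichotomy x s with h | h | h
    · exact absurd (le_lo hx h) (not_le.mpr (h1.trans htx))
    · exact hs (h ▸ hx)
    · exact absurd (hi_le_of_mem (N := N) hx h) (not_le.mpr hlt)

/-- A function supported at one point outside `σ`. -/
theorem dev_single (hσ : σ ⊆ Ioo 0 N) (hs : s ∈ Ioo 0 N \ σ) (ht : t ∈ Ioo 0 N \ σ) :
    dev N σ (Pi.single s 1) t = if t = s then 1 else 0 := by
  obtain ⟨hs1, hs2⟩ := mem_sdiff.mp hs
  have h0 : (Pi.single s (1 : ℝ) : ℕ → ℝ) (lo σ t) = 0 := by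
    apply Pi.single_eq_of_ne
    intro he
    rcases mem_insert.mp (lo_mem (σ := σ) (s := t)) with h1 | h1
    · rw [h1] at he
      exact absurd he (mem_Ioo.mp hs1).1.ne
    · exact hs2 (he ▸ h1)
  have h1 : (Pi.single s (1 : ℝ) : ℕ → ℝ) (hi N σ t) = 0 := by
    apply Pi.single_eq_of_ne
    intro he
    rcases mem_insert.mp (hi_mem (N := N) (σ := σ) (s := t)) with h1 | h1
    · rw [h1] at he
      exact absurd he (mem_Ioo.mp hs1).2.ne'
    · exact hs2 (he ▸ h1)
  unfold dev
  rw [h0, h1, mul_zero, mul_zero, add_zero, zero_div, sub_zero, Pi.single_apply]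

private theorem Nbr_ne {u v : ℕ} (h : u < v) : (v : ℝ) - u ≠ 0 := by
  have : (u : ℝ) < v := by exact_mod_cast h
  exact (sub_pos.mpr this).ne'

theorem dev_insert (hσ : σ ⊆ Ioo 0 N) (f : ℕ → ℝ) (hs : s ∈ Ioo 0 N \ σ)
    (ht : t ∈ Ioo 0 N \ σ) (hts : t ≠ s) :
    dev N (insert s σ) f t =
      if lo σ t < s ∧ s < t then
        dev N σ f t - dev N σ f s * (((hi N σ t : ℝ) - t) / ((hi N σ t : ℝ) - s))
      else if t < s ∧ s < hi N σ t then
        dev N σ f t - dev N σ f s * (((t : ℝ) - lo σ t) / ((s : ℝ) - lo σ t))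
      else dev N σ f t := by
  obtain ⟨hs1, hs2⟩ := mem_sdiff.mp hs
  obtain ⟨ht1, ht2⟩ := mem_sdiff.mp ht
  have hs0 := (mem_Ioo.mp hs1).1
  have hsN := (mem_Ioo.mp hs1).2
  have ht0 := (mem_Ioo.mp ht1).1
  have htN := (mem_Ioo.mp ht1).2
  have hlt := lo_lt (σ := σ) ht0
  have hht := lt_hi (σ := σ) htN
  split_ifs with h h'
  · obtain ⟨ha, hb⟩ := h
    obtain ⟨e1, e2⟩ := lo_eq_of_between hσ ht2 ha (hb.trans hht) ht1
    have e3 : lo (insert s σ) t = s := by
      rw [lo_insert, if_pos hb]; exact max_eq_left ha.le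
    have e4 : hi N (insert s σ) t = hi N σ t := by
      rw [hi_insert hσ hsN, if_neg (not_lt.mpr hb.le)]
    unfold dev
    rw [e1, e2, e3, e4]
    have n1 := Nbr_ne (hb.trans hht)
    have n2 := Nbr_ne (hlt.trans hht)
    field_simp
    ring
  · obtain ⟨ha, hb⟩ := h'
    obtain ⟨e1, e2⟩ := lo_eq_of_between hσ ht2 (hlt.trans ha) hb ht1
    have e3 : lo (insert s σ) t = lo σ t := by
      rw [lo_insert, if_neg (not_lt.mpr ha.le)]
    have e4 : hi N (insert s σ) t = s := by
      rw [hi_insert hσ hsN, if_pos ha]; exact min_eq_left hb.le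
    unfold dev
    rw [e1, e2, e3, e4]
    have n1 := Nbr_ne (hlt.trans ha)
    have n2 := Nbr_ne (hlt.trans hht)
    field_simp
    ring
  · have e3 : lo (insert s σ) t = lo σ t := by
      rw [lo_insert]
      split_ifs with h1
      · have : s ≤ lo σ t := by
          by_contra hc
          exact h ⟨not_le.mp hc, h1⟩
        exact max_eq_right this
      · rfl
    have e4 : hi N (insert s σ) t = hi N σ t := by
      rw [hi_insert hσ hsN]
      split_ifs with h1
      · have : hi N σ t ≤ s := by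
          by_contra hc
          exact h' ⟨h1, not_le.mp hc⟩
        exact min_eq_right this
      · rfl
    unfold dev
    rw [e3, e4]

/-- Exact value of the deviation of the cotangent class, auxiliary form. -/
private theorem Nbr_psi0 (hN : 1 ≤ N) (hσ : σ ⊆ Ioo 0 N) (hs : s ∈ Ioo 0 N \ σ) :
    dev N σ (psi0 N) s =
      if hi N σ s = N then ((s : ℝ) - lo σ s) / ((N : ℝ) - lo σ s) else 0 := by
  obtain ⟨hs1, hs2⟩ := mem_sdiff.mp hs
  have hs0 := (mem_Ioo.mp hs1).1
  have hsN := (mem_Ioo.mp hs1).2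
  have hlt := lo_lt (σ := σ) hs0
  have hht := lt_hi (σ := σ) hsN
  have hhi := hi_le (s := s) hσ
  have hN0 : (N : ℝ) ≠ 0 := by
    have : (0 : ℝ) < N := by exact_mod_cast hN
    exact this.ne'
  have e1 : psi0 N s = (s : ℝ) / N := if_pos hsN
  have e2 : psi0 N (lo σ s) = (lo σ s : ℝ) / N := if_pos (hlt.trans hsN)
  have n1 := Nbr_ne (hlt.trans hht)
  unfold dev
  split_ifs with h
  · have e3 : psi0 N (hi N σ s) = 0 := by
      rw [h]; exact if_neg (lt_irrefl N)
    rw [e1, e2, e3, h]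
    rw [h] at n1
    field_simp
    ring
  · have e3 : psi0 N (hi N σ s) = (hi N σ s : ℝ) / N := if_pos (lt_of_le_of_ne hhi h)
    rw [e1, e2, e3]
    field_simp
    ring

/-- Deviation of the cotangent class. -/
theorem dev_psi0_nonneg (hN : 1 ≤ N) (hσ : σ ⊆ Ioo 0 N) (hs : s ∈ Ioo 0 N \ σ) :
    0 ≤ dev N σ (psi0 N) s := by
  rw [Nbr_psi0 hN hσ hs]
  obtain ⟨hs1, hs2⟩ := mem_sdiff.mp hs
  have hs0 := (mem_Ioo.mp hs1).1
  have hsN := (mem_Ioo.mp hs1).2
  have hlt : (lo σ s : ℝ) < s := by exact_mod_cast lo_lt (σ := σ) hs0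
  have hsN' : (s : ℝ) < N := by exact_mod_cast hsN
  split_ifs with h
  · exact div_nonneg (by linarith) (by linarith)
  · exact le_refl _

/-- Exact value of the deviation of the cotangent class: it is supported on the last gap. -/
theorem dev_psi0 (hN : 1 ≤ N) (hσ : σ ⊆ Ioo 0 N) (hs : s ∈ Ioo 0 N \ σ) :
    dev N σ (psi0 N) s =
      if hi N σ s = N then ((s : ℝ) - lo σ s) / ((N : ℝ) - lo σ s) else 0 :=
  Nbr_psi0 hN hσ hs

/-- The concave function `s (N - s)` has positive deviation. -/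
theorem dev_kappa_pos (hσ : σ ⊆ Ioo 0 N) (hs : s ∈ Ioo 0 N \ σ) :
    0 < dev N σ (fun x => (x : ℝ) * ((N : ℝ) - x)) s := by
  obtain ⟨hs1, hs2⟩ := mem_sdiff.mp hs
  have hs0 := (mem_Ioo.mp hs1).1
  have hsN := (mem_Ioo.mp hs1).2
  have hlt := lo_lt (σ := σ) hs0
  have hht := lt_hi (σ := σ) hsN
  have hlt' : (lo σ s : ℝ) < s := by exact_mod_cast hlt
  have hht' : (s : ℝ) < hi N σ s := by exact_mod_cast hht
  have n1 := Nbr_ne (hlt.trans hht)
  have : dev N σ (fun x => (x : ℝ) * ((N : ℝ) - x)) s =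
      ((s : ℝ) - lo σ s) * ((hi N σ s : ℝ) - s) := by
    unfold dev
    field_simp
    ring
  rw [this]
  exact mul_pos (by linarith) (by linarith)

end Pool.Agent.LHC
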