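import Pool.Agent.LHC.GapIns

/-!
Module LHC-PosIff: positivity of the weight `WW`  (all statements checked by computer).

`Gp_nonneg`: every factor is `≥ 0` (`u < hi N σ u` for `u ∈ insert 0 σ`, two even numbers `u < v`
give `(v-u)/2 ≥ 1`, `TauData.pos`).
`Gp_pos_iff`: the product is positive iff every factor is, that is, iff no gap `(u, v)` with an odd
end is longer than `1`.  `Full → positive`: if `u` is odd then `u ∈ σ` (as `0` is even), so
`u + 1 ∈ insert N σ` and `hi N σ u = u + 1`; if `u` is even and `v = hi N σ u` is odd: either `v ∈ σ`, so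
`v - 1 ∈ insert 0 σ`, so `u = v - 1`; or `v = N` odd, `N - 1 ∈ insert 0 σ`, so `u = N - 1`.  The converse is
similar (look at the gaps on both sides of an odd element, and at the last gap if `N` is odd).
`pp_full`: the `σ.card + 1` gaps of a full set: `pp` of them have two even ends; the others are
unit gaps: one starting at each odd element, one ending at each odd element, and the last one if `N` is
odd.  `WW_pos_iff`: with `p = pp`, `e = ee`, `g = N/2`, `α = l + e + p - g`, `binZ p α > 0` iff
`0 ≤ α ≤ p`; for full `σ` insert `pp_full` (and `N = 2g` or `2g+1`): `α ≤ p` iff `e + l ≤ g`,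
and `0 ≤ α` iff `e + N ≤ l + |σ| + 1 + g`.
-/

open Finset

namespace Pool.Agent.LHC

variable {N : ℕ} {σ : Finset ℕ} {τ : ℕ → ℝ}

theorem gapW_nonneg (hτ : TauData τ) {u v : ℕ} (huv : u < v) : 0 ≤ gapW τ u v := by
  unfold gapW
  split_ifs with h1 h2
  · have h3 : 1 ≤ (v - u) / 2 := by
      obtain ⟨a, ha⟩ := h1.1
      obtain ⟨b, hb⟩ := h1.2
      omega
    exact (hτ.pos _ h3).le
  · exact zero_le_one
  · exact le_refl _

theorem PosIff_lt (hσ : σ ⊆ Ioo 0 N) (hN : 2 ≤ N) {u : ℕ} (hu : u ∈ insert 0 σ) : u < N := by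
  rcases mem_insert.1 hu with h | h
  · omega
  · exact (mem_Ioo.1 (hσ h)).2

theorem PosIff_gap (hτ : TauData τ) {u v : ℕ} (huv : u < v) :
    0 < gapW τ u v ↔ (Even u ∧ Even v) ∨ v = u + 1 := by
  unfold gapW
  split_ifs with h1 h2
  · have h3 : 1 ≤ (v - u) / 2 := by
      obtain ⟨a, ha⟩ := h1.1
      obtain ⟨b, hb⟩ := h1.2
      omega
    exact ⟨fun _ => Or.inl h1, fun _ => hτ.pos _ h3⟩
  · exact ⟨fun _ => Or.inr h2, fun _ => zero_lt_one⟩
  · constructor
    · intro h
      exact absurd h (lt_irrefl _)
    · intro h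
      rcases h with h | h
      · exact absurd h h1
      · exact absurd h h2

theorem Gp_nonneg (hτ : TauData τ) (hσ : σ ⊆ Ioo 0 N) (hN : 2 ≤ N) : 0 ≤ Gp τ N σ := by
  unfold Gp
  exact prod_nonneg fun u hu => gapW_nonneg hτ (lt_hi (PosIff_lt hσ hN hu))

theorem PosIff_full (hN : 2 ≤ N) (hσ : σ ⊆ Ioo 0 N) :
    (∀ u ∈ insert 0 σ, (Even u ∧ Even (hi N σ u)) ∨ hi N σ u = u + 1) ↔ Full N σ := by
  constructor
  · intro h
    have key : ∀ v ∈ insert N σ, Odd v → v - 1 ∈ insert 0 σ := by
      intro v hv hvo
      have hv0 : 0 < v := hvo.pos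
      have h1 : hi N σ (lo σ v) = v := by
        refine hi_eq hσ hv (lo_lt hv0) ?_
        intro t ht hut
        by_contra h2
        exact absurd (le_lo ht (not_le.1 h2)) (not_le.2 hut)
      have h2 := h (lo σ v) lo_mem
      rw [h1] at h2
      rcases h2 with h2 | h2
      · exact absurd h2.2 (Nat.not_even_iff_odd.2 hvo)
      · have h3 : v - 1 = lo σ v := by omega
        rw [h3]
        exact lo_mem
    refine ⟨hσ, ?_, ?_⟩
    · intro s hs hso
      refine ⟨key s (mem_insert_of_mem hs) hso, ?_⟩
      rcases h s (mem_insert_of_mem hs) with h2 | h2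
      · exact absurd h2.1 (Nat.not_even_iff_odd.2 hso)
      · rw [← h2]
        exact hi_mem
    · intro hNo
      exact key N (mem_insert_self _ _) hNo
  · intro h u hu
    have huN := PosIff_lt hσ hN hu
    have hlt : u < hi N σ u := lt_hi huN
    by_cases hue : Even u
    · by_cases hve : Even (hi N σ u)
      · exact Or.inl ⟨hue, hve⟩
      · right
        rw [Nat.not_even_iff_odd] at hve
        have h1 : hi N σ u - 1 ∈ insert 0 σ := by
          rcases mem_insert.1 (hi_mem (N := N) (σ := σ) (s := u)) with h2 | h2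
          · rw [h2]
            rw [h2] at hve
            exact h.2.2 hve
          · exact (h.2.1 _ h2 hve).1
        by_contra h3
        have h4 : u < hi N σ u - 1 := by omega
        have h5 : hi N σ u - 1 ∈ σ := by
          rcases mem_insert.1 h1 with h6 | h6
          · omega
          · exact h6
        have h6 := hi_le_of_mem (N := N) h5 h4
        omega
    · right
      have huo := Nat.not_even_iff_odd.1 hue
      have h1 : u ∈ σ := by
        rcases mem_insert.1 hu with h2 | h2
        · rw [h2] at hue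
          exact absurd Even.zero hue
        · exact h2
      have h2 : hi N σ u ≤ u + 1 := by
        rcases mem_insert.1 (h.2.1 u h1 huo).2 with h3 | h3
        · rw [h3]
          exact hi_le hσ
        · exact hi_le_of_mem h3 (by omega)
      omega

theorem Gp_pos_iff (hτ : TauData τ) (hN : 2 ≤ N) (hσ : σ ⊆ Ioo 0 N) :
    0 < Gp τ N σ ↔ Full N σ := by
  rw [← PosIff_full hN hσ]
  unfold Gp
  constructor
  · intro h u hu
    have h1 : gapW τ u (hi N σ u) ≠ 0 := by
      intro h2
      rw [prod_eq_zero hu h2] at h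
      exact lt_irrefl _ h
    have hlt : u < hi N σ u := lt_hi (PosIff_lt hσ hN hu)
    exact (PosIff_gap hτ hlt).1 (lt_of_le_of_ne (gapW_nonneg hτ hlt) (Ne.symm h1))
  · intro h
    refine prod_pos fun u hu => ?_
    exact (PosIff_gap hτ (lt_hi (PosIff_lt hσ hN hu))).2 (h u hu)

theorem pp_full (hN : 2 ≤ N) (hσ : Full N σ) :
    pp N σ + 2 * ee σ + (if Odd N then 1 else 0) = σ.card + 1 := by
  classical
  have hsub := hσ.1
  have hfull := (PosIff_full hN hsub).2 hσ
  have h0 : (0 : ℕ) ∉ σ := fun h => by
    have := (mem_Ioo.1 (hsub h)).1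
    omega
  have hNn : N ∉ σ := fun h => by
    have := (mem_Ioo.1 (hsub h)).2
    omega
  -- the gaps starting at an odd element
  have hB : ((insert 0 σ).filter (fun u => Odd u)).card = ee σ := by
    unfold ee
    rw [filter_insert, if_neg (by decide)]
  -- the gaps ending at an odd element
  have hC1 : (((insert 0 σ).filter (fun u => ¬ Odd u)).filter
      (fun u => ¬ Even (hi N σ u))).image (fun u => u + 1) = (insert N σ).filter (fun v => Odd v) := by
    ext v
    rw [mem_image, mem_filter]
    constructor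
    · rintro ⟨u, hu, rfl⟩
      rw [mem_filter, mem_filter] at hu
      rcases hfull u hu.1.1 with h2 | h2
      · exact absurd h2.2 hu.2
      · refine ⟨?_, ?_⟩
        · rw [← h2]
          exact hi_mem
        · rw [← h2]
          exact Nat.not_even_iff_odd.1 hu.2
    · rintro ⟨hv, hvo⟩
      have hv0 : 0 < v := hvo.pos
      have h1 : v - 1 ∈ insert 0 σ := by
        rcases mem_insert.1 hv with h2 | h2
        · rw [h2]
          rw [h2] at hvo
          exact hσ.2.2 hvo
        · exact (hσ.2.1 _ h2 hvo).1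
      have h3 : hi N σ (v - 1) = v := by
        refine hi_eq hsub hv (by omega) ?_
        intro t _ ht2
        omega
      refine ⟨v - 1, ?_, by omega⟩
      rw [mem_filter, mem_filter]
      refine ⟨⟨h1, ?_⟩, ?_⟩
      · intro h4
        obtain ⟨a, ha⟩ := h4
        obtain ⟨b, hb⟩ := hvo
        omega
      · rw [h3]
        exact Nat.not_even_iff_odd.2 hvo
  have hC2 : ((insert N σ).filter (fun v => Odd v)).card = ee σ + (if Odd N then 1 else 0) := by
    unfold ee
    rw [filter_insert]
    split_ifs with h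
    · rw [card_insert_of_notMem]
      intro h2
      exact hNn (mem_filter.1 h2).1
    · rw [add_zero]
  have hC : (((insert 0 σ).filter (fun u => ¬ Odd u)).filter
      (fun u => ¬ Even (hi N σ u))).card = ee σ + (if Odd N then 1 else 0) := by
    rw [← hC2, ← hC1, card_image_of_injective _ (add_left_injective 1)]
  have hA : (((insert 0 σ).filter (fun u => ¬ Odd u)).filter
      (fun u => Even (hi N σ u))).card = pp N σ := by
    unfold pp
    rw [filter_filter]
    congr 1
    apply filter_congr
    intro u _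
    rw [Nat.not_odd_iff_even]
  have h1 := card_filter_add_card_filter_not (s := insert 0 σ) (fun u => Odd u)
  have h2 := card_filter_add_card_filter_not
    (s := (insert 0 σ).filter (fun u => ¬ Odd u)) (fun u => Even (hi N σ u))
  rw [card_insert_of_notMem h0] at h1
  omega

theorem PosIff_binZ (p : ℕ) (a : ℤ) : 0 < binZ p a ↔ 0 ≤ a ∧ a ≤ p := by
  unfold binZ
  split_ifs with h
  · rw [Nat.cast_pos]
    constructor
    · intro h1
      refine ⟨h, ?_⟩
      by_contra h2
      rw [Nat.choose_eq_zero_of_lt (by omega)] at h1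
      exact lt_irrefl _ h1
    · intro h1
      exact Nat.choose_pos (by omega)
  · constructor
    · intro h1
      exact absurd h1 (lt_irrefl _)
    · intro h1
      exact absurd h1.1 h

theorem PosIff_binZ_nonneg (p : ℕ) (a : ℤ) : 0 ≤ binZ p a := by
  unfold binZ
  split_ifs with h
  · exact Nat.cast_nonneg _
  · exact le_refl _

theorem WW_nonneg (hτ : TauData τ) (hN : 2 ≤ N) (l : ℕ) (hσ : σ ⊆ Ioo 0 N) :
    0 ≤ WW τ N l σ := by
  unfold WW
  exact mul_nonneg (mul_nonneg (Nat.cast_nonneg _) (Gp_nonneg hτ hσ hN)) (PosIff_binZ_nonneg _ _)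

theorem WW_pos_iff (hτ : TauData τ) (hN : 2 ≤ N) (l : ℕ) (hσ : σ ⊆ Ioo 0 N) :
    0 < WW τ N l σ ↔
      Full N σ ∧ ee σ + l ≤ N / 2 ∧ ee σ + N ≤ l + σ.card + 1 + N / 2 := by
  have h1 := Gp_nonneg hτ hσ hN
  have h2 := PosIff_binZ_nonneg (pp N σ) ((l : ℤ) + ee σ + pp N σ - ((N / 2 : ℕ) : ℤ))
  have h3 : (0 : ℝ) < (N.factorial : ℝ) := by exact_mod_cast Nat.factorial_pos N
  have h4 : 0 < WW τ N l σ ↔ 0 < Gp τ N σ ∧
      0 < binZ (pp N σ) ((l : ℤ) + ee σ + pp N σ - ((N / 2 : ℕ) : ℤ)) := by
    unfold WW
    constructor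
    · intro h
      constructor
      · rcases h1.lt_or_eq with h5 | h5
        · exact h5
        · rw [← h5, mul_zero, zero_mul] at h
          exact absurd h (lt_irrefl _)
      · rcases h2.lt_or_eq with h5 | h5
        · exact h5
        · rw [← h5, mul_zero] at h
          exact absurd h (lt_irrefl _)
    · rintro ⟨h5, h6⟩
      exact mul_pos (mul_pos h3 h5) h6
  rw [h4, Gp_pos_iff hτ hN hσ, PosIff_binZ]
  constructor
  · rintro ⟨h5, h6, h7⟩
    have h8 := pp_full hN h5
    refine ⟨h5, ?_, ?_⟩
    · omega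
    · split_ifs at h8 with h9
      · obtain ⟨r, hr⟩ := h9
        omega
      · rw [Nat.not_odd_iff_even] at h9
        obtain ⟨r, hr⟩ := h9
        omega
  · rintro ⟨h5, h6, h7⟩
    have h8 := pp_full hN h5
    refine ⟨h5, ?_, ?_⟩
    · split_ifs at h8 with h9
      · obtain ⟨r, hr⟩ := h9
        omega
      · rw [Nat.not_odd_iff_even] at h9
        obtain ⟨r, hr⟩ := h9
        omega
    · omega

end Pool.Agent.LHC
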