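import Pool.Agent.helper17.Check

/-!
Module LHC-PsiStrat: degree of `psi^a * stratum * total Hodge class`.

Generalise `D_strat_cls` (file helper17/BlockHodge.lean) by a power of the root class.  Induction on the number of
elements of `F`.  `F = ∅`: `childL L ∅ (U L) = L` (`childL_empty`), and `D_psi_cls` if `a + 2 ≤ L.card`; if
`L.card < a + 2` the power `(-X (U L))^a` is in `bI L` (`neg_XU_pow_mem'`).
Step: `S ∈ F` minimal; `X S * ... ` with `cls_restrict`; `(-X (U L))^a * ∏ (F.erase S)` is in `outA S` (`not_U_subset`,
`X_mem_outA`); the outer functional `outD L S D` is a degree functional with the same constant for `contr L S`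
(`isDeg_outD`), its root is the same (`U_contr`), the children of the vertices do not change (`childL_contr`), and the
inner factor gives `wv (childL L F S)` (`D_cls`, `childL_self`) exactly as in `D_strat_cls`.
-/

open Finset MvPolynomial Pool.Agent.helper17

namespace Pool.Agent.LHC

variable {γ : Type*} [DecidableEq γ] [Fintype γ]

/-- Number of odd members. -/
def oddN (P : Finset (Finset γ)) : ℕ := (P.filter (fun A => Odd A.card)).card

/-- The one class number of a vertex with children `P` and `a` root classes. -/
noncomputable def rootW (P : Finset (Finset γ)) (a : ℕ) : ℚ :=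
  if a + 2 ≤ P.card then ∑ t ∈ powersetCard (P.card - 2 - a) (range ((oddN P - 1) / 2)),
    ∏ j ∈ t, ((oddN P : ℚ) / 2 - 1 - j) else 0

theorem D_psi_strat_cls : ∀ (n : ℕ) (F : Finset (Finset γ)), F.card = n →
    ∀ (L : Finset (Finset γ)), IsBlocks L → 2 ≤ L.card → NestedL L F →
    ∀ (c : ℚ) (D : MvPolynomial (Finset γ) ℚ →ₗ[ℚ] ℚ), IsDeg L c D → ∀ a : ℕ,
    D ((-X (U L)) ^ a * ((∏ S ∈ F, X S) * cls L)) =
      c * (rootW (childL L F (U L)) a * ∏ V ∈ F, wv (childL L F V)) := by
  intro n
  induction n with
  | zero =>
    intro F hFn L hL h2 hF c D hD a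
    rw [card_eq_zero] at hFn
    rw [hFn, prod_empty, prod_empty, one_mul, mul_one, childL_empty hL h2]
    have hod : od L (U L) = oddN L := by unfold od oddN; rw [blk_U]
    unfold rootW
    by_cases ha : a + 2 ≤ L.card
    · rw [if_pos ha, D_psi_cls hL h2 hD a ha, hod]
    · rw [if_neg ha, mul_zero]
      apply hD.kill
      exact Ideal.mul_mem_right _ _ (neg_XU_pow_mem' hL h2 (by omega))
  | succ n ih =>
    intro F hFn L hL h2 hF c D hD a
    obtain ⟨S, hSF, hSmin⟩ := exists_min_image F Finset.card (card_pos.mp (by omega))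
    have hmin : ∀ T ∈ F, ¬ T ⊂ S := by
      intro T hT hlt
      have := card_lt_card hlt
      have := hSmin T hT
      omega
    have hS := hF.valid S hSF
    have hSU := hF.ne S hSF
    have hFc : (F.erase S).card = n := by rw [card_erase_of_mem hSF]; omega
    have hLc := isBlocks_contr hL hS
    have hc2 := card_contr_ge hL hS hSU
    have hF' := nestedL_erase hL hF hSF hmin
    have hDo := isDeg_outD hL hS hSU hD
    have h3 := ih (F.erase S) hFc (contr L S) hLc hc2 hF' c _ hDo a
    have h3' : ∏ V ∈ F.erase S, wv (childL (contr L S) (F.erase S) V)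
        = ∏ V ∈ F.erase S, wv (childL L F V) := by
      apply prod_congr rfl
      intro V hV
      rw [childL_contr hL hF hSF hmin (mem_insert_of_mem hV)]
    rw [U_contr hL hS, h3', childL_contr hL hF hSF hmin (mem_insert_self _ _)] at h3
    set P := ∏ T ∈ F.erase S, (X T : MvPolynomial (Finset γ) ℚ) with hP
    set R := (-X (U L) : MvPolynomial (Finset γ) ℚ) ^ a with hR
    have hDi := isDeg_innD hL hS hSU hD (R * (P * cls (contr L S)))
    have h4 := D_cls (isBlocks_blk hL hS) hS.two_le hDi
    rw [innD_apply, h3] at h4
    -- the restriction formula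
    have h5 := cls_restrict hL hS h2
    have hPout : P ∈ outA S := by
      apply Subalgebra.prod_mem
      intro T hT
      rw [mem_erase] at hT
      apply X_mem_outA
      intro h
      exact hmin T hT.2 (h.ssubset_of_ne hT.1)
    have hRout : R ∈ outA S :=
      Subalgebra.pow_mem _ (Subalgebra.neg_mem _ (X_mem_outA (not_U_subset hL hS hSU))) _
    have h6 := out_sub_mem hL hS (Subalgebra.mul_mem _ hRout hPout)
    rw [mem_annI] at h5 h6
    have h7 := hD.kill _ (Ideal.mul_mem_left _ (R * P) h5)
    have h8 := hD.kill _ (Ideal.mul_mem_left _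
      (iot S (cls (blk L S)) * kap (contr L S) (cls (contr L S))) h6)
    have e : R * ((∏ T ∈ F, (X T : MvPolynomial (Finset γ) ℚ)) * cls L)
        = X S * iot S (cls (blk L S)) * kap (contr L S) (R * (P * cls (contr L S)))
          + R * P * (X S * (cls L - iot S (cls (blk L S)) * kap (contr L S) (cls (contr L S))))
          - (iot S (cls (blk L S)) * kap (contr L S) (cls (contr L S))) *
            (X S * (kap (contr L S) (R * P) - R * P)) := by
      rw [← mul_prod_erase F _ hSF, map_mul, map_mul, map_mul, ← hP]
      ring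
    rw [e, map_sub, map_add, h7, h8, add_zero, sub_zero, h4,
      ← mul_prod_erase F (fun V => wv (childL L F V)) hSF, childL_self hL hF hSF hmin]
    ring

/-- The same for the singleton blocks of `α`, in terms of the Hodge classes `lamC`. -/
theorem degC_psi_strat {α : Type*} [DecidableEq α] [Fintype α] (h2 : 2 ≤ Fintype.card α)
    (F : Finset (Finset α)) (hF : Nested F) (a k : ℕ)
    (hd : F.card + a + k + 2 = Fintype.card α) :
    degC h2 (lamC α k * (psi α ^ a * strat F)) =
      rootW (children F univ) a * ∏ V ∈ F, wv (children F V) := by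
  have h1 := D_psi_strat_cls F.card F rfl (sing α) isBlocks_sing (by rwa [card_sing])
    (nestedL_of_nested hF) 1 (degP α) (isDeg_degP h2) a
  rw [one_mul, U_sing, childL_sing] at h1
  have h3 : ∏ V ∈ F, wv (childL (sing α) F V) = ∏ V ∈ F, wv (children F V) :=
    prod_congr rfl (fun V _ => by rw [childL_sing])
  rw [h3] at h1
  rw [← h1]
  have h4 : ((-X univ) ^ a : MvPolynomial (Finset α) ℚ).IsHomogeneous a := by
    have := (isHomogeneous_X ℚ (univ : Finset α)).neg.pow a
    rwa [one_mul] at this
  rw [← mul_assoc ((-X univ) ^ a : MvPolynomial (Finset α) ℚ),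
    degP_mul_component h2 (h4.mul (isHomogeneous_prod_X F)) (k := k) (by omega)]
  have h5 : lamC α k * (psi α ^ a * strat F) = Ideal.Quotient.mk (Ideal.span (relations α))
      ((-X univ) ^ a * (∏ S ∈ F, X S) * homogeneousComponent k (cls (sing α))) := by
    rw [map_mul, map_mul, map_pow, map_neg, mk_prod_X, mul_comm]
    rfl
  rw [h5, degC_mk]

end Pool.Agent.LHC
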