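import Pool.Agent.LHC.Hom

/-!
Module LHC-RelA: relabelling of blocks, the ring map.

`L` blocks in `γ`, `L'` blocks in `γ'`, `e` a parity preserving bijection from `L` to `L'`.  A valid `T` is the
union of the blocks `blk L T` (`Valid.eq_biUnion`); `lft L e T` is the union of their images.  Then
`blk L' (lft L e T) = (blk L T).image e` for valid `T` (blocks are nonempty and disjoint), and everything is a
statement about subsets of `L`: `S ⊆ T ↔ blk L S ⊆ blk L T`, `Disjoint S T ↔ Disjoint (blk L S) (blk L T)` for valid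
`S, T`.
`relMap_bI`: check the three kinds of generators of `bI L`: an invalid variable goes to `0`; a product
of two incompatible variables goes to `0` or to a product of two incompatible variables; the linear
relation for `a ∈ A`, `b ∈ B` goes to the sum of `X T'` over the valid `T'` for `L'` containing `e A` and `e B`
(bijection between valid sets), which is the linear relation for points `a' ∈ e A`, `b' ∈ e B` up to
invalid variables.
-/

open Finset MvPolynomial Pool.Agent.helper17

namespace Pool.Agent.LHC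

variable {γ γ' : Type*} [DecidableEq γ] [Fintype γ] [DecidableEq γ'] [Fintype γ']

/-- Parity preserving bijection between blocks. -/
structure BlkEquiv (L : Finset (Finset γ)) (L' : Finset (Finset γ')) (e : Finset γ → Finset γ') :
    Prop where
  maps : ∀ A ∈ L, e A ∈ L'
  inj : ∀ A ∈ L, ∀ B ∈ L, e A = e B → A = B
  surj : ∀ B ∈ L', ∃ A ∈ L, e A = B
  par : ∀ A ∈ L, (Odd A.card ↔ Odd (e A).card)

/-- Union of the images of the blocks inside `T`. -/
def lft (L : Finset (Finset γ)) (e : Finset γ → Finset γ') (T : Finset γ) : Finset γ' :=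
  (blk L T).biUnion e

/-- The relabelling map. -/
noncomputable def relMap (L : Finset (Finset γ)) (e : Finset γ → Finset γ') :
    MvPolynomial (Finset γ) ℚ →ₐ[ℚ] MvPolynomial (Finset γ') ℚ :=
  aeval (fun T => if Valid L T then X (lft L e T) else 0)

variable {L : Finset (Finset γ)} {L' : Finset (Finset γ')} {e : Finset γ → Finset γ'}

private theorem RelA_blk_biUnion {γ : Type*} [DecidableEq γ] [Fintype γ] {L K : Finset (Finset γ)}
    (hL : IsBlocks L) (hK : K ⊆ L) : blk L (K.biUnion id) = K := by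
  ext A
  rw [mem_blk]
  constructor
  · rintro ⟨hA, hsub⟩
    obtain ⟨x, hx⟩ := hL.ne A hA
    obtain ⟨B, hB, hxB⟩ := mem_biUnion.mp (hsub hx)
    by_contra hne
    refine disjoint_left.mp (hL.disj A hA B (hK hB) ?_) hx hxB
    rintro rfl
    exact hne hB
  · intro hA
    exact ⟨hK hA, fun x hx => mem_biUnion.mpr ⟨A, hA, hx⟩⟩

private theorem RelA_valid_biUnion {γ : Type*} [DecidableEq γ] [Fintype γ] {L K : Finset (Finset γ)}
    (hL : IsBlocks L) (hK : K ⊆ L) (h2 : 2 ≤ K.card) : Valid L (K.biUnion id) := by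
  apply valid_of_union hL
  · intro x hx
    obtain ⟨B, hB, hxB⟩ := mem_biUnion.mp hx
    exact subset_U (hK hB) hxB
  · intro A hA
    by_cases hAK : A ∈ K
    · exact Or.inl fun x hx => mem_biUnion.mpr ⟨A, hAK, hx⟩
    · right
      rw [disjoint_left]
      intro x hx hxK
      obtain ⟨B, hB, hxB⟩ := mem_biUnion.mp hxK
      refine disjoint_left.mp (hL.disj A hA B (hK hB) ?_) hx hxB
      rintro rfl
      exact hAK hB
  · rwa [RelA_blk_biUnion hL hK]

private theorem RelA_subset_iff {γ : Type*} [DecidableEq γ] [Fintype γ] {L : Finset (Finset γ)}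
    {S T : Finset γ} (hS : Valid L S) : S ⊆ T ↔ blk L S ⊆ blk L T := by
  constructor
  · exact blk_mono
  · intro h
    rw [← hS.eq_biUnion]
    intro x hx
    obtain ⟨B, hB, hxB⟩ := mem_biUnion.mp hx
    exact (mem_blk.mp (h hB)).2 hxB

private theorem RelA_disjoint_iff {γ : Type*} [DecidableEq γ] [Fintype γ] {L : Finset (Finset γ)}
    (hL : IsBlocks L) {S T : Finset γ} (hS : Valid L S) (hT : Valid L T) :
    Disjoint S T ↔ Disjoint (blk L S) (blk L T) := by
  constructor
  · intro h
    rw [disjoint_left]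
    intro A hA hA2
    rw [mem_blk] at hA hA2
    obtain ⟨x, hx⟩ := hL.ne A hA.1
    exact disjoint_left.mp h (hA.2 hx) (hA2.2 hx)
  · intro h
    rw [disjoint_left]
    intro x hxS hxT
    obtain ⟨A, hA, hxA⟩ := mem_U.mp (hS.1 hxS)
    have h1 : A ∈ blk L S := by
      rcases hS.2.1 A hA with h1 | h1
      · exact mem_blk.mpr ⟨hA, h1⟩
      · exact absurd hxS (disjoint_left.mp h1 hxA)
    have h2 : A ∈ blk L T := by
      rcases hT.2.1 A hA with h1 | h1
      · exact mem_blk.mpr ⟨hA, h1⟩
      · exact absurd hxT (disjoint_left.mp h1 hxA)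
    exact disjoint_left.mp h h1 h2

theorem exists_blkEquiv (hL : IsBlocks L) (hL' : IsBlocks L') (hc : L.card = L'.card)
    (ho : (L.filter (fun A => Odd A.card)).card = (L'.filter (fun A => Odd A.card)).card) :
    ∃ e : Finset γ → Finset γ', BlkEquiv L L' e := by
  classical
  have hev : (L.filter (fun A => ¬ Odd A.card)).card = (L'.filter (fun A => ¬ Odd A.card)).card := by
    have h1 := card_filter_add_card_filter_not (s := L) (fun A => Odd A.card)
    have h2 := card_filter_add_card_filter_not (s := L') (fun A => Odd A.card)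
    omega
  let f1 := Finset.equivOfCardEq ho
  let f2 := Finset.equivOfCardEq hev
  refine ⟨fun A => if h : A ∈ L.filter (fun A => Odd A.card) then (f1 ⟨A, h⟩ : Finset γ')
    else if h' : A ∈ L.filter (fun A => ¬ Odd A.card) then (f2 ⟨A, h'⟩ : Finset γ') else ∅, ?_⟩
  have e1 : ∀ A (h : A ∈ L.filter (fun A => Odd A.card)),
      (if h : A ∈ L.filter (fun A => Odd A.card) then (f1 ⟨A, h⟩ : Finset γ')
        else if h' : A ∈ L.filter (fun A => ¬ Odd A.card) then (f2 ⟨A, h'⟩ : Finset γ') else ∅) =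
        (f1 ⟨A, h⟩ : Finset γ') := fun A h => dif_pos h
  have e2 : ∀ A (h' : A ∈ L.filter (fun A => ¬ Odd A.card)),
      (if h : A ∈ L.filter (fun A => Odd A.card) then (f1 ⟨A, h⟩ : Finset γ')
        else if h' : A ∈ L.filter (fun A => ¬ Odd A.card) then (f2 ⟨A, h'⟩ : Finset γ') else ∅) =
        (f2 ⟨A, h'⟩ : Finset γ') := by
    intro A h'
    have h : A ∉ L.filter (fun A => Odd A.card) := fun h =>
      (mem_filter.mp h').2 (mem_filter.mp h).2
    rw [dif_neg h, dif_pos h']
  have g1 : ∀ x, (f1 x : Finset γ') ∈ L' ∧ Odd (f1 x : Finset γ').card := fun x =>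
    mem_filter.mp (f1 x).2
  have g2 : ∀ x, (f2 x : Finset γ') ∈ L' ∧ ¬ Odd (f2 x : Finset γ').card := fun x =>
    mem_filter.mp (f2 x).2
  refine ⟨?_, ?_, ?_, ?_⟩
  · intro A hA
    by_cases ho : Odd A.card
    · rw [e1 A (mem_filter.mpr ⟨hA, ho⟩)]
      exact (g1 _).1
    · rw [e2 A (mem_filter.mpr ⟨hA, ho⟩)]
      exact (g2 _).1
  · intro A hA B hB hAB
    by_cases hoA : Odd A.card
    · rw [e1 A (mem_filter.mpr ⟨hA, hoA⟩)] at hAB
      by_cases hoB : Odd B.card
      · rw [e1 B (mem_filter.mpr ⟨hB, hoB⟩)] at hAB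
        exact congrArg Subtype.val (f1.injective (Subtype.ext hAB))
      · rw [e2 B (mem_filter.mpr ⟨hB, hoB⟩)] at hAB
        exact absurd (hAB ▸ (g1 _).2) (g2 ⟨B, mem_filter.mpr ⟨hB, hoB⟩⟩).2
    · rw [e2 A (mem_filter.mpr ⟨hA, hoA⟩)] at hAB
      by_cases hoB : Odd B.card
      · rw [e1 B (mem_filter.mpr ⟨hB, hoB⟩)] at hAB
        exact absurd (hAB.symm ▸ (g1 _).2) (g2 ⟨A, mem_filter.mpr ⟨hA, hoA⟩⟩).2
      · rw [e2 B (mem_filter.mpr ⟨hB, hoB⟩)] at hAB
        exact congrArg Subtype.val (f2.injective (Subtype.ext hAB))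
  · intro B hB
    by_cases hoB : Odd B.card
    · have h := (f1.symm ⟨B, mem_filter.mpr ⟨hB, hoB⟩⟩).2
      refine ⟨(f1.symm ⟨B, mem_filter.mpr ⟨hB, hoB⟩⟩ : Finset γ), (mem_filter.mp h).1, ?_⟩
      rw [e1 _ h]
      simp
    · have h := (f2.symm ⟨B, mem_filter.mpr ⟨hB, hoB⟩⟩).2
      refine ⟨(f2.symm ⟨B, mem_filter.mpr ⟨hB, hoB⟩⟩ : Finset γ), (mem_filter.mp h).1, ?_⟩
      rw [e2 _ h]
      simp
  · intro A hA
    by_cases ho : Odd A.card
    · rw [e1 A (mem_filter.mpr ⟨hA, ho⟩)]
      exact ⟨fun _ => (g1 _).2, fun _ => ho⟩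
    · rw [e2 A (mem_filter.mpr ⟨hA, ho⟩)]
      exact ⟨fun h => absurd h ho, fun h => absurd h (g2 _).2⟩

private theorem RelA_image (he : BlkEquiv L L' e) : L.image e = L' := by
  ext B
  rw [mem_image]
  constructor
  · rintro ⟨A, hA, rfl⟩
    exact he.maps A hA
  · exact he.surj B

private theorem RelA_injOn (he : BlkEquiv L L' e) : Set.InjOn e (L : Set (Finset γ)) :=
  fun A hA B hB h => he.inj A hA B hB h

theorem card_eq_of_blkEquiv (he : BlkEquiv L L' e) : L.card = L'.card := by
  rw [← RelA_image he, card_image_of_injOn (RelA_injOn he)]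

private theorem RelA_mem_image (he : BlkEquiv L L' e) {K : Finset (Finset γ)} (hK : K ⊆ L)
    {A : Finset γ} (hA : A ∈ L) : e A ∈ K.image e ↔ A ∈ K := by
  rw [mem_image]
  constructor
  · rintro ⟨B, hB, hBA⟩
    rw [← he.inj B (hK hB) A hA hBA]
    exact hB
  · intro h
    exact ⟨A, h, rfl⟩

private theorem RelA_blk_sub {γ : Type*} [DecidableEq γ] [Fintype γ] (L : Finset (Finset γ))
    (T : Finset γ) : blk L T ⊆ L := fun _ h => (mem_blk.mp h).1

private theorem RelA_lft_eq (L : Finset (Finset γ)) (e : Finset γ → Finset γ') (T : Finset γ) :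
    lft L e T = ((blk L T).image e).biUnion id := by
  unfold lft
  rw [image_biUnion]
  rfl

private theorem RelA_img_sub (he : BlkEquiv L L' e) (T : Finset γ) : (blk L T).image e ⊆ L' := by
  intro B hB
  obtain ⟨A, hA, rfl⟩ := mem_image.mp hB
  exact he.maps A (RelA_blk_sub L T hA)

variable (hL : IsBlocks L) (hL' : IsBlocks L') (he : BlkEquiv L L' e)
include hL hL' he

theorem valid_lft {T : Finset γ} (hT : Valid L T) : Valid L' (lft L e T) := by
  rw [RelA_lft_eq]
  apply RelA_valid_biUnion hL' (RelA_img_sub he T)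
  rw [card_image_of_injOn ((RelA_injOn he).mono (coe_subset.mpr (RelA_blk_sub L T)))]
  exact hT.two_le

theorem blk_lft {T : Finset γ} (hT : Valid L T) : blk L' (lft L e T) = (blk L T).image e := by
  rw [RelA_lft_eq, RelA_blk_biUnion hL' (RelA_img_sub he T)]

theorem lft_surj {T' : Finset γ'} (hT' : Valid L' T') : ∃ T, Valid L T ∧ lft L e T = T' := by
  classical
  set K := L.filter (fun A => e A ⊆ T') with hK
  have hKL : K ⊆ L := filter_subset _ _
  have himg : K.image e = blk L' T' := by
    ext B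
    rw [mem_image, mem_blk]
    constructor
    · rintro ⟨A, hA, rfl⟩
      rw [hK, mem_filter] at hA
      exact ⟨he.maps A hA.1, hA.2⟩
    · rintro ⟨hB, hBT⟩
      obtain ⟨A, hA, rfl⟩ := he.surj B hB
      exact ⟨A, mem_filter.mpr ⟨hA, hBT⟩, rfl⟩
  have hcard : 2 ≤ K.card := by
    have h1 := hT'.two_le
    rw [← himg, card_image_of_injOn ((RelA_injOn he).mono (coe_subset.mpr hKL))] at h1
    exact h1
  refine ⟨K.biUnion id, RelA_valid_biUnion hL hKL hcard, ?_⟩
  rw [RelA_lft_eq, RelA_blk_biUnion hL hKL, himg]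
  exact hT'.eq_biUnion

theorem lft_subset_iff {S T : Finset γ} (hS : Valid L S) (hT : Valid L T) :
    lft L e S ⊆ lft L e T ↔ S ⊆ T := by
  rw [RelA_subset_iff (valid_lft hL hL' he hS), blk_lft hL hL' he hS, blk_lft hL hL' he hT,
    RelA_subset_iff hS]
  constructor
  · intro h A hA
    have h1 := h (mem_image_of_mem e hA)
    exact (RelA_mem_image he (RelA_blk_sub L T) (RelA_blk_sub L S hA)).mp h1
  · exact fun h => image_subset_image h

theorem lft_inj {S T : Finset γ} (hS : Valid L S) (hT : Valid L T)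
    (h : lft L e S = lft L e T) : S = T :=
  Subset.antisymm ((lft_subset_iff hL hL' he hS hT).mp h.subset)
    ((lft_subset_iff hL hL' he hT hS).mp h.symm.subset)

theorem lft_compat_iff {S T : Finset γ} (hS : Valid L S) (hT : Valid L T) :
    Compat (lft L e S) (lft L e T) ↔ Compat S T := by
  unfold Compat
  rw [lft_subset_iff hL hL' he hS hT, lft_subset_iff hL hL' he hT hS,
    RelA_disjoint_iff hL' (valid_lft hL hL' he hS) (valid_lft hL hL' he hT),
    RelA_disjoint_iff hL hS hT, blk_lft hL hL' he hS, blk_lft hL hL' he hT]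
  have hd : Disjoint ((blk L S).image e) ((blk L T).image e) ↔ Disjoint (blk L S) (blk L T) := by
    rw [disjoint_left, disjoint_left]
    constructor
    · intro h A hA hA2
      exact h (mem_image_of_mem e hA) (mem_image_of_mem e hA2)
    · intro h B hB hB2
      obtain ⟨A, hA, rfl⟩ := mem_image.mp hB
      exact h hA ((RelA_mem_image he (RelA_blk_sub L T) (RelA_blk_sub L S hA)).mp hB2)
  rw [hd]

theorem od_lft {T : Finset γ} (hT : Valid L T) : od L' (lft L e T) = od L T := by
  unfold od
  rw [blk_lft hL hL' he hT]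
  have h1 : ((blk L T).image e).filter (fun A => Odd A.card) =
      ((blk L T).filter (fun A => Odd A.card)).image e := by
    ext B
    rw [mem_filter, mem_image, mem_image]
    constructor
    · rintro ⟨⟨A, hA, rfl⟩, ho⟩
      exact ⟨A, mem_filter.mpr ⟨hA, (he.par A (RelA_blk_sub L T hA)).mpr ho⟩, rfl⟩
    · rintro ⟨A, hA, rfl⟩
      rw [mem_filter] at hA
      exact ⟨⟨A, hA.1, rfl⟩, (he.par A (RelA_blk_sub L T hA.1)).mp hA.2⟩
  rw [h1, card_image_of_injOn]
  exact (RelA_injOn he).mono (coe_subset.mpr ((filter_subset _ _).trans (RelA_blk_sub L T)))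

theorem lft_U : lft L e (U L) = U L' := by
  rw [RelA_lft_eq, blk_U, RelA_image he]
  rfl

private theorem RelA_mem_iff {T A : Finset γ} {a : γ} {a' : γ'} (hT : Valid L T) (hA : A ∈ L)
    (ha : a ∈ A) (ha' : a' ∈ e A) : a' ∈ lft L e T ↔ a ∈ T := by
  constructor
  · intro h
    rw [RelA_lft_eq, mem_biUnion] at h
    obtain ⟨B, hB, haB⟩ := h
    have hBL := RelA_img_sub he T hB
    have hBA : B = e A := by
      by_contra hne
      exact disjoint_left.mp (hL'.disj B hBL (e A) (he.maps A hA) hne) haB ha'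
    rw [hBA, RelA_mem_image he (RelA_blk_sub L T) hA] at hB
    exact (mem_blk.mp hB).2 ha
  · intro h
    have hAT : A ∈ blk L T := by
      rcases hT.2.1 A hA with h1 | h1
      · exact mem_blk.mpr ⟨hA, h1⟩
      · exact absurd h (disjoint_left.mp h1 ha)
    exact mem_biUnion.mpr ⟨A, hAT, ha'⟩

omit [DecidableEq γ'] hL hL' he in
private theorem RelA_map_X [DecidableEq γ'] (T : Finset γ) :
    relMap L e (X T) = if Valid L T then X (lft L e T) else 0 := by
  unfold relMap
  rw [aeval_X]

theorem relMap_bI {p : MvPolynomial (Finset γ) ℚ} (hp : p ∈ bI L) : relMap L e p ∈ bI L' := by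
  have hle : bI L ≤ (bI L').comap (relMap L e) := by
    conv_lhs => unfold bI
    rw [Ideal.span_le]
    rintro q ((⟨T, hT, rfl⟩ | ⟨T₁, T₂, hT, rfl⟩) | ⟨A, hA, B, hB, a, ha, b, hb, hne, rfl⟩)
    · simp only [SetLike.mem_coe, Ideal.mem_comap]
      rw [RelA_map_X, if_neg hT]
      exact Ideal.zero_mem _
    · simp only [SetLike.mem_coe, Ideal.mem_comap]
      rw [map_mul, RelA_map_X, RelA_map_X]
      split_ifs with h1 h2 h2
      · refine XX_mem_of_not_compat L' fun hc => hT ?_
        exact (lft_compat_iff hL hL' he h1 h2).mp hc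
      · rw [mul_zero]; exact Ideal.zero_mem _
      · rw [zero_mul]; exact Ideal.zero_mem _
      · rw [mul_zero]; exact Ideal.zero_mem _
    · simp only [SetLike.mem_coe, Ideal.mem_comap]
      obtain ⟨a', ha'⟩ := hL'.ne _ (he.maps A hA)
      obtain ⟨b', hb'⟩ := hL'.ne _ (he.maps B hB)
      have hne' : e A ≠ e B := fun h => hne (he.inj A hA B hB h)
      have hlin := lin_mem (he.maps A hA) (he.maps B hB) hne' ha' hb'
      rw [← sum_filter_add_sum_filter_not (univ.filter (fun T : Finset γ' => a' ∈ T ∧ b' ∈ T))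
        (fun T => Valid L' T)] at hlin
      have hinv : (∑ T ∈ (univ.filter (fun T : Finset γ' => a' ∈ T ∧ b' ∈ T)).filter
          (fun T => ¬ Valid L' T), X T : MvPolynomial (Finset γ') ℚ) ∈ bI L' :=
        Ideal.sum_mem _ fun T hT => X_mem_of_not_valid (mem_filter.mp hT).2
      have hval := (Ideal.add_mem_iff_left _ hinv).mp hlin
      have hsum : relMap L e (∑ T ∈ univ.filter (fun T : Finset γ => a ∈ T ∧ b ∈ T), X T) =
          ∑ T ∈ (univ.filter (fun T : Finset γ' => a' ∈ T ∧ b' ∈ T)).filter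
            (fun T => Valid L' T), X T := by
        rw [map_sum]
        simp_rw [RelA_map_X]
        rw [← sum_filter]
        refine sum_bij (fun T _ => lft L e T) ?_ ?_ ?_ ?_
        · intro T hT
          rw [mem_filter, mem_filter] at hT
          obtain ⟨⟨-, h1, h2⟩, h3⟩ := hT
          rw [mem_filter, mem_filter]
          exact ⟨⟨mem_univ _, (RelA_mem_iff hL hL' he h3 hA ha ha').mpr h1,
            (RelA_mem_iff hL hL' he h3 hB hb hb').mpr h2⟩, valid_lft hL hL' he h3⟩
        · intro S hS T hT hST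
          exact lft_inj hL hL' he (mem_filter.mp hS).2 (mem_filter.mp hT).2 hST
        · intro T' hT'
          rw [mem_filter, mem_filter] at hT'
          obtain ⟨⟨-, h1, h2⟩, h3⟩ := hT'
          obtain ⟨T, hT, rfl⟩ := lft_surj hL hL' he h3
          refine ⟨T, ?_, rfl⟩
          rw [mem_filter, mem_filter]
          exact ⟨⟨mem_univ _, (RelA_mem_iff hL hL' he hT hA ha ha').mp h1,
            (RelA_mem_iff hL hL' he hT hB hb hb').mp h2⟩, hT⟩
        · intro T _
          rfl
      rw [hsum]
      exact hval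
  exact hle hp

end Pool.Agent.LHC
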