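import Pool.Agent.LHC.RelA
import Pool.Agent.LHC.Top

/-!
Module LHC-RelB: relabelling of blocks, the Hodge classes; invariance of the numbers.

`relMap_dd`: for valid `T`, `relMap (dd T)` is the sum of `X T'` over the valid `T'` strictly containing
`lft L e T` (bijection of valid sets), so it is `dd (lft L e T)` modulo invalid variables; the same for `cc`.
`relMap_Fac`: apply `relMap` to `Fac_mul_mem` (in `bI L`, use `relMap_bI`):
`relMap (Fac T f) * (1 - C f * dd') ≡ 1 - C f * cc' ≡ Fac T' f * (1 - C f * dd')` modulo `bI L'` (`T' = lft L e T`,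
`dd' = dd T'`), then `cancel_unit` with `J = bI L'`.
`relMap_cls`: products over valid sets, bijection `lft`, `od_lft`, `prod_sub_prod_mem`.
`Num_relabel`: choose `e` by `exists_blkEquiv`.  The functional `D' ∘ relMap` satisfies `IsDeg L 1`: it kills
`bI L` (`relMap_bI`), kills the wrong degrees (`relMap` is graded; `card_eq_of_blkEquiv`), and
`relMap (X (U L)) = X (U L')` (`valid_U`, `lft_U`).  By `isDeg_unique` it equals `D`.  Then
`D (psi^m hc_k(cls L) hc_l(cls L)) = D' (psi'^m hc_k(relMap (cls L)) hc_l(relMap (cls L)))` by `hc_aeval`, and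
`Num_congr` with `relMap_cls`.
-/

open Finset MvPolynomial Pool.Agent.helper17

namespace Pool.Agent.LHC

variable {γ γ' : Type*} [DecidableEq γ] [Fintype γ] [DecidableEq γ'] [Fintype γ']
  {L : Finset (Finset γ)} {L' : Finset (Finset γ')}

omit [Fintype γ'] in
private theorem RelB_X_hom (L : Finset (Finset γ)) (e : Finset γ → Finset γ') (T : Finset γ) :
    ((if Valid L T then X (lft L e T) else 0 : MvPolynomial (Finset γ') ℚ)).IsHomogeneous 1 := by
  split_ifs
  · exact isHomogeneous_X _ _
  · exact isHomogeneous_zero _ _ _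

omit [Fintype γ'] in
private theorem RelB_map_X_valid {e : Finset γ → Finset γ'} {T : Finset γ} (hT : Valid L T) :
    relMap L e (X T) = X (lft L e T) := by
  unfold relMap
  rw [aeval_X, if_pos hT]

omit [Fintype γ'] in
private theorem RelB_map_X_not {e : Finset γ → Finset γ'} {T : Finset γ} (hT : ¬ Valid L T) :
    relMap L e (X T) = 0 := by
  unfold relMap
  rw [aeval_X, if_neg hT]

omit [Fintype γ'] in
private theorem RelB_map_C {e : Finset γ → Finset γ'} (f : ℚ) :
    relMap L e (C f) = C f := by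
  unfold relMap
  rw [aeval_C]
  rfl

private theorem RelB_ssubset_iff {e : Finset γ → Finset γ'} (hL : IsBlocks L) (hL' : IsBlocks L')
    (he : BlkEquiv L L' e) {S T : Finset γ} (hS : Valid L S) (hT : Valid L T) :
    lft L e S ⊂ lft L e T ↔ S ⊂ T := by
  rw [Finset.ssubset_iff_subset_ne, Finset.ssubset_iff_subset_ne, lft_subset_iff hL hL' he hS hT]
  constructor
  · rintro ⟨h1, h2⟩
    refine ⟨h1, ?_⟩
    intro h3
    apply h2
    rw [h3]
  · rintro ⟨h1, h2⟩
    exact ⟨h1, fun h3 => h2 (lft_inj hL hL' he hS hT h3)⟩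

private theorem RelB_dd {e : Finset γ → Finset γ'} (hL : IsBlocks L) (hL' : IsBlocks L')
    (he : BlkEquiv L L' e) {T : Finset γ} (hT : Valid L T) :
    relMap L e (dd T) - dd (lft L e T) ∈ bI L' := by
  have h1 : relMap L e (dd T) = ∑ S ∈ univ.filter (fun S : Finset γ => Valid L S ∧ T ⊂ S),
      X (lft L e S) := by
    unfold dd
    rw [map_sum]
    have e1 : univ.filter (fun S : Finset γ => T ⊂ S)
        = (univ.filter (fun S : Finset γ => Valid L S ∧ T ⊂ S)) ∪
          (univ.filter (fun S : Finset γ => ¬ Valid L S ∧ T ⊂ S)) := by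
      ext S
      simp only [mem_filter, mem_univ, true_and, mem_union]
      tauto
    rw [e1, sum_union]
    · have h2 : ∑ S ∈ univ.filter (fun S : Finset γ => ¬ Valid L S ∧ T ⊂ S), relMap L e (X S) = 0 := by
        apply sum_eq_zero
        intro S hS
        rw [mem_filter] at hS
        exact RelB_map_X_not hS.2.1
      rw [h2, add_zero]
      apply sum_congr rfl
      intro S hS
      rw [mem_filter] at hS
      exact RelB_map_X_valid hS.2.1
    · rw [disjoint_left]
      intro S h1 h2
      rw [mem_filter] at h1 h2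
      exact h2.2.1 h1.2.1
  have h2 : ∑ S ∈ univ.filter (fun S : Finset γ => Valid L S ∧ T ⊂ S),
      (X (lft L e S) : MvPolynomial (Finset γ') ℚ) =
      ∑ S' ∈ univ.filter (fun S' : Finset γ' => Valid L' S' ∧ lft L e T ⊂ S'), X S' := by
    apply sum_bij (fun S _ => lft L e S)
    · intro S hS
      rw [mem_filter] at hS
      rw [mem_filter]
      exact ⟨mem_univ _, valid_lft hL hL' he hS.2.1, (RelB_ssubset_iff hL hL' he hT hS.2.1).mpr hS.2.2⟩
    · intro S hS S₁ hS₁ h
      rw [mem_filter] at hS hS₁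
      exact lft_inj hL hL' he hS.2.1 hS₁.2.1 h
    · intro S' hS'
      rw [mem_filter] at hS'
      obtain ⟨S, hS, hSS⟩ := lft_surj hL hL' he hS'.2.1
      refine ⟨S, ?_, hSS⟩
      rw [mem_filter]
      refine ⟨mem_univ _, hS, ?_⟩
      have h3 := hS'.2.2
      rw [← hSS] at h3
      exact (RelB_ssubset_iff hL hL' he hT hS).mp h3
    · intro S _
      rfl
  have h3 : dd (lft L e T) - ∑ S' ∈ univ.filter (fun S' : Finset γ' => Valid L' S' ∧ lft L e T ⊂ S'),
      X S' ∈ bI L' := by
    unfold dd
    have e1 : univ.filter (fun S' : Finset γ' => lft L e T ⊂ S')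
        = (univ.filter (fun S' : Finset γ' => Valid L' S' ∧ lft L e T ⊂ S')) ∪
          (univ.filter (fun S' : Finset γ' => ¬ Valid L' S' ∧ lft L e T ⊂ S')) := by
      ext S'
      simp only [mem_filter, mem_univ, true_and, mem_union]
      tauto
    rw [e1, sum_union]
    · rw [add_sub_cancel_left]
      apply Ideal.sum_mem
      intro S' hS'
      rw [mem_filter] at hS'
      exact X_mem_of_not_valid hS'.2.1
    · rw [disjoint_left]
      intro S h1 h2
      rw [mem_filter] at h1 h2
      exact h2.2.1 h1.2.1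
  rw [h1, h2]
  have h4 := (Ideal.neg_mem_iff (bI L')).mpr h3
  rwa [neg_sub] at h4

private theorem RelB_cc {e : Finset γ → Finset γ'} (hL : IsBlocks L) (hL' : IsBlocks L')
    (he : BlkEquiv L L' e) {T : Finset γ} (hT : Valid L T) :
    relMap L e (cc T) - cc (lft L e T) ∈ bI L' := by
  rw [cc_eq, cc_eq, map_add, RelB_map_X_valid hT]
  have h := RelB_dd hL hL' he hT
  convert h using 1
  ring

private theorem RelB_Fac {e : Finset γ → Finset γ'} (hL : IsBlocks L) (hL' : IsBlocks L')
    (he : BlkEquiv L L' e) (h2 : 2 ≤ L.card) {T : Finset γ} (hT : Valid L T) (f : ℚ) :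
    relMap L e (Fac T f) - Fac (lft L e T) f ∈ bI L' := by
  have h2' : 2 ≤ L'.card := by rw [← card_eq_of_blkEquiv he]; exact h2
  have a1 := relMap_bI hL hL' he (Fac_mul_mem hL h2 T f)
  rw [map_sub, map_mul, map_sub, map_sub, map_mul, map_mul, map_one, RelB_map_C] at a1
  have a2 := Fac_mul_mem hL' h2' (lft L e T) f
  have a3 := RelB_dd hL hL' he hT
  have a4 := RelB_cc hL hL' he hT
  apply cancel_unit hL' h2' (le_refl (bI L')) (lft L e T) f
  have b3 := Ideal.mul_mem_left (bI L') (relMap L e (Fac T f) * C f) a3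
  have b4 := Ideal.mul_mem_left (bI L') (C f) a4
  have b := Ideal.sub_mem _ (Ideal.add_mem _ (Ideal.sub_mem _ a1 a2) b3) b4
  convert b using 1
  ring

private theorem RelB_Phi {e : Finset γ → Finset γ'} (hL : IsBlocks L) (hL' : IsBlocks L')
    (he : BlkEquiv L L' e) (h2 : 2 ≤ L.card) {T : Finset γ} (hT : Valid L T) :
    relMap L e (Phi L T) - Phi L' (lft L e T) ∈ bI L' := by
  unfold Phi
  rw [map_prod, od_lft hL hL' he hT]
  apply prod_sub_prod_mem
  intro j _
  exact RelB_Fac hL hL' he h2 hT _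

theorem relMap_cls {e : Finset γ → Finset γ'} (hL : IsBlocks L) (hL' : IsBlocks L')
    (he : BlkEquiv L L' e) (h2 : 2 ≤ L.card) : relMap L e (cls L) - cls L' ∈ bI L' := by
  have h1 : cls L' = ∏ T ∈ univ.filter (fun T : Finset γ => Valid L T), Phi L' (lft L e T) := by
    unfold cls
    symm
    apply prod_bij (fun T _ => lft L e T)
    · intro T hT
      rw [mem_filter] at hT
      rw [mem_filter]
      exact ⟨mem_univ _, valid_lft hL hL' he hT.2⟩
    · intro S hS S₁ hS₁ h
      rw [mem_filter] at hS hS₁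
      exact lft_inj hL hL' he hS.2 hS₁.2 h
    · intro S' hS'
      rw [mem_filter] at hS'
      obtain ⟨S, hS, hSS⟩ := lft_surj hL hL' he hS'.2
      exact ⟨S, mem_filter.mpr ⟨mem_univ _, hS⟩, hSS⟩
    · intro S _
      rfl
  rw [h1]
  unfold cls
  rw [map_prod]
  apply prod_sub_prod_mem
  intro T hT
  rw [mem_filter] at hT
  exact RelB_Phi hL hL' he h2 hT.2

theorem Num_relabel (hL : IsBlocks L) (hL' : IsBlocks L') (h2 : 2 ≤ L.card)
    (hc : L.card = L'.card)
    (ho : (L.filter (fun A => Odd A.card)).card = (L'.filter (fun A => Odd A.card)).card)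
    {D : MvPolynomial (Finset γ) ℚ →ₗ[ℚ] ℚ} {D' : MvPolynomial (Finset γ') ℚ →ₗ[ℚ] ℚ}
    (hD : IsDeg L 1 D) (hD' : IsDeg L' 1 D') (m k l : ℕ) :
    Num L D m k l = Num L' D' m k l := by
  obtain ⟨e, he⟩ := exists_blkEquiv hL hL' hc ho
  have hXU : relMap L e (X (U L)) = X (U L') := by
    rw [RelB_map_X_valid (valid_U hL h2), lft_U hL hL' he]
  have hE : IsDeg L 1 (D' ∘ₗ (relMap L e).toLinearMap) := by
    refine ⟨?_, ?_, ?_⟩
    · intro p hp
      exact hD'.kill _ (relMap_bI hL hL' he hp)
    · intro k p hp hk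
      have h3 : (relMap L e p).IsHomogeneous k := by
        have h4 := hp.aeval _ (RelB_X_hom L e)
        rwa [one_mul] at h4
      exact hD'.homog k _ h3 (by rw [← hc]; exact hk)
    · have h3 : relMap L e ((-X (U L)) ^ (L.card - 2)) = (-X (U L')) ^ (L'.card - 2) := by
        rw [map_pow, map_neg, hXU, hc]
      have h4 : (D' ∘ₗ (relMap L e).toLinearMap) ((-X (U L)) ^ (L.card - 2)) =
          D' (relMap L e ((-X (U L)) ^ (L.card - 2))) := rfl
      rw [h4, h3]
      exact hD'.norm
  have hDE : D = D' ∘ₗ (relMap L e).toLinearMap := by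
    have h3 := isDeg_unique hL h2 hD hE
    rwa [one_smul] at h3
  rw [← Num_congr hD' (relMap_cls hL hL' he h2) m k l]
  unfold Num
  rw [hDE]
  have h4 : ∀ p, (D' ∘ₗ (relMap L e).toLinearMap) p = D' (relMap L e p) := fun _ => rfl
  rw [h4, map_mul (relMap L e), map_mul (relMap L e), map_pow (relMap L e), map_neg (relMap L e), hXU]
  have h5 : ∀ j, relMap L e (homogeneousComponent j (cls L)) =
      homogeneousComponent j (relMap L e (cls L)) := by
    intro j
    exact (hc_aeval _ (RelB_X_hom L e) j (cls L)).symm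
  rw [h5, h5]

end Pool.Agent.LHC
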