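import Pool.Agent.LHC.Comm

/-!
Module LHC-SkelA: positivity and vanishing of iterated operators, and the elementary identities
of the forms `Bf`.

`pow_pos_iff`: induction on `k`; for `σ ⊆ Ioo 0 N`,
`(D_η^(k+1) W) σ = ∑_(s ∉ σ) dev σ η s * (D_η^k W)(insert s σ)` with positive coefficients and
nonnegative terms (write `D^(k+1) = D * D^k`, `pow_succ'`).
`van`: if all `W τ` with `τ ⊇ σ`, `|τ| = |σ| + k` vanish, then every product of `k` operators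
applied to `W` vanishes at `σ`; first prove: `van W (k+1) σ → van (D_f W) k σ`.
The identities: `Bf m σ a (0, Pi.single s 1) = ((D_η)^m * TT a) W (insert s σ)`, by commutativity
(`Dop_TT_comm`, `Dop_comm`) and `Dop_single`.
-/

open Finset

namespace Pool.Agent.LHC

variable {N : ℕ} {σ : Finset ℕ} {s : ℕ} {W : Finset ℕ → ℝ} {η : ℕ → ℝ}

private theorem SkelA_card {τ : Finset ℕ} {t : ℕ} (ht : t ∈ Ioo 0 N \ τ) :
    (insert t τ).card = τ.card + 1 := card_insert_of_notMem (mem_sdiff.1 ht).2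

private theorem SkelA_sub {τ : Finset ℕ} {t : ℕ} (hτ : τ ⊆ Ioo 0 N) (ht : t ∈ Ioo 0 N \ τ) :
    insert t τ ⊆ Ioo 0 N := insert_subset (mem_sdiff.1 ht).1 hτ

private theorem SkelA_succ (hσ : σ ⊆ Ioo 0 N) (f : ℕ → ℝ) (Φ : Finset ℕ → ℝ) :
    Dop N f Φ σ = ∑ s ∈ Ioo 0 N \ σ, dev N σ f s * Φ (insert s σ) := by
  rw [Dop_apply, if_pos hσ]

theorem pow_nonneg' (hW : ∀ σ, σ ⊆ Ioo 0 N → 0 ≤ W σ)
    (hη : ∀ σ, σ ⊆ Ioo 0 N → ∀ s ∈ Ioo 0 N \ σ, 0 < dev N σ η s)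
    (hσ : σ ⊆ Ioo 0 N) (k : ℕ) : 0 ≤ ((Dop N η) ^ k) W σ := by
  induction k generalizing σ with
  | zero =>
    rw [pow_zero]
    exact hW σ hσ
  | succ k ih =>
    rw [pow_succ', Module.End.mul_apply, SkelA_succ hσ]
    exact sum_nonneg fun s hs => mul_nonneg (hη σ hσ s hs).le (ih (SkelA_sub hσ hs))

theorem pow_pos_iff (hW : ∀ σ, σ ⊆ Ioo 0 N → 0 ≤ W σ)
    (hη : ∀ σ, σ ⊆ Ioo 0 N → ∀ s ∈ Ioo 0 N \ σ, 0 < dev N σ η s)
    (hσ : σ ⊆ Ioo 0 N) (k : ℕ) :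
    0 < ((Dop N η) ^ k) W σ ↔
      ∃ τ, τ ⊆ Ioo 0 N ∧ σ ⊆ τ ∧ τ.card = σ.card + k ∧ 0 < W τ := by
  induction k generalizing σ with
  | zero =>
    rw [pow_zero]
    constructor
    · intro h
      exact ⟨σ, hσ, Subset.rfl, rfl, h⟩
    · rintro ⟨τ, -, h2, h3, h4⟩
      have h5 : σ = τ := eq_of_subset_of_card_le h2 (by omega)
      rw [h5]
      exact h4
  | succ k ih =>
    rw [pow_succ', Module.End.mul_apply, SkelA_succ hσ]
    rw [sum_pos_iff_of_nonneg fun s hs =>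
      mul_nonneg (hη σ hσ s hs).le (pow_nonneg' hW hη (SkelA_sub hσ hs) k)]
    constructor
    · rintro ⟨s, hs, h1⟩
      have h2 := (pos_iff_pos_of_mul_pos h1).1 (hη σ hσ s hs)
      obtain ⟨τ, h3, h4, h5, h6⟩ := (ih (SkelA_sub hσ hs)).1 h2
      refine ⟨τ, h3, (subset_insert s σ).trans h4, ?_, h6⟩
      rw [h5, SkelA_card hs]
      omega
    · rintro ⟨τ, h3, h4, h5, h6⟩
      obtain ⟨s, hs⟩ : (τ \ σ).Nonempty := by
        rw [← card_pos, card_sdiff_of_subset h4]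
        omega
      rw [mem_sdiff] at hs
      have hs' : s ∈ Ioo 0 N \ σ := mem_sdiff.2 ⟨h3 hs.1, hs.2⟩
      refine ⟨s, hs', mul_pos (hη σ hσ s hs') ((ih (SkelA_sub hσ hs')).2 ?_)⟩
      refine ⟨τ, h3, insert_subset hs.1 h4, ?_, h6⟩
      rw [h5, SkelA_card hs']
      omega

/-- `Φ` vanishes at the sets above `σ` with `k` more elements -/
private def SkelA_van (N : ℕ) (Φ : Finset ℕ → ℝ) (k : ℕ) (σ : Finset ℕ) : Prop :=
  ∀ τ, τ ⊆ Ioo 0 N → σ ⊆ τ → τ.card = σ.card + k → Φ τ = 0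

private theorem SkelA_van_Dop {Φ : Finset ℕ → ℝ} {k : ℕ} (f : ℕ → ℝ)
    (h : SkelA_van N Φ (k + 1) σ) : SkelA_van N (Dop N f Φ) k σ := by
  intro τ h1 h2 h3
  rw [SkelA_succ h1]
  refine sum_eq_zero fun s hs => ?_
  rw [h (insert s τ) (SkelA_sub h1 hs) (h2.trans (subset_insert s τ)) (by
    rw [SkelA_card hs, h3]
    omega), mul_zero]

private theorem SkelA_van_TT {Φ : Finset ℕ → ℝ} {k : ℕ} (a : ℝ × (ℕ → ℝ))
    (h0 : SkelA_van N Φ k σ) (h : SkelA_van N Φ (k + 1) σ) : SkelA_van N (TT N a Φ) k σ := by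
  intro τ h1 h2 h3
  rw [TT_apply, h0 τ h1 h2 h3, SkelA_van_Dop a.2 h τ h1 h2 h3, mul_zero, add_zero]

private theorem SkelA_van_pow {Φ : Finset ℕ → ℝ} (f : ℕ → ℝ) (m : ℕ) {j : ℕ}
    (h : SkelA_van N Φ (j + m) σ) : SkelA_van N (((Dop N f) ^ m) Φ) j σ := by
  induction m generalizing j with
  | zero =>
    rw [pow_zero]
    exact h
  | succ m ih =>
    rw [pow_succ', Module.End.mul_apply]
    apply SkelA_van_Dop
    apply ih
    rw [show j + 1 + m = j + (m + 1) by omega]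
    exact h

/-- Vanishing of the whole form. -/
theorem Bf_eq_zero (hσ : σ ⊆ Ioo 0 N) (m : ℕ)
    (h0 : ∀ k, m ≤ k → k ≤ m + 2 → ∀ τ, τ ⊆ Ioo 0 N → σ ⊆ τ → τ.card = σ.card + k → W τ = 0)
    (a b : ℝ × (ℕ → ℝ)) : Bf N η W m σ a b = 0 := by
  have hW0 : SkelA_van N W m σ := h0 m le_rfl (by omega)
  have hW1 : SkelA_van N W (m + 1) σ := h0 (m + 1) (by omega) (by omega)
  have hW2 : SkelA_van N W (m + 1 + 1) σ := h0 (m + 2) (by omega) le_rfl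
  have h1 : SkelA_van N (TT N a (TT N b W)) m σ :=
    SkelA_van_TT a (SkelA_van_TT b hW0 hW1) (SkelA_van_TT b hW1 hW2)
  have h2 : SkelA_van N (((Dop N η) ^ m) (TT N a (TT N b W))) 0 σ := by
    apply SkelA_van_pow
    rw [Nat.zero_add]
    exact h1
  exact h2 σ hσ Subset.rfl rfl

theorem Bf_symm (m : ℕ) (a b : ℝ × (ℕ → ℝ)) : Bf N η W m σ a b = Bf N η W m σ b a := by
  unfold Bf
  rw [(TT_comm N a b).eq]

theorem Bf_add (m : ℕ) (a b c : ℝ × (ℕ → ℝ)) :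
    Bf N η W m σ (a + b) c = Bf N η W m σ a c + Bf N η W m σ b c := by
  unfold Bf
  rw [map_add, add_mul, mul_add, LinearMap.add_apply, Pi.add_apply]

theorem Bf_smul (m : ℕ) (r : ℝ) (a b : ℝ × (ℕ → ℝ)) :
    Bf N η W m σ (r • a) b = r * Bf N η W m σ a b := by
  unfold Bf
  rw [map_smul, smul_mul_assoc, mul_smul_comm, LinearMap.smul_apply, Pi.smul_apply, smul_eq_mul]

/-- Pairing with a point. -/
theorem Bf_single (hσ : σ ⊆ Ioo 0 N) (hs : s ∈ Ioo 0 N \ σ) (m : ℕ) (a : ℝ × (ℕ → ℝ)) :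
    Bf N η W m σ a (0, Pi.single s 1) = ((Dop N η) ^ m * TT N a) W (insert s σ) := by
  have h1 : Commute (Dop N (Pi.single s 1)) ((Dop N η) ^ m * TT N a) :=
    ((Dop_comm N _ _).pow_right m).mul_right (Dop_TT_comm N _ a)
  unfold Bf
  rw [TT_zero_left, ← mul_assoc, ← h1.eq, Module.End.mul_apply, Dop_single hσ hs]

theorem Bf_single_succ (hσ : σ ⊆ Ioo 0 N) (hs : s ∈ Ioo 0 N \ σ) (m : ℕ) (a : ℝ × (ℕ → ℝ)) :
    Bf N η W (m + 1) σ a (0, Pi.single s 1) = Bf N η W m (insert s σ) a (0, η) := by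
  rw [Bf_single hσ hs]
  unfold Bf
  rw [TT_zero_left, ← (Dop_TT_comm N η a).eq, ← mul_assoc, pow_succ]

/-- Expansion of the pairing with `η`. -/
theorem Bf_eta (hσ : σ ⊆ Ioo 0 N) (m : ℕ) (a : ℝ × (ℕ → ℝ)) :
    Bf N η W m σ a (0, η) =
      ∑ s ∈ Ioo 0 N \ σ, dev N σ η s * Bf N η W m σ a (0, Pi.single s 1) := by
  have h1 : Commute (Dop N η) ((Dop N η) ^ m * TT N a) :=
    ((Dop_comm N _ _).pow_right m).mul_right (Dop_TT_comm N _ a)
  have h2 : Bf N η W m σ a (0, η) = (Dop N η) (((Dop N η) ^ m * TT N a) W) σ := by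
    unfold Bf
    rw [TT_zero_left, ← mul_assoc, ← h1.eq, Module.End.mul_apply]
  rw [h2, SkelA_succ hσ]
  refine sum_congr rfl fun s hs => ?_
  rw [Bf_single hσ hs]

theorem Bf_single_single {t : ℕ} (hσ : σ ⊆ Ioo 0 N) (hs : s ∈ Ioo 0 N \ σ)
    (ht : t ∈ Ioo 0 N \ σ) (hst : s ≠ t) (m : ℕ) :
    Bf N η W m σ (0, Pi.single s 1) (0, Pi.single t 1) =
      ((Dop N η) ^ m) W (insert s (insert t σ)) := by
  have hs' : s ∈ Ioo 0 N \ insert t σ := by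
    rw [mem_sdiff] at hs ⊢
    refine ⟨hs.1, fun h => ?_⟩
    rcases mem_insert.1 h with h | h
    · exact hst h
    · exact hs.2 h
  rw [Bf_single hσ ht, TT_zero_left, ← ((Dop_comm N (Pi.single s 1) η).pow_right m).eq,
    Module.End.mul_apply, Dop_single (SkelA_sub hσ ht) hs']

theorem Bf_eta_eta (m : ℕ) : Bf N η W m σ (0, η) (0, η) = ((Dop N η) ^ (m + 2)) W σ := by
  unfold Bf
  rw [TT_zero_left, ← pow_two, ← pow_add]

/-- Expansion of the form. -/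
theorem Bf_succ (hσ : σ ⊆ Ioo 0 N) (m : ℕ) (a b : ℝ × (ℕ → ℝ)) :
    Bf N η W (m + 1) σ a b =
      ∑ s ∈ Ioo 0 N \ σ, dev N σ η s * Bf N η W m (insert s σ) a b := by
  unfold Bf
  rw [pow_succ', mul_assoc, Module.End.mul_apply, SkelA_succ hσ]

end Pool.Agent.LHC
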