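import Pool.Agent.LHC.Defs

/-!
Module LHC-Zeta: closed form of the tangent coefficients `theta`.

`theta_rec` is the definition of `theta` (reindex `Fin (n+1)` by `k ↦ k+1`).

`theta_zeta`: put `b h = 2 (4^h - 1) / pi^(2h) * zeta(2h)`.  It is enough to show `b 1 = 1`
(zeta(2) = pi^2/6) and `(2h-1) b h = sum b k b (h-k)` for `h ≥ 2` and to use strong induction.
By `hasSum_zeta_nat`, `b h = (-1)^(h+1) (16^h - 4^h) B_(2h) / (2h)!`, `B = bernoulli`.
Power series over the rationals: `E = exp(2X)` (`PowerSeries.exp` rescaled by 2),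
`G = (E-1) * (E+1)⁻¹` (constant coefficient of `E+1` is 2).  From `G (E+1) = E-1` and `E' = 2E`:
`G' (E+1)^2 = 4E = (E+1)^2 - (E-1)^2`, so `G' = 1 - G^2`.  With
`bernoulliPowerSeries ℚ * (exp - 1) = X` rescaled by 2 and by 4:
`X G = X - rescale 2 B + rescale 4 B` (multiply by `E^2 - 1 = (E-1)(E+1)`, not a zero divisor).
Hence `coeff (2h-1) G = (16^h - 4^h) B_(2h)/(2h)!` for `h ≥ 1`, and `coeff (2j) G = 0`
(odd Bernoulli numbers vanish), and the coefficient of `X^(2h-2)` in `G' = 1 - G^2` gives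
`(2h-1) g_h = - sum g_k g_(h-k)` for `g_h = coeff (2h-1) G`, that is the recursion for
`b h = (-1)^(h+1) g_h`.
-/

open Finset

namespace Pool.Agent.LHC

theorem theta_rec (h : ℕ) (hh : 2 ≤ h) :
    (2 * (h : ℝ) - 1) * theta h = ∑ k ∈ Ioo 0 h, theta k * theta (h - k) := by
  obtain ⟨n, rfl⟩ : ∃ n, h = n + 2 := ⟨h - 2, by omega⟩
  have hne : (2 * (n + 2 : ℝ) - 1) ≠ 0 := by
    have : (0 : ℝ) ≤ n := Nat.cast_nonneg n
    linarith
  rw [theta]
  push_cast
  rw [mul_div_cancel₀ _ hne, ← Finset.sum_range (fun k => theta (k + 1) * theta (n + 1 - k))]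
  refine Finset.sum_nbij' (fun k => k + 1) (fun k => k - 1) ?_ ?_ ?_ ?_ ?_
  · intro k hk
    simp only [Finset.mem_range, Finset.mem_Ioo] at hk ⊢
    omega
  · intro k hk
    simp only [Finset.mem_range, Finset.mem_Ioo] at hk ⊢
    omega
  · intro k _
    simp
  · intro k hk
    simp only [Finset.mem_Ioo] at hk
    omega
  · intro k hk
    simp only [Finset.mem_range] at hk
    have e : n + 2 - (k + 1) = n + 1 - k := by omega
    rw [e]

open PowerSeries in
private theorem Zeta_series : ∃ G : ℚ⟦X⟧, PowerSeries.derivative ℚ G = 1 - G ^ 2 ∧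
    ∀ n, PowerSeries.coeff n G = (if n = 0 then 1 else 0) +
      (4 ^ (n + 1) - 2 ^ (n + 1)) * (bernoulli (n + 1) / (n + 1).factorial) := by
  set B : ℚ⟦X⟧ := bernoulliPowerSeries ℚ with hB
  set E : ℚ⟦X⟧ := PowerSeries.rescale (2 : ℚ) (PowerSeries.exp ℚ) with hE
  have hE4 : PowerSeries.rescale (4 : ℚ) (PowerSeries.exp ℚ) = E ^ 2 := by
    have h1 := PowerSeries.exp_pow_eq_rescale_exp (A := ℚ) 2
    have h2 : PowerSeries.rescale (2 : ℚ) (PowerSeries.exp ℚ ^ 2) =
        PowerSeries.rescale (2 : ℚ) (PowerSeries.rescale (2 : ℚ) (PowerSeries.exp ℚ)) := by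
      rw [h1]
      norm_num
    rw [map_pow, ← hE] at h2
    rw [h2, hE, PowerSeries.rescale_rescale]
    norm_num
  have hB1 : B * (PowerSeries.exp ℚ - 1) = PowerSeries.X := bernoulliPowerSeries_mul_exp_sub_one ℚ
  have hB2 : PowerSeries.rescale (2 : ℚ) B * (E - 1) = PowerSeries.C 2 * PowerSeries.X := by
    have h1 := congrArg (PowerSeries.rescale (2 : ℚ)) hB1
    rw [map_mul, map_sub, map_one, PowerSeries.rescale_X] at h1
    exact h1
  have hB4 : PowerSeries.rescale (4 : ℚ) B * (E ^ 2 - 1) = PowerSeries.C 4 * PowerSeries.X := by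
    have h1 := congrArg (PowerSeries.rescale (4 : ℚ)) hB1
    rw [map_mul, map_sub, map_one, PowerSeries.rescale_X, hE4] at h1
    exact h1
  have hC2 : (PowerSeries.C (2 : ℚ) : ℚ⟦X⟧) = 2 := by norm_num [map_ofNat]
  have hC4 : (PowerSeries.C (4 : ℚ) : ℚ⟦X⟧) = 4 := by norm_num [map_ofNat]
  rw [hC2] at hB2
  rw [hC4] at hB4
  set Gt : ℚ⟦X⟧ := PowerSeries.X - PowerSeries.rescale (2 : ℚ) B + PowerSeries.rescale (4 : ℚ) B
    with hGt
  have hcE : PowerSeries.constantCoeff E = 1 := by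
    rw [← PowerSeries.coeff_zero_eq_constantCoeff_apply, hE, PowerSeries.coeff_rescale,
      PowerSeries.coeff_exp]
    simp
  have hE1 : E - 1 ≠ 0 := by
    intro h0
    have h1 : PowerSeries.coeff 1 (E - 1) = 0 := by rw [h0]; simp
    rw [hE] at h1
    simp [PowerSeries.coeff_rescale, PowerSeries.coeff_exp, PowerSeries.coeff_one] at h1
  have hEp : E + 1 ≠ 0 := by
    intro h0
    have h1 : PowerSeries.constantCoeff (E + 1) = 0 := by rw [h0]; simp
    rw [map_add, hcE, map_one] at h1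
    norm_num at h1
  have hGtE : Gt * (E + 1) = PowerSeries.X * (E - 1) := by
    apply mul_right_cancel₀ hE1
    rw [hGt]
    linear_combination (-(E + 1)) * hB2 + hB4
  have hXG : PowerSeries.X ∣ Gt := by
    rw [PowerSeries.X_dvd_iff, ← PowerSeries.coeff_zero_eq_constantCoeff_apply, hGt, map_add,
      map_sub, PowerSeries.coeff_rescale, PowerSeries.coeff_rescale, PowerSeries.coeff_zero_X]
    ring
  obtain ⟨G, hG⟩ := hXG
  have hGE : G * (E + 1) = E - 1 := by
    have h1 : PowerSeries.X * (G * (E + 1)) = PowerSeries.X * (E - 1) := by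
      rw [← hGtE, hG, mul_assoc]
    exact mul_left_cancel₀ PowerSeries.X_ne_zero h1
  have hDE : PowerSeries.derivative ℚ E = 2 * E := by
    ext n
    have e1 : (2 : ℚ⟦X⟧) * E = PowerSeries.C 2 * E := by rw [hC2]
    rw [e1, PowerSeries.coeff_C_mul, PowerSeries.coeff_derivative, hE, PowerSeries.coeff_rescale,
      PowerSeries.coeff_rescale, PowerSeries.coeff_exp, PowerSeries.coeff_exp, Nat.factorial_succ]
    have hn : ((n : ℚ) + 1) ≠ 0 := by positivity
    have hf : (n.factorial : ℚ) ≠ 0 := by positivity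
    simp only [Algebra.algebraMap_self, RingHom.id_apply]
    push_cast
    field_simp
    ring
  refine ⟨G, ?_, ?_⟩
  · have h1 := congrArg (PowerSeries.derivative ℚ) hGE
    rw [Derivation.leibniz, map_add, map_sub, hDE] at h1
    have h2 : PowerSeries.derivative ℚ (1 : ℚ⟦X⟧) = 0 := Derivation.map_one_eq_zero _
    rw [h2, add_zero, sub_zero, smul_eq_mul, smul_eq_mul] at h1
    apply mul_right_cancel₀ (pow_ne_zero 2 hEp)
    linear_combination (E + 1) * h1 + (G * (E + 1) + (E - 1)) * hGE - 2 * E * hGE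
  · intro n
    have h1 : PowerSeries.coeff (n + 1) Gt = PowerSeries.coeff n G := by
      rw [hG, PowerSeries.coeff_succ_X_mul]
    rw [← h1, hGt, map_add, map_sub, PowerSeries.coeff_rescale, PowerSeries.coeff_rescale,
      PowerSeries.coeff_X, hB, bernoulliPowerSeries, PowerSeries.coeff_mk]
    simp only [Algebra.algebraMap_self, RingHom.id_apply, Nat.add_eq_right]
    ring

private noncomputable def Zeta_g (h : ℕ) : ℚ :=
  (16 ^ h - 4 ^ h) * (bernoulli (2 * h) / (2 * h).factorial)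

private theorem Zeta_rec (h : ℕ) (hh : 2 ≤ h) :
    (2 * (h : ℚ) - 1) * Zeta_g h = -∑ k ∈ Ioo 0 h, Zeta_g k * Zeta_g (h - k) := by
  obtain ⟨G, hD, hco⟩ := Zeta_series
  have hodd : ∀ k, 1 ≤ k → PowerSeries.coeff (2 * k - 1) G = Zeta_g k := by
    intro k hk
    rw [hco]
    have e1 : 2 * k - 1 + 1 = 2 * k := by omega
    have e2 : 2 * k - 1 ≠ 0 := by omega
    rw [e1, if_neg e2, zero_add, Zeta_g]
    have e3 : (4 : ℚ) ^ (2 * k) = 16 ^ k := by
      rw [pow_mul]; norm_num
    have e4 : (2 : ℚ) ^ (2 * k) = 4 ^ k := by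
      rw [pow_mul]; norm_num
    rw [e3, e4]
  have heven : ∀ j, PowerSeries.coeff (2 * j) G = 0 := by
    intro j
    rw [hco]
    rcases Nat.eq_zero_or_pos j with hj | hj
    · subst hj
      simp [bernoulli_one]
      norm_num
    · rw [bernoulli_eq_zero_of_odd ⟨j, rfl⟩ (by omega), if_neg (by omega)]
      simp
  have h1 := congrArg (PowerSeries.coeff (2 * h - 2)) hD
  rw [PowerSeries.coeff_derivative, map_sub, PowerSeries.coeff_one, if_neg (by omega), zero_sub,
    sq, PowerSeries.coeff_mul] at h1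
  have e1 : 2 * h - 2 + 1 = 2 * h - 1 := by omega
  have e2 : (((2 * h - 2 : ℕ) : ℚ) + 1) = 2 * (h : ℚ) - 1 := by
    rw [Nat.cast_sub (by omega)]
    push_cast
    ring
  rw [e1, e2, hodd h (by omega)] at h1
  rw [mul_comm, h1]
  congr 1
  symm
  refine Finset.sum_of_injOn (fun k => (2 * k - 1, 2 * (h - k) - 1)) ?_ ?_ ?_ ?_
  · intro a ha b hb hab
    simp only [Finset.coe_Ioo, Set.mem_Ioo] at ha hb
    simp only [Prod.mk.injEq] at hab
    omega
  · intro a ha
    simp only [Finset.coe_Ioo, Set.mem_Ioo] at ha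
    refine Finset.mem_coe.2 (Finset.HasAntidiagonal.mem_antidiagonal.2 ?_)
    show (2 * a - 1) + (2 * (h - a) - 1) = 2 * h - 2
    omega
  · rintro ⟨i, j⟩ hij hne
    rw [Finset.HasAntidiagonal.mem_antidiagonal] at hij
    simp only at hij
    rcases Nat.even_or_odd i with hi | hi
    · obtain ⟨a, ha⟩ := hi
      have : i = 2 * a := by omega
      rw [this, heven, zero_mul]
    · exfalso
      apply hne
      obtain ⟨a, ha⟩ := hi
      refine ⟨a + 1, ?_, ?_⟩
      · simp only [Finset.coe_Ioo, Set.mem_Ioo]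
        omega
      · simp only [Prod.mk.injEq]
        omega
  · intro k hk
    simp only [Finset.mem_Ioo] at hk
    rw [hodd k (by omega), hodd (h - k) (by omega)]

private theorem Zeta_main (h : ℕ) (hh : 1 ≤ h) :
    theta h = (-1) ^ (h + 1) * (Zeta_g h : ℝ) := by
  induction h using Nat.strong_induction_on with
  | _ h ih =>
    rcases Nat.lt_or_ge h 2 with h2 | h2
    · have h1 : h = 1 := by omega
      subst h1
      rw [Zeta_g, theta]
      norm_num [bernoulli_two, Nat.factorial]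
    · have hr := theta_rec h h2
      have hg := Zeta_rec h h2
      have hg' : (2 * (h : ℝ) - 1) * (Zeta_g h : ℝ) =
          -∑ k ∈ Ioo 0 h, (Zeta_g k : ℝ) * (Zeta_g (h - k) : ℝ) := by
        exact_mod_cast hg
      have hne : (2 * (h : ℝ) - 1) ≠ 0 := by
        have : (2 : ℝ) ≤ h := by exact_mod_cast h2
        linarith
      apply mul_left_cancel₀ hne
      rw [hr]
      have e1 : ∑ k ∈ Ioo 0 h, theta k * theta (h - k) =
          ∑ k ∈ Ioo 0 h, (-1) ^ h * ((Zeta_g k : ℝ) * (Zeta_g (h - k) : ℝ)) := by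
        refine Finset.sum_congr rfl fun k hk => ?_
        simp only [Finset.mem_Ioo] at hk
        rw [ih k hk.2 (by omega), ih (h - k) (by omega) (by omega)]
        have e2 : ((-1 : ℝ)) ^ h = (-1) ^ (k + 1) * (-1) ^ (h - k + 1) := by
          rw [← pow_add]
          have e3 : k + 1 + (h - k + 1) = h + 2 := by omega
          rw [e3, pow_add]
          norm_num
        rw [e2]
        ring
      rw [e1, ← Finset.mul_sum]
      have e4 : (2 * (h : ℝ) - 1) * ((-1) ^ (h + 1) * (Zeta_g h : ℝ)) =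
          (-1) ^ (h + 1) * ((2 * (h : ℝ) - 1) * (Zeta_g h : ℝ)) := by ring
      rw [e4, hg', pow_succ]
      ring

theorem theta_zeta (h : ℕ) (hh : 1 ≤ h) :
    theta h = 2 * (4 ^ h - 1) / Real.pi ^ (2 * h) * ∑' n : ℕ, 1 / (n : ℝ) ^ (2 * h) := by
  rw [(hasSum_zeta_nat (k := h) (by omega)).tsum_eq, Zeta_main h hh, Zeta_g]
  have hpi : Real.pi ^ (2 * h) ≠ 0 := pow_ne_zero _ Real.pi_ne_zero
  have hf : ((2 * h).factorial : ℝ) ≠ 0 := by positivity
  have e1 : (2 : ℝ) * 2 ^ (2 * h - 1) = 4 ^ h := by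
    rw [← pow_succ', show 2 * h - 1 + 1 = 2 * h by omega, pow_mul]
    norm_num
  have e2 : (16 : ℝ) ^ h = 4 ^ h * 4 ^ h := by
    rw [← mul_pow]; norm_num
  push_cast
  rw [e2]
  field_simp
  rw [← e1]
  ring

end Pool.Agent.LHC
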